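import Pool.Agent.KM.AVia

/-!
# Project KM (MP_e40716_gt), block A: Artin induction for `K_{-1}(ℤ[H])`, `H` a finite group (architect helper54)

THEOREM. `H` a finite group, `x ∈ K_{-1}(ℤ[H])`. Some multiple `n x`, `n > 0`, is a sum of elements induced from cyclic subgroups of `H`.

METHOD (Swan). A representation `ρ` of `H` by integral matrices acts on `K_{-1}(ℤ[H])` by `Op ρ` (tensor product with the lattice of `ρ`). If `ρ` and `ρ'` have the same character then ` (Op ρ - Op ρ')^2 = 0`; `Op` of the permutation representation on `H/C` has its values in the image of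
the induction from `C`; a positive multiple of the trivial character is a combination of the permutation characters of the `H/C`, `C` cyclic (Artin).

Definitions in `Pool/Agent/KM/ADefs.lean` (`blow`, `Kn`, `lau`, `tw`, `Op`, `kron`, `Via`) and `Pool/Agent/KM/Defs.lean` (`cl`, `ngo`), lemmas on `Via` (uniqueness `Via.unique`, `Via.mul`, `Via.div`, `Via.const`, `Via.kron_left`, `Via.kron_right`, `Via.exists_gcd`, `Via.exists_lcm`) in `Pool/Agent/KM/AVia.lean`.

Every `StA_X` is the statement of a module: `theorem A_X_thm (h : StA_Y) .. : StA_X` in `Pool/Agent/KM/A_X.lean`, namespace `Pool.Agent.KM`, importing `Pool.Agent.KM.StA`, with the hypotheses named after USES (or fewer). For the universes write `StA_X.{u}` everywhere.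
-/

set_option autoImplicit false

open Matrix Polynomial Pool.Agent.Lib25

namespace Pool.Agent.KM

universe u

/-! ## 1. Matrix valued ring homomorphisms -/

/-- (P1) Conjugate homomorphisms induce the same map (`P`, `Q` inverse to each other, possibly with different index types).

PROOF. (a) For `f ∈ R[T;T⁻¹]`: `lau θ' f * P' = P' * lau θ f`, `P' = P.map C` (`C : S → S[T;T⁻¹]`, `LaurentPolynomial.C`): by `AddMonoidAlgebra.induction_linear`, for `f = single n r` by `lau_single` (`single n s * C t = single n (s t)`, `C t * single n s = single n (t s)`). `P' * Q' = 1`, `Q' * P' = 1` for `Q' = Q.map C`. (b) By `KNegOne_hom_ext` and `Kn_ngo` it is enough to show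
`MvN (blow (lau θ') e) (blow (lau θ) e)` (then `ngo_congr`). Let `P₁ (i, a) (j, b) = if i = j then P' a b else 0`, `Q₁` similarly (kronecker with the identity matrix): `P₁ * Q₁ = 1`, `Q₁ * P₁ = 1`, `blow (lau θ') e * P₁ = P₁ * blow (lau θ) e` by (a) entrywise. Take `x = blow (lau θ') e * P₁`, `y = Q₁ * blow (lau θ') e`:
`x * y = blow (lau θ') e` (idempotent), `y * x = Q₁ * blow (lau θ') e * P₁ = blow (lau θ) e`. -/
def StA_P1 : Prop := ∀ (R S : Type u) [Ring R] [Ring S] (k k' : Type) [Fintype k] [DecidableEq k]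
  [Fintype k'] [DecidableEq k'] (θ : R →+* Matrix k k S) (θ' : R →+* Matrix k' k' S)
  (P : Matrix k' k S) (Q : Matrix k k' S), P * Q = 1 → Q * P = 1 → (∀ r, θ' r * P = P * θ r) →
  Kn θ' = Kn θ

/-- (P2) Block triangular homomorphisms.

PROOF. `KNegOne_hom_ext`, `Kn_ngo`; `e` idempotent over `R[T;T⁻¹]`. By linear induction (`lau_single`) `lau θ f` has the blocks `lau θ₁ f`, `lau θ₂ f` and `0` as in the hypotheses. Reindexing `n × (k ⊕ l)` by ` (n × k) ⊕ (n × l)` (`Equiv.prodSumDistrib`, `MvN.submatrix`) `blow (lau θ) e` becomes `E = fromBlocks A B 0 D`, `A = blow (lau θ₁) e`, `D = blow (lau θ₂) e`.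
`E * E = E`: `A B + B D = B`, so (multiply by `A` on the left) `A B D = 0`. With `b = A B - B D`, `u = fromBlocks 1 b 0 1`, `u' = fromBlocks 1 (-b) 0 1`: `u' * u = 1 = u * u'`, `E = u' * fromBlocks A 0 0 D * u` (`A b - b D = A B + B D = B`, as `A A B = A B`, `B D D = B D`). `MvN E (fromBlocks A 0 0 D)`: `x = u' * fromBlocks A 0 0 D`, `y = fromBlocks A 0 0 D * u`. `ngo_blocks`. -/
def StA_P2 : Prop := ∀ (R S : Type u) [Ring R] [Ring S] (k l : Type) [Fintype k] [DecidableEq k]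
  [Fintype l] [DecidableEq l] (θ : R →+* Matrix (k ⊕ l) (k ⊕ l) S) (θ₁ : R →+* Matrix k k S)
  (θ₂ : R →+* Matrix l l S), (∀ r a b, θ r (Sum.inl a) (Sum.inl b) = θ₁ r a b) →
  (∀ r a b, θ r (Sum.inr a) (Sum.inr b) = θ₂ r a b) →
  (∀ r a b, θ r (Sum.inr a) (Sum.inl b) = 0) → Kn θ = Kn θ₁ + Kn θ₂

/-- (P3) Composition.

PROOF. `lau ζ f a b = lau η (lau θ f a.1 b.1) a.2 b.2`: linear induction in `f`, `lau_single` three times. So `blow (lau η) (blow (lau θ) e)` is `blow (lau ζ) e` reindexed by `Equiv.prodAssoc`: `MvN.submatrix`, `ngo_congr`, `Kn_ngo`, `KNegOne_hom_ext`. -/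
def StA_P3 : Prop := ∀ (R S U : Type u) [Ring R] [Ring S] [Ring U] (k l : Type) [Fintype k]
  [DecidableEq k] [Fintype l] [DecidableEq l] (θ : R →+* Matrix k k S) (η : S →+* Matrix l l U)
  (ζ : R →+* Matrix (k × l) (k × l) U),
  (∀ r a b, ζ r a b = η (θ r a.1 b.1) a.2 b.2) → (Kn η).comp (Kn θ) = Kn ζ

/-- (P4) Ring homomorphisms; `1 × 1` matrices.

PROOF. (a) `lau (φ.mapMatrix.comp θ) f = (lau θ f).map (mapL φ)` by linear induction (`lau_single`, `mapL_single`), so `blow` of it at `e` is ` (blow (lau θ) e).map (mapL φ)`: `KNegOne_hom_ext`, `Kn_ngo`, `map_ngo`. (b) `lau θ f () () = f` (linear induction), so `blow (lau θ) e` is `e` reindexed by `Equiv.prodPUnit` or `Equiv.prodUnique`. -/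
def StA_P4 : Prop :=
  (∀ (R S U : Type u) [Ring R] [Ring S] [Ring U] (k : Type) [Fintype k] [DecidableEq k]
    (θ : R →+* Matrix k k S) (φ : S →+* U),
    (KNegOne.map φ).comp (Kn θ) = Kn (φ.mapMatrix.comp θ)) ∧
  ∀ (R : Type u) [Ring R] (θ : R →+* Matrix Unit Unit R), (∀ r, θ r () () = r) →
    ∀ x, Kn θ x = x

/-! ## 2. The operators `Op` -/

/-- (Q1) Isomorphic representations.

USES P1. PROOF. (P1) for `tw ρ'`, `tw ρ` and the images of `P`, `Q` under `Int.castRingHom (MonoidAlgebra ℤ H)`; `tw ρ' x * P' = P' * tw ρ x` by `MonoidAlgebra.induction_linear` and `tw_single` (integers are central). -/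
def StA_Q1 : Prop := ∀ (H : Type u) [Group H] (k k' : Type) [Fintype k] [DecidableEq k]
  [Fintype k'] [DecidableEq k'] (ρ : H →* Matrix k k ℤ) (ρ' : H →* Matrix k' k' ℤ)
  (P : Matrix k' k ℤ) (Q : Matrix k k' ℤ), P * Q = 1 → Q * P = 1 → (∀ h, ρ' h * P = P * ρ h) →
  Op ρ' = Op ρ

/-- (Q2) Block triangular representations.

USES P2. PROOF. (P2) for `tw ρ`, `tw ρ₁`, `tw ρ₂` (linear induction, `tw_single`). -/
def StA_Q2 : Prop := ∀ (H : Type u) [Group H] (k l : Type) [Fintype k] [DecidableEq k]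
  [Fintype l] [DecidableEq l] (ρ : H →* Matrix (k ⊕ l) (k ⊕ l) ℤ) (ρ₁ : H →* Matrix k k ℤ)
  (ρ₂ : H →* Matrix l l ℤ), (∀ h a b, ρ h (Sum.inl a) (Sum.inl b) = ρ₁ h a b) →
  (∀ h a b, ρ h (Sum.inr a) (Sum.inr b) = ρ₂ h a b) →
  (∀ h a b, ρ h (Sum.inr a) (Sum.inl b) = 0) → Op ρ = Op ρ₁ + Op ρ₂

/-- (Q3) Tensor products.

USES P3. PROOF. `Op ρ * Op σ = (Kn (tw ρ)).comp (Kn (tw σ))` (multiplication in `AddMonoid.End` is composition), (P3) with `θ = tw σ`, `η = tw ρ`, `ζ = tw (kron σ ρ)`; the hypothesis by linear induction and `tw_single`. -/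
def StA_Q3 : Prop := ∀ (H : Type u) [Group H] (k l : Type) [Fintype k] [DecidableEq k]
  [Fintype l] [DecidableEq l] (ρ : H →* Matrix k k ℤ) (σ : H →* Matrix l l ℤ),
  Op ρ * Op σ = Op (kron σ ρ)

/-- (Q5) The trivial representation.

USES P4. PROOF. (P4) (b) for `tw ρ`: `tw ρ x () () = x` by linear induction. -/
def StA_Q5 : Prop := ∀ (H : Type u) [Group H] (ρ : H →* Matrix Unit Unit ℤ), (∀ h, ρ h = 1) →
  Op ρ = 1

/-- (Q4) The permutation representation on `H/C`.

USES P1, P4. PROOF. `e : H ⧸ C ≃ Fin m`; `ρ(h) i j = if e.symm i = h • e.symm j then 1 else 0`; the trace is the number of the fixed points. `s x = Quotient.out x` (`x ∈ H ⧸ C`); `res : ℤ[H] →+* Matrix (Fin m) (Fin m) ℤ[C]`, `single h n ↦ (i, j) ↦ if e.symm i = h • e.symm j then single (s_i⁻¹ h s_j) n else 0`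
(`s_i⁻¹ h s_j ∈ C`; construct `H →* Matrix .. ℤ[C]` first: multiplicative since for given `i, j` only one middle index contributes, then `MonoidAlgebra.liftNCRingHom` with `Int.castRingHom`, as `tw` in `ADefs`). With `D = diagonal (fun i => single s_i 1)`, `D' = diagonal (fun i => single s_i⁻¹ 1)` over `ℤ[H]`: `tw ρ x * D = D * (ι.mapMatrix (res x))`,
`ι = MonoidAlgebra.mapDomainRingHom ℤ C.subtype` (linear induction; `single h n * single s_j 1 = single (h s_j) n = single s_i 1 * single (s_i⁻¹ h s_j) n`). (P1): `Kn (tw ρ) = Kn (ι.mapMatrix.comp res)`, (P4) (a): `Op ρ x = KNegOne.map ι (Kn res x)`. -/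
def StA_Q4 : Prop := ∀ (H : Type u) [Group H] [Finite H] (C : Subgroup H),
  ∃ (m : ℕ) (ρ : H →* Matrix (Fin m) (Fin m) ℤ),
    (∀ h, Matrix.trace (ρ h) = (Nat.card {x : H ⧸ C // h • x = x} : ℤ)) ∧
    ∀ x, ∃ y : KNegOne (MonoidAlgebra ℤ C),
      Op ρ x = KNegOne.map (MonoidAlgebra.mapDomainRingHom ℤ C.subtype) y

/-! ## 3. Lattices -/

/-- (MV) The sum and the intersection of two lattices (Mayer-Vietoris).

USES Q1, Q2. PROOF. `g = gcd(d₁, d₂)`, `m = lcm(d₁, d₂)` entrywise, `a = gcdA`, `b = gcdB`: `d₁ a + d₂ b = g`, `g m = d₁ d₂`. `τG`, `τL` from `Via.exists_gcd`, `Via.exists_lcm`. Write `D₁, D₂, G, L, A, B` for the diagonal matrices; `L/D₁ = D₂/G`, `L/D₂ = D₁/G` (`Nat.div`). Over `k ⊕ k`: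
`P = fromBlocks (D₂/G) A (-(D₁/G)) B`, `Q = fromBlocks B (-A) (D₁/G) (D₂/G)`: `P * Q = 1`, `Q * P = 1` (diagonal matrices commute, ` (d₁/g) a + (d₂/g) b = 1`). Let `σ(h) = fromBlocks (τ₁ h) 0 0 (τ₂ h)` and `ρ(h) = Q * σ(h) * P`: a homomorphism, of the form `fromBlocks (τL h) X 0 (τG h)`: check it after multiplication by nonzero integers:
`τ₁ (D₂/G) = (D₂/G) τL` (as `D₁ τ₁ (D₂/G) = τ D₁ (D₂/G) = τ L = L τL`), `τ₂ (D₁/G) = (D₁/G) τL`, so the first block column of `Q σ P` is ` (B (D₂/G) + A (D₁/G)) τL = τL` and ` (D₁/G) τ₁ (D₂/G) - (D₂/G) τ₂ (D₁/G) = 0`; the lower right block is `Y = (D₁/G) τ₁ A + (D₂/G) τ₂ B`, `G Y = D₁ τ₁ A + D₂ τ₂ B = τ (D₁ A + D₂ B) = τ G = G τG`.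
(Q2) for `σ` (block diagonal): `Op σ = Op τ₁ + Op τ₂`; (Q1) `Op σ = Op ρ` (`σ P = P ρ`); (Q2) for `ρ`: `Op ρ = Op τL + Op τG`. -/
def StA_MV : Prop := ∀ (H : Type u) [Group H] (k : Type) [Fintype k] [DecidableEq k]
  (τ τ₁ τ₂ : H →* Matrix k k ℤ) (d₁ d₂ : k → ℕ), Via τ d₁ τ₁ → Via τ d₂ τ₂ →
  ∃ τG τL : H →* Matrix k k ℤ, Via τ (fun i => Nat.gcd (d₁ i) (d₂ i)) τG ∧
    Via τ (fun i => Nat.lcm (d₁ i) (d₂ i)) τL ∧ Op τ₁ + Op τ₂ = Op τG + Op τL

/-- (SW) Swan's theorem for elementary pairs.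

USES MV, Q3. PROOF. `τ = kron σ ρ`, by (Q3) the claim is `Op (kron σ ρ) + Op (kron σ' ρ') = Op (kron σ ρ') + Op (kron σ' ρ)`. (MV) with `d₁ x = d x.2` (`Via.kron_right`, `τ₁ = kron σ ρ'`), `d₂ x = e x.1` (`Via.kron_left`, `τ₂ = kron σ' ρ`): `Op (kron σ ρ') + Op (kron σ' ρ) = Op τG + Op τL`, `τG` via `gcd(d, e)`, `τL` via `lcm(d, e)`.
If `p ≠ q`: `gcd = 1`, `lcm = d e`, so `τG = τ` (`Via.const`, `Via.unique`), `τL = kron σ' ρ'` (`Via.mul`, `Via.unique`; first `kron σ ρ → kron σ' ρ → kron σ' ρ'`).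
If `p = q`: (MV) with `d₁ = p` (constant, `Via.const`, `τ₁ = τ`) and `d₂ x = e x.1 * d x.2` (`τ₂ = kron σ' ρ'`): `Op τ + Op (kron σ' ρ') = Op τG' + Op τL'`; `gcd(p, e d) = lcm(d, e)` and `lcm(p, e d) = p gcd(d, e)` for `d, e ∈ {1, p}`, so `τG' = τL` and (`Via.const` then `Via.mul`) `τL' = τG` (`Via.unique`). -/
def StA_SW : Prop := ∀ (H : Type u) [Group H] (k l : Type) [Fintype k] [DecidableEq k]
  [Fintype l] [DecidableEq l] (ρ ρ' : H →* Matrix k k ℤ) (d : k → ℕ) (p : ℕ), p.Prime →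
  (∀ i, d i = 1 ∨ d i = p) → Via ρ d ρ' → ∀ (σ σ' : H →* Matrix l l ℤ) (e : l → ℕ) (q : ℕ),
  q.Prime → (∀ j, e j = 1 ∨ e j = q) → Via σ e σ' → (Op ρ - Op ρ') * (Op σ - Op σ') = 0

/-- the elementary differences -/
def ElD (H : Type u) [Group H] : Set (AddMonoid.End (KNegOne (MonoidAlgebra ℤ H))) :=
  {z | ∃ (m : ℕ) (ρ ρ' : H →* Matrix (Fin m) (Fin m) ℤ) (d : Fin m → ℕ) (p : ℕ), p.Prime ∧
    (∀ i, d i = 1 ∨ d i = p) ∧ Via ρ d ρ' ∧ z = Op ρ - Op ρ'}

/-- (NIL) Products of sums of elementary differences are `0`.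

USES SW. PROOF. `AddSubgroup.closure_induction` twice, (SW). -/
def StA_NIL : Prop := ∀ (H : Type u) [Group H], ∀ z ∈ AddSubgroup.closure (ElD H),
  ∀ w ∈ AddSubgroup.closure (ElD H), z * w = 0

/-- (SM) The Smith normal form of a square matrix with nonzero determinant.

PROOF. `N` = the range of `Matrix.toLin' P` (or `mulVecLin`) on `Fin m → ℤ`; `P` is injective, so `finrank N = m`; `Submodule.smithNormalFormOfRankEq` (or `Submodule.exists_smith_normal_form..`, `Module.Basis.SmithNormalForm`) gives a basis `b` of `ℤ^m` and `a : Fin m → ℤ` such that `a_i b_i` is a basis `b'` of `N`. The columns `P e_j` are also a basis of `N`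
(`LinearEquiv.ofInjective`). `U` = the matrix of `b` in the standard basis, `V` = the matrix of the change of basis: `P e_j = Σ V_ij (a_i b_i)`, both invertible (`Module.Basis.toMatrix`, `toMatrix_mul_toMatrix_flip`). `P = U diag(a) V`, `a_i ≠ 0`; replace `a_i` by `|a_i|` and multiply the row `i` of `V` (and the column `i` of `V'`) by the sign. -/
def StA_SM : Prop := ∀ (m : ℕ) (P : Matrix (Fin m) (Fin m) ℤ), P.det ≠ 0 →
  ∃ (U U' V V' : Matrix (Fin m) (Fin m) ℤ) (d : Fin m → ℕ), U * U' = 1 ∧ U' * U = 1 ∧ V * V' = 1 ∧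
    V' * V = 1 ∧ (∀ i, 0 < d i) ∧ P = U * Matrix.diagonal (fun i => (d i : ℤ)) * V

/-- (CHD) A chain of elementary steps, diagonal case.

PROOF. Induction on `∏ d_i` (or on `Σ d_i`). If all `d_i = 1`: `ρ = ρ'` (`Via.const`, `Via.unique`), difference `0`. Otherwise a prime `p` divides some `d_i`: `d' i = gcd(p, d i) ∈ {1, p}`, `Via.exists_gcd` for `Via.const ρ p` and `Via ρ d ρ'` gives `ρ₁` with `Via ρ d' ρ₁`; `d = d' * (d / d')`, `Via.div`: `Via ρ₁ (d / d') ρ'`, smaller product.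
`Op ρ - Op ρ' = (Op ρ - Op ρ₁) + (Op ρ₁ - Op ρ')`. -/
def StA_CHD : Prop := ∀ (H : Type u) [Group H] (m : ℕ) (ρ ρ' : H →* Matrix (Fin m) (Fin m) ℤ)
  (d : Fin m → ℕ), Via ρ d ρ' → Op ρ - Op ρ' ∈ AddSubgroup.closure (ElD H)

/-- (CH) The chain, general case.

USES SM, Q1, CHD. PROOF. `P = U D V` (SM). `σ(h) = U' ρ(h) U`, `σ'(h) = V ρ'(h) V'` are homomorphisms, `σ D = U' ρ U D V V' = U' ρ P V' = U' P ρ' V' = D V ρ' V' = D σ'`: `Via σ d σ'`. (Q1): `Op σ = Op ρ`, `Op σ' = Op ρ'`. (CHD). -/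
def StA_CH : Prop := ∀ (H : Type u) [Group H] (m : ℕ) (ρ ρ' : H →* Matrix (Fin m) (Fin m) ℤ)
  (P : Matrix (Fin m) (Fin m) ℤ), P.det ≠ 0 → (∀ h, ρ h * P = P * ρ' h) →
  Op ρ - Op ρ' ∈ AddSubgroup.closure (ElD H)

/-! ## 4. Characters -/

/-- (ISQ) Representations over `ℚ` with the same character are isomorphic.

PROOF. Choose an equivariant linear map `f : V → W` of maximal rank. `K = ker f`, `I = range f` are invariant; Maschke (averaging a projection; or `MonoidAlgebra.Submodule.exists_isCompl`) gives invariant complements `V = K ⊕ V₁`, `W = I ⊕ W₁`. `f : V₁ ≃ I` is equivariant, so (`trace` is additive, `LinearMap.trace_eq_sum_trace_restrict` or with the projections) `K` and `W₁` have the same character `χ`.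
`Representation.card_inv_mul_sum_char_mul_char_eq_finrank` for (`K`, `K`) and for (`K`, `W₁`): `finrank (IntertwiningMap K W₁) = finrank (IntertwiningMap K K)`, not `0` if `K ≠ 0` (identity). Then there is a nonzero equivariant `g : K → W₁` and `f + g ∘ pr_K` has a greater rank: contradiction. So `f` is injective, and `dim V = dim W` (characters at `1`), so `f` is bijective.
(Variants: induction on the dimension with irreducible subrepresentations; or write the averaging argument with matrices.) -/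
def StA_ISQ : Prop := ∀ (H : Type u) [Group H] [Finite H] (V W : Type) [AddCommGroup V]
  [AddCommGroup W] [Module ℚ V] [Module ℚ W] [FiniteDimensional ℚ V] [FiniteDimensional ℚ W]
  (ρ : Representation ℚ H V) (σ : Representation ℚ H W),
  (∀ h, LinearMap.trace ℚ V (ρ h) = LinearMap.trace ℚ W (σ h)) →
  ∃ f : V ≃ₗ[ℚ] W, ∀ h v, f (ρ h v) = σ h (f v)

/-- (IS) Integral representations with the same character.

USES ISQ. PROOF. (ISQ) for `V = W = (Fin m → ℚ)` and `h ↦ Matrix.toLin' ((ρ h).map Int.cast)` (a homomorphism; the trace of `toLin'` is the trace of the matrix, `Matrix.trace_toLin'_eq` or `LinearMap.trace_eq_matrix_trace`), with the roles such that the matrix `P₀` of the isomorphism satisfies `ρ(h) P₀ = P₀ ρ'(h)`, `det P₀ ≠ 0`; multiply by a common denominator of the entries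
(`IsLocalization.exist_integer_multiples_of_finset`, or the product of the denominators): `P = N P₀` integral, `det P = N^m det P₀ ≠ 0`. -/
def StA_IS : Prop := ∀ (H : Type u) [Group H] [Finite H] (m : ℕ)
  (ρ ρ' : H →* Matrix (Fin m) (Fin m) ℤ), (∀ h, Matrix.trace (ρ h) = Matrix.trace (ρ' h)) →
  ∃ P : Matrix (Fin m) (Fin m) ℤ, P.det ≠ 0 ∧ ∀ h, ρ h * P = P * ρ' h

/-- (ART) Artin's theorem for permutation characters.

PROOF. `F C h = #{y : H | ⟨y⁻¹ h y⟩ = C}`, `π C h = #{x ∈ H ⧸ C | h x = x}`. For a subgroup `C`: `|C| π C h = #{y | y⁻¹ h y ∈ C}` (`h (y C) = y C` iff `y⁻¹ h y ∈ C`; every coset has `|C|` elements) `= Σ_(D ≤ C cyclic) F D h` (`D = ⟨y⁻¹ h y⟩`). By strong induction on `|C|`, for a cyclic `C` the function `F C` is a combination with integral coefficients of the functions `π D`,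
`D ≤ C` cyclic. `Σ_(C cyclic) F C h = |H|`. So `n = |H|`. -/
def StA_ART : Prop := ∀ (H : Type u) [Group H] [Finite H],
  ∃ (S : Finset (Subgroup H)) (a : Subgroup H → ℤ) (n : ℕ), 0 < n ∧
    (∀ C ∈ S, IsCyclic C) ∧
    ∀ h : H, ∑ C ∈ S, a C * (Nat.card {x : H ⧸ C // h • x = x} : ℤ) = n

/-! ## 5. The theorem -/

/-- the elements induced from cyclic subgroups -/
def CycInd (H : Type u) [Group H] : Set (KNegOne (MonoidAlgebra ℤ H)) :=
  {z | ∃ C : Subgroup H, IsCyclic C ∧ ∃ y : KNegOne (MonoidAlgebra ℤ C),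
    z = KNegOne.map (MonoidAlgebra.mapDomainRingHom ℤ C.subtype) y}

/-- (DIF) The pairs (character, operator).

USES Q1, Q2, Q4, Q5, ART. PROOF. The set `Γ` of the pairs ` (χ, z)` of the form ` (χ_ρ - χ_ρ', Op ρ - Op ρ')`, `ρ, ρ'` integral representations on `Fin m`, `Fin m'`, is an additive subgroup of ` (H → ℤ) × End`: direct sums (`Matrix.fromBlocks`, reindexed by `finSumFinEquiv`; (Q1) with permutation matrices, (Q2)); negatives by exchanging `ρ` and `ρ'`; zero.
It contains ` (1, 1)` (trivial representation on `Fin 1`, (Q5) and (Q1); the zero representation on `Fin 0` has `Op = 0`, by (Q2) for `k = l` empty, `Op = Op + Op`) and ` (π_C, Op π_C)` (Q4). By (ART) ` (0, z)`, `z = Σ_C a_C Op π_C - n`, is in `Γ`. -/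
def StA_DIF : Prop := ∀ (H : Type u) [Group H] [Finite H], ∃ (n : ℕ)
  (w : AddMonoid.End (KNegOne (MonoidAlgebra ℤ H))) (m m' : ℕ)
  (ρ : H →* Matrix (Fin m) (Fin m) ℤ) (ρ' : H →* Matrix (Fin m') (Fin m') ℤ), 0 < n ∧
  (∀ x, w x ∈ AddSubgroup.closure (CycInd H)) ∧
  (∀ h, Matrix.trace (ρ h) = Matrix.trace (ρ' h)) ∧ w - (n : ℤ) • 1 = Op ρ - Op ρ'

/-- (FIN) The theorem.

USES DIF, IS, CH, NIL. PROOF. (DIF); the traces at `1` give `m = m'` (`subst`). (IS), (CH): `z = w - n` is in the closure of `ElD H`, (NIL): `z * z = 0`: `n^2 x = w ((2 n - w) x)`: in the closure of `CycInd H`. -/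
def StA_FIN : Prop := ∀ (H : Type u) [Group H] [Finite H] (x : KNegOne (MonoidAlgebra ℤ H)),
  ∃ n : ℕ, 0 < n ∧ n • x ∈ AddSubgroup.closure (CycInd H)

/-- (FIC) The form with the standard cyclic groups.

USES FIN. PROOF. `l (n x) = 0` as `l` vanishes on `CycInd H`: for `C` cyclic of order `N` there is an isomorphism `φ₀ : Multiplicative (ZMod N) ≃* C` (`zmodCyclicMulEquiv`, `mulEquivOfPrimeCardEq`-like; `IsCyclic` and `Nat.card`), `φ = C.subtype ∘ φ₀`; `y = KNegOne.map (φ₀) (KNegOne.map (φ₀⁻¹) y)` (functoriality of `KNegOne.map`: from `KNegOne_hom_ext`, `map_ngo`, `mapL` of a composition).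
`l (n x) = n l(x)`, `n > 0`: `l x = 0`. -/
def StA_FIC : Prop := ∀ (H : Type u) [Group H] [Finite H]
  (l : KNegOne (MonoidAlgebra ℤ H) →+ ℚ),
  (∀ (N : ℕ), 0 < N → ∀ φ : Multiplicative (ZMod N) →* H, Function.Injective φ →
    ∀ x, l (KNegOne.map (MonoidAlgebra.mapDomainRingHom ℤ φ) x) = 0) → l = 0

end Pool.Agent.KM
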