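import Pool.Agent.KM.St4

/-!
# KM_TCY: cyclic groups
-/

set_option autoImplicit false
set_option linter.unusedSectionVars false

open Matrix Polynomial Pool.Agent.Lib25

noncomputable section

namespace Pool.Agent.KM

namespace TCY

/-- For every divisor `d` of `N` there is an injective homomorphism `C_d → C_N`. -/
theorem exists_emb (N : ℕ) [NeZero N] (d : ℕ) :
    ∃ φ : Multiplicative (ZMod d) →* Multiplicative (ZMod N), d ∣ N → Function.Injective φ := by
  by_cases hd : d ∣ N
  · obtain ⟨k, hk⟩ := hd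
    have hN : N ≠ 0 := NeZero.ne N
    have hk0 : (k : ℤ) ≠ 0 := by
      rintro h
      apply hN
      rw [hk, Int.natCast_eq_zero.1 h, mul_zero]
    have h0 : (zmultiplesHom (ZMod N)) ((k : ℕ) : ZMod N) ((d : ℕ) : ℤ) = 0 := by
      rw [zmultiplesHom_apply, zsmul_eq_mul]
      have h1 : (((d : ℕ) : ℤ) : ZMod N) * ((k : ℕ) : ZMod N) = ((d * k : ℕ) : ZMod N) := by
        push_cast
        rfl
      rw [h1, ← hk, ZMod.natCast_self]
    refine ⟨AddMonoidHom.toMultiplicative (ZMod.lift d ⟨_, h0⟩), fun _ => ?_⟩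
    have h1 : Function.Injective (ZMod.lift d ⟨_, h0⟩) := by
      rw [ZMod.lift_injective]
      intro m hm
      change (zmultiplesHom (ZMod N)) ((k : ℕ) : ZMod N) m = 0 at hm
      rw [zmultiplesHom_apply, zsmul_eq_mul] at hm
      have h2 : ((m * k : ℤ) : ZMod N) = 0 := by
        push_cast
        exact hm
      rw [ZMod.intCast_zmod_eq_zero_iff_dvd, hk] at h2
      push_cast at h2
      rw [ZMod.intCast_zmod_eq_zero_iff_dvd]
      exact Int.dvd_of_mul_dvd_mul_right hk0 h2
    exact h1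
  · exact ⟨1, fun h => absurd h hd⟩

/-- The linear form `∑_p ∑_u g_p [u]`. -/
def form (d : ℕ) [NeZero d] : (∀ p : d.primeFactors, Quot (uR d p) → ℚ) →ₗ[ℚ] ℚ where
  toFun g := ∑ p : d.primeFactors, ∑ u : (ZMod d)ˣ, g p (Quot.mk _ u)
  map_add' g h := by
    simp only [Pi.add_apply, Finset.sum_add_distrib]
  map_smul' c g := by
    simp only [Pi.smul_apply, smul_eq_mul, Finset.mul_sum, RingHom.id_apply]

theorem finrank_form (d : ℕ) [NeZero d] :
    (∑ p ∈ d.primeFactors, nU d p) - 1 ≤ Module.finrank ℚ (LinearMap.ker (form d)) := by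
  have h1 := LinearMap.finrank_range_add_finrank_ker (form d)
  have h2 : Module.finrank ℚ (LinearMap.range (form d)) ≤ 1 := by
    have := Submodule.finrank_le (LinearMap.range (form d))
    rwa [Module.finrank_self] at this
  have h3 : Module.finrank ℚ (∀ p : d.primeFactors, Quot (uR d p) → ℚ) =
      ∑ p ∈ d.primeFactors, nU d p := by
    have : ∀ p : d.primeFactors, Fintype (Quot (uR d p)) := fun p => Fintype.ofFinite _
    rw [Module.finrank_pi_fintype]
    rw [← Finset.sum_coe_sort d.primeFactors (fun p => nU d p)]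
    refine Finset.sum_congr rfl fun p _ => ?_
    rw [Module.finrank_fintype_fun_eq_card]
    unfold nU
    rw [Nat.card_eq_fintype_card]
  omega

theorem pwr_gn (d : ℕ) [NeZero d] (u : (ZMod d)ˣ) :
    pwr d u (gn d) = Multiplicative.ofAdd (u : ZMod d) := by
  unfold pwr
  rw [powMonoidHom_apply, ← ofAdd_nsmul, nsmul_eq_mul, mul_one, ZMod.natCast_zmod_val]

theorem pwr_inj (d : ℕ) [NeZero d] (u : (ZMod d)ˣ) : Function.Injective (pwr d u) := by
  intro x y h
  unfold pwr at h
  rw [powMonoidHom_apply, powMonoidHom_apply] at h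
  have h1 : ((u : ZMod d).val • Multiplicative.toAdd x : ZMod d) =
      (u : ZMod d).val • Multiplicative.toAdd y := h
  rw [nsmul_eq_mul, nsmul_eq_mul, ZMod.natCast_zmod_val] at h1
  exact u.isUnit.mul_left_cancel h1

end TCY

open TCY

theorem t_TCY (hUB : S_UB) (hTLA : S_TLA) : S_TCY := by
  classical
  intro κ ω hω hdet N _ l hl
  choose φ hφ using exists_emb N
  have hne : ∀ d : {d // d ∈ N.divisors.erase 1}, NeZero (d : ℕ) := by
    intro d
    have h1 := (Finset.mem_erase.1 d.2).2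
    exact ⟨(Nat.pos_of_mem_divisors h1).ne'⟩
  have hgt : ∀ d : {d // d ∈ N.divisors.erase 1}, 1 < (d : ℕ) := by
    intro d
    have h1 := (Finset.mem_erase.1 d.2).1
    have h2 := (hne d).ne
    omega
  have hdv : ∀ d : {d // d ∈ N.divisors.erase 1}, (d : ℕ) ∣ N := fun d =>
    (Nat.mem_divisors.1 (Finset.mem_erase.1 d.2).2).1
  have hinj : ∀ (d : {d // d ∈ N.divisors.erase 1}) (u : (ZMod (d : ℕ))ˣ),
      Function.Injective ((φ d).comp (pwr d u)) := by
    intro d u x y hxy
    exact pwr_inj d u (hφ d (hdv d) hxy)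
  -- the linear map
  obtain ⟨Ψ, hΨ⟩ : ∃ Ψ : (KNegOne (MonoidAlgebra ℤ (Multiplicative (ZMod N))) →+ ℚ) →ₗ[ℚ]
      (∀ d : {d // d ∈ N.divisors.erase 1}, ∀ p : (d : ℕ).primeFactors, (ZMod d)ˣ → ℚ),
      ∀ F d p u, Ψ F d p u = F (Kg ((φ d).comp (pwr d u)) (κ d p)) :=
    ⟨{ toFun := fun F d p u => F (Kg ((φ d).comp (pwr d u)) (κ d p))
       map_add' := fun _ _ => rfl
       map_smul' := fun _ _ => rfl }, fun _ _ _ _ => rfl⟩
  -- the source
  obtain ⟨J, hJ⟩ : ∃ J : (∀ d : {d // d ∈ N.divisors.erase 1}, LinearMap.ker (form d)) →ₗ[ℚ]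
      (∀ d : {d // d ∈ N.divisors.erase 1}, ∀ p : (d : ℕ).primeFactors, (ZMod d)ˣ → ℚ),
      ∀ f d p u, J f d p u = ω d * (f d).1 p (Quot.mk _ u) :=
    ⟨{ toFun := fun f d p u => ω d * (f d).1 p (Quot.mk _ u)
       map_add' := fun f g => by
         funext d p u
         change ω d * ((f d).1 p _ + (g d).1 p _) = ω d * (f d).1 p _ + ω d * (g d).1 p _
         ring
       map_smul' := fun c f => by
         funext d p u
         change ω d * (c * (f d).1 p _) = c * (ω d * (f d).1 p _)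
         ring }, fun _ _ _ _ => rfl⟩
  have hJinj : Function.Injective J := by
    intro f g hfg
    funext d
    apply Subtype.ext
    funext p x
    induction x using Quot.ind with
    | mk u =>
      have h1 := congrFun (congrFun (congrFun hfg d) p) u
      rw [hJ, hJ] at h1
      exact mul_left_cancel₀ (hω d (hgt d)) h1
  have hle : LinearMap.range J ≤ LinearMap.range Ψ := by
    rintro _ ⟨f, rfl⟩
    obtain ⟨f', hf'⟩ : ∃ f' : ∀ d : ℕ, ℕ → (ZMod d)ˣ → ℚ, f' = fun d p u =>
        if h : d ∈ N.divisors.erase 1 then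
          if h' : p ∈ d.primeFactors then (f ⟨d, h⟩).1 ⟨p, h'⟩ (Quot.mk _ u) else 0 else 0 :=
      ⟨_, rfl⟩
    have hf'' : ∀ (d : {d // d ∈ N.divisors.erase 1}) (p : (d : ℕ).primeFactors) (u : (ZMod d)ˣ),
        f' d p u = (f d).1 p (Quot.mk _ u) := by
      intro d p u
      rw [hf']
      simp only
      rw [dif_pos d.2, dif_pos p.2]
    obtain ⟨L, hL, hval⟩ := hTLA N φ hφ f' (by
      intro d p u z huz
      by_cases h : d ∈ N.divisors.erase 1
      · by_cases h' : p ∈ d.primeFactors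
        · exact (hf'' ⟨d, h⟩ ⟨p, h'⟩ u).trans ((congrArg _ (Quot.sound huz)).trans
            (hf'' ⟨d, h⟩ ⟨p, h'⟩ z).symm)
        · rw [hf']
          simp only
          rw [dif_pos h, dif_pos h, dif_neg h', dif_neg h']
      · rw [hf']
        simp only
        rw [dif_neg h, dif_neg h]) (by
      intro d _ hd1 hdN
      have hd : d ∈ N.divisors.erase 1 :=
        Finset.mem_erase.2 ⟨hd1.ne', Nat.mem_divisors.2 ⟨hdN, NeZero.ne N⟩⟩
      have h1 := (f ⟨d, hd⟩).2
      rw [LinearMap.mem_ker] at h1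
      change ∑ p : d.primeFactors, ∑ u : (ZMod d)ˣ, (f ⟨d, hd⟩).1 p (Quot.mk _ u) = 0 at h1
      rw [← Finset.sum_coe_sort d.primeFactors]
      rw [← h1]
      refine Finset.sum_congr rfl fun p _ => Finset.sum_congr ?_ fun u _ => ?_
      · congr
      · exact hf'' ⟨d, hd⟩ p u)
    obtain ⟨F, hF⟩ := hdet (Multiplicative (ZMod N)) L hL
    refine ⟨F, ?_⟩
    funext d p u
    rw [hΨ, hJ, hF d (hgt d) p (Nat.prime_of_mem_primeFactors p.2)
      (Nat.dvd_of_mem_primeFactors p.2) _ (hinj d u), MonoidHom.comp_apply, pwr_gn, hval d (hgt d) (hdv d) p p.2 u, hf'']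
  -- dimensions
  have hUB' := hUB N
  have hfin : Module.Finite ℚ (KNegOne (MonoidAlgebra ℤ (Multiplicative (ZMod N))) →+ ℚ) := by
    rw [← Module.rank_lt_aleph0_iff]
    exact hUB'.trans_lt (Cardinal.natCast_lt_aleph0)
  have hdim := Module.finrank_le_of_rank_le hUB'
  have h1 : ∑ d ∈ N.divisors.erase 1, ((∑ p ∈ d.primeFactors, nU d p) - 1) ≤
      Module.finrank ℚ (LinearMap.range J) := by
    rw [LinearMap.finrank_range_of_inj hJinj, Module.finrank_pi_fintype,
      ← Finset.sum_coe_sort (N.divisors.erase 1)]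
    exact Finset.sum_le_sum fun d _ => finrank_form d
  have h2 := Submodule.finrank_mono hle
  have h3 := LinearMap.finrank_range_add_finrank_ker Ψ
  have h4 : Module.finrank ℚ (LinearMap.ker Ψ) = 0 := by omega
  have h5 : LinearMap.ker Ψ = ⊥ := Submodule.finrank_eq_zero.1 h4
  have h6 : l ∈ LinearMap.ker Ψ := by
    rw [LinearMap.mem_ker]
    funext d p u
    rw [hΨ]
    exact hl d (hgt d) p (Nat.prime_of_mem_primeFactors p.2) (Nat.dvd_of_mem_primeFactors p.2) _
      (hinj d u)
  rw [h5] at h6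
  exact h6

end Pool.Agent.KM
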