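import Pool.Agent.KM.St3

/-!
# KM_CYD: `ℤ[X]/Φ_d` is a Dedekind domain
-/

set_option autoImplicit false
set_option linter.unusedSectionVars false

open Matrix Polynomial Pool.Agent.Lib25

noncomputable section

namespace Pool.Agent.KM

namespace Cyd

/-- Dedekind domains are stable under ring isomorphisms. -/
theorem of_equiv {A B : Type} [CommRing A] [CommRing B] [IsDedekindDomain A] (e : A ≃+* B) :
    IsDedekindDomain B := by
  have : IsDomain B := e.symm.injective.isDomain e.symm.toRingHom
  let _ : Algebra A B := e.toRingHom.toAlgebra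
  have : IsLocalization (⊥ : Submonoid A) A := IsLocalization.self (by
    intro x hx
    rw [Submonoid.mem_bot] at hx
    rw [hx]
    exact one_mem _)
  have : IsLocalization (⊥ : Submonoid A) B :=
    IsLocalization.isLocalization_of_algEquiv (S := A) _
      (AlgEquiv.ofRingEquiv (f := e) (fun _ => rfl))
  exact IsLocalization.isDedekindDomain A (M := (⊥ : Submonoid A)) bot_le B

open NumberField in
theorem main (d : ℕ) (hd : 0 < d) (K : Type) [Field K] [NumberField K]
    [IsCyclotomicExtension {d} ℚ K] : IsDedekindDomain (ℤ[X] ⧸ Icyc d) := by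
  have : NeZero d := ⟨hd.ne'⟩
  have hζ : IsPrimitiveRoot (IsCyclotomicExtension.zeta d ℚ K) d :=
    IsCyclotomicExtension.zeta_spec d ℚ K
  let φ : ℤ[X] →+* 𝓞 K := (Polynomial.aeval hζ.toInteger).toRingHom
  have hsurj : Function.Surjective φ := by
    intro y
    have h1 : y ∈ Algebra.adjoin ℤ ({hζ.toInteger} : Set (𝓞 K)) := by
      rw [IsCyclotomicExtension.Rat.adjoin_singleton_eq_top hζ]
      trivial
    rw [Algebra.adjoin_singleton_eq_range_aeval] at h1
    obtain ⟨p, hp⟩ := h1
    exact ⟨p, hp⟩
  have hker : RingHom.ker φ = Icyc d := by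
    ext p
    rw [RingHom.mem_ker, Icyc, Ideal.mem_span_singleton,
      Polynomial.cyclotomic_eq_minpoly hζ hd,
      ← minpoly.isIntegrallyClosed_dvd_iff (hζ.isIntegral hd)]
    have h2 : (algebraMap (𝓞 K) K) (φ p) =
        Polynomial.aeval (IsCyclotomicExtension.zeta d ℚ K) p := by
      change (algebraMap (𝓞 K) K) (Polynomial.aeval hζ.toInteger p) = _
      rw [← Polynomial.aeval_algebraMap_apply]
      rfl
    rw [← h2]
    constructor
    · intro h
      rw [h, map_zero]
    · intro h
      exact (map_eq_zero_iff _ (FaithfulSMul.algebraMap_injective (𝓞 K) K)).1 h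
  have e : (ℤ[X] ⧸ Icyc d) ≃+* 𝓞 K :=
    (Ideal.quotEquivOfEq hker.symm).trans (RingHom.quotientKerEquivOfSurjective hsurj)
  exact of_equiv e.symm

end Cyd

theorem t_CYD : S_CYD := by
  intro d hd
  have : NeZero d := ⟨hd.ne'⟩
  have : IsCyclotomicExtension {d} ℚ (CyclotomicField d ℚ) :=
    CyclotomicField.isCyclotomicExtension d ℚ
  have : NumberField (CyclotomicField d ℚ) :=
    IsCyclotomicExtension.numberField {d} ℚ (CyclotomicField d ℚ)
  exact Cyd.main d hd (CyclotomicField d ℚ)

end Pool.Agent.KM
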