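import Pool.Agent.KM.St3

/-!
# KM_CYI: intersections of ideals generated by cyclotomic polynomials; finiteness of the sum
-/

set_option autoImplicit false
set_option linter.unusedSectionVars false

open Matrix Polynomial Pool.Agent.Lib25

namespace Pool.Agent.KM

section Cyi

private theorem cyi_inf (S : Finset ℕ) (d : ℕ) (hS : ∀ d' ∈ S, 0 < d') (hd : 0 < d)
    (h : d ∉ S) : Iphi (insert d S) = Iphi S ⊓ Icyc d := by
  have hprod : phi (insert d S) = cyclotomic d ℤ * phi S := Finset.prod_insert h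
  have hprime : Prime (cyclotomic d ℤ) := (cyclotomic.irreducible hd).prime
  have hnd : ¬ cyclotomic d ℤ ∣ phi S := by
    intro hdvd
    obtain ⟨d', hd', hdd⟩ := (hprime.dvd_finsetProd_iff _).1 hdvd
    have h1 := eq_of_monic_of_associated (cyclotomic.monic d ℤ) (cyclotomic.monic d' ℤ)
      ((cyclotomic.irreducible hd).associated_of_dvd (cyclotomic.irreducible (hS d' hd')) hdd)
    have h2 : d = d' := cyclotomic_injective h1
    rw [h2] at h
    exact h hd'
  apply le_antisymm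
  · rw [Iphi, Ideal.span_singleton_le_iff_mem, Ideal.mem_inf, Iphi, Icyc,
      Ideal.mem_span_singleton, Ideal.mem_span_singleton, hprod]
    exact ⟨Dvd.intro_left _ rfl, Dvd.intro _ rfl⟩
  · intro x hx
    obtain ⟨h1, h2⟩ := Ideal.mem_inf.1 hx
    rw [Iphi, Ideal.mem_span_singleton] at h1
    rw [Icyc, Ideal.mem_span_singleton] at h2
    obtain ⟨k, rfl⟩ := h1
    obtain ⟨l, rfl⟩ := (hprime.dvd_or_dvd h2).resolve_left hnd
    rw [Iphi, Ideal.mem_span_singleton, hprod]
    exact ⟨l, by ring⟩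

private theorem cyi_clear (p : ℚ[X]) : ∃ (b : ℤ) (q : ℤ[X]), b ≠ 0 ∧
    q.map (Int.castRingHom ℚ) = C (b : ℚ) * p := by
  obtain ⟨b, hb, h⟩ := IsLocalization.integerNormalization_spec (nonZeroDivisors ℤ) p
  refine ⟨b, IsLocalization.integerNormalization (nonZeroDivisors ℤ) p,
    nonZeroDivisors.ne_zero hb, ?_⟩
  have h1 : algebraMap ℤ ℚ = Int.castRingHom ℚ := rfl
  rw [← h1, h]
  ext n
  simp

private theorem cyi_mem (S : Finset ℕ) (d : ℕ) (h : d ∉ S) :
    ∃ c : ℤ, c ≠ 0 ∧ C c ∈ Iphi S ⊔ Icyc d := by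
  have hco : IsCoprime (∏ d' ∈ S, cyclotomic d' ℚ) (cyclotomic d ℚ) := by
    refine IsCoprime.prod_left fun d' hd' => cyclotomic.isCoprime_rat ?_
    rintro rfl
    exact h hd'
  obtain ⟨a, b, hab⟩ := hco
  obtain ⟨s, A, hs, hA⟩ := cyi_clear a
  obtain ⟨t, B, ht, hB⟩ := cyi_clear b
  refine ⟨s * t, mul_ne_zero hs ht, ?_⟩
  have h1 : C (s * t) = C t * A * phi S + C s * B * cyclotomic d ℤ := by
    apply Polynomial.map_injective (Int.castRingHom ℚ) Int.cast_injective
    have e1 : (phi S).map (Int.castRingHom ℚ) = ∏ d' ∈ S, cyclotomic d' ℚ := by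
      rw [phi, Polynomial.map_prod]
      exact Finset.prod_congr rfl fun d' _ => map_cyclotomic_int d' ℚ
    rw [Polynomial.map_add, Polynomial.map_mul, Polynomial.map_mul, Polynomial.map_mul,
      Polynomial.map_mul, hA, hB, e1, map_cyclotomic_int, Polynomial.map_C, Polynomial.map_C,
      Polynomial.map_C]
    simp only [eq_intCast, map_mul]
    linear_combination (-(C (s : ℚ) * C (t : ℚ))) * hab
  rw [h1]
  refine Ideal.add_mem _ (Ideal.mem_sup_left ?_) (Ideal.mem_sup_right ?_)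
  · exact Ideal.mul_mem_left _ _ (Ideal.mem_span_singleton_self _)
  · exact Ideal.mul_mem_left _ _ (Ideal.mem_span_singleton_self _)

private theorem cyi_fin (S : Finset ℕ) (d : ℕ) (h : d ∉ S) :
    Finite (ℤ[X] ⧸ (Iphi S ⊔ Icyc d)) := by
  obtain ⟨c, hc0, hc⟩ := cyi_mem S d h
  have h1 : Module.Finite ℤ (ℤ[X] ⧸ Icyc d) := (cyclotomic.monic d ℤ).finite_adjoinRoot
  have h2 : Module.Finite ℤ (ℤ[X] ⧸ (Iphi S ⊔ Icyc d)) := by
    have hf := Ideal.Quotient.factor_surjective (le_sup_right : Icyc d ≤ Iphi S ⊔ Icyc d)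
    exact Module.Finite.of_surjective
      ((Ideal.Quotient.factor (le_sup_right : Icyc d ≤ Iphi S ⊔ Icyc d)).toAddMonoidHom.toIntLinearMap)
      hf
  apply Module.finite_of_fg_torsion
  intro x
  refine ⟨⟨c, mem_nonZeroDivisors_of_ne_zero hc0⟩, ?_⟩
  obtain ⟨y, rfl⟩ := Ideal.Quotient.mk_surjective x
  show c • Ideal.Quotient.mk _ y = 0
  rw [← map_zsmul, Ideal.Quotient.eq_zero_iff_mem]
  have h3 : c • y = C c * y := by
    rw [zsmul_eq_mul]
    congr 1
  rw [h3]
  exact Ideal.mul_mem_right _ _ hc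

theorem t_CYI : S_CYI := by
  intro S d hS hd h
  exact ⟨cyi_inf S d hS hd h, cyi_fin S d h⟩

end Cyi

end Pool.Agent.KM
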