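import Pool.Agent.KM.St3

/-!
# KM_CYM: counting maximal ideals
-/

set_option autoImplicit false
set_option linter.unusedSectionVars false

open Matrix Polynomial Pool.Agent.Lib25

noncomputable section

namespace Pool.Agent.KM

namespace CYM

/-- Evaluation of integer polynomials at `y`. -/
def ev {K : Type*} [Field K] (y : K) : ℤ[X] →+* K :=
  Polynomial.eval₂RingHom (Int.castRingHom K) y

theorem ev_X {K : Type*} [Field K] (y : K) : ev y X = y := by
  unfold ev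
  simp

theorem eq_ev {K : Type*} [Field K] (f : ℤ[X] →+* K) : f = ev (f X) := by
  apply Polynomial.ringHom_ext'
  · exact RingHom.ext_int _ _
  · rw [ev_X]

theorem ker_ev_pow (p : ℕ) [Fact p.Prime] {K : Type*} [Field K] [CharP K p] (y : K) (j : ℕ) :
    RingHom.ker (ev (y ^ p ^ j)) = RingHom.ker (ev y) := by
  have h : ev (y ^ p ^ j) = (iterateFrobenius K p j).comp (ev y) := by
    rw [eq_ev ((iterateFrobenius K p j).comp (ev y)), RingHom.comp_apply, ev_X,
      iterateFrobenius_def]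
  rw [h]
  ext f
  rw [RingHom.mem_ker, RingHom.mem_ker, RingHom.comp_apply, map_eq_zero_iff _
    (iterateFrobenius K p j).injective]

/-- The kernel of the evaluation at `ζ ^ u` for a unit `u`. -/
def IU (d : ℕ) {K : Type*} [Field K] (ζ : K) (u : (ZMod d)ˣ) : Ideal ℤ[X] :=
  RingHom.ker (ev (ζ ^ (u : ZMod d).val))

theorem IU_congr {d p : ℕ} [NeZero d] [Fact p.Prime] {K : Type*} [Field K] [CharP K p] {ζ : K}
    (hζ : ζ ^ d = 1) {u z : (ZMod d)ˣ} (h : uR d p u z) : IU d ζ u = IU d ζ z := by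
  obtain ⟨j, k, hjk⟩ := h
  unfold IU
  rw [← ker_ev_pow p _ j, ← ker_ev_pow p (ζ ^ (z : ZMod d).val) k]
  congr 2
  rw [← pow_mul, ← pow_mul]
  have h1 : ((u : ZMod d).val * p ^ j) ≡ ((z : ZMod d).val * p ^ k) [MOD d] := by
    rw [← ZMod.natCast_eq_natCast_iff]
    push_cast
    rw [ZMod.natCast_zmod_val, ZMod.natCast_zmod_val]
    exact hjk
  exact pow_eq_pow_of_modEq h1 hζ

end CYM

open CYM

theorem CYM.key (S : Finset ℕ) (d : ℕ) (hS : ∀ d' ∈ S, 0 < d' ∧ ¬ d ∣ d') (hd : 0 < d)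
    (p : ℕ) (hp : p.Prime) : ∃ I : (ZMod d)ˣ → Ideal ℤ[X], (∀ u z, uR d p u z → I u = I z) ∧
      ∀ (M : Ideal ℤ[X]), M.IsMaximal → Finite (ℤ[X] ⧸ M) → Iphi S ≤ M → Icyc d ≤ M →
        ((p : ℕ) : ℤ[X]) ∈ M → p ∣ d ∧ ∃ u, M = I u := by
  have : Fact p.Prime := ⟨hp⟩
  have : NeZero d := ⟨hd.ne'⟩
  obtain ⟨d0, hd0⟩ : ∃ d0, d0 = ordCompl[p] d := ⟨_, rfl⟩
  have hdd : p ^ (d.factorization p) * d0 = d := by
    rw [hd0]
    exact Nat.ordProj_mul_ordCompl_eq_self d p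
  have hpd0 : ¬ p ∣ d0 := by
    rw [hd0]
    exact Nat.not_dvd_ordCompl hp hd.ne'
  let K := AlgebraicClosure (ZMod p)
  have hCK : CharP K p := charP_of_injective_algebraMap (algebraMap (ZMod p) K).injective p
  have hne : ∀ e : ℕ, ¬ p ∣ e → NeZero (e : K) := fun e he =>
    ⟨fun h => he ((CharP.cast_eq_zero_iff K p e).1 h)⟩
  have : NeZero (d0 : K) := hne d0 hpd0
  have : NeZero d0 := ⟨fun h => hpd0 (h ▸ dvd_zero p)⟩
  obtain ⟨ζ, hζ⟩ := HasEnoughRootsOfUnity.exists_primitiveRoot K d0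
  have hd0d : d0 ∣ d := ⟨_, by rw [mul_comm, hdd]⟩
  have hζd : ζ ^ d = 1 := by
    obtain ⟨c, hc⟩ := hd0d
    rw [hc, pow_mul, hζ.pow_eq_one, one_pow]
  refine ⟨IU d ζ, fun u z h => IU_congr hζd h, ?_⟩
  intro M hM hfin hMS hMd hpM
  let k := ℤ[X] ⧸ M
  let _ : Field k := Ideal.Quotient.field M
  have hCk : CharP k p := by
    have h1 : ((p : ℕ) : k) = 0 := by
      have h2 := Ideal.Quotient.eq_zero_iff_mem.2 hpM
      rwa [map_natCast] at h2
    exact (CharP.charP_iff_prime_eq_zero hp).2 h1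
  let _ : Algebra (ZMod p) k := ZMod.algebra k p
  have : Algebra.IsAlgebraic (ZMod p) k := by
    have : Finite k := hfin
    have : Module.Finite (ZMod p) k := inferInstance
    infer_instance
  obtain ⟨φ, hφ⟩ : ∃ φ : ℤ[X] →+* K, RingHom.ker φ = M := by
    refine ⟨((IsAlgClosed.lift : k →ₐ[ZMod p] K) : k →+* K).comp (Ideal.Quotient.mk M), ?_⟩
    ext f
    rw [RingHom.mem_ker, RingHom.comp_apply, map_eq_zero_iff _
      ((IsAlgClosed.lift : k →ₐ[ZMod p] K) : k →+* K).injective, Ideal.Quotient.eq_zero_iff_mem]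
  obtain ⟨y, hy⟩ : ∃ y, y = φ X := ⟨_, rfl⟩
  have hφy : φ = ev y := by rw [hy]; exact eq_ev φ
  have hcyc : ∀ e : ℕ, cyclotomic e ℤ ∈ M → (cyclotomic e K).IsRoot y := by
    intro e he
    rw [← hφ, RingHom.mem_ker, hφy] at he
    unfold ev at he
    rw [Polynomial.coe_eval₂RingHom, ← Polynomial.eval_map, Polynomial.map_cyclotomic] at he
    exact he
  have hy1 : IsPrimitiveRoot y d0 := by
    have h1 := hcyc d (hMd (Ideal.mem_span_singleton_self _))
    rw [← hdd] at h1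
    exact (Polynomial.isRoot_cyclotomic_prime_pow_mul_iff_of_charP (p := p)).1 h1
  refine ⟨?_, ?_⟩
  · -- `p ∣ d`
    by_contra hpd
    obtain ⟨d', hd', hmem⟩ : ∃ d' ∈ S, cyclotomic d' ℤ ∈ M := by
      have h1 : phi S ∈ M := hMS (Ideal.mem_span_singleton_self _)
      unfold phi at h1
      exact (Ideal.IsPrime.prod_mem_iff (hp := hM.isPrime)).1 h1
    have h2 := hcyc d' hmem
    obtain ⟨d1, hd1⟩ : ∃ d1, d1 = ordCompl[p] d' := ⟨_, rfl⟩
    have hdd1 : p ^ (d'.factorization p) * d1 = d' := by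
      rw [hd1]
      exact Nat.ordProj_mul_ordCompl_eq_self d' p
    have hpd1 : ¬ p ∣ d1 := by
      rw [hd1]
      exact Nat.not_dvd_ordCompl hp (hS d' hd').1.ne'
    have : NeZero (d1 : K) := hne d1 hpd1
    rw [← hdd1] at h2
    have h3 := (Polynomial.isRoot_cyclotomic_prime_pow_mul_iff_of_charP (p := p)).1 h2
    have h4 : d0 = d1 := hy1.unique h3
    have h5 : d.factorization p = 0 := Nat.factorization_eq_zero_of_not_dvd hpd
    rw [h5, pow_zero, one_mul] at hdd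
    apply (hS d' hd').2
    rw [← hdd, h4]
    exact ⟨_, by rw [mul_comm, hdd1]⟩
  · obtain ⟨v, _, hv2, hv3⟩ := hζ.isPrimitiveRoot_iff.1 hy1
    obtain ⟨u, hu⟩ := ZMod.unitsMap_surjective hd0d (ZMod.unitOfCoprime v hv2)
    refine ⟨u, ?_⟩
    unfold IU
    rw [← hφ, hφy, ← hv3]
    congr 2
    have h1 : (u : ZMod d).val ≡ v [MOD d0] := by
      rw [← ZMod.natCast_eq_natCast_iff]
      have h2 := congrArg (fun x : (ZMod d0)ˣ => (x : ZMod d0)) hu
      simp only [ZMod.coe_unitOfCoprime] at h2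
      rw [← h2]
      rw [ZMod.natCast_val]
      rfl
    exact pow_eq_pow_of_modEq h1.symm hζ.pow_eq_one

theorem t_CYM : S_CYM := by
  intro S d hS hd hfin
  have : NeZero d := ⟨hd.ne'⟩
  choose I hI1 hI2 using CYM.key S d hS hd
  obtain ⟨J, hJ⟩ : ∃ J : (Σ p : d.primeFactors, Quot (uR d p)) → Ideal ℤ[X],
      ∀ (p : d.primeFactors) (u : (ZMod d)ˣ),
        J ⟨p, Quot.mk _ u⟩ = I p (Nat.prime_of_mem_primeFactors p.2) u :=
    ⟨fun x => Quot.lift (I x.1 (Nat.prime_of_mem_primeFactors x.1.2))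
      (hI1 x.1 (Nat.prime_of_mem_primeFactors x.1.2)) x.2, fun p u => rfl⟩
  obtain ⟨π, hπ⟩ : ∃ π : ℤ[X] →+* (ℤ[X] ⧸ (Iphi S ⊔ Icyc d)),
    π = Ideal.Quotient.mk (Iphi S ⊔ Icyc d) := ⟨_, rfl⟩
  have hπs : Function.Surjective π := by
    rw [hπ]
    exact Ideal.Quotient.mk_surjective
  have hex : ∀ m : MaximalSpectrum (ℤ[X] ⧸ (Iphi S ⊔ Icyc d)), ∃ x, J x = m.asIdeal.comap π := by
    intro m
    have hm := m.isMaximal
    obtain ⟨M, hM⟩ : ∃ M, M = m.asIdeal.comap π := ⟨_, rfl⟩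
    have hMm : M.IsMaximal := by
      rw [hM]
      exact Ideal.comap_isMaximal_of_surjective π hπs
    have hle : Iphi S ⊔ Icyc d ≤ M := by
      intro x hx
      rw [hM, Ideal.mem_comap, hπ, Ideal.Quotient.eq_zero_iff_mem.2 hx]
      exact zero_mem _
    have hMf : Finite (ℤ[X] ⧸ M) :=
      Finite.of_surjective (Ideal.Quotient.factor hle) (Ideal.Quotient.factor_surjective hle)
    obtain ⟨p, hp⟩ := CharP.exists (ℤ[X] ⧸ M)
    have hdom : IsDomain (ℤ[X] ⧸ M) := (Ideal.Quotient.isDomain_iff_prime M).2 hMm.isPrime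
    have hpp : p.Prime := CharP.char_is_prime (ℤ[X] ⧸ M) p
    have hpM : ((p : ℕ) : ℤ[X]) ∈ M := by
      rw [← Ideal.Quotient.eq_zero_iff_mem, map_natCast, CharP.cast_eq_zero]
    obtain ⟨h1, u, hu⟩ := hI2 p hpp M hMm hMf (le_sup_left.trans hle) (le_sup_right.trans hle) hpM
    refine ⟨⟨⟨p, Nat.mem_primeFactors.2 ⟨hpp, h1, hd.ne'⟩⟩, Quot.mk _ u⟩, ?_⟩
    rw [hJ, ← hM, hu]
  choose s hs using hex
  have hinj : Function.Injective s := by
    intro m m' h
    have h1 : m.asIdeal.comap π = m'.asIdeal.comap π := by rw [← hs, ← hs, h]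
    exact MaximalSpectrum.ext (Ideal.comap_injective_of_surjective π hπs h1)
  have hfinQ : ∀ p : d.primeFactors, Finite (Quot (uR d p)) := fun p => inferInstance
  have h1 := Nat.card_le_card_of_injective s hinj
  rw [Nat.card_sigma] at h1
  refine h1.trans (le_of_eq ?_)
  exact Finset.sum_coe_sort d.primeFactors (fun p => Nat.card (Quot (uR d p)))

end Pool.Agent.KM
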