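import Pool.Agent.KM.St2

/-!
# KM_DED: `K_{-1}` of a Dedekind domain vanishes
-/

set_option autoImplicit false
set_option linter.unusedSectionVars false

open Matrix Polynomial Pool.Agent.Lib25

namespace Pool.Agent.KM

section Ded

private theorem ded_C_mem {R : Type} [CommRing R] (z : K0 R) :
    K0.map (LaurentPolynomial.C : R →+* LaurentPolynomial R) z ∈ extImage R := by
  have h1 : (posIncl R).comp (Polynomial.C : R →+* R[X]) = LaurentPolynomial.C := by
    apply RingHom.ext
    intro c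
    exact Polynomial.toLaurent_C c
  rw [← h1, ← K0.map_map]
  exact AddSubgroup.mem_sup_left ⟨_, rfl⟩

private theorem ded_exists {R : Type} [CommRing R] {n : ℕ}
    (e : Matrix (Fin n) (Fin n) (LaurentPolynomial R)) :
    ∃ m : ℕ, ∀ i j k, lco (e i j) k ≠ 0 → -(m : ℤ) ≤ k ∧ k ≤ m := by
  classical
  refine ⟨∑ i, ∑ j, ∑ k ∈ (AddMonoidAlgebra.coeff (e i j)).support, k.natAbs, ?_⟩
  intro i j k hk
  have h1 : k ∈ (AddMonoidAlgebra.coeff (e i j)).support := Finsupp.mem_support_iff.2 hk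
  have h2 : k.natAbs ≤ ∑ k ∈ (AddMonoidAlgebra.coeff (e i j)).support, k.natAbs :=
    Finset.single_le_sum (f := fun k : ℤ => k.natAbs) (fun _ _ => Nat.zero_le _) h1
  have h3 : ∑ k ∈ (AddMonoidAlgebra.coeff (e i j)).support, k.natAbs ≤
      ∑ j, ∑ k ∈ (AddMonoidAlgebra.coeff (e i j)).support, k.natAbs :=
    Finset.single_le_sum (f := fun j => ∑ k ∈ (AddMonoidAlgebra.coeff (e i j)).support, k.natAbs)
      (fun _ _ => Nat.zero_le _) (Finset.mem_univ j)
  have h4 : ∑ j, ∑ k ∈ (AddMonoidAlgebra.coeff (e i j)).support, k.natAbs ≤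
      ∑ i, ∑ j, ∑ k ∈ (AddMonoidAlgebra.coeff (e i j)).support, k.natAbs :=
    Finset.single_le_sum (f := fun i => ∑ j, ∑ k ∈ (AddMonoidAlgebra.coeff (e i j)).support,
      k.natAbs) (fun _ _ => Nat.zero_le _) (Finset.mem_univ i)
  have h5 := (h2.trans h3).trans h4
  generalize (∑ i, ∑ j, ∑ k ∈ (AddMonoidAlgebra.coeff (e i j)).support, k.natAbs) = K at h5
  constructor <;> omega

theorem t_DED (hEXQ : S_EXQ) (hDWD : S_DWD) (hDXA : S_DXA) (hDXK : S_DXK) : S_DED := by
  intro R _ _ x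
  obtain ⟨y, rfl⟩ := QuotientAddGroup.mk'_surjective (extImage R) x
  obtain ⟨n, e, he, m', rfl⟩ := exists_cl y
  obtain ⟨m, hm⟩ := ded_exists e
  obtain ⟨W⟩ := hDWD e m
  obtain ⟨a1, a2, a3, a4, a5, a6, a7⟩ := hDXA e m W he hm
  have hL : W.lL.map (LaurentPolynomial.C : R →+* LaurentPolynomial R) *
      W.lL.map (LaurentPolynomial.C : R →+* LaurentPolynomial R) =
      W.lL.map (LaurentPolynomial.C : R →+* LaurentPolynomial R) := by
    rw [← Matrix.map_mul, W.idemL]
  have hN : W.lN.map (LaurentPolynomial.C : R →+* LaurentPolynomial R) *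
      W.lN.map (LaurentPolynomial.C : R →+* LaurentPolynomial R) =
      W.lN.map (LaurentPolynomial.C : R →+* LaurentPolynomial R) := by
    rw [← Matrix.map_mul, W.idemN]
  have h1 := hEXQ e (W.lN.map LaurentPolynomial.C) (W.lL.map LaurentPolynomial.C) he hN hL
    W.i W.π a1 a2 a3 a4 a5 a6 (hDXK e m W) a7
  have h2 : cl e he = K0.map (LaurentPolynomial.C : R →+* LaurentPolynomial R)
      (cl W.lL W.idemL) - K0.map (LaurentPolynomial.C : R →+* LaurentPolynomial R)
      (cl W.lN W.idemN) := by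
    rw [map_cl, map_cl, eq_sub_iff_add_eq]
    exact h1.symm
  have h3 : one (LaurentPolynomial R) m' = K0.map (LaurentPolynomial.C :
      R →+* LaurentPolynomial R) (one R m') := (map_one' _ m').symm
  have h4 : cl e he - one (LaurentPolynomial R) m' ∈ extImage R := by
    rw [h2, h3]
    exact (extImage R).sub_mem ((extImage R).sub_mem (ded_C_mem _) (ded_C_mem _)) (ded_C_mem _)
  exact (QuotientAddGroup.eq_zero_iff _).2 h4

end Ded

end Pool.Agent.KM
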