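import Pool.Agent.KM.St1

/-!
# KM_DEL: the boundary map of a Milnor square
-/

set_option autoImplicit false
set_option linter.unusedSectionVars false

open Matrix Polynomial Pool.Agent.Lib25

noncomputable section

namespace Pool.Agent.KM

namespace DEL

variable {A B C D : Type} [Ring A] [Ring B] [Ring C] [Ring D]

/-- reindexing the columns -/
theorem tr_reindex (s : MSq A B C D) {ι κ κ' : Type} [Fintype ι] [Fintype κ] [DecidableEq κ]
    [Fintype κ'] [DecidableEq κ'] (σ : κ' ≃ κ) {e : Matrix ι ι A} {U : Matrix κ κ D}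
    (h : Tr s e U) : Tr s e (U.submatrix σ σ) := by
  obtain ⟨x, y, x', y', h1, h2, h3, h4, h5⟩ := h
  refine ⟨x.submatrix id σ, y.submatrix σ id, x'.submatrix id σ, y'.submatrix σ id,
    ?_, ?_, ?_, ?_, ?_⟩
  · rw [Matrix.submatrix_mul_equiv, h1, Matrix.submatrix_id_id]
  · rw [← Matrix.submatrix_mul _ _ _ _ _ Function.bijective_id, h2, Matrix.submatrix_one_equiv]
  · rw [Matrix.submatrix_mul_equiv, h3, Matrix.submatrix_id_id]
  · rw [← Matrix.submatrix_mul _ _ _ _ _ Function.bijective_id, h4, Matrix.submatrix_one_equiv]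
  · rw [← h5, Matrix.submatrix_mul _ _ _ _ _ Function.bijective_id]
    rfl

/-- reindexing the idempotent -/
theorem tr_sub (s : MSq A B C D) {ι ι' κ : Type} [Fintype ι] [Fintype ι'] [Fintype κ]
    [DecidableEq κ] (σ : ι' ≃ ι) {e : Matrix ι ι A} {U : Matrix κ κ D}
    (h : Tr s e U) : Tr s (e.submatrix σ σ) U := by
  obtain ⟨x, y, x', y', h1, h2, h3, h4, h5⟩ := h
  refine ⟨x.submatrix σ id, y.submatrix id σ, x'.submatrix σ id, y'.submatrix id σ,
    ?_, ?_, ?_, ?_, ?_⟩
  · rw [← Matrix.submatrix_mul _ _ _ _ _ Function.bijective_id, h1]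
    rfl
  · rw [Matrix.submatrix_mul_equiv, h2, Matrix.submatrix_id_id]
  · rw [← Matrix.submatrix_mul _ _ _ _ _ Function.bijective_id, h3]
    rfl
  · rw [Matrix.submatrix_mul_equiv, h4, Matrix.submatrix_id_id]
  · have e1 : (y.submatrix id σ).map s.p = (y.map s.p).submatrix id σ := rfl
    have e2 : (x'.submatrix σ id).map s.q = (x'.map s.q).submatrix σ id := rfl
    rw [e1, e2, Matrix.submatrix_mul_equiv, h5, Matrix.submatrix_id_id]

/-- the canonical form of the idempotent -/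
theorem tr_IM (s : MSq A B C D) {ι κ : Type} [Fintype ι] [Fintype κ] [DecidableEq κ]
    {e : Matrix ι ι A} (he : e * e = e) {U : Matrix κ κ D}
    (h : Tr s e U) : Tr s (IM e he).mat U :=
  tr_sub s (Fintype.equivFin ι).symm h

theorem isDel_of_tr (s : MSq A B C D) {ι κ : Type} [Fintype ι] [Fintype κ] [DecidableEq κ]
    (e : Matrix ι ι A) (he : e * e = e) (U : Matrix κ κ D) (h : Tr s e U) :
    IsDel s U (cl e he - cl (1 : Matrix κ κ A) idem_one) := by
  refine ⟨(IM e he).n, (IM e he).mat, (IM e he).idem, tr_IM s he h, ?_⟩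
  rw [← of_eq_cl (IM e he)]
  rfl

theorem tr_blocks (s : MSq A B C D) {ι ι' κ μ : Type} [Fintype ι] [Fintype ι'] [Fintype κ]
    [DecidableEq κ] [Fintype μ] [DecidableEq μ] {e : Matrix ι ι A} {e' : Matrix ι' ι' A}
    {U : Matrix κ κ D} {V : Matrix μ μ D} (h : Tr s e U) (h' : Tr s e' V) :
    Tr s (Matrix.fromBlocks e 0 0 e') (Matrix.fromBlocks U 0 0 V) := by
  obtain ⟨x, y, x', y', h1, h2, h3, h4, h5⟩ := h
  obtain ⟨z, w, z', w', g1, g2, g3, g4, g5⟩ := h'
  have hmap : ∀ {R S : Type} [Ring R] [Ring S] (φ : R →+* S) {a b c d : Type} (M : Matrix a b R)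
      (N : Matrix c d R), (Matrix.fromBlocks M 0 0 N).map φ =
      Matrix.fromBlocks (M.map φ) 0 0 (N.map φ) := by
    intro R S _ _ φ a b c d M N
    rw [Matrix.fromBlocks_map]
    congr 1
    · exact Matrix.map_zero φ (map_zero φ)
    · exact Matrix.map_zero φ (map_zero φ)
  refine ⟨Matrix.fromBlocks x 0 0 z, Matrix.fromBlocks y 0 0 w, Matrix.fromBlocks x' 0 0 z',
    Matrix.fromBlocks y' 0 0 w', ?_, ?_, ?_, ?_, ?_⟩
  · rw [Matrix.fromBlocks_multiply, hmap, h1, g1]
    simp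
  · rw [Matrix.fromBlocks_multiply, h2, g2]
    simp
  · rw [Matrix.fromBlocks_multiply, hmap, h3, g3]
    simp
  · rw [Matrix.fromBlocks_multiply, h4, g4]
    simp
  · rw [hmap, hmap, Matrix.fromBlocks_multiply, h5, g5]
    simp

end DEL

/-- KM_DEL. The boundary map -/
theorem t_DEL (hPAT : S_PAT) (hGLU : S_GLU) : S_DEL := by
  intro A B C D _ _ _ _ s
  refine ⟨?_, ?_, ?_, ?_, ?_, ?_⟩
  · -- existence
    intro κ _ _ U V hUV hVU
    obtain ⟨σ, -⟩ : ∃ σ : κ ≃ Fin (Fintype.card κ), σ = Fintype.equivFin κ := ⟨_, rfl⟩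
    have h1 : U.submatrix σ.symm σ.symm * V.submatrix σ.symm σ.symm = 1 := by
      rw [Matrix.submatrix_mul_equiv, hUV, Matrix.submatrix_one_equiv]
    have h2 : V.submatrix σ.symm σ.symm * U.submatrix σ.symm σ.symm = 1 := by
      rw [Matrix.submatrix_mul_equiv, hVU, Matrix.submatrix_one_equiv]
    obtain ⟨k, e, x, y, x', y', g1, g2, g3, g4, g5, g6⟩ := hPAT s (Fintype.card κ)
      (Fintype.card κ) 1 1 (U.submatrix σ.symm σ.symm) (V.submatrix σ.symm σ.symm)
      (Matrix.mul_one 1) (Matrix.mul_one 1)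
      (by rw [h1, Matrix.map_one _ (map_zero s.p) (map_one s.p)])
      (by rw [h2, Matrix.map_one _ (map_zero s.q) (map_one s.q)])
    rw [h1, Matrix.one_mul] at g6
    have h3 : Tr s e (U.submatrix σ.symm σ.symm) := ⟨x, y, x', y', g2, g3, g4, g5, g6⟩
    have h4 := DEL.tr_reindex s σ h3
    rw [Matrix.submatrix_submatrix, Equiv.symm_comp_self, Matrix.submatrix_id_id] at h4
    exact ⟨_, DEL.isDel_of_tr s e g1 U h4⟩
  · -- uniqueness
    intro κ _ _ U U' b b' c c' x x' h1 h2 h3 h4 h5 h6 h7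
    obtain ⟨n, e, he, g1, rfl⟩ := h6
    obtain ⟨n', e', he', g2, rfl⟩ := h7
    have h8 := hGLU s e e' U U' b b' c c' he he' h1 h2 h3 h4 h5 g1 g2
    rw [cl_congr he he' h8]
  · intro ι κ _ _ _ e he U h
    exact DEL.isDel_of_tr s e he U h
  · -- block sums
    intro κ μ _ _ _ _ U V x y hx hy
    obtain ⟨n, e, he, g1, rfl⟩ := hx
    obtain ⟨n', e', he', g2, rfl⟩ := hy
    have h1 := DEL.isDel_of_tr s _ (idem_fromBlocks he he') _ (DEL.tr_blocks s g1 g2)
    rw [cl_blocks he he'] at h1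
    have h2 : cl (1 : Matrix (κ ⊕ μ) (κ ⊕ μ) A) idem_one =
        cl (1 : Matrix κ κ A) idem_one + cl (1 : Matrix μ μ A) idem_one := by
      rw [← cl_blocks]
      congr 1
      exact Matrix.fromBlocks_one.symm
    rw [h2] at h1
    have h3 : cl e he - cl (1 : Matrix κ κ A) idem_one +
        (cl e' he' - cl (1 : Matrix μ μ A) idem_one) =
        cl e he + cl e' he' - (cl (1 : Matrix κ κ A) idem_one +
          cl (1 : Matrix μ μ A) idem_one) := by abel
    rw [h3]
    exact h1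
  · -- matrices from the left
    intro κ _ _ b b' h1 h2
    have h3 : Tr s (1 : Matrix κ κ A) (b.map s.p) := by
      refine ⟨b', b, 1, 1, ?_, h1, ?_, Matrix.mul_one 1, ?_⟩
      · rw [h2, Matrix.map_one _ (map_zero s.f) (map_one s.f)]
      · rw [Matrix.mul_one, Matrix.map_one _ (map_zero s.g) (map_one s.g)]
      · rw [Matrix.map_one _ (map_zero s.q) (map_one s.q), Matrix.mul_one]
    have h4 := DEL.isDel_of_tr s _ idem_one _ h3
    rwa [sub_self] at h4
  · -- matrices from the right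
    intro κ _ _ c c' h1 h2
    have h3 : Tr s (1 : Matrix κ κ A) (c.map s.q) := by
      refine ⟨1, 1, c, c', ?_, Matrix.mul_one 1, ?_, h2, ?_⟩
      · rw [Matrix.mul_one, Matrix.map_one _ (map_zero s.f) (map_one s.f)]
      · rw [h1, Matrix.map_one _ (map_zero s.g) (map_one s.g)]
      · rw [Matrix.map_one _ (map_zero s.p) (map_one s.p), Matrix.one_mul]
    have h4 := DEL.isDel_of_tr s _ idem_one _ h3
    rwa [sub_self] at h4

end Pool.Agent.KM
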