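import Pool.Agent.KM.St2

/-!
# Module KM_DGA (helper28): decomposition of the invertible matrices over `D[T;T⁻¹]`, `D` finite
-/

set_option autoImplicit false
set_option linter.unusedSectionVars false

open Matrix Polynomial Pool.Agent.Lib25

noncomputable section

namespace Pool.Agent.KM

namespace DGA

/-- `S_SMI` for a commutative ring which is a field -/
theorem smi (hSMI : S_SMI) {k : Type} [CommRing k] (hk : IsField k) (n : ℕ)
    (U V : Matrix (Fin n) (Fin n) (LaurentPolynomial k)) (h1 : U * V = 1) (h2 : V * U = 1) :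
    ∃ (P P' Q Q' : Matrix (Fin n) (Fin n) k[X]) (a : Fin n → ℤ), P * P' = 1 ∧ P' * P = 1 ∧
      Q * Q' = 1 ∧ Q' * Q = 1 ∧
      U = P.map (posIncl k) * Matrix.diagonal (fun i => (LaurentPolynomial.T (a i))) *
        Q.map (posIncl k) := by
  let _ := hk.toField
  exact hSMI n U V h1 h2

/-- base change of the image of a polynomial matrix -/
theorem map_pos {R S : Type} [Ring R] [Ring S] (φ : R →+* S) {n : ℕ}
    (P : Matrix (Fin n) (Fin n) R[X]) :
    (P.map (posIncl R)).map (mapL φ) = (P.map (Polynomial.mapRingHom φ)).map (posIncl S) := by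
  apply Matrix.ext
  intro i j
  exact congrArg (fun f => f (P i j)) (mapL_posIncl φ)

theorem map_inv {R S : Type} [Ring R] [Ring S] (φ : R →+* S) {n : ℕ}
    {U V : Matrix (Fin n) (Fin n) R} (h : U * V = 1) : U.map φ * V.map φ = 1 := by
  rw [← Matrix.map_mul, h, Matrix.map_one φ (map_zero _) (map_one _)]

theorem mapL_C' {R S : Type} [Ring R] [Ring S] (φ : R →+* S) (x : R) :
    mapL φ (LaurentPolynomial.C x) = LaurentPolynomial.C (φ x) := mapL_single φ 0 x

theorem mapL_T' {R S : Type} [Ring R] [Ring S] (φ : R →+* S) (n : ℤ) :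
    mapL φ (LaurentPolynomial.T n) = LaurentPolynomial.T n := by
  have h1 := mapL_single φ n (1 : R)
  rw [map_one] at h1
  exact h1

/-- the diagonal entries -/
def dl {D : Type} [CommRing D] [Fintype (MaximalSpectrum D)] (ε : MaximalSpectrum D → D)
    (a : MaximalSpectrum D → ℤ) : LaurentPolynomial D :=
  ∑ m, LaurentPolynomial.C (ε m) * LaurentPolynomial.T (a m)

variable {D : Type} [CommRing D] [Fintype (MaximalSpectrum D)] {ε : MaximalSpectrum D → D}

theorem dl_mul (h : IsEps D ε) (a : MaximalSpectrum D → ℤ) :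
    dl ε a * dl ε (fun m => -a m) = 1 := by
  classical
  unfold dl
  rw [Finset.sum_mul_sum]
  have h1 : ∀ m ∈ (Finset.univ : Finset (MaximalSpectrum D)),
      ∑ m' : MaximalSpectrum D, (LaurentPolynomial.C (ε m) * LaurentPolynomial.T (a m)) *
        (LaurentPolynomial.C (ε m') * LaurentPolynomial.T (-a m')) =
      LaurentPolynomial.C (ε m) := by
    intro m _
    rw [Finset.sum_eq_single m]
    · rw [mul_mul_mul_comm, ← map_mul, (h.1.idem m).eq, ← LaurentPolynomial.T_add, add_neg_cancel,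
        LaurentPolynomial.T_zero, mul_one]
    · intro m' _ hne
      have h2 : ε m * ε m' = 0 := h.1.ortho (Ne.symm hne)
      rw [mul_mul_mul_comm, ← map_mul, h2, map_zero, zero_mul]
    · intro h3
      exact absurd (Finset.mem_univ m) h3
  rw [Finset.sum_congr rfl h1, ← map_sum, h.1.complete, map_one]

theorem map_dl (h : IsEps D ε) (a : MaximalSpectrum D → ℤ) (m : MaximalSpectrum D) :
    mapL (Ideal.Quotient.mk m.asIdeal) (dl ε a) = LaurentPolynomial.T (a m) := by
  classical
  unfold dl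
  rw [map_sum, Finset.sum_eq_single m]
  · rw [map_mul, mapL_C', mapL_T', h.2 m m, if_pos rfl, map_one, one_mul]
  · intro m' _ hne
    rw [map_mul, mapL_C', mapL_T', h.2 m m', if_neg hne, map_zero, zero_mul]
  · intro h3
    exact absurd (Finset.mem_univ m) h3

/-- joint lifts of polynomial matrices, with their inverses -/
theorem lift_poly (hPNI : S_PNI) {I : Type} [Fintype I] {S : I → Type} [∀ i, CommRing (S i)]
    {R : Type} [CommRing R] (φ : ∀ i, R →+* S i) (hJ : JNil φ) (n : ℕ)
    (P P' : ∀ i, Matrix (Fin n) (Fin n) (S i)[X]) (h1 : ∀ i, P i * P' i = 1)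
    (h2 : ∀ i, P' i * P i = 1) :
    ∃ A A' : Matrix (Fin n) (Fin n) R[X], A * A' = 1 ∧ A' * A = 1 ∧
      ∀ i, A.map (Polynomial.mapRingHom (φ i)) = P i := by
  have hJX := (hPNI φ hJ).2.1
  choose A hA using fun a b => hJX.surj (fun i => P i a b)
  have hA' : ∀ i, (Matrix.of A).map (Polynomial.mapRingHom (φ i)) = P i := by
    intro i
    apply Matrix.ext
    intro a b
    exact hA a b i
  obtain ⟨A', h3, h4⟩ := (hPNI _ hJX).1 n (Matrix.of A) (by
    intro i
    refine ⟨P' i, ?_, ?_⟩
    · rw [hA' i, h1 i]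
    · rw [hA' i, h2 i])
  exact ⟨Matrix.of A, A', h3, h4, hA'⟩

/-- the diagonal matrix -/
def Dl {n : ℕ} (ε : MaximalSpectrum D → D) (a : MaximalSpectrum D → Fin n → ℤ) :
    Matrix (Fin n) (Fin n) (LaurentPolynomial D) :=
  Matrix.diagonal fun i => dl ε (fun m => a m i)

theorem Dl_mul (h : IsEps D ε) {n : ℕ} (a : MaximalSpectrum D → Fin n → ℤ) :
    Dl ε a * Dl ε (fun m i => -a m i) = 1 := by
  unfold Dl
  rw [Matrix.diagonal_mul_diagonal, ← Matrix.diagonal_one]
  congr 1
  funext i
  exact dl_mul h (fun m => a m i)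

theorem Dl_mul' (h : IsEps D ε) {n : ℕ} (a : MaximalSpectrum D → Fin n → ℤ) :
    Dl ε (fun m i => -a m i) * Dl ε a = 1 := by
  have h1 := Dl_mul h (fun m i => -a m i)
  simp only [neg_neg] at h1
  exact h1

theorem map_Dl (h : IsEps D ε) {n : ℕ} (a : MaximalSpectrum D → Fin n → ℤ)
    (m : MaximalSpectrum D) :
    (Dl ε a).map (mapL (Ideal.Quotient.mk m.asIdeal)) =
      Matrix.diagonal fun i => LaurentPolynomial.T (a m i) := by
  unfold Dl
  rw [Matrix.diagonal_map (map_zero _)]
  congr 1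
  funext i
  exact map_dl h (fun m => a m i) m

end DGA

theorem t_DGA (hSMI : S_SMI) (hNFC : S_NFC) (hFIN : S_FIN) (hPNI : S_PNI) : S_DGA := by
  intro D _ _ _ ε hε n U V hUV hVU
  have hJ : JNil (fun m : MaximalSpectrum D => Ideal.Quotient.mk m.asIdeal) := ((hFIN D).2).1
  have hfld : ∀ m : MaximalSpectrum D, IsField (D ⧸ m.asIdeal) := fun m =>
    (Ideal.Quotient.maximal_ideal_iff_isField_quotient m.asIdeal).mp m.isMaximal
  choose P P' Q Q' a p1 p2 q1 q2 hU using fun m : MaximalSpectrum D =>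
    DGA.smi hSMI (hfld m) n (U.map (mapL (Ideal.Quotient.mk m.asIdeal)))
      (V.map (mapL (Ideal.Quotient.mk m.asIdeal))) (DGA.map_inv _ hUV) (DGA.map_inv _ hVU)
  obtain ⟨A, A', hA1, hA2, hA⟩ := DGA.lift_poly hPNI _ hJ n P P' p1 p2
  obtain ⟨B, B', hB1, hB2, hB⟩ := DGA.lift_poly hPNI _ hJ n Q Q' q1 q2
  -- the middle factor
  set Z : Matrix (Fin n) (Fin n) (LaurentPolynomial D) :=
    DGA.Dl ε (fun m i => -a m i) * A'.map (posIncl D) * U * B'.map (posIncl D) with hZ
  have hZm : ∀ m : MaximalSpectrum D, Z.map (mapL (Ideal.Quotient.mk m.asIdeal)) = 1 := by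
    intro m
    have e1 : (A'.map (posIncl D)).map (mapL (Ideal.Quotient.mk m.asIdeal)) *
        (P m).map (posIncl (D ⧸ m.asIdeal)) = 1 := by
      rw [DGA.map_pos, ← hA m, ← DGA.map_pos, ← DGA.map_pos]
      exact DGA.map_inv _ (DGA.map_inv _ hA2)
    have e2 : (Q m).map (posIncl (D ⧸ m.asIdeal)) *
        (B'.map (posIncl D)).map (mapL (Ideal.Quotient.mk m.asIdeal)) = 1 := by
      rw [← hB m, ← DGA.map_pos]
      exact DGA.map_inv _ (DGA.map_inv _ hB1)
    have e3 : (DGA.Dl ε (fun m i => -a m i)).map (mapL (Ideal.Quotient.mk m.asIdeal)) *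
        (Matrix.diagonal (fun i => (LaurentPolynomial.T (a m i) :
          LaurentPolynomial (D ⧸ m.asIdeal)))) = 1 := by
      rw [← DGA.map_Dl hε a m]
      exact DGA.map_inv _ (DGA.Dl_mul' hε a)
    rw [hZ, Matrix.map_mul, Matrix.map_mul, Matrix.map_mul, hU m]
    calc _ = (DGA.Dl ε (fun m i => -a m i)).map (mapL (Ideal.Quotient.mk m.asIdeal)) *
          ((A'.map (posIncl D)).map (mapL (Ideal.Quotient.mk m.asIdeal)) *
            (P m).map (posIncl (D ⧸ m.asIdeal))) *
          Matrix.diagonal (fun i => (LaurentPolynomial.T (a m i) :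
            LaurentPolynomial (D ⧸ m.asIdeal))) *
          ((Q m).map (posIncl (D ⧸ m.asIdeal)) *
            (B'.map (posIncl D)).map (mapL (Ideal.Quotient.mk m.asIdeal))) := by
            simp only [Matrix.mul_assoc]
      _ = 1 := by rw [e1, e2, Matrix.mul_one, Matrix.mul_one, e3]
  obtain ⟨k, hk⟩ := hJ.nil
  obtain ⟨P2, P2', P3, P3', r1, r2, s1, s2, hM⟩ := hNFC _ k hk n (Z - 1) (by
    intro i j t
    rw [Ideal.mem_iInf]
    intro m
    rw [RingHom.mem_ker, ← lco_mapL]
    have h1 : mapL (Ideal.Quotient.mk m.asIdeal) ((Z - 1) i j) = 0 := by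
      have h2 := congrFun (congrFun (hZm m) i) j
      rw [Matrix.map_apply] at h2
      rw [Matrix.sub_apply, map_sub, h2, Matrix.one_apply, Matrix.one_apply]
      split_ifs <;> simp
    rw [h1]
    rfl)
  rw [add_sub_cancel] at hM
  refine ⟨A, A', P2, P2', P3, P3', B, B', a, hA1, hA2, r1, r2, s1, s2, hB1, hB2, ?_⟩
  have k1 : A.map (posIncl D) * A'.map (posIncl D) = 1 := DGA.map_inv _ hA1
  have k2 : B'.map (posIncl D) * B.map (posIncl D) = 1 := DGA.map_inv _ hB2
  have k3 := DGA.Dl_mul hε a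
  have key : U = A.map (posIncl D) * DGA.Dl ε a * Z * B.map (posIncl D) := by
    rw [hZ]
    calc U = (A.map (posIncl D) * A'.map (posIncl D)) * U *
          (B'.map (posIncl D) * B.map (posIncl D)) := by
            rw [k1, k2, Matrix.one_mul, Matrix.mul_one]
      _ = A.map (posIncl D) * (DGA.Dl ε a * DGA.Dl ε (fun m i => -a m i)) *
          A'.map (posIncl D) * U * (B'.map (posIncl D) * B.map (posIncl D)) := by
            rw [k3, Matrix.mul_one]
      _ = _ := by simp only [Matrix.mul_assoc]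
  rw [hM] at key
  rw [key]
  unfold DGA.Dl DGA.dl
  simp only [Matrix.mul_assoc]

end Pool.Agent.KM
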