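import Pool.Agent.KM.St2

/-!
# KM_DGN: generation of the boundaries
-/

set_option autoImplicit false
set_option linter.unusedSectionVars false

open Matrix Polynomial Pool.Agent.Lib25

namespace Pool.Agent.KM

namespace DGN

section Units

variable {R : Type} [CommRing R]

/-- the units which are one on the component `e` -/
def H (e : R) : Subgroup Rˣ where
  carrier := {x | e * (x : R) = e}
  one_mem' := by simp
  mul_mem' := by
    intro x y hx hy
    change e * ((x * y : Rˣ) : R) = e
    have hx' : e * (x : R) = e := hx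
    have hy' : e * (y : R) = e := hy
    rw [Units.val_mul, ← mul_assoc, hx', hy']
  inv_mem' := by
    intro x hx
    change e * ((x⁻¹ : Rˣ) : R) = e
    have hx' : e * (x : R) = e := hx
    calc e * ((x⁻¹ : Rˣ) : R) = e * (x : R) * ((x⁻¹ : Rˣ) : R) := by rw [hx']
      _ = e := by rw [mul_assoc, Units.mul_inv, mul_one]

theorem mem_H {e : R} {x : Rˣ} : x ∈ H e ↔ e * (x : R) = e := Iff.rfl

/-- the unit `e t + (1 - e)` -/
def tau {e : R} (he : e * e = e) (t : Rˣ) : Rˣ where
  val := e * t + (1 - e)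
  inv := e * ((t⁻¹ : Rˣ) : R) + (1 - e)
  val_inv := by
    have h := Units.mul_inv t
    linear_combination e ^ 2 * h + (2 - (t : R) - ((t⁻¹ : Rˣ) : R)) * he
  inv_val := by
    have h := Units.mul_inv t
    linear_combination e ^ 2 * h + (2 - (t : R) - ((t⁻¹ : Rˣ) : R)) * he

theorem tau_mem {e e' : R} (he : e * e = e) (t : Rˣ) (h : e' * e = 0) : tau he t ∈ H e' := by
  rw [mem_H]
  change e' * (e * t + (1 - e)) = e'
  linear_combination ((t : R) - 1) * h

theorem tau_div_mem {e : R} (he : e * e = e) (t : Rˣ) : tau he t * t⁻¹ ∈ H e := by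
  rw [mem_H, Units.val_mul]
  change e * ((e * t + (1 - e)) * ((t⁻¹ : Rˣ) : R)) = e
  have h := Units.mul_inv t
  linear_combination e ^ 2 * h + (1 - ((t⁻¹ : Rˣ) : R)) * he

/-- the units of the components -/
theorem prod_tau {I : Type} [Fintype I] {e : I → R} (he : CompleteOrthogonalIdempotents e)
    (t : Rˣ) (a : I → ℤ) :
    ((∏ m, tau (he.idem m) t ^ (a m) : Rˣ) : R) = ∑ m, e m * ((t ^ (a m) : Rˣ) : R) := by
  classical
  have h1 : ∀ m', e m' * ((∏ m, tau (he.idem m) t ^ (a m) : Rˣ) : R) =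
      e m' * ((t ^ (a m') : Rˣ) : R) := by
    intro m'
    have h2 : (∏ m, tau (he.idem m) t ^ (a m)) * (t ^ (a m'))⁻¹ ∈ H (e m') := by
      rw [← Finset.mul_prod_erase Finset.univ (fun m => tau (he.idem m) t ^ (a m))
        (Finset.mem_univ m')]
      have h3 : (tau (he.idem m') t ^ (a m') *
          ∏ m ∈ Finset.univ.erase m', tau (he.idem m) t ^ (a m)) * (t ^ (a m'))⁻¹ =
          (tau (he.idem m') t * t⁻¹) ^ (a m') *
            ∏ m ∈ Finset.univ.erase m', tau (he.idem m) t ^ (a m) := by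
        rw [_root_.mul_zpow, _root_.inv_zpow]
        exact mul_right_comm _ _ _
      rw [h3]
      refine (H (e m')).mul_mem ((H (e m')).zpow_mem (tau_div_mem (he.idem m') t) _)
        ((H (e m')).prod_mem fun m hm => ?_)
      rw [Finset.mem_erase] at hm
      exact (H (e m')).zpow_mem (tau_mem (he.idem m) t (he.ortho hm.1.symm)) _
    rw [mem_H, Units.val_mul, ← mul_assoc] at h2
    calc e m' * ((∏ m, tau (he.idem m) t ^ (a m) : Rˣ) : R)
        = e m' * ((∏ m, tau (he.idem m) t ^ (a m) : Rˣ) : R) *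
          (((t ^ (a m'))⁻¹ : Rˣ) : R) * ((t ^ (a m') : Rˣ) : R) := by
          rw [mul_assoc _ (((t ^ (a m'))⁻¹ : Rˣ) : R), Units.inv_mul, mul_one]
      _ = _ := by rw [h2]
  calc ((∏ m, tau (he.idem m) t ^ (a m) : Rˣ) : R)
      = (∑ m', e m') * ((∏ m, tau (he.idem m) t ^ (a m) : Rˣ) : R) := by
        rw [he.complete, one_mul]
    _ = _ := by
        rw [Finset.sum_mul]
        exact Finset.sum_congr rfl fun m' _ => h1 m'

end Units

section Del

variable {A B C D : Type} [CommRing A] [CommRing B] [CommRing C] [CommRing D]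

theorem uniq (hDEL : S_DEL) (s : MSq A B C D) {κ : Type} [Fintype κ] [DecidableEq κ]
    {U : Matrix κ κ D} {x x' : K0 A}
    (h : IsDel s U x) (h' : IsDel s U x') : x = x' := by
  obtain ⟨-, d2, -⟩ := hDEL s
  refine d2 U U 1 1 1 1 x x' (Matrix.one_mul 1) (Matrix.one_mul 1) (Matrix.one_mul 1)
    (Matrix.one_mul 1) ?_ h h'
  rw [Matrix.map_one s.p (map_zero s.p) (map_one s.p),
    Matrix.map_one s.q (map_zero s.q) (map_one s.q), Matrix.one_mul, Matrix.mul_one]

theorem ex_unit (hDEL : S_DEL) (s : MSq A B C D) {κ : Type} [Fintype κ] [DecidableEq κ]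
    (U : (Matrix κ κ D)ˣ) : ∃ x, IsDel s (U : Matrix κ κ D) x :=
  (hDEL s).1 _ _ U.mul_inv U.inv_mul

theorem mul_unit (hMUL : S_MUL) (s : MSq A B C D) {κ : Type} [Fintype κ] [DecidableEq κ]
    (U V : (Matrix κ κ D)ˣ) {x y : K0 A} (hx : IsDel s (U : Matrix κ κ D) x)
    (hy : IsDel s (V : Matrix κ κ D) y) :
    IsDel s ((U * V : (Matrix κ κ D)ˣ) : Matrix κ κ D) (x + y) :=
  (hMUL s).1 _ _ _ _ x y U.mul_inv U.inv_mul V.mul_inv V.inv_mul hx hy

/-- the diagonal matrix of units -/
def dia {κ : Type} [Fintype κ] [DecidableEq κ] (u : κ → Dˣ) : (Matrix κ κ D)ˣ where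
  val := Matrix.diagonal fun i => (u i : D)
  inv := Matrix.diagonal fun i => (((u i)⁻¹ : Dˣ) : D)
  val_inv := by rw [Matrix.diagonal_mul_diagonal]; simp
  inv_val := by rw [Matrix.diagonal_mul_diagonal]; simp

theorem dia_mul {κ : Type} [Fintype κ] [DecidableEq κ] (u v : κ → Dˣ) :
    dia (fun i => u i * v i) = dia u * dia v := by
  ext1
  change (Matrix.diagonal fun i => ((u i * v i : Dˣ) : D)) =
    (Matrix.diagonal fun i => (u i : D)) * Matrix.diagonal fun i => (v i : D)
  rw [Matrix.diagonal_mul_diagonal]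
  simp

/-- the boundary of units, as a homomorphism -/
theorem hom (hDEL : S_DEL) (hMUL : S_MUL) (s : MSq A B C D) :
    ∃ F : Dˣ →* Multiplicative (K0 A), ∀ u : Dˣ,
      IsDel s (Matrix.diagonal fun _ : Fin 1 => (u : D)) (Multiplicative.toAdd (F u)) := by
  choose f hf using fun u : Dˣ => ex_unit hDEL s (dia fun _ : Fin 1 => u)
  refine ⟨MonoidHom.mk' (fun u => Multiplicative.ofAdd (f u)) ?_, hf⟩
  intro u v
  change Multiplicative.ofAdd (f (u * v)) = Multiplicative.ofAdd (f u + f v)
  congr 1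
  refine uniq hDEL s (hf (u * v)) ?_
  have h1 := mul_unit hMUL s _ _ (hf u) (hf v)
  rwa [← dia_mul] at h1

/-- an invertible matrix over the polynomial ring, over the Laurent polynomial ring -/
noncomputable def mapUn {S R : Type} [Ring S] [Ring R] (φ : S →+* R) {n : ℕ} {P P' : Matrix (Fin n) (Fin n) S}
    (h1 : P * P' = 1) (h2 : P' * P = 1) : (Matrix (Fin n) (Fin n) R)ˣ where
  val := P.map φ
  inv := P'.map φ
  val_inv := by rw [← Matrix.map_mul, h1, Matrix.map_one φ (map_zero φ) (map_one φ)]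
  inv_val := by rw [← Matrix.map_mul, h2, Matrix.map_one φ (map_zero φ) (map_one φ)]

end Del

/-- the unit `T` -/
noncomputable def TU (R : Type) [CommRing R] : (LaurentPolynomial R)ˣ where
  val := LaurentPolynomial.T 1
  inv := LaurentPolynomial.T (-1)
  val_inv := by rw [← LaurentPolynomial.T_add]; simp
  inv_val := by rw [← LaurentPolynomial.T_add]; simp

theorem TU_zpow (R : Type) [CommRing R] (a : ℤ) :
    ((TU R ^ a : (LaurentPolynomial R)ˣ) : LaurentPolynomial R) = LaurentPolynomial.T a := by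
  have h : ∀ n : ℕ, ((TU R ^ n : (LaurentPolynomial R)ˣ) : LaurentPolynomial R) =
      LaurentPolynomial.T (n : ℤ) := by
    intro n
    rw [Units.val_pow_eq_pow_val]
    change (LaurentPolynomial.T 1 : LaurentPolynomial R) ^ n = _
    rw [LaurentPolynomial.T_pow, mul_one]
  obtain ⟨n, rfl | rfl⟩ := a.eq_nat_or_neg
  · rw [zpow_natCast, h]
  · rw [_root_.zpow_neg, zpow_natCast]
    refine (Units.eq_inv_of_mul_eq_one_right (u := TU R ^ n) ?_).symm
    rw [h, ← LaurentPolynomial.T_add]
    simp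

end DGN

open DGN in
/-- KM_DGN. Generation of the boundaries -/
theorem t_DGN (hDEL : S_DEL) (hMUL : S_MUL) (hDGA : S_DGA) (hDGB : S_DGB) : S_DGN := by
  intro A B C D _ _ _ _ _ _ s ε hε v hv
  classical
  obtain ⟨F, hF⟩ := hom hDEL hMUL s.laur
  -- the idempotents of the Laurent polynomial ring
  have hC : CompleteOrthogonalIdempotents (fun m => (LaurentPolynomial.C (ε m) :
      LaurentPolynomial D)) := hε.1.map (LaurentPolynomial.C (R := D))
  have htau : ∀ m, ((tau (hC.idem m) (TU D) : (LaurentPolynomial D)ˣ) : LaurentPolynomial D) =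
      tauE (ε m) := by
    intro m
    change LaurentPolynomial.C (ε m) * LaurentPolynomial.T 1 + (1 - LaurentPolynomial.C (ε m)) = _
    unfold tauE
    rw [map_sub, map_one]
  have hvF : ∀ m, v m = Multiplicative.toAdd (F (tau (hC.idem m) (TU D))) := by
    intro m
    have h1 := hF (tau (hC.idem m) (TU D))
    rw [htau] at h1
    exact uniq hDEL s.laur (hv m) h1
  have hpr : ∀ a : MaximalSpectrum D → ℤ,
      ((∏ m, tau (hC.idem m) (TU D) ^ (a m) : (LaurentPolynomial D)ˣ) : LaurentPolynomial D) =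
      ∑ m, LaurentPolynomial.C (ε m) * LaurentPolynomial.T (a m) := by
    intro a
    rw [prod_tau hC (TU D) a]
    refine Finset.sum_congr rfl fun m _ => ?_
    rw [TU_zpow]
  have hFpr : ∀ a : MaximalSpectrum D → ℤ,
      Multiplicative.toAdd (F (∏ m, tau (hC.idem m) (TU D) ^ (a m))) = ∑ m, a m • v m := by
    intro a
    rw [map_prod, toAdd_prod]
    refine Finset.sum_congr rfl fun m _ => ?_
    rw [map_zpow, toAdd_zpow, hvF m]
  refine ⟨?_, ?_⟩
  · -- the sum of all
    have h1 : ((∏ m, tau (hC.idem m) (TU D) ^ (1 : ℤ) : (LaurentPolynomial D)ˣ)) = TU D := by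
      ext1
      rw [hpr (fun _ => 1), ← Finset.sum_mul, ← map_sum, hε.1.complete, map_one, one_mul]
      rfl
    have h2 := hFpr (fun _ => 1)
    rw [h1] at h2
    have h3 : IsDel s.laur (Matrix.diagonal fun _ : Fin 1 => ((TU D : (LaurentPolynomial D)ˣ) :
        LaurentPolynomial D)) 0 := by
      have h4 := (hDEL s.laur).2.2.2.2.2 (κ := Fin 1) (dia fun _ => TU C).val
        (dia fun _ => TU C).inv (dia fun _ => TU C).mul_inv (dia fun _ => TU C).inv_mul
      have h5 : ((dia fun _ : Fin 1 => TU C).val : Matrix (Fin 1) (Fin 1)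
          (LaurentPolynomial C)).map s.laur.q = Matrix.diagonal fun _ : Fin 1 =>
            ((TU D : (LaurentPolynomial D)ˣ) : LaurentPolynomial D) := by
        change (Matrix.diagonal fun _ : Fin 1 => (LaurentPolynomial.T 1 :
          LaurentPolynomial C)).map (mapL s.q) = Matrix.diagonal fun _ : Fin 1 =>
            (LaurentPolynomial.T 1 : LaurentPolynomial D)
        rw [Matrix.diagonal_map (map_zero _)]
        congr 1
        funext _
        have h6 := mapL_single s.q 1 1
        rw [map_one] at h6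
        exact h6
      rwa [h5] at h4
    have h6 := uniq hDEL s.laur (hF (TU D)) h3
    rw [h2] at h6
    have h7 := congrArg (KNegOne.mk (R := A)) h6
    rw [map_sum, map_zero] at h7
    rw [← h7]
    exact Finset.sum_congr rfl fun m _ => by rw [one_smul]
  · -- generation
    intro n U V y h1 h2 hy
    obtain ⟨P, P', Q, Q', R, R', S, S', a, p1, p2, q1, q2, r1, r2, s1, s2, hU⟩ :=
      hDGA ε hε n U V h1 h2
    obtain ⟨x1, hx1⟩ := ex_unit hDEL s.laur (mapUn (posIncl D) p1 p2)
    obtain ⟨x2, hx2⟩ := ex_unit hDEL s.laur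
      (dia fun i : Fin n => ∏ m, tau (hC.idem m) (TU D) ^ (a m i))
    obtain ⟨x3, hx3⟩ := ex_unit hDEL s.laur (mapUn (posIncl D) q1 q2)
    obtain ⟨x4, hx4⟩ := ex_unit hDEL s.laur (mapUn (negIncl D) r1 r2)
    obtain ⟨x5, hx5⟩ := ex_unit hDEL s.laur (mapUn (posIncl D) s1 s2)
    have h3 := mul_unit hMUL s.laur _ _ (mul_unit hMUL s.laur _ _ (mul_unit hMUL s.laur _ _
      (mul_unit hMUL s.laur _ _ hx1 hx2) hx3) hx4) hx5
    have h4 : (((mapUn (posIncl D) p1 p2 * (dia fun i : Fin n => ∏ m,
        tau (hC.idem m) (TU D) ^ (a m i)) * mapUn (posIncl D) q1 q2 * mapUn (negIncl D) r1 r2 *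
        mapUn (posIncl D) s1 s2 : (Matrix (Fin n) (Fin n) (LaurentPolynomial D))ˣ)) :
        Matrix (Fin n) (Fin n) (LaurentPolynomial D)) = U := by
      rw [hU, Units.val_mul, Units.val_mul, Units.val_mul, Units.val_mul]
      congr 4
      change (Matrix.diagonal fun i => ((∏ m, tau (hC.idem m) (TU D) ^ (a m i) :
        (LaurentPolynomial D)ˣ) : LaurentPolynomial D)) = _
      congr 1
      funext i
      exact hpr fun m => a m i
    rw [h4] at h3
    have h5 := uniq hDEL s.laur hy h3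
    obtain ⟨b1, b2, b3⟩ := hDGB s
    have e1 := b1 n P P' x1 p1 p2 hx1
    have e3 := b1 n Q Q' x3 q1 q2 hx3
    have e4 := b2 n R R' x4 r1 r2 hx4
    have e5 := b1 n S S' x5 s1 s2 hx5
    have e2 := b3 n (fun i => ∏ m, tau (hC.idem m) (TU D) ^ (a m i)) _ x2
      (fun i => hF (∏ m, tau (hC.idem m) (TU D) ^ (a m i))) hx2
    refine ⟨fun m => ∑ i, a m i, ?_⟩
    rw [h5, map_add, map_add, map_add, map_add, e1, e3, e4, e5, zero_add, add_zero, add_zero,
      add_zero, e2, map_sum]
    calc _ = ∑ i, ∑ m, a m i • KNegOne.mk (v m) := by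
          refine Finset.sum_congr rfl fun i _ => ?_
          rw [hFpr (fun m => a m i), map_sum]
          exact Finset.sum_congr rfl fun m _ => map_zsmul _ _ _
      _ = _ := by
          rw [Finset.sum_comm]
          exact Finset.sum_congr rfl fun m _ => (Finset.sum_smul).symm

end Pool.Agent.KM
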