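import Pool.Agent.KM.St2

/-!
# KM_DWD: window data exist over a Dedekind domain
-/

set_option autoImplicit false
set_option linter.unusedSectionVars false

open Matrix Polynomial Pool.Agent.Lib25

namespace Pool.Agent.KM

section Dwd

variable {R : Type} [CommRing R] {n : ℕ}

private theorem dwd_Phi_add {q : ℕ} (x y : Fin n × Fin q → R) :
    Phi (x + y) = Phi x + Phi y := by
  funext i
  simp only [Phi, Pi.add_apply, map_add, add_mul, Finset.sum_add_distrib]

private theorem dwd_Phi_smul {q : ℕ} (c : R) (x : Fin n × Fin q → R) :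
    Phi (c • x) = (LaurentPolynomial.C c : LaurentPolynomial R) • Phi x := by
  funext i
  simp only [Phi, Pi.smul_apply, smul_eq_mul, map_mul, Finset.mul_sum, mul_assoc]

private theorem dwd_Phi_zero {q : ℕ} : Phi (0 : Fin n × Fin q → R) = 0 := by
  funext i
  simp [Phi]

/-- The module of the fixed vectors in a window. -/
private noncomputable def dwdL (e : Matrix (Fin n) (Fin n) (LaurentPolynomial R)) (q : ℕ) :
    Submodule R (Fin n × Fin q → R) where
  carrier := {x | e.mulVec (Phi x) = Phi x}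
  add_mem' {x y} hx hy := by
    simp only [Set.mem_ofPred_eq] at hx hy ⊢
    rw [dwd_Phi_add, Matrix.mulVec_add, hx, hy]
  zero_mem' := by
    simp only [Set.mem_ofPred_eq]
    rw [dwd_Phi_zero, Matrix.mulVec_zero]
  smul_mem' c x hx := by
    simp only [Set.mem_ofPred_eq] at hx ⊢
    rw [dwd_Phi_smul, Matrix.mulVec_smul, hx]

private noncomputable def dwdE0 (n m : ℕ) :
    (Fin n × Fin (2 * m) → R) →ₗ[R] (Fin n × Fin (2 * m + 1) → R) where
  toFun := ext0
  map_add' x y := by
    funext z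
    simp only [ext0, Pi.add_apply]
    split_ifs <;> simp
  map_smul' c x := by
    funext z
    simp only [ext0, Pi.smul_apply, RingHom.id_apply]
    split_ifs <;> simp

private noncomputable def dwdE1 (n m : ℕ) :
    (Fin n × Fin (2 * m) → R) →ₗ[R] (Fin n × Fin (2 * m + 1) → R) where
  toFun := ext1
  map_add' x y := by
    funext z
    simp only [ext1, Pi.add_apply]
    split_ifs <;> simp
  map_smul' c x := by
    funext z
    simp only [ext1, Pi.smul_apply, RingHom.id_apply]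
    split_ifs <;> simp

private theorem dwd_Phi_ext0 {m : ℕ} (x : Fin n × Fin (2 * m) → R) :
    Phi (ext0 x) = Phi x := by
  funext i
  simp only [Phi]
  rw [Fin.sum_univ_castSucc]
  have h1 : ext0 x (i, Fin.last (2 * m)) = 0 := by
    simp [ext0]
  have h2 : ∀ k : Fin (2 * m), ext0 x (i, Fin.castSucc k) = x (i, k) := by
    intro k
    simp [ext0]
  rw [h1, map_zero, zero_mul, add_zero]
  exact Finset.sum_congr rfl fun k _ => by rw [h2]; rfl

private theorem dwd_Phi_ext1 {m : ℕ} (x : Fin n × Fin (2 * m) → R) :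
    Phi (ext1 x) = (LaurentPolynomial.T 1 : LaurentPolynomial R) • Phi x := by
  funext i
  simp only [Phi, Pi.smul_apply, smul_eq_mul]
  rw [Fin.sum_univ_succ]
  have h1 : ext1 x (i, (0 : Fin (2 * m + 1))) = 0 := by
    simp [ext1]
  have h2 : ∀ k : Fin (2 * m), ext1 x (i, Fin.succ k) = x (i, k) := by
    intro k
    simp [ext1]
  rw [h1, map_zero, zero_mul, zero_add, Finset.mul_sum]
  refine Finset.sum_congr rfl fun k _ => ?_
  rw [h2, Fin.val_succ, Nat.cast_add, Nat.cast_one, LaurentPolynomial.T_add]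
  ring

private theorem dwd_col {κ : Type} [Fintype κ] {r : ℕ} (Λ : Matrix κ (Fin r) R)
    (v : Fin r → R) : Λ.mulVec v = ∑ j, v j • (fun i => Λ i j) := by
  funext i
  rw [Finset.sum_apply]
  simp only [Matrix.mulVec, dotProduct, Pi.smul_apply, smul_eq_mul]
  exact Finset.sum_congr rfl fun j _ => mul_comm _ _

private theorem dwd_mem {κ : Type} [Fintype κ] {r : ℕ} {Λ : Matrix κ (Fin r) R}
    {L : Submodule R (κ → R)} (h : ∀ j, (fun i => Λ i j) ∈ L) (v : Fin r → R) :
    Λ.mulVec v ∈ L := by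
  rw [dwd_col]
  exact Submodule.sum_mem _ fun j _ => L.smul_mem _ (h j)

/-- The lift of a linear map. -/
private theorem dwd_lift {κ κ' : Type} [Fintype κ] [Fintype κ'] {r r' : ℕ}
    {L : Submodule R (κ → R)} {N : Submodule R (κ' → R)} (E : (κ' → R) →ₗ[R] (κ → R))
    (hE : ∀ x ∈ N, E x ∈ L) {l : Matrix (Fin r) (Fin r) R} {Λ : Matrix κ (Fin r) R}
    {l' : Matrix (Fin r') (Fin r') R} {Λ' : Matrix κ' (Fin r') R}
    (hl' : l' * l' = l') (hΛ' : Λ' * l' = Λ')
    (hN : ∀ j, (fun i => Λ' i j) ∈ N)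
    (hs : ∀ x ∈ L, ∃ v, l.mulVec v = v ∧ Λ.mulVec v = x) :
    ∃ J : Matrix (Fin r) (Fin r') R, l * J = J ∧ J * l' = J ∧
      ∀ v, Λ.mulVec (J.mulVec v) = E (Λ'.mulVec v) := by
  choose u hu1 hu2 using fun j => hs _ (hE _ (hN j))
  obtain ⟨V, hV⟩ : ∃ V : Matrix (Fin r) (Fin r') R, V = Matrix.of fun i j => u j i := ⟨_, rfl⟩
  have h1 : l * V = V := by
    ext i j
    have h := congrFun (hu1 j) i
    rw [hV]
    simpa [Matrix.mul_apply, Matrix.mulVec, dotProduct] using h
  have h2 : ∀ v, Λ.mulVec (V.mulVec v) = E (Λ'.mulVec v) := by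
    intro v
    rw [dwd_col V v, dwd_col Λ' v, map_sum, Matrix.mulVec_sum]
    refine Finset.sum_congr rfl fun j _ => ?_
    rw [Matrix.mulVec_smul, map_smul, ← hu2 j]
    congr 2
    funext i
    rw [hV]
    rfl
  refine ⟨V * l', ?_, ?_, ?_⟩
  · rw [← Matrix.mul_assoc, h1]
  · rw [Matrix.mul_assoc, hl']
  · intro v
    rw [← Matrix.mulVec_mulVec, h2, Matrix.mulVec_mulVec, hΛ']

end Dwd

theorem t_DWD (hPRJ : S_PRJ) : S_DWD := by
  intro R _ _ n e m
  obtain ⟨rL, lL, ΛL, a1, a2, a3, a4, a5⟩ := hPRJ (dwdL e (2 * m + 1))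
  obtain ⟨rN, lN, ΛN, b1, b2, b3, b4, b5⟩ := hPRJ (dwdL e (2 * m))
  obtain ⟨J1, c1, c2, c3⟩ := dwd_lift (dwdE0 n m) (L := dwdL e (2 * m + 1))
    (N := dwdL e (2 * m)) (by
      intro x hx
      show e.mulVec (Phi (ext0 x)) = Phi (ext0 x)
      rw [dwd_Phi_ext0]
      exact hx) b1 b2 b3 a4
  obtain ⟨J2, d1, d2, d3⟩ := dwd_lift (dwdE1 n m) (L := dwdL e (2 * m + 1))
    (N := dwdL e (2 * m)) (by
      intro x hx
      have hx' : e.mulVec (Phi x) = Phi x := hx
      show e.mulVec (Phi (ext1 x)) = Phi (ext1 x)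
      rw [dwd_Phi_ext1, Matrix.mulVec_smul, hx']) b1 b2 b3 a4
  exact ⟨{
    rL := rL
    rN := rN
    lL := lL
    lN := lN
    ΛL := ΛL
    ΛN := ΛN
    J1 := J1
    J2 := J2
    idemL := a1
    idemN := b1
    mulL := a2
    mulN := b2
    memL := fun v => dwd_mem a3 v
    memN := fun v => dwd_mem b3 v
    surL := fun x hx => a4 x hx
    surN := fun x hx => b4 x hx
    injL := a5
    injN := b5
    J1l := c1
    J1r := c2
    J1e := c3
    J2l := d1
    J2r := d2
    J2e := d3 }⟩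

end Pool.Agent.KM
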