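import Pool.Agent.KM.DX0

/-!
# KM_DXA: algebraic identities, injectivity, surjectivity
-/

set_option autoImplicit false
set_option linter.unusedSectionVars false

open Matrix Polynomial Pool.Agent.Lib25

noncomputable section

namespace Pool.Agent.KM

open DX

theorem DX.inj {R : Type} [CommRing R] {n : ℕ} {e : Matrix (Fin n) (Fin n) (LaurentPolynomial R)}
    {m : ℕ} (W : WD e m) (v : Fin W.rN → LaurentPolynomial R)
    (hv : (W.lN.map LaurentPolynomial.C).mulVec v = v) (hi : W.i.mulVec v = 0) : v = 0 := by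
  rw [fixed_iff] at hv
  obtain ⟨B, hB⟩ := exists_bound v
  have key : ∀ t : ℕ, ∀ k : ℤ, (B : ℤ) - t ≤ k → cf v k = 0 := by
    intro t
    induction t with
    | zero =>
      intro k hk
      by_contra h
      have := hB k h
      push_cast at hk
      omega
    | succ t ih =>
      intro k hk
      push_cast at hk
      have h1 := cf_i W v (k + 1)
      rw [hi, cf_zero, ih (k + 1) (by linarith), Matrix.mulVec_zero, sub_zero,
        add_sub_cancel_right] at h1
      have h2 := W.J1e (cf v k)
      rw [← h1, Matrix.mulVec_zero] at h2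
      have h3 := Phi_ext0 (W.ΛN.mulVec (cf v k))
      rw [← h2, Phi_zero] at h3
      have h4 : W.ΛN.mulVec (cf v k) = 0 := by
        apply Phi_injective
        rw [← h3, Phi_zero]
      exact W.injN _ (hv k) h4
  apply cf_ext
  intro k
  rw [cf_zero]
  exact key ((B : ℤ) - k).toNat k (by omega)

theorem t_DXA (hWIN : S_WIN) : S_DXA := by
  intro R _ n e m W he hm
  refine ⟨i_lN W, lL_i W, pi_lL W, e_pi W, pi_i W, DX.inj W, ?_⟩
  intro z hz
  obtain ⟨S, w, hw, hz'⟩ := hWIN n m e he hm z hz
  have h1 : ∀ k, ∃ x : Fin n × Fin (2 * m + 1) → R, w k = Phi x := by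
    intro k
    apply exists_Phi
    intro k' hk'
    obtain ⟨i, hi⟩ : ∃ i, cf (w k) k' i ≠ 0 := by
      by_contra h
      push Not at h
      exact hk' (funext h)
    have h2 := (hw k).2 i k' hi
    push_cast
    omega
  choose x hx using h1
  have h2 : ∀ k, ∃ v, W.lL.mulVec v = v ∧ W.ΛL.mulVec v = x k := by
    intro k
    refine W.surL (x k) ?_
    rw [← hx]
    exact (hw k).1
  choose v hv1 hv2 using h2
  refine ⟨∑ k ∈ S, (LaurentPolynomial.T k : LaurentPolynomial R) • cst (v k), ?_, ?_⟩
  · rw [Matrix.mulVec_sum]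
    refine Finset.sum_congr rfl fun k _ => ?_
    rw [Matrix.mulVec_smul, mulVec_cst, hv1]
  · rw [Matrix.mulVec_sum, hz']
    refine Finset.sum_congr rfl fun k _ => ?_
    rw [Matrix.mulVec_smul, pi_cst, hv2, hx]

end Pool.Agent.KM
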