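import Pool.Agent.KM.DX0

/-!
# KM_DXK: exactness in the middle
-/

set_option autoImplicit false
set_option linter.unusedSectionVars false

open Matrix Polynomial Pool.Agent.Lib25

noncomputable section

namespace Pool.Agent.KM

namespace DX

variable {R : Type} [CommRing R] {n : ℕ} {e : Matrix (Fin n) (Fin n) (LaurentPolynomial R)}
  {m : ℕ}

/-- If all exponents of `w` are `> a`, the same holds for `π w`. -/
theorem cf_pi_zero (W : WD e m) (w : Fin W.rL → LaurentPolynomial R) (a : ℤ)
    (hw : ∀ k, k ≤ a → cf w k = 0) : cf (W.π.mulVec w) a = 0 := by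
  rw [pi_eq, ← Matrix.mulVec_mulVec]
  obtain ⟨u, hu⟩ : ∃ u, u = (W.ΛL.map LaurentPolynomial.C).mulVec w := ⟨_, rfl⟩
  have hu1 : ∀ k, k ≤ a → cf u k = 0 := by
    intro k hk
    rw [hu, cf_mulVec, hw k hk, Matrix.mulVec_zero]
  rw [← hu]
  funext i
  unfold cf Matrix.mulVec dotProduct
  rw [lco_sum]
  refine Finset.sum_eq_zero fun z _ => ?_
  change lco ((if z.1 = i then LaurentPolynomial.T ((z.2 : ℕ) : ℤ) else 0) * u z) a = 0
  split_ifs
  · rw [lco_T_mul]
    exact congrFun (hu1 (a - ((z.2 : ℕ) : ℤ)) (by omega)) z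
  · rw [zero_mul]
    rfl

theorem cf_single (v : Fin n → R) (a k : ℤ) :
    cf ((LaurentPolynomial.T a : LaurentPolynomial R) • cst v) k = if k = a then v else 0 := by
  rw [cf_T_smul, cf_cst]
  by_cases h : k = a
  · rw [if_pos h, if_pos (by omega)]
  · rw [if_neg h, if_neg (by omega)]

theorem DXK_aux (W : WD e m) (t : ℕ) : ∀ (a : ℤ) (w : Fin W.rL → LaurentPolynomial R),
    (∀ k, cf w k ≠ 0 → a ≤ k ∧ k < a + t) → (W.lL.map LaurentPolynomial.C).mulVec w = w →
    W.π.mulVec w = 0 →
    ∃ v, (W.lN.map LaurentPolynomial.C).mulVec v = v ∧ W.i.mulVec v = w := by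
  induction t with
  | zero =>
    intro a w hw _ _
    have h0 : w = 0 := by
      apply cf_ext
      intro k
      rw [cf_zero]
      by_contra h
      have := hw k h
      push_cast at this
      omega
    exact ⟨0, Matrix.mulVec_zero _, by rw [h0, Matrix.mulVec_zero]⟩
  | succ t ih =>
    intro a w hw hl hπ
    have hla : ∀ k, W.lL.mulVec (cf w k) = cf w k := (fixed_iff _ _).1 hl
    obtain ⟨x, hx⟩ : ∃ x, x = W.ΛL.mulVec (cf w a) := ⟨_, rfl⟩
    obtain ⟨w0, hw0⟩ : ∃ w0, w0 = w - (LaurentPolynomial.T a : LaurentPolynomial R) •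
      cst (cf w a) := ⟨_, rfl⟩
    have hcw0 : ∀ k, cf w0 k = if k = a then 0 else cf w k := by
      intro k
      rw [hw0, cf_sub, cf_single]
      split_ifs with h
      · rw [h, sub_self]
      · rw [sub_zero]
    have hw0' : ∀ k, k ≤ a → cf w0 k = 0 := by
      intro k hk
      rw [hcw0]
      split_ifs with h
      · rfl
      · by_contra h1
        have := hw k h1
        omega
    have hπ0 : W.π.mulVec w = (LaurentPolynomial.T a : LaurentPolynomial R) • Phi x +
        W.π.mulVec w0 := by
      rw [hw0, Matrix.mulVec_sub, Matrix.mulVec_smul, pi_cst, ← hx]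
      abel
    by_cases ht : t = 0
    · -- `w` is supported in one point
      have h1 : w0 = 0 := by
        apply cf_ext
        intro k
        rw [cf_zero, hcw0]
        split_ifs with h
        · rfl
        · by_contra h1
          have := hw k h1
          subst ht
          push_cast at this
          omega
      rw [hπ, h1, Matrix.mulVec_zero, add_zero] at hπ0
      have h2 : Phi x = 0 := by
        apply T_smul_cancel (k := a)
        rw [← hπ0, smul_zero]
      have h3 : x = 0 := by
        apply Phi_injective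
        rw [h2, Phi_zero]
      have h4 : cf w a = 0 := W.injL _ (hla a) (by rw [← hx, h3])
      have h5 : w = 0 := by
        rw [h1, h4] at hw0
        have h6 : cst (0 : Fin W.rL → R) = 0 := by
          funext i
          exact map_zero _
        rw [h6, smul_zero, sub_zero] at hw0
        exact hw0.symm
      exact ⟨0, Matrix.mulVec_zero _, by rw [h5, Matrix.mulVec_zero]⟩
    · -- the lowest coefficient
      have hx0 : ∀ i, x (i, 0) = 0 := by
        intro i
        have h1 := congrFun (congrArg (fun v => cf v a) hπ0) i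
        simp only [hπ, cf_add, cf_T_smul, sub_self, cf_pi_zero W w0 a hw0', add_zero,
          cf_zero] at h1
        have h2 := cf_Phi x i 0
        rw [← h2]
        exact h1.symm
      obtain ⟨y, hy⟩ : ∃ y : Fin n × Fin (2 * m) → R, y = fun z => x (z.1, z.2.succ) := ⟨_, rfl⟩
      have hyx : ext1 y = x := by
        funext z
        obtain ⟨i, q⟩ := z
        unfold ext1
        rw [hy]
        refine Fin.cases ?_ (fun q' => ?_) q
        · simp [hx0]
        · rw [dif_pos (by simp)]
          rfl
      have hey : e.mulVec (Phi y) = Phi y := by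
        apply T_smul_cancel (k := 1)
        rw [← Matrix.mulVec_smul, ← Phi_ext1, hyx, hx, W.memL]
      obtain ⟨u, hu1, hu2⟩ := W.surN y hey
      have hJ2 : W.J2.mulVec u = cf w a := by
        rw [← sub_eq_zero]
        refine W.injL _ ?_ ?_
        · rw [Matrix.mulVec_sub, Matrix.mulVec_mulVec, W.J2l, hla]
        · rw [Matrix.mulVec_sub, W.J2e, hu2, hyx, hx, sub_self]
      obtain ⟨g, hg⟩ : ∃ g : Fin W.rN → LaurentPolynomial R,
        g = (LaurentPolynomial.T a : LaurentPolynomial R) • cst u := ⟨_, rfl⟩
      have hgN : (W.lN.map LaurentPolynomial.C).mulVec g = g := by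
        rw [hg, Matrix.mulVec_smul, mulVec_cst, hu1]
      obtain ⟨w', hw'⟩ : ∃ w', w' = w + W.i.mulVec g := ⟨_, rfl⟩
      have c1 : ∀ k, cf w' k ≠ 0 → a + 1 ≤ k ∧ k < a + 1 + t := by
        intro k hk
        rw [hw', cf_add, cf_i, hg] at hk
        by_cases h1 : k = a
        · exfalso
          apply hk
          rw [cf_single, cf_single, if_neg (by omega), if_pos h1, Matrix.mulVec_zero, hJ2, h1]
          abel
        · by_cases h2 : k = a + 1
          · have : 1 ≤ t := Nat.one_le_iff_ne_zero.2 ht
            constructor <;> omega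
          · rw [cf_single, cf_single, if_neg (by omega), if_neg h1, Matrix.mulVec_zero,
              Matrix.mulVec_zero, sub_zero, add_zero] at hk
            have := hw k hk
            push_cast at this
            constructor <;> omega
      have c2 : (W.lL.map LaurentPolynomial.C).mulVec w' = w' := by
        rw [hw', Matrix.mulVec_add, hl, Matrix.mulVec_mulVec, lL_i]
      have c3 : W.π.mulVec w' = 0 := by
        rw [hw', Matrix.mulVec_add, hπ, Matrix.mulVec_mulVec, pi_i, Matrix.zero_mulVec, add_zero]
      obtain ⟨v, hv1, hv2⟩ := ih (a + 1) w' c1 c2 c3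
      refine ⟨v - g, ?_, ?_⟩
      · rw [Matrix.mulVec_sub, hv1, hgN]
      · rw [Matrix.mulVec_sub, hv2, hw', add_sub_cancel_right]

end DX

open DX

theorem t_DXK : S_DXK := by
  intro R _ n e m W w hl hπ
  obtain ⟨B, hB⟩ := exists_bound w
  refine DXK_aux W (2 * B) (-(B : ℤ)) w (fun k hk => ?_) hl hπ
  have := hB k hk
  push_cast
  constructor <;> omega

end Pool.Agent.KM
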