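import Pool.Agent.KM.St2

/-!
# KM_EXQ: additivity on exact sequences of images of idempotents
-/

set_option autoImplicit false
set_option linter.unusedSectionVars false

open Matrix Polynomial Pool.Agent.Lib25

noncomputable section

namespace Pool.Agent.KM

namespace EXQ

variable {S : Type} [CommRing S] {a b c : Type} [Fintype a] [Fintype b] [Fintype c]

/-- Columnwise description of a product. -/
theorem mul_eq_iff {M : Matrix a b S} {N : Matrix b c S} {L : Matrix a c S} :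
    M * N = L ↔ ∀ j, M.mulVec (fun k => N k j) = fun k => L k j := by
  constructor
  · rintro rfl j
    rfl
  · intro h
    ext i j
    exact congrFun (h j) i

/-- Columnwise solution of `f τ = τ`, `i τ = ρ`. -/
theorem lift_cols {f : Matrix b b S} {i : Matrix a b S} {ρ : Matrix a c S}
    (h : ∀ j, ∃ v, f.mulVec v = v ∧ i.mulVec v = fun k => ρ k j) :
    ∃ τ : Matrix b c S, f * τ = τ ∧ i * τ = ρ := by
  choose v hv1 hv2 using h
  refine ⟨Matrix.of fun k j => v j k, ?_, ?_⟩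
  · rw [mul_eq_iff]
    exact hv1
  · rw [mul_eq_iff]
    exact hv2

/-- Injectivity for matrices. -/
theorem zero_of {f : Matrix b b S} {i : Matrix a b S}
    (h : ∀ v, f.mulVec v = v → i.mulVec v = 0 → v = 0) {M : Matrix b c S} (h1 : f * M = M)
    (h2 : i * M = 0) : M = 0 := by
  ext k j
  have h3 := h (fun k => M k j) (mul_eq_iff.1 h1 j) (mul_eq_iff.1 h2 j)
  exact congrFun h3 k

end EXQ

open EXQ

theorem t_EXQ : S_EXQ := by
  intro S _ ι κ μ _ _ _ _ _ _ e f g he hf hg i π hif hgi hπg heπ hπi hinj hex hsur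
  obtain ⟨W, hW1, hW2⟩ : ∃ W : Matrix μ ι S, g * W = W ∧ π * W = e := by
    refine lift_cols fun j => ?_
    exact hsur _ (mul_eq_iff.1 he j)
  obtain ⟨σ, hσ⟩ : ∃ σ : Matrix μ ι S, σ = W * e := ⟨_, rfl⟩
  have hgσ : g * σ = σ := by rw [hσ, ← Matrix.mul_assoc, hW1]
  have hπσ : π * σ = e := by rw [hσ, ← Matrix.mul_assoc, hW2, he]
  have hσe : σ * e = σ := by rw [hσ, Matrix.mul_assoc, he]
  obtain ⟨ρ, hρ⟩ : ∃ ρ : Matrix μ μ S, ρ = g - σ * π := ⟨_, rfl⟩
  have hgρ : g * ρ = ρ := by rw [hρ, mul_sub, hg, ← Matrix.mul_assoc, hgσ]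
  have hρg : ρ * g = ρ := by rw [hρ, Matrix.sub_mul, hg, Matrix.mul_assoc, hπg]
  have hπρ : π * ρ = 0 := by
    rw [hρ, Matrix.mul_sub, ← Matrix.mul_assoc, hπσ, hπg, heπ, sub_self]
  obtain ⟨τ0, hτ1, hτ2⟩ : ∃ τ : Matrix κ μ S, f * τ = τ ∧ i * τ = ρ := by
    refine lift_cols fun j => ?_
    refine hex _ (mul_eq_iff.1 hgρ j) ?_
    exact mul_eq_iff.1 hπρ j
  obtain ⟨τ, hτ⟩ : ∃ τ : Matrix κ μ S, τ = τ0 * g := ⟨_, rfl⟩
  have hfτ : f * τ = τ := by rw [hτ, ← Matrix.mul_assoc, hτ1]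
  have hiτ : i * τ = ρ := by rw [hτ, ← Matrix.mul_assoc, hτ2, hρg]
  have hτi : τ * i = f := by
    rw [← sub_eq_zero]
    refine zero_of hinj ?_ ?_
    · rw [Matrix.mul_sub, ← Matrix.mul_assoc, hfτ, hf]
    · rw [Matrix.mul_sub, ← Matrix.mul_assoc, hiτ, hif, hρ, Matrix.sub_mul, hgi, Matrix.mul_assoc, hπi,
        Matrix.mul_zero, sub_zero, sub_self]
  have hτσ : τ * σ = 0 := by
    refine zero_of hinj ?_ ?_
    · rw [← Matrix.mul_assoc, hfτ]
    · rw [← Matrix.mul_assoc, hiτ, hρ, Matrix.sub_mul, hgσ, Matrix.mul_assoc, hπσ, hσe, sub_self]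
  rw [← cl_blocks]
  refine cl_congr _ _ ?_
  refine ⟨Matrix.fromCols σ i, Matrix.fromRows π τ, ?_, ?_⟩
  · rw [Matrix.fromCols_mul_fromRows, hiτ, hρ]
    abel
  · rw [Matrix.fromRows_mul_fromCols, hπσ, hπi, hτσ, hτi]

end Pool.Agent.KM
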