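import Pool.Agent.KM.St1

/-!
# KM_F1 (MP_e40716_gt, helper83): homotopy invariance of `K₀` for finite commutative rings
-/

set_option autoImplicit false
set_option linter.unusedSectionVars false

open Matrix Polynomial Pool.Agent.Lib25

noncomputable section

namespace Pool.Agent.KM

/-- the value at `1`, as a constant matrix -/
def f1c {D : Type} [CommRing D] {m : ℕ} (e : Matrix (Fin m) (Fin m) D[X]) :
    Matrix (Fin m) (Fin m) D[X] :=
  (e.map (Polynomial.evalRingHom (1 : D))).map (Polynomial.C : D →+* D[X])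

theorem f1c_one {D : Type} [CommRing D] (m : ℕ) :
    f1c (1 : Matrix (Fin m) (Fin m) D[X]) = 1 := by
  unfold f1c
  rw [Matrix.map_one _ (map_zero _) (map_one _), Matrix.map_one _ (map_zero _) (map_one _)]

theorem f1c_idem {D : Type} [CommRing D] {m : ℕ} {e : Matrix (Fin m) (Fin m) D[X]}
    (he : e * e = e) : f1c e * f1c e = f1c e := by
  unfold f1c
  rw [← Matrix.map_mul, ← Matrix.map_mul, he]

theorem f1c_mvn {D : Type} [CommRing D] {m n : ℕ} {e : Matrix (Fin m) (Fin m) D[X]}
    {f : Matrix (Fin n) (Fin n) D[X]} (h : MvN e f) : MvN (f1c e) (f1c f) :=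
  (h.map _).map _

/-- the case of a field -/
theorem f1_field (hPID : S_PID) {k : Type} [Field k] {m : ℕ} (e : Matrix (Fin m) (Fin m) k[X])
    (he : e * e = e) : MvN e (f1c e) := by
  obtain ⟨r, hr⟩ := hPID m e he
  have h1 := f1c_mvn hr
  rw [f1c_one] at h1
  exact hr.trans he (f1c_idem he) h1.symm

theorem f1c_map {D E : Type} [CommRing D] [CommRing E] (φ : D →+* E) {m : ℕ}
    (e : Matrix (Fin m) (Fin m) D[X]) :
    (f1c e).map (Polynomial.mapRingHom φ) = f1c (e.map (Polynomial.mapRingHom φ)) := by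
  refine Matrix.ext fun i j => ?_
  show Polynomial.map φ (Polynomial.C (Polynomial.eval 1 (e i j))) =
    Polynomial.C (Polynomial.eval 1 (Polynomial.map φ (e i j)))
  rw [Polynomial.map_C, Polynomial.eval_map, Polynomial.eval₂_at_one]

theorem t_F1 (hPNL : S_PNL) (hPNI : S_PNI) (hFIN : S_FIN) (hPID : S_PID) : S_F1 := by
  intro D _ _
  obtain ⟨hfin, hrest⟩ := hFIN D
  let : Fintype (MaximalSpectrum D) := Fintype.ofFinite _
  have hJ : JNil (fun m : MaximalSpectrum D => Ideal.Quotient.mk m.asIdeal) := hrest.1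
  have hJX : JNil (fun m : MaximalSpectrum D =>
      Polynomial.mapRingHom (Ideal.Quotient.mk m.asIdeal)) := (hPNI _ hJ).2.1
  have claim : ∀ (m : ℕ) (e : Matrix (Fin m) (Fin m) D[X]), e * e = e → MvN e (f1c e) := by
    intro m e he
    refine hPNL _ hJX m m e (f1c e) he (f1c_idem he) ?_
    intro i
    rw [f1c_map]
    let : Field (D ⧸ i.asIdeal) := @Ideal.Quotient.field _ _ i.asIdeal i.isMaximal
    exact f1_field hPID (k := D ⧸ i.asIdeal) (e.map (Polynomial.mapRingHom _))
      (by rw [← Matrix.map_mul, he])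
  intro x hx
  obtain ⟨n, e, he, m, rfl⟩ := exists_cl x
  have h1 : cl e he = cl (f1c e) (f1c_idem he) := cl_congr _ _ (claim n e he)
  rw [map_sub, map_cl, map_one', sub_eq_zero] at hx
  have h2 := congrArg (K0.map (Polynomial.C : D →+* D[X])) hx
  rw [map_cl, map_one'] at h2
  rw [h1, sub_eq_zero]
  exact h2

end Pool.Agent.KM
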