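import Pool.Agent.KM.Defs

/-!
# MP_e40716_gt (b), block UB, part 1: K-theory of Milnor squares (statements and paper proofs)

AIM OF THE WHOLE PROJECT.  For every group `G` the map `colim_{H finite} K_{-1}(ℤ[H]) → K_{-1}(ℤ[G])`
has torsion kernel.  This file: the modules of the K-theory of Milnor squares, everything in terms
of idempotent matrices.  File names: `Pool/Agent/KM/P_X.lean`, theorem `t_X (hY : S_Y) ... : S_X`
(hypotheses = the statements named in the doc string), namespace `Pool.Agent.KM`.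
All rings are in `Type`.  Notation of `Defs.lean`: `cl e he`, `one R n`, `ngo`, `MSq`, `Tr`, `IsDel`.
-/

set_option autoImplicit false
set_option linter.unusedSectionVars false

open Matrix Polynomial Pool.Agent.Lib25

noncomputable section

namespace Pool.Agent.KM

/-- KM_PAT (150 lines, no hypotheses).  Patching.

PROOF.  Put `u1 = u v u`, `v1 = v u v`.  As `u v = p(eB)` and `v u = q(eC)` are idempotent:
`u1 v1 = u v`, `v1 u1 = v u`, `u1 v1 u1 = u1`, `v1 u1 v1 = v1`.  Lift `u1`, `v1` entrywise to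
matrices `X`, `Y` over `C` (`s.surjq`).  Put `β = [[1,X],[0,1]] [[1,0],[-Y,1]] [[1,X],[0,1]]` over
`C`, index `Fin m ⊕ Fin n`; inverse `β' = [[1,-X],[0,1]] [[1,0],[Y,1]] [[1,-X],[0,1]]`.
Over `D`: `q(β) = [[1 - u1 v1, u1],[-v1, 1 - v1 u1]]` (because `(1 - u1 v1) u1 = 0`) and
`q(β') = [[1 - u1 v1, -u1],[v1, 1 - v1 u1]]`.  Put `EB = diag(eB, 0)` over `B`,
`EC = β diag(0, eC) β'` over `C`; `q(EC) = diag(u1 v1, 0) = p(EB)`, so entrywise (`s.pull`, choice)
there is `E` over `A` with `f(E) = EB`, `g(E) = EC`, idempotent by `s.inj'`.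
`x = [eB; 0]`, `y = [eB, 0]`, `x' = β [0; eC]`, `y' = [0, eC] β'`:
`p(y) q(x') = p(eB) u1 q(eC) = u v u`.  Finally reindex `E` by `Fin (m + n)`
(`finSumFinEquiv`, `Matrix.submatrix`). -/
def S_PAT : Prop := ∀ {A B C D : Type} [Ring A] [Ring B] [Ring C] [Ring D] (s : MSq A B C D)
  (m n : ℕ) (eB : Matrix (Fin m) (Fin m) B) (eC : Matrix (Fin n) (Fin n) C)
  (u : Matrix (Fin m) (Fin n) D) (v : Matrix (Fin n) (Fin m) D), eB * eB = eB → eC * eC = eC →
  u * v = eB.map s.p → v * u = eC.map s.q →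
  ∃ (k : ℕ) (e : Matrix (Fin k) (Fin k) A) (x : Matrix (Fin k) (Fin m) B)
    (y : Matrix (Fin m) (Fin k) B) (x' : Matrix (Fin k) (Fin n) C) (y' : Matrix (Fin n) (Fin k) C),
    e * e = e ∧ x * y = e.map s.f ∧ y * x = eB ∧ x' * y' = e.map s.g ∧ y' * x' = eC ∧
    y.map s.p * x'.map s.q = u * v * u

/-- KM_GLU (80 lines, no hypotheses).  The transition matrix determines the idempotent.

PROOF.  `x1, y1, x1', y1'` for `e1` and `x2, y2, x2', y2'` for `e2`.  From the definition of `Tr`: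
`p(x1) U1 = p(f e1) q(x1') = q(g e1) q(x1') = q(x1')`, in the same way `p(x2) U2 = q(x2')` and
`U2 q(y2') = p(y2)`, `U1 q(y1') = p(y1)`.  Put `zB = x1 b' y2`, `wB = x2 b y1` over `B` and
`zC = x1' c y2'`, `wC = x2' c' y1'` over `C`.  Then `q(zC) = p(x1) U1 q(c) q(y2')
= p(x1) p(b') U2 q(y2') = p(x1) p(b') p(y2) = p(zB)`, similarly `q(wC) = p(wB)`
[`q(wC) = q(x2') q(c') q(y1') = p(x2) U2 q(c') q(y1') = p(x2) p(b) U1 q(y1') = p(x2) p(b) p(y1)`].
So there are `z`, `w` over `A` (entrywise `s.pull`) with `z w = e1`, `w z = e2`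
(check over `B` and over `C`, `s.inj'`: `zB wB = x1 b' y2 x2 b y1 = x1 y1 = f e1` etc.;
`wB zB = x2 b y1 x1 b' y2 = x2 y2`). -/
def S_GLU : Prop := ∀ {A B C D : Type} [Ring A] [Ring B] [Ring C] [Ring D] (s : MSq A B C D)
  {ι ι' κ κ' μ μ' : Type} [Fintype ι] [Fintype ι'] [Fintype κ] [DecidableEq κ] [Fintype κ']
  [DecidableEq κ'] [Fintype μ] [DecidableEq μ] [Fintype μ'] [DecidableEq μ']
  (e1 : Matrix ι ι A) (e2 : Matrix ι' ι' A) (U1 : Matrix κ μ D) (U2 : Matrix κ' μ' D)
  (b : Matrix κ' κ B) (b' : Matrix κ κ' B) (c : Matrix μ μ' C) (c' : Matrix μ' μ C),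
  e1 * e1 = e1 → e2 * e2 = e2 → b * b' = 1 → b' * b = 1 → c * c' = 1 → c' * c = 1 →
  U2 = b.map s.p * U1 * c.map s.q → Tr s e1 U1 → Tr s e2 U2 → MvN e1 e2

/-- KM_DEL (150 lines; hypotheses `S_PAT`, `S_GLU`).  The boundary map.

PROOF.
(1) `S_PAT` with `eB = 1`, `eC = 1`, `u = U`, `v = V`.  The sizes: `κ ≃ Fin n`; do it first for
`κ = Fin n`, then reindex (`Tr` is stable under reindexing the columns of `x`, `x'`).
(2) `S_GLU` gives `MvN`, then `cl_congr`.
(3) for a general index type `ι` of `e`: replace `e` by `(IM e he).mat` (submatrix).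
(4) block sums: `x ⊕ x2`, `y ⊕ y2` etc. (`Matrix.fromBlocks`), index `Fin n ⊕ Fin n'` then (3);
`cl_blocks`, and `1 = fromBlocks 1 0 0 1`.
(5) `Tr s (1 : Matrix κ κ A) (b.map s.p)` with `x = b'`, `y = b`, `x' = y' = 1`
[`b b' = 1`, `b' b = 1`]; likewise `Tr s 1 (c.map s.q)` with `x = y = 1`, `x' = c`, `y' = c'`. -/
def S_DEL : Prop := ∀ {A B C D : Type} [Ring A] [Ring B] [Ring C] [Ring D] (s : MSq A B C D),
  (∀ {κ : Type} [Fintype κ] [DecidableEq κ] (U V : Matrix κ κ D), U * V = 1 → V * U = 1 →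
    ∃ x, IsDel s U x) ∧
  (∀ {κ : Type} [Fintype κ] [DecidableEq κ] (U U' : Matrix κ κ D) (b b' : Matrix κ κ B)
    (c c' : Matrix κ κ C) (x x' : K0 A), b * b' = 1 → b' * b = 1 → c * c' = 1 → c' * c = 1 →
    U' = b.map s.p * U * c.map s.q → IsDel s U x → IsDel s U' x' → x = x') ∧
  (∀ {ι κ : Type} [Fintype ι] [Fintype κ] [DecidableEq κ] (e : Matrix ι ι A) (he : e * e = e)
    (U : Matrix κ κ D), Tr s e U → IsDel s U (cl e he - cl (1 : Matrix κ κ A) idem_one)) ∧
  (∀ {κ μ : Type} [Fintype κ] [DecidableEq κ] [Fintype μ] [DecidableEq μ] (U : Matrix κ κ D)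
    (V : Matrix μ μ D) (x y : K0 A), IsDel s U x → IsDel s V y →
    IsDel s (Matrix.fromBlocks U 0 0 V) (x + y)) ∧
  (∀ {κ : Type} [Fintype κ] [DecidableEq κ] (b b' : Matrix κ κ B), b * b' = 1 → b' * b = 1 →
    IsDel s (b.map s.p) 0) ∧
  (∀ {κ : Type} [Fintype κ] [DecidableEq κ] (c c' : Matrix κ κ C), c * c' = 1 → c' * c = 1 →
    IsDel s (c.map s.q) 0)

/-- KM_MUL (130 lines; hypotheses `S_DEL`).  The boundary map is additive; reindexing; naturality.

PROOF.
(1) `diag(U, V) = diag(U V, 1) diag(V^-1, V)` and `diag(V^-1, V)` (with `V' = V^-1`) is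
`[[1,V'],[0,1]] [[1,0],[-V,1]] [[1,V'],[0,1]] [[0,-1],[1,0]]`; lift `V`, `V'` entrywise to `C`:
`diag(V', V) = q(c)` with `c` an explicit product of four invertible matrices over `C`
(inverse explicit).  By the block rule of `S_DEL`: `IsDel s diag(U,V) (x + y)`, and with `z` a
value for `U V` (existence) `IsDel s diag(UV,1) (z + 0)`; uniqueness with `b = 1` and this `c`:
`z = x + y`.
(2) reindexing `σ : μ ≃ κ`: `Tr s e U → Tr s e (U.submatrix σ σ)` by reindexing the columns of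
`x, x'`, and `cl_one_eq`.
(3) naturality: `Tr s e U → Tr s' (e.map a) (U.map d)` by applying `b`, `c`; `map_cl`. -/
def S_MUL : Prop := ∀ {A B C D : Type} [Ring A] [Ring B] [Ring C] [Ring D] (s : MSq A B C D),
  (∀ {κ : Type} [Fintype κ] [DecidableEq κ] (U U' V V' : Matrix κ κ D) (x y : K0 A), U * U' = 1 →
    U' * U = 1 → V * V' = 1 → V' * V = 1 → IsDel s U x → IsDel s V y → IsDel s (U * V) (x + y)) ∧
  (∀ {κ μ : Type} [Fintype κ] [DecidableEq κ] [Fintype μ] [DecidableEq μ] (U : Matrix κ κ D)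
    (σ : μ ≃ κ) (x : K0 A), IsDel s U x → IsDel s (U.submatrix σ σ) x) ∧
  (∀ {A' B' C' D' : Type} [Ring A'] [Ring B'] [Ring C'] [Ring D'] (s' : MSq A' B' C' D')
    (a : A →+* A') (b : B →+* B') (c : C →+* C') (d : D →+* D'),
    (∀ z, b (s.f z) = s'.f (a z)) → (∀ z, c (s.g z) = s'.g (a z)) →
    (∀ z, d (s.p z) = s'.p (b z)) → (∀ z, d (s.q z) = s'.q (c z)) →
    ∀ {κ : Type} [Fintype κ] [DecidableEq κ] (U : Matrix κ κ D) (x : K0 A), IsDel s U x →
      IsDel s' (U.map d) (K0.map a x))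

/-- KM_MVA (100 lines; hypothesis `S_PAT`).  Exactness at `K₀(B) ⊕ K₀(C)`.

PROOF.  `b = cl eB - one m`, `c = cl eC - one m'` (`exists_cl`); add `one m'` resp. `one m`: WLOG the
same `m` (`cl_blocks`, `one_add`, reindex).  `K0(p) b = K0(q) c` gives `cl p(eB) = cl q(eC)`, by
`cl_eq_iff` (stable equivalence) after adding an identity matrix of size `k` to `eB`, `eC` (and
`k` to `m`): `MvN (p eB) (q eC)`, i.e. `u`, `v` as in `S_PAT`.  `S_PAT` gives `e` over `A` with
`MvN (f e) eB`, `MvN (g e) eC`.  `a = cl e - one A m`. -/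
def S_MVA : Prop := ∀ {A B C D : Type} [Ring A] [Ring B] [Ring C] [Ring D] (s : MSq A B C D)
  (b : K0 B) (c : K0 C), K0.map s.p b = K0.map s.q c →
  ∃ a : K0 A, K0.map s.f a = b ∧ K0.map s.g a = c

/-- KM_MVB (90 lines; no hypotheses).  Exactness at `K₀(A)`.

PROOF.  `a = cl e - one m`.  `K0(f) a = 0`: `cl f(e) = one m`, so by `cl_eq_iff` and `k` large
(any larger `k` also works: add an identity block to an `MvN`)
`MvN (f e ⊕ 1_k) (1_m ⊕ 1_k)`; the same over `C`; common `k`.  Replace `e` by `e ⊕ 1_k` and `m` by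
`m + k` (`a` does not change): `x y = f e`, `y x = 1`, `x' y' = g e`, `y' x' = 1` with
`x, x'` having `Fin (m+k)` columns.  `U = p(y) q(x')`, `V = q(y') p(x)`:
`U V = p(y) q(g e) p(x) = p(y f(e) x) = 1`, `V U = 1`.  This is `Tr s e U`, `a = cl e - cl 1`. -/
def S_MVB : Prop := ∀ {A B C D : Type} [Ring A] [Ring B] [Ring C] [Ring D] (s : MSq A B C D)
  (a : K0 A), K0.map s.f a = 0 → K0.map s.g a = 0 →
  ∃ (n : ℕ) (U V : Matrix (Fin n) (Fin n) D), U * V = 1 ∧ V * U = 1 ∧ IsDel s U a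

/-- `K₀(D[X]) → K₀(D)`, `X ↦ 1`, is injective. -/
def F1 (D : Type) [CommRing D] : Prop :=
  ∀ x : K0 D[X], K0.map (Polynomial.evalRingHom (1 : D)) x = 0 → x = 0

/-- KM_KER (150 lines; hypotheses `S_MVA`, `S_MVB`).

PROOF.  `x = mk a`, `a ∈ K0(A[T^±])`.  `KNegOne.map f x = 0` means (`KNegOne.mk_eq_zero`)
`f a = pos b1 + neg b2`, `b1, b2 ∈ K0(B[X])`, similarly `g a = pos c1 + neg c2`.  Let `ε_1` be
`X ↦ 1` and `i : B → B[X]` the constants.  Put `b1' = b1 - i ε_1 b1 `, `b2' = b2 + i ε_1 b1` (same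
sum `pos b1' + neg b2' = f a` since `pos ∘ C = neg ∘ C`), the same for `c`.  Put
`d1 = p b1' - q c1'`, `d2 = p b2' - q c2'` in `K0(D[X])`: `pos d1 + neg d2 = p f a - q g a = 0`.
`ε_1 d1 = 0` because `ε_1 b1' = 0`, `ε_1 c1' = 0`, so `d1 = 0` by `F1 D`; then `neg d2 = 0`, apply
`T ↦ 1` (`D[T^±] → D`, composite with `neg` is `ε_1`): `ε_1 d2 = 0`, so `d2 = 0`.  By `S_MVA` for
`s.poly` there are `a1, a2 ∈ K0(A[X])` with `f a1 = b1'`, `g a1 = c1'`, `f a2 = b2'`,
`g a2 = c2'`.  `a' = a - pos a1 - neg a2` satisfies `f a' = 0`, `g a' = 0` and `mk a' = mk a`.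
`S_MVB` for `s.laur`. -/
def S_KER : Prop := ∀ {A B C D : Type} [CommRing A] [CommRing B] [CommRing C] [CommRing D]
  (s : MSq A B C D), F1 D → ∀ x : KNegOne A, KNegOne.map s.f x = 0 → KNegOne.map s.g x = 0 →
  ∃ (n : ℕ) (U V : Matrix (Fin n) (Fin n) (LaurentPolynomial D)) (a : K0 (LaurentPolynomial A)),
    U * V = 1 ∧ V * U = 1 ∧ IsDel s.laur U a ∧ x = KNegOne.mk a

/-- A finite family of ring homomorphisms which is jointly surjective with nilpotent joint
kernel. -/
structure JNil {R : Type} [CommRing R] {I : Type} [Fintype I] {S : I → Type}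
    [∀ i, CommRing (S i)] (φ : ∀ i, R →+* S i) : Prop where
  surj : ∀ b : ∀ i, S i, ∃ a : R, ∀ i, φ i a = b i
  nil : ∃ k : ℕ, (⨅ i, RingHom.ker (φ i)) ^ k = ⊥

/-- KM_PNL (120 lines; no hypotheses).  Equivalence of idempotents can be checked modulo a
jointly nilpotent family.

PROOF.  `N = ⨅ ker φ_i`, `N^k = 0`.  Choose `u_i, v_i` over `S_i` with `u_i v_i = φ_i e`,
`v_i u_i = φ_i f`; lift jointly entrywise to `x, y` over `R` and replace `x` by `e x f`, `y` by
`f y e` (allowed: `φ_i(e x f) φ_i (f y e) = (uv) u (vu) (vu) v (uv)... = φ_i e`).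
`z = e - x y` has entries in `N`, `e z = z = z e`; products of `k` such matrices vanish, so
`w = e + z + z^2 + ... + z^(k-1)` satisfies `x y w = (e - z) w = e`, `e w = w = w e`.  Put
`y1 = y w`: `x y1 = e`; `f' = y1 x` is idempotent, `f f' = f' = f' f`, and
`φ_i f' = φ_i f` (as `φ_i w = φ_i e`).  `f - f'` is idempotent with entries in `N`, so
`f - f' = (f - f')^k = 0`.  Hence `MvN e f`. -/
def S_PNL : Prop := ∀ {R : Type} [CommRing R] {I : Type} [Fintype I] {S : I → Type}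
  [∀ i, CommRing (S i)] (φ : ∀ i, R →+* S i), JNil φ →
  ∀ (m n : ℕ) (e : Matrix (Fin m) (Fin m) R) (f : Matrix (Fin n) (Fin n) R), e * e = e →
    f * f = f → (∀ i, MvN (e.map (φ i)) (f.map (φ i))) → MvN e f

/-- KM_PNI (60 lines; no hypotheses).  Invertibility modulo a jointly nilpotent family; and JNil
passes to polynomial and Laurent polynomial rings.

PROOF.  (1) `det M` is a unit modulo every `ker φ_i`: `φ_i(det M) c_i = 1`, lift jointly: `c` with
`det M * c - 1 ∈ N`, nilpotent; so `det M` is a unit (`IsNilpotent.isUnit_one_add` or similar).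
(2) coefficientwise: joint surjectivity from `surj` applied to the coefficients (as in `MSq.poly`,
`MSq.laur` of Defs); an element of `⨅ ker (map φ_i)` has all coefficients in `N`; products of `k`
such elements have coefficients in `N^k = 0` (an ideal power is spanned by products:
`Ideal.map_pow`-style, or: `N[X] = Ideal.map C N`, `(Ideal.map C N)^k = Ideal.map C (N^k) = ⊥`;
`Polynomial.ker_mapRingHom`, `Ideal.mem_map_C_iff`). -/
def S_PNI : Prop := ∀ {R : Type} [CommRing R] {I : Type} [Fintype I] {S : I → Type}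
  [∀ i, CommRing (S i)] (φ : ∀ i, R →+* S i), JNil φ →
  (∀ (n : ℕ) (M : Matrix (Fin n) (Fin n) R), (∀ i, ∃ M' : Matrix (Fin n) (Fin n) (S i),
    M.map (φ i) * M' = 1 ∧ M' * M.map (φ i) = 1) → ∃ M', M * M' = 1 ∧ M' * M = 1) ∧
  JNil (fun i => Polynomial.mapRingHom (φ i)) ∧ JNil (fun i => mapL (φ i))

open scoped Classical in
/-- KM_FIN (90 lines; no hypotheses).  A finite commutative ring is jointly nilpotent over its
residue fields, with orthogonal idempotents.

PROOF.  `D` is Artinian (finite), so `MaximalSpectrum D` is finite, `⨅ m = ` Jacobson radical is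
nilpotent (`IsArtinianRing.isNilpotent_jacobson_bot`), joint surjectivity = Chinese remainder
theorem (`Ideal.pi_quotient_surjective` or `Ideal.quotientInfToPiQuotient_surj`, distinct maximal
ideals are coprime).  The idempotents: lift the coordinate idempotents of the product
(`CompleteOrthogonalIdempotents.lift_of_isNilpotent_ker` in Mathlib/RingTheory/Idempotents.lean). -/
def S_FIN : Prop := ∀ (D : Type) [CommRing D] [Finite D], Finite (MaximalSpectrum D) ∧
  ∀ [Fintype (MaximalSpectrum D)], JNil (fun m : MaximalSpectrum D => Ideal.Quotient.mk m.asIdeal) ∧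
  ∃ ε : MaximalSpectrum D → D, CompleteOrthogonalIdempotents ε ∧
    ∀ m m', Ideal.Quotient.mk m.asIdeal (ε m') = if m' = m then 1 else 0

/-- KM_PID (80 lines; no hypotheses).  Over a PID every idempotent is equivalent to an identity
matrix.

PROOF.  `L = LinearMap.range (Matrix.toLin' e)` is a submodule of a free module, hence free of
finite rank `r` (`Submodule.basisOfPid` / `Module.Free`), basis `b_1..b_r`.  `x` = matrix with
columns `b_j`; `y` = matrix of `v ↦` coordinates of `e v`: `x y = e` and `y x = 1`. -/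
def S_PID : Prop := ∀ {R : Type} [CommRing R] [IsDomain R] [IsPrincipalIdealRing R] (m : ℕ)
  (e : Matrix (Fin m) (Fin m) R), e * e = e → ∃ r : ℕ, MvN e (1 : Matrix (Fin r) (Fin r) R)

/-- KM_F1 (90 lines; hypotheses `S_PNL`, `S_PNI`, `S_FIN`, `S_PID`).  Homotopy invariance for
finite rings.

PROOF.  Claim: for `e` idempotent over `D[X]`, `MvN e (C(e(1)))` where `e(1) = e.map (evalRingHom 1)`
and `C(..) = .map C`.  By `S_PNL` for the family `D[X] → (D/m)[X]` (`S_FIN`, `S_PNI` (2)) it is enough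
over the field `k = D/m`: by `S_PID` (`k[X]` is a PID) the image `e'` of `e` satisfies
`MvN e' 1_r`; apply `X ↦ 1` and then `C`: `MvN (C(e'(1))) 1_r`; compose.  Then for
`x = cl e - one m` with `ε_1 x = 0`: `cl (e(1)) = one m` in `K0(D)`, apply `K0.map C`:
`cl (C(e(1))) = one m`, and `cl e = cl (C (e(1)))`, so `x = 0`. -/
def S_F1 : Prop := ∀ (D : Type) [CommRing D] [Finite D], F1 D

end Pool.Agent.KM
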