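import Mathlib
import Pool.Agent.KM.St1

/-!
# Finite commutative rings and their residue fields
-/

set_option autoImplicit false
set_option linter.unusedSectionVars false

namespace Pool.Agent.KM

/-- KM_FIN. -/
theorem t_FIN : S_FIN := by
  classical
  intro D _ _
  have hfin : Finite (MaximalSpectrum D) := inferInstance
  refine ⟨hfin, ?_⟩
  intro hF
  have hcop : Pairwise (Function.onFun IsCoprime
      (fun m : MaximalSpectrum D => m.asIdeal)) := by
    intro m m' h
    exact Ideal.isCoprime_of_isMaximal fun h' => h (MaximalSpectrum.ext h')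
  have hsurj : ∀ b : ∀ m : MaximalSpectrum D, D ⧸ m.asIdeal,
      ∃ a : D, ∀ m : MaximalSpectrum D, Ideal.Quotient.mk m.asIdeal a = b m := fun b =>
    Ideal.pi_quotient_surjective hcop b
  have hnil : nilradical D = ⨅ m : MaximalSpectrum D, m.asIdeal :=
    IsArtinianRing.nilradical_eq_iInf D
  refine ⟨⟨hsurj, ?_⟩, ?_⟩
  · obtain ⟨k, hk⟩ := IsArtinianRing.isNilpotent_nilradical (R := D)
    refine ⟨k, ?_⟩
    simp only [Ideal.mk_ker]
    rw [← hnil]
    exact hk
  · set φ : D →+* ∀ m : MaximalSpectrum D, D ⧸ m.asIdeal :=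
      Pi.ringHom fun m => Ideal.Quotient.mk m.asIdeal with hφ
    have h1 : ∀ x ∈ RingHom.ker φ, IsNilpotent x := by
      intro x hx
      rw [RingHom.mem_ker] at hx
      rw [← mem_nilradical, hnil, Ideal.mem_iInf]
      intro m
      exact Ideal.Quotient.eq_zero_iff_mem.1 (congrFun hx m)
    obtain ⟨ε, hε, h2⟩ := CompleteOrthogonalIdempotents.lift_of_isNilpotent_ker φ h1
      (CompleteOrthogonalIdempotents.single fun m : MaximalSpectrum D => D ⧸ m.asIdeal)
      (fun m' => by
        obtain ⟨a, ha⟩ := hsurj (Pi.single m' 1)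
        exact ⟨a, funext ha⟩)
    refine ⟨ε, hε, ?_⟩
    intro m m'
    have h3 := congrFun (congrFun h2 m') m
    change Ideal.Quotient.mk m.asIdeal (ε m') = (Pi.single m' 1 : ∀ m : MaximalSpectrum D, D ⧸ m.asIdeal) m at h3
    rw [h3]
    by_cases h : m' = m
    · subst h
      rw [Pi.single_eq_same, if_pos rfl]
    · rw [Pi.single_eq_of_ne (Ne.symm h), if_neg h]

end Pool.Agent.KM
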