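import Pool.Agent.KM.St1

/-!
# Module KM_GLU (helper28): the transition matrix determines the idempotent
-/

set_option autoImplicit false
set_option linter.unusedSectionVars false

open Matrix Polynomial Pool.Agent.Lib25

noncomputable section

namespace Pool.Agent.KM

section

variable {A B C D : Type} [Ring A] [Ring B] [Ring C] [Ring D] (s : MSq A B C D)
  {ι ι' κ κ' μ μ' : Type} [Fintype ι] [Fintype ι'] [Fintype κ] [DecidableEq κ] [Fintype κ']
  [DecidableEq κ'] [Fintype μ] [DecidableEq μ] [Fintype μ'] [DecidableEq μ']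

/-- the two images of a matrix over `A` in `D` agree -/
theorem GLU_comm (e : Matrix ι ι' A) : (e.map s.f).map s.p = (e.map s.g).map s.q := by
  ext i j
  exact s.comm (e i j)

/-- gluing of matrices -/
theorem GLU_lift (b : Matrix ι ι' B) (c : Matrix ι ι' C) (h : b.map s.p = c.map s.q) :
    ∃ z : Matrix ι ι' A, z.map s.f = b ∧ z.map s.g = c := by
  have h1 : ∀ i j, s.p (b i j) = s.q (c i j) := fun i j => congrFun (congrFun h i) j
  choose z hz using fun i j => s.pull _ _ (h1 i j)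
  refine ⟨Matrix.of z, ?_, ?_⟩
  · ext i j
    exact (hz i j).1
  · ext i j
    exact (hz i j).2

/-- matrices over `A` are determined by their images -/
theorem GLU_inj {z z' : Matrix ι ι' A} (h1 : z.map s.f = z'.map s.f)
    (h2 : z.map s.g = z'.map s.g) : z = z' := by
  ext i j
  exact s.inj' (congrFun (congrFun h1 i) j) (congrFun (congrFun h2 i) j)

/-- `p(x) U = q(x')` -/
theorem GLU_left {e : Matrix ι ι A} {x : Matrix ι κ B} {y : Matrix κ ι B} {x' : Matrix ι μ C}
    {y' : Matrix μ ι C} {U : Matrix κ μ D} (h1 : x * y = e.map s.f) (h3 : x' * y' = e.map s.g)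
    (h4 : y' * x' = 1) (h5 : y.map s.p * x'.map s.q = U) : x.map s.p * U = x'.map s.q := by
  rw [← h5, ← Matrix.mul_assoc, ← Matrix.map_mul, h1, GLU_comm, ← h3, ← Matrix.map_mul,
    Matrix.mul_assoc, h4, Matrix.mul_one]

/-- `U q(y') = p(y)` -/
theorem GLU_right {e : Matrix ι ι A} {x : Matrix ι κ B} {y : Matrix κ ι B} {x' : Matrix ι μ C}
    {y' : Matrix μ ι C} {U : Matrix κ μ D} (h1 : x * y = e.map s.f) (h2 : y * x = 1)
    (h3 : x' * y' = e.map s.g) (h5 : y.map s.p * x'.map s.q = U) :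
    U * y'.map s.q = y.map s.p := by
  rw [← h5, Matrix.mul_assoc, ← Matrix.map_mul, h3, ← GLU_comm, ← h1, ← Matrix.map_mul,
    ← Matrix.mul_assoc, h2, Matrix.one_mul]

/-- cancellation in the middle of a product of six factors -/
theorem GLU_six {R : Type} [Ring R] {a1 a2 a3 a4 a5 : Type} [Fintype a1] [Fintype a2]
    [Fintype a3] [Fintype a4] [Fintype a5] [DecidableEq a2] [DecidableEq a3]
    (x : Matrix a1 a2 R) (b' : Matrix a2 a3 R) (y2 : Matrix a3 a4 R) (x2 : Matrix a4 a3 R)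
    (b : Matrix a3 a2 R) (y : Matrix a2 a5 R) (h1 : y2 * x2 = 1) (h2 : b' * b = 1) :
    (x * b' * y2) * (x2 * b * y) = x * y := by
  calc (x * b' * y2) * (x2 * b * y) = x * b' * (y2 * x2) * b * y := by
        simp only [Matrix.mul_assoc]
    _ = x * (b' * b) * y := by rw [h1, Matrix.mul_one]; simp only [Matrix.mul_assoc]
    _ = x * y := by rw [h2, Matrix.mul_one]

end

theorem t_GLU : S_GLU := by
  intro A B C D _ _ _ _ s ι ι' κ κ' μ μ' _ _ _ _ _ _ _ _ _ _ e1 e2 U1 U2 b b' c c' _ _ hb hb' hc hc'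
    hU h1 h2
  obtain ⟨x1, y1, x1', y1', p1, p2, p3, p4, p5⟩ := h1
  obtain ⟨x2, y2, x2', y2', q1, q2, q3, q4, q5⟩ := h2
  have l1 := GLU_left s p1 p3 p4 p5
  have r1 := GLU_right s p1 p2 p3 p5
  have l2 := GLU_left s q1 q3 q4 q5
  have r2 := GLU_right s q1 q2 q3 q5
  have one1 : b'.map s.p * b.map s.p = 1 := by
    rw [← Matrix.map_mul, hb', Matrix.map_one s.p (map_zero _) (map_one _)]
  have one2 : c.map s.q * c'.map s.q = 1 := by
    rw [← Matrix.map_mul, hc, Matrix.map_one s.q (map_zero _) (map_one _)]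
  -- the two products
  obtain ⟨z, hz, hz'⟩ := GLU_lift s (x1 * b' * y2) (x1' * c * y2') (by
    rw [Matrix.map_mul, Matrix.map_mul, Matrix.map_mul, Matrix.map_mul, ← l1, ← r2, hU]
    calc x1.map s.p * b'.map s.p * (b.map s.p * U1 * c.map s.q * y2'.map s.q)
        = x1.map s.p * (b'.map s.p * b.map s.p) * U1 * c.map s.q * y2'.map s.q := by
          simp only [Matrix.mul_assoc]
      _ = x1.map s.p * U1 * c.map s.q * y2'.map s.q := by rw [one1, Matrix.mul_one])
  obtain ⟨w, hw, hw'⟩ := GLU_lift s (x2 * b * y1) (x2' * c' * y1') (by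
    rw [Matrix.map_mul, Matrix.map_mul, Matrix.map_mul, Matrix.map_mul, ← l2, ← r1, hU]
    calc x2.map s.p * b.map s.p * (U1 * y1'.map s.q)
        = x2.map s.p * b.map s.p * (U1 * (1 : Matrix μ μ D)) * y1'.map s.q := by
          rw [Matrix.mul_one]; simp only [Matrix.mul_assoc]
      _ = x2.map s.p * (b.map s.p * U1 * c.map s.q) * c'.map s.q * y1'.map s.q := by
          rw [← one2]; simp only [Matrix.mul_assoc])
  refine ⟨z, w, ?_, ?_⟩
  · apply GLU_inj s
    · rw [Matrix.map_mul, hz, hw, GLU_six x1 b' y2 x2 b y1 q2 hb', p1]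
    · rw [Matrix.map_mul, hz', hw', GLU_six x1' c y2' x2' c' y1' q4 hc, p3]
  · apply GLU_inj s
    · rw [Matrix.map_mul, hz, hw, GLU_six x2 b y1 x1 b' y2 p2 hb, q1]
    · rw [Matrix.map_mul, hz', hw', GLU_six x2' c' y1' x1' c y2' p4 hc', q3]

end Pool.Agent.KM
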