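import Pool.Agent.KM.St1

/-!
# KM_KER: the kernel of `K_{-1}(A) → K_{-1}(B) ⊕ K_{-1}(C)` for a Milnor square
-/

set_option autoImplicit false
set_option linter.unusedSectionVars false

open Matrix Polynomial Pool.Agent.Lib25

noncomputable section

namespace Pool.Agent.KM

namespace Ker

/-- Evaluation at `X = 1`. -/
def ev (R : Type) [CommRing R] : R[X] →+* R := Polynomial.evalRingHom (1 : R)

/-- Evaluation at `T = 1`. -/
def evL (R : Type) [CommRing R] : LaurentPolynomial R →+* R :=
  LaurentPolynomial.eval₂ (RingHom.id R) (1 : Rˣ)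

theorem evL_single {R : Type} [CommRing R] (n : ℤ) (a : R) :
    evL R (AddMonoidAlgebra.single n a) = a := by
  unfold evL
  rw [LaurentPolynomial.single_eq_C_mul_T, map_mul, LaurentPolynomial.eval₂_C,
    LaurentPolynomial.eval₂_T]
  simp

theorem evL_pos {R : Type} [CommRing R] : (evL R).comp (posIncl R) = ev R := by
  apply RingHom.ext
  intro f
  rw [RingHom.comp_apply]
  induction f using Polynomial.induction_on' with
  | add f g hf hg => simp only [map_add, hf, hg]
  | monomial n a =>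
    rw [posIncl_monomial, evL_single]
    simp [ev]

theorem evL_neg {R : Type} [CommRing R] : (evL R).comp (negIncl R) = ev R := by
  apply RingHom.ext
  intro f
  unfold negIncl
  rw [RingHom.comp_apply, RingHom.comp_apply]
  induction f using Polynomial.induction_on' with
  | add f g hf hg => simp only [map_add, hf, hg]
  | monomial n a =>
    rw [posIncl_monomial, flipT_single, evL_single]
    simp [ev]

theorem pos_C {R : Type} [CommRing R] :
    (posIncl R).comp (Polynomial.C : R →+* R[X]) = (negIncl R).comp Polynomial.C := by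
  apply RingHom.ext
  intro a
  unfold negIncl
  rw [RingHom.comp_apply, RingHom.comp_apply, RingHom.comp_apply, ← Polynomial.monomial_zero_left,
    posIncl_monomial, flipT_single]
  simp

theorem ev_C {R : Type} [CommRing R] :
    (ev R).comp (Polynomial.C : R →+* R[X]) = RingHom.id R := by
  apply RingHom.ext
  intro a
  simp [ev]

theorem ev_map {R S : Type} [CommRing R] [CommRing S] (φ : R →+* S) :
    (ev S).comp (Polynomial.mapRingHom φ) = φ.comp (ev R) := by
  apply RingHom.ext
  intro f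
  rw [RingHom.comp_apply, RingHom.comp_apply]
  induction f using Polynomial.induction_on' with
  | add f g hf hg => simp only [map_add, hf, hg]
  | monomial n a => simp [ev]

theorem map_id' {R : Type} [Ring R] (x : K0 R) : K0.map (RingHom.id R) x = x := by
  obtain ⟨e, f, rfl⟩ := K0.exists_sub x
  rw [map_sub, K0.map_of, K0.map_of]
  rfl

/-- Normalised representatives of elements of `extImage`. -/
theorem repr {R : Type} [CommRing R] (y : K0 (LaurentPolynomial R))
    (h : y ∈ (K0.map (posIncl R)).range ⊔ (K0.map (negIncl R)).range) :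
    ∃ b1 b2 : K0 R[X], y = K0.map (posIncl R) b1 + K0.map (negIncl R) b2 ∧
      K0.map (ev R) b1 = 0 := by
  obtain ⟨_, ⟨b1, rfl⟩, _, ⟨b2, rfl⟩, rfl⟩ := AddSubgroup.mem_sup.1 h
  refine ⟨b1 - K0.map Polynomial.C (K0.map (ev R) b1),
    b2 + K0.map Polynomial.C (K0.map (ev R) b1), ?_, ?_⟩
  · rw [map_sub, map_add, K0.map_map (Polynomial.C : R →+* R[X]) (posIncl R),
      K0.map_map (Polynomial.C : R →+* R[X]) (negIncl R), pos_C]
    abel
  · rw [map_sub, K0.map_map (Polynomial.C : R →+* R[X]) (ev R), ev_C, map_id', sub_self]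

theorem nat_pos {R S : Type} [CommRing R] [CommRing S] (φ : R →+* S) (x : K0 R[X]) :
    K0.map (mapL φ) (K0.map (posIncl R) x) =
      K0.map (posIncl S) (K0.map (Polynomial.mapRingHom φ) x) := by
  rw [K0.map_map, mapL_posIncl, ← K0.map_map]

theorem nat_neg {R S : Type} [CommRing R] [CommRing S] (φ : R →+* S) (x : K0 R[X]) :
    K0.map (mapL φ) (K0.map (negIncl R) x) =
      K0.map (negIncl S) (K0.map (Polynomial.mapRingHom φ) x) := by
  rw [K0.map_map, mapL_negIncl, ← K0.map_map]

theorem nat_ev {R S : Type} [CommRing R] [CommRing S] (φ : R →+* S) (x : K0 R[X]) :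
    K0.map (ev S) (K0.map (Polynomial.mapRingHom φ) x) = K0.map φ (K0.map (ev R) x) := by
  rw [K0.map_map, ev_map, ← K0.map_map]

theorem mk_pos {R : Type} [CommRing R] (x : K0 R[X]) :
    KNegOne.mk (K0.map (posIncl R) x) = 0 :=
  (QuotientAddGroup.eq_zero_iff _).2 (AddSubgroup.mem_sup_left ⟨x, rfl⟩)

theorem mk_neg {R : Type} [CommRing R] (x : K0 R[X]) :
    KNegOne.mk (K0.map (negIncl R) x) = 0 :=
  (QuotientAddGroup.eq_zero_iff _).2 (AddSubgroup.mem_sup_right ⟨x, rfl⟩)

/-- Two elements `d1`, `d2` with `pos d1 + neg d2 = 0` and `ε₁ d1 = 0` vanish. -/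
theorem both_zero {R : Type} [CommRing R] (hF : F1 R) (d1 d2 : K0 R[X])
    (h : K0.map (posIncl R) d1 + K0.map (negIncl R) d2 = 0) (h1 : K0.map (ev R) d1 = 0) :
    d1 = 0 ∧ d2 = 0 := by
  have h2 : d1 = 0 := hF d1 h1
  refine ⟨h2, hF d2 ?_⟩
  rw [h2, map_zero, zero_add] at h
  have h3 := congrArg (K0.map (evL R)) h
  rw [K0.map_map, evL_neg, map_zero] at h3
  exact h3

end Ker

open Ker in
theorem t_KER (hMVA : S_MVA) (hMVB : S_MVB) : S_KER := by
  intro A B C D _ _ _ _ s hF x hf hg
  obtain ⟨a, rfl⟩ : ∃ a, KNegOne.mk a = x := QuotientAddGroup.mk'_surjective _ x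
  rw [KNegOne.map_mk] at hf hg
  obtain ⟨b1, b2, hb, hb1⟩ := repr _ (KNegOne.mk_eq_zero _ hf)
  obtain ⟨c1, c2, hc, hc1⟩ := repr _ (KNegOne.mk_eq_zero _ hg)
  have hcomm : K0.map (mapL s.p) (K0.map (mapL s.f) a) =
      K0.map (mapL s.q) (K0.map (mapL s.g) a) := by
    rw [K0.map_map, K0.map_map]
    congr 2
    apply RingHom.ext
    intro z
    exact s.laur.comm z
  have hd : K0.map (Polynomial.mapRingHom s.p) b1 - K0.map (Polynomial.mapRingHom s.q) c1 = 0 ∧
      K0.map (Polynomial.mapRingHom s.p) b2 - K0.map (Polynomial.mapRingHom s.q) c2 = 0 := by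
    apply both_zero hF
    · rw [hb, hc, map_add, map_add, nat_pos, nat_neg, nat_pos, nat_neg] at hcomm
      rw [map_sub, map_sub, sub_add_sub_comm, sub_eq_zero]
      exact hcomm
    · rw [map_sub, nat_ev, nat_ev, hb1, hc1, map_zero, map_zero, sub_zero]
  obtain ⟨a1, ha1, ha1'⟩ := hMVA s.poly b1 c1 (sub_eq_zero.1 hd.1)
  obtain ⟨a2, ha2, ha2'⟩ := hMVA s.poly b2 c2 (sub_eq_zero.1 hd.2)
  change K0.map (Polynomial.mapRingHom s.f) a1 = b1 at ha1
  change K0.map (Polynomial.mapRingHom s.g) a1 = c1 at ha1'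
  change K0.map (Polynomial.mapRingHom s.f) a2 = b2 at ha2
  change K0.map (Polynomial.mapRingHom s.g) a2 = c2 at ha2'
  have e1 : K0.map (mapL s.f) (a - K0.map (posIncl A) a1 - K0.map (negIncl A) a2) = 0 := by
    rw [map_sub, map_sub, nat_pos, nat_neg, ha1, ha2, hb]
    abel
  have e2 : K0.map (mapL s.g) (a - K0.map (posIncl A) a1 - K0.map (negIncl A) a2) = 0 := by
    rw [map_sub, map_sub, nat_pos, nat_neg, ha1', ha2', hc]
    abel
  obtain ⟨n, U, V, hUV, hVU, hdel⟩ := hMVB s.laur _ e1 e2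
  refine ⟨n, U, V, _, hUV, hVU, hdel, ?_⟩
  rw [map_sub, map_sub, mk_pos, mk_neg, sub_zero, sub_zero]

end Pool.Agent.KM
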