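import Pool.Agent.KM.St1

/-!
# KM_MUL: the boundary map of a Milnor square is additive; reindexing; naturality
-/

set_option autoImplicit false
set_option linter.unusedSectionVars false

open Matrix Polynomial Pool.Agent.Lib25

namespace Pool.Agent.KM

section Mul

variable {A B C D : Type} [Ring A] [Ring B] [Ring C] [Ring D]

private theorem mul_inv_mul {R : Type} [Ring R] {κ : Type} [Fintype κ] [DecidableEq κ]
    {a a' b b' : Matrix κ κ R} (h1 : a * a' = 1) (h2 : b * b' = 1) :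
    (a * b) * (b' * a') = 1 := by
  rw [Matrix.mul_assoc, ← Matrix.mul_assoc b, h2, Matrix.one_mul, h1]

private theorem mul_lift {R S : Type} [Ring R] [Ring S] (q : R →+* S)
    (hq : Function.Surjective q) {κ : Type} [Fintype κ] [DecidableEq κ] (V V' : Matrix κ κ S)
    (h1 : V * V' = 1) (h2 : V' * V = 1) :
    ∃ c c' : Matrix (κ ⊕ κ) (κ ⊕ κ) R, c * c' = 1 ∧ c' * c = 1 ∧
      c.map q = Matrix.fromBlocks V' 0 0 V := by
  choose l hl using hq
  obtain ⟨X, hX⟩ : ∃ X : Matrix κ κ R, X.map q = V' :=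
    ⟨V'.map l, by ext i j; simp [hl]⟩
  obtain ⟨Y, hY⟩ : ∃ Y : Matrix κ κ R, Y.map q = V :=
    ⟨V.map l, by ext i j; simp [hl]⟩
  have hE : ∀ Z : Matrix κ κ R, Matrix.fromBlocks 1 Z 0 1 * Matrix.fromBlocks 1 (-Z) 0 1 =
      (1 : Matrix (κ ⊕ κ) (κ ⊕ κ) R) := by
    intro Z
    rw [Matrix.fromBlocks_multiply, ← Matrix.fromBlocks_one]
    simp
  have hE' : ∀ Z : Matrix κ κ R, Matrix.fromBlocks 1 (-Z) 0 1 * Matrix.fromBlocks 1 Z 0 1 =
      (1 : Matrix (κ ⊕ κ) (κ ⊕ κ) R) := by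
    intro Z
    rw [Matrix.fromBlocks_multiply, ← Matrix.fromBlocks_one]
    simp
  have hF : ∀ Z : Matrix κ κ R, Matrix.fromBlocks 1 0 (-Z) 1 * Matrix.fromBlocks 1 0 Z 1 =
      (1 : Matrix (κ ⊕ κ) (κ ⊕ κ) R) := by
    intro Z
    rw [Matrix.fromBlocks_multiply, ← Matrix.fromBlocks_one]
    simp
  have hF' : ∀ Z : Matrix κ κ R, Matrix.fromBlocks 1 0 Z 1 * Matrix.fromBlocks 1 0 (-Z) 1 =
      (1 : Matrix (κ ⊕ κ) (κ ⊕ κ) R) := by
    intro Z
    rw [Matrix.fromBlocks_multiply, ← Matrix.fromBlocks_one]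
    simp
  have hW : Matrix.fromBlocks 0 (-1) 1 0 * Matrix.fromBlocks 0 1 (-1) 0 =
      (1 : Matrix (κ ⊕ κ) (κ ⊕ κ) R) := by
    rw [Matrix.fromBlocks_multiply, ← Matrix.fromBlocks_one]
    simp
  have hW' : Matrix.fromBlocks 0 1 (-1) 0 * Matrix.fromBlocks 0 (-1) 1 0 =
      (1 : Matrix (κ ⊕ κ) (κ ⊕ κ) R) := by
    rw [Matrix.fromBlocks_multiply, ← Matrix.fromBlocks_one]
    simp
  refine ⟨Matrix.fromBlocks 1 X 0 1 * (Matrix.fromBlocks 1 0 (-Y) 1 *
      (Matrix.fromBlocks 1 X 0 1 * Matrix.fromBlocks 0 (-1) 1 0)),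
    ((Matrix.fromBlocks 0 1 (-1) 0 * Matrix.fromBlocks 1 (-X) 0 1) *
      Matrix.fromBlocks 1 0 Y 1) * Matrix.fromBlocks 1 (-X) 0 1, ?_, ?_, ?_⟩
  · exact mul_inv_mul (hE X) (mul_inv_mul (hF Y) (mul_inv_mul (hE X) hW))
  · exact mul_inv_mul (mul_inv_mul (mul_inv_mul hW' (hE' X)) (hF' Y)) (hE' X)
  · rw [Matrix.map_mul, Matrix.map_mul, Matrix.map_mul, Matrix.fromBlocks_map,
      Matrix.fromBlocks_map, Matrix.fromBlocks_map, Matrix.map_one q (map_zero q) (map_one q),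
      Matrix.map_zero q (map_zero q), hX]
    have e1 : (-Y).map q = -V := by
      rw [← hY]; ext i j; simp
    have e2 : (-1 : Matrix κ κ R).map q = -1 := by
      ext i j
      simp only [Matrix.map_apply, Matrix.neg_apply, map_neg]
      rw [Matrix.one_apply, Matrix.one_apply]
      split_ifs <;> simp
    rw [e1, e2, Matrix.fromBlocks_multiply, Matrix.fromBlocks_multiply,
      Matrix.fromBlocks_multiply]
    simp [h1, h2]

theorem t_MUL (hDEL : S_DEL) : S_MUL := by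
  intro A B C D _ _ _ _ s
  obtain ⟨d1, d2, d3, d4, d5, d6⟩ := hDEL s
  refine ⟨?_, ?_, ?_⟩
  · intro κ _ _ U U' V V' x y hU hU' hV hV' hx hy
    obtain ⟨z, hz⟩ := d1 (U * V) (V' * U') (mul_inv_mul hU hV) (mul_inv_mul hV' hU')
    have h1 : IsDel s (1 : Matrix κ κ D) 0 := by
      have h := d6 (1 : Matrix κ κ C) 1 (Matrix.one_mul 1) (Matrix.one_mul 1)
      rwa [Matrix.map_one s.q (map_zero s.q) (map_one s.q)] at h
    have h2 := d4 (U * V) (1 : Matrix κ κ D) z 0 hz h1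
    have h3 := d4 U V x y hx hy
    obtain ⟨c, c', hc, hc', hcq⟩ := mul_lift s.q s.surjq V V' hV hV'
    have h4 : Matrix.fromBlocks U 0 0 V =
        (1 : Matrix (κ ⊕ κ) (κ ⊕ κ) B).map s.p * Matrix.fromBlocks (U * V) 0 0 1 *
          c.map s.q := by
      rw [hcq, Matrix.map_one s.p (map_zero s.p) (map_one s.p), Matrix.one_mul,
        Matrix.fromBlocks_multiply]
      simp [Matrix.mul_assoc, hV]
    have h5 := d2 (Matrix.fromBlocks (U * V) 0 0 1) (Matrix.fromBlocks U 0 0 V)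
      (1 : Matrix (κ ⊕ κ) (κ ⊕ κ) B) 1 c c' (z + 0) (x + y) (Matrix.one_mul 1)
      (Matrix.one_mul 1) hc hc' h4 h2 h3
    rw [← h5, add_zero]
    exact hz
  · intro κ μ _ _ _ _ U σ x hx
    obtain ⟨n, e, he, ⟨a, b, a', b', h1, h2, h3, h4, h5⟩, rfl⟩ := hx
    refine ⟨n, e, he, ⟨a.submatrix id σ, b.submatrix σ id, a'.submatrix id σ,
      b'.submatrix σ id, ?_, ?_, ?_, ?_, ?_⟩, ?_⟩
    · rw [Matrix.submatrix_mul_equiv, h1, Matrix.submatrix_id_id]
    · rw [← Matrix.submatrix_mul b a σ id σ Function.bijective_id, h2,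
        Matrix.submatrix_one_equiv]
    · rw [Matrix.submatrix_mul_equiv, h3, Matrix.submatrix_id_id]
    · rw [← Matrix.submatrix_mul b' a' σ id σ Function.bijective_id, h4,
        Matrix.submatrix_one_equiv]
    · rw [← Matrix.submatrix_map, ← Matrix.submatrix_map,
        ← Matrix.submatrix_mul _ _ σ id σ Function.bijective_id, h5]
    · rw [cl_one_eq (κ := κ) (ι := μ) (R := A) (Fintype.card_congr σ)]
  · intro A' B' C' D' _ _ _ _ s' a b c d hf hg hp hq κ _ _ U x hx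
    obtain ⟨n, e, he, ⟨u, v, u', v', h1, h2, h3, h4, h5⟩, rfl⟩ := hx
    refine ⟨n, e.map a, by rw [← Matrix.map_mul, he], ⟨u.map b, v.map b, u'.map c, v'.map c,
      ?_, ?_, ?_, ?_, ?_⟩, ?_⟩
    · rw [← Matrix.map_mul, h1]
      ext i j
      simp [hf]
    · rw [← Matrix.map_mul, h2, Matrix.map_one b (map_zero b) (map_one b)]
    · rw [← Matrix.map_mul, h3]
      ext i j
      simp [hg]
    · rw [← Matrix.map_mul, h4, Matrix.map_one c (map_zero c) (map_one c)]
    · have e1 : (v.map b).map s'.p = (v.map s.p).map d := by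
        ext i j
        simp [hp]
      have e2 : (u'.map c).map s'.q = (u'.map s.q).map d := by
        ext i j
        simp [hq]
      rw [e1, e2, ← Matrix.map_mul, h5]
    · rw [map_sub, map_cl, map_cl]
      congr 1
      refine cl_congr _ _ ?_
      rw [Matrix.map_one a (map_zero a) (map_one a)]
      exact MvN.refl idem_one

end Mul

end Pool.Agent.KM
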