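import Pool.Agent.KM.St1

/-!
# KM_MVA: exactness of the Mayer-Vietoris sequence of a Milnor square at `K₀(B) ⊕ K₀(C)`
-/

set_option autoImplicit false
set_option linter.unusedSectionVars false

open Matrix Polynomial Pool.Agent.Lib25

noncomputable section

namespace Pool.Agent.KM

namespace MVA

variable {R : Type*} [Ring R]

/-- Adding an identity block on both sides. -/
theorem sub_one_eq {n : ℕ} (e : Matrix (Fin n) (Fin n) R) (he : e * e = e) (m k : ℕ) :
    cl e he - one R m = cl (Matrix.fromBlocks e 0 0 (1 : Matrix (Fin k) (Fin k) R))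
      (idem_fromBlocks he idem_one) - one R (m + k) := by
  rw [cl_blocks he idem_one, ← one_add]
  change _ = cl e he + one R k - _
  abel

/-- Every element of `K₀(R)` is `[e] - [1_m]` with `m` large. -/
theorem exists_cl_ge (x : K0 R) : ∃ (m₀ : ℕ), ∀ k : ℕ, ∃ (n : ℕ) (e : Matrix (Fin n) (Fin n) R)
    (he : e * e = e), x = cl e he - one R (m₀ + k) := by
  obtain ⟨n, e, he, m, hx⟩ := exists_cl x
  refine ⟨m, fun k => ?_⟩
  have h1 := sub_one_eq e he m k
  refine ⟨_, (IM _ (idem_fromBlocks he (idem_one (R := R) (ι := Fin k)))).mat,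
    (IM _ (idem_fromBlocks he (idem_one (R := R) (ι := Fin k)))).idem, ?_⟩
  rw [hx, h1]
  congr 1
  exact cl_congr _ _ (IM_mvn _ _)

end MVA

theorem t_MVA (hPAT : S_PAT) : S_MVA := by
  intro A B C D _ _ _ _ s b c hbc
  obtain ⟨m₁, hb⟩ := MVA.exists_cl_ge b
  obtain ⟨m₂, hc⟩ := MVA.exists_cl_ge c
  obtain ⟨n₁, eB, heB, hb⟩ := hb m₂
  obtain ⟨n₂, eC, heC, hc⟩ := hc m₁
  rw [add_comm m₂ m₁] at hc
  generalize m₁ + m₂ = m at hb hc
  have heB' : eB.map s.p * eB.map s.p = eB.map s.p := by rw [← Matrix.map_mul, heB]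
  have heC' : eC.map s.q * eC.map s.q = eC.map s.q := by rw [← Matrix.map_mul, heC]
  have h1 : cl (eB.map s.p) heB' = cl (eC.map s.q) heC' := by
    have h2 := hbc
    rw [hb, hc, map_sub, map_sub, map_one', map_one', map_cl, map_cl] at h2
    exact sub_left_injective h2
  obtain ⟨k, hk⟩ := (cl_eq_iff heB' heC').1 h1
  have iB := idem_fromBlocks heB (idem_one (R := B) (ι := Fin k))
  have iC := idem_fromBlocks heC (idem_one (R := C) (ι := Fin k))
  have mB : (Matrix.fromBlocks eB 0 0 (1 : Matrix (Fin k) (Fin k) B)).map s.p =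
      Matrix.fromBlocks (eB.map s.p) 0 0 (1 : Matrix (Fin k) (Fin k) D) := by
    rw [Matrix.fromBlocks_map, Matrix.map_one s.p (map_zero _) (map_one _),
      Matrix.map_zero s.p (map_zero _), Matrix.map_zero s.p (map_zero _)]
  have mC : (Matrix.fromBlocks eC 0 0 (1 : Matrix (Fin k) (Fin k) C)).map s.q =
      Matrix.fromBlocks (eC.map s.q) 0 0 (1 : Matrix (Fin k) (Fin k) D) := by
    rw [Matrix.fromBlocks_map, Matrix.map_one s.q (map_zero _) (map_one _),
      Matrix.map_zero s.q (map_zero _), Matrix.map_zero s.q (map_zero _)]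
  rw [← mB, ← mC] at hk
  have iB' : (Matrix.fromBlocks eB 0 0 (1 : Matrix (Fin k) (Fin k) B)).map s.p *
      (Matrix.fromBlocks eB 0 0 (1 : Matrix (Fin k) (Fin k) B)).map s.p =
      (Matrix.fromBlocks eB 0 0 (1 : Matrix (Fin k) (Fin k) B)).map s.p := by
    rw [← Matrix.map_mul, iB]
  have iC' : (Matrix.fromBlocks eC 0 0 (1 : Matrix (Fin k) (Fin k) C)).map s.q *
      (Matrix.fromBlocks eC 0 0 (1 : Matrix (Fin k) (Fin k) C)).map s.q =
      (Matrix.fromBlocks eC 0 0 (1 : Matrix (Fin k) (Fin k) C)).map s.q := by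
    rw [← Matrix.map_mul, iC]
  have jB : (IM _ iB).mat.map s.p * (IM _ iB).mat.map s.p = (IM _ iB).mat.map s.p := by
    rw [← Matrix.map_mul, (IM _ iB).idem]
  have jC : (IM _ iC).mat.map s.q * (IM _ iC).mat.map s.q = (IM _ iC).mat.map s.q := by
    rw [← Matrix.map_mul, (IM _ iC).idem]
  have h3 : MvN ((IM _ iB).mat.map s.p) ((IM _ iC).mat.map s.q) :=
    (((IM_mvn _ iB).map s.p).symm.trans jB iC' hk).trans jB jC ((IM_mvn _ iC).map s.q)
  obtain ⟨u, v, huv, hvu⟩ := h3
  obtain ⟨l, e, x, y, x', y', he, h4, h5, h6, h7, -⟩ :=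
    hPAT s _ _ _ _ u v (IM _ iB).idem (IM _ iC).idem huv hvu
  refine ⟨cl e he - one A (m + k), ?_, ?_⟩
  · rw [map_sub, map_cl, map_one', hb, MVA.sub_one_eq eB heB m k]
    congr 1
    exact (cl_congr _ (IM _ iB).idem ⟨x, y, h4, h5⟩).trans (cl_congr _ _ (IM_mvn _ iB)).symm
  · rw [map_sub, map_cl, map_one', hc, MVA.sub_one_eq eC heC m k]
    congr 1
    exact (cl_congr _ (IM _ iC).idem ⟨x', y', h6, h7⟩).trans (cl_congr _ _ (IM_mvn _ iC)).symm

end Pool.Agent.KM
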