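import Pool.Agent.KM.St1

/-!
# KM_MVB: exactness of the Mayer-Vietoris sequence at `K₀(A)`
-/

set_option autoImplicit false
set_option linter.unusedSectionVars false

open Matrix Polynomial Pool.Agent.Lib25

namespace Pool.Agent.KM

section Mvb

private theorem mvb_one {R : Type} [Ring R] {ι κ : Type} [Fintype ι] [Fintype κ]
    [DecidableEq ι] [DecidableEq κ] (h : Fintype.card ι = Fintype.card κ) :
    MvN (1 : Matrix ι ι R) (1 : Matrix κ κ R) := by
  obtain ⟨σ⟩ : Nonempty (κ ≃ ι) := ⟨Fintype.equivOfCardEq h.symm⟩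
  have h1 := MvN.submatrix (R := R) (e := (1 : Matrix ι ι R)) idem_one σ
  rwa [Matrix.submatrix_one_equiv] at h1

private theorem mvb_assoc {R : Type} [Ring R] {ι κ μ : Type} [Fintype ι] [Fintype κ] [Fintype μ]
    {X : Matrix ι ι R} {Y : Matrix κ κ R} {Z : Matrix μ μ R} (hX : X * X = X) (hY : Y * Y = Y)
    (hZ : Z * Z = Z) : MvN (Matrix.fromBlocks (Matrix.fromBlocks X 0 0 Y) 0 0 Z)
      (Matrix.fromBlocks X 0 0 (Matrix.fromBlocks Y 0 0 Z)) := by
  have h2 : MvN (Matrix.fromBlocks (Matrix.fromBlocks X 0 0 Y) 0 0 Z)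
      ((Matrix.fromBlocks (Matrix.fromBlocks X 0 0 Y) 0 0 Z).submatrix
        (Equiv.sumAssoc _ _ _).symm (Equiv.sumAssoc _ _ _).symm) :=
    MvN.submatrix (idem_fromBlocks (idem_fromBlocks hX hY) hZ) _
  have h3 : (Matrix.fromBlocks (Matrix.fromBlocks X 0 0 Y) 0 0 Z).submatrix
        (Equiv.sumAssoc _ _ _).symm (Equiv.sumAssoc _ _ _).symm =
      Matrix.fromBlocks X 0 0 (Matrix.fromBlocks Y 0 0 Z) := by
    ext i j
    rcases i with i | i | i <;> rcases j with j | j | j <;> rfl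
  rwa [h3] at h2

/-- A larger identity block. -/
private theorem mvb_big {R : Type} [Ring R] {ι κ : Type} [Fintype ι] [Fintype κ]
    {X : Matrix ι ι R} {Y : Matrix κ κ R} (hX : X * X = X) (hY : Y * Y = Y) (k j : ℕ)
    (h : MvN (Matrix.fromBlocks X 0 0 (1 : Matrix (Fin k) (Fin k) R))
      (Matrix.fromBlocks Y 0 0 (1 : Matrix (Fin k) (Fin k) R))) :
    MvN (Matrix.fromBlocks X 0 0 (1 : Matrix (Fin (k + j)) (Fin (k + j)) R))
      (Matrix.fromBlocks Y 0 0 (1 : Matrix (Fin (k + j)) (Fin (k + j)) R)) := by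
  have key : ∀ {τ : Type} [Fintype τ] {T : Matrix τ τ R} (hT : T * T = T),
      MvN (Matrix.fromBlocks T 0 0 (1 : Matrix (Fin (k + j)) (Fin (k + j)) R))
        (Matrix.fromBlocks (Matrix.fromBlocks T 0 0 (1 : Matrix (Fin k) (Fin k) R)) 0 0
          (1 : Matrix (Fin j) (Fin j) R)) := by
    intro τ _ T hT
    have a1 := mvb_assoc hT (idem_one (R := R) (ι := Fin k)) (idem_one (R := R) (ι := Fin j))
    rw [Matrix.fromBlocks_one] at a1
    have a2 : MvN (Matrix.fromBlocks T 0 0 (1 : Matrix (Fin (k + j)) (Fin (k + j)) R))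
        (Matrix.fromBlocks T 0 0 (1 : Matrix (Fin k ⊕ Fin j) (Fin k ⊕ Fin j) R)) :=
      MvN.fromBlocks (MvN.refl hT) (mvb_one (by simp))
    exact a2.trans (idem_fromBlocks hT idem_one)
      (idem_fromBlocks (idem_fromBlocks hT idem_one) idem_one) a1.symm
  have hX1 := idem_fromBlocks hX (idem_one (R := R) (ι := Fin (k + j)))
  have hY1 := idem_fromBlocks hY (idem_one (R := R) (ι := Fin (k + j)))
  have hY2 := idem_fromBlocks (idem_fromBlocks hY (idem_one (R := R) (ι := Fin k)))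
    (idem_one (R := R) (ι := Fin j))
  have b1 : MvN (Matrix.fromBlocks (Matrix.fromBlocks X 0 0 (1 : Matrix (Fin k) (Fin k) R)) 0 0
      (1 : Matrix (Fin j) (Fin j) R)) (Matrix.fromBlocks (Matrix.fromBlocks Y 0 0
      (1 : Matrix (Fin k) (Fin k) R)) 0 0 (1 : Matrix (Fin j) (Fin j) R)) :=
    MvN.fromBlocks h (MvN.refl idem_one)
  exact ((key hX).trans hX1 hY2 b1).trans hX1 hY1 (key hY).symm

/-- The equivalence with an identity matrix. -/
private theorem mvb_side {A B : Type} [Ring A] [Ring B] (f : A →+* B) {n m k : ℕ}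
    (e : Matrix (Fin n) (Fin n) A) (he : e * e = e)
    (h : MvN (Matrix.fromBlocks (e.map f) 0 0 (1 : Matrix (Fin k) (Fin k) B))
      (Matrix.fromBlocks (1 : Matrix (Fin m) (Fin m) B) 0 0 (1 : Matrix (Fin k) (Fin k) B))) :
    MvN ((IM (Matrix.fromBlocks e 0 0 (1 : Matrix (Fin k) (Fin k) A))
      (idem_fromBlocks he idem_one)).mat.map f) (1 : Matrix (Fin (m + k)) (Fin (m + k)) B) := by
  have i1 := idem_fromBlocks he (idem_one (R := A) (ι := Fin k))
  have h0 := MvN.map f (IM_mvn _ i1)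
  rw [Matrix.fromBlocks_map, Matrix.map_one f (map_zero f) (map_one f),
    Matrix.map_zero f (map_zero f), Matrix.map_zero f (map_zero f)] at h0
  have hef : e.map f * e.map f = e.map f := by rw [← Matrix.map_mul, he]
  have i2 := idem_fromBlocks hef (idem_one (R := B) (ι := Fin k))
  have i3 : ((IM _ i1).mat.map f) * ((IM _ i1).mat.map f) = (IM _ i1).mat.map f := by
    rw [← Matrix.map_mul, (IM _ i1).idem]
  rw [Matrix.fromBlocks_one] at h
  have h1 : MvN (1 : Matrix (Fin m ⊕ Fin k) (Fin m ⊕ Fin k) B)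
      (1 : Matrix (Fin (m + k)) (Fin (m + k)) B) := mvb_one (by simp)
  exact (h0.symm.trans i3 idem_one h).trans i3 idem_one h1

theorem t_MVB : S_MVB := by
  intro A B C D _ _ _ _ s a hf hg
  obtain ⟨n, e, he, m, rfl⟩ := exists_cl a
  rw [map_sub, map_cl, map_one', sub_eq_zero] at hf hg
  obtain ⟨k1, h1⟩ := (cl_eq_iff _ _).1 hf
  obtain ⟨k2, h2⟩ := (cl_eq_iff _ _).1 hg
  have hef : e.map s.f * e.map s.f = e.map s.f := by rw [← Matrix.map_mul, he]
  have heg : e.map s.g * e.map s.g = e.map s.g := by rw [← Matrix.map_mul, he]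
  have h1' := mvb_big hef (idem_one (R := B) (ι := Fin m)) k1 k2 h1
  have h2' := mvb_big heg (idem_one (R := C) (ι := Fin m)) k2 k1 h2
  rw [add_comm k2 k1] at h2'
  obtain ⟨x, y, hx1, hx2⟩ := mvb_side s.f e he h1'
  obtain ⟨x', y', hx3, hx4⟩ := mvb_side s.g e he h2'
  have hi := idem_fromBlocks he (idem_one (R := A) (ι := Fin (k1 + k2)))
  have hcomm : ((IM _ hi).mat.map s.g).map s.q = ((IM _ hi).mat.map s.f).map s.p := by
    ext i j
    simp [s.comm]
  refine ⟨m + (k1 + k2), y.map s.p * x'.map s.q, y'.map s.q * x.map s.p, ?_, ?_, ?_⟩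
  · calc y.map s.p * x'.map s.q * (y'.map s.q * x.map s.p)
        = y.map s.p * ((x'.map s.q * y'.map s.q) * x.map s.p) := by
          simp only [Matrix.mul_assoc]
      _ = y.map s.p * ((x.map s.p * y.map s.p) * x.map s.p) := by
          rw [← Matrix.map_mul, hx3, hcomm, ← hx1, Matrix.map_mul]
      _ = (y * x * (y * x)).map s.p := by
          simp only [Matrix.map_mul, Matrix.mul_assoc]
      _ = 1 := by
          rw [hx2, Matrix.one_mul, Matrix.map_one s.p (map_zero s.p) (map_one s.p)]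
  · calc y'.map s.q * x.map s.p * (y.map s.p * x'.map s.q)
        = y'.map s.q * ((x.map s.p * y.map s.p) * x'.map s.q) := by
          simp only [Matrix.mul_assoc]
      _ = y'.map s.q * ((x'.map s.q * y'.map s.q) * x'.map s.q) := by
          rw [← Matrix.map_mul, hx1, ← hcomm, ← hx3, Matrix.map_mul]
      _ = (y' * x' * (y' * x')).map s.q := by
          simp only [Matrix.map_mul, Matrix.mul_assoc]
      _ = 1 := by
          rw [hx4, Matrix.one_mul, Matrix.map_one s.q (map_zero s.q) (map_one s.q)]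
  · refine ⟨_, (IM _ hi).mat, (IM _ hi).idem, ⟨x, y, x', y', hx1, hx2, hx3, hx4, rfl⟩, ?_⟩
    have e1 : cl (IM _ hi).mat (IM _ hi).idem = cl e he + one A (k1 + k2) := by
      rw [cl_congr (IM _ hi).idem hi (IM_mvn _ hi).symm, cl_blocks he idem_one]
      rfl
    have e2 : cl (1 : Matrix (Fin (m + (k1 + k2))) (Fin (m + (k1 + k2))) A) idem_one =
        one A m + one A (k1 + k2) := (one_add m (k1 + k2)).symm
    rw [e1, e2]
    abel

end Mvb

end Pool.Agent.KM
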