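import Pool.Agent.KM.St2

/-!
# KM_NFC: factorisation of `1 + M`, `M` with nilpotent coefficients
-/

set_option autoImplicit false
set_option linter.unusedSectionVars false

open Matrix Polynomial Pool.Agent.Lib25

namespace Pool.Agent.KM

section Nfc

variable {D : Type} [CommRing D]

private theorem nfc_lco_mem (I : Ideal D) {x : LaurentPolynomial D}
    (h : x ∈ I.map (LaurentPolynomial.C : D →+* LaurentPolynomial D)) (m : ℤ) :
    lco x m ∈ I := by
  have h1 : I.map (LaurentPolynomial.C : D →+* LaurentPolynomial D) ≤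
      RingHom.ker (mapL (Ideal.Quotient.mk I)) := by
    rw [Ideal.map_le_iff_le_comap]
    intro c hc
    rw [Ideal.mem_comap, RingHom.mem_ker]
    apply lco_ext
    intro n
    rw [lco_mapL]
    have e : lco (LaurentPolynomial.C c) n = if n = 0 then c else 0 :=
      LaurentPolynomial.C_apply c n
    have e0 : lco (0 : LaurentPolynomial (D ⧸ I)) n = 0 := rfl
    rw [e, e0]
    split_ifs
    · exact Ideal.Quotient.eq_zero_iff_mem.2 hc
    · exact map_zero _
  have h2 := h1 h
  rw [RingHom.mem_ker] at h2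
  have h3 := lco_mapL (Ideal.Quotient.mk I) x m
  rw [h2] at h3
  exact Ideal.Quotient.eq_zero_iff_mem.1 h3.symm

private theorem nfc_mono (I : Ideal D) {c : D} (hc : c ∈ I) (k : ℕ) :
    monomial k c ∈ I.map (Polynomial.C : D →+* D[X]) := by
  rw [← Polynomial.C_mul_X_pow_eq_monomial]
  exact Ideal.mul_mem_right _ _ (Ideal.mem_map_of_mem _ hc)

private theorem nfc_split (I : Ideal D) (x : LaurentPolynomial D) (h : ∀ m, lco x m ∈ I) :
    ∃ p q : D[X], p ∈ I.map (Polynomial.C : D →+* D[X]) ∧
      q ∈ I.map (Polynomial.C : D →+* D[X]) ∧ x = posIncl D p + negIncl D q := by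
  classical
  refine ⟨∑ m ∈ (AddMonoidAlgebra.coeff x).support.filter (fun m => 0 ≤ m),
      monomial m.toNat (lco x m),
    ∑ m ∈ (AddMonoidAlgebra.coeff x).support.filter (fun m => ¬ 0 ≤ m),
      monomial (-m).toNat (lco x m), ?_, ?_, ?_⟩
  · exact Ideal.sum_mem _ fun m _ => nfc_mono I (h m) _
  · exact Ideal.sum_mem _ fun m _ => nfc_mono I (h m) _
  · rw [map_sum, map_sum]
    have e1 : ∀ m ∈ (AddMonoidAlgebra.coeff x).support.filter (fun m => 0 ≤ m),
        posIncl D (monomial m.toNat (lco x m)) = AddMonoidAlgebra.single m (lco x m) := by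
      intro m hm
      rw [posIncl_monomial, Int.toNat_of_nonneg (Finset.mem_filter.1 hm).2]
    have e2 : ∀ m ∈ (AddMonoidAlgebra.coeff x).support.filter (fun m => ¬ 0 ≤ m),
        negIncl D (monomial (-m).toNat (lco x m)) = AddMonoidAlgebra.single m (lco x m) := by
      intro m hm
      have h1 := (Finset.mem_filter.1 hm).2
      unfold negIncl
      rw [RingHom.comp_apply, posIncl_monomial, flipT_single, Int.toNat_of_nonneg (by omega),
        neg_neg]
    rw [Finset.sum_congr rfl e1, Finset.sum_congr rfl e2, Finset.sum_filter_add_sum_filter_not]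
    exact (AddMonoidAlgebra.sum_coeff_single x).symm

private theorem nfc_pos_C : (posIncl D).comp (Polynomial.C : D →+* D[X]) =
    LaurentPolynomial.C := by
  apply RingHom.ext
  intro c
  exact Polynomial.toLaurent_C c

private theorem nfc_neg_C : (negIncl D).comp (Polynomial.C : D →+* D[X]) =
    LaurentPolynomial.C := by
  apply RingHom.ext
  intro c
  have h1 : posIncl D (Polynomial.C c) = AddMonoidAlgebra.single 0 c := by
    rw [← Polynomial.monomial_zero_left, posIncl_monomial]
    rfl
  show flipT D (posIncl D (Polynomial.C c)) = _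
  rw [h1, flipT_single, neg_zero]
  rfl

/-- The entries of the matrix are in the ideal. -/
private def nfcE {R : Type} [CommRing R] {n : ℕ} (I : Ideal R)
    (M : Matrix (Fin n) (Fin n) R) : Prop := ∀ i j, M i j ∈ I

private theorem nfcE_mul {R : Type} [CommRing R] {n : ℕ} {I J : Ideal R}
    {A B : Matrix (Fin n) (Fin n) R} (hA : nfcE I A) (hB : nfcE J B) : nfcE (I * J) (A * B) := by
  intro i j
  rw [Matrix.mul_apply]
  exact Ideal.sum_mem _ fun l _ => Ideal.mul_mem_mul (hA i l) (hB l j)

private theorem nfcE_top {R : Type} [CommRing R] {n : ℕ} (A : Matrix (Fin n) (Fin n) R) :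
    nfcE ⊤ A := fun _ _ => Submodule.mem_top

private theorem nfcE_pow {R : Type} [CommRing R] {n : ℕ} {I : Ideal R}
    {A : Matrix (Fin n) (Fin n) R} (hA : nfcE I A) (r : ℕ) : nfcE (I ^ r) (A ^ r) := by
  induction r with
  | zero => rw [pow_zero, Ideal.one_eq_top]; exact nfcE_top _
  | succ r ih => rw [pow_succ, pow_succ]; exact nfcE_mul ih hA

private theorem nfc_unit {R : Type} [CommRing R] {n : ℕ} {I : Ideal R} {k : ℕ} (hI : I ^ k = ⊥)
    {A : Matrix (Fin n) (Fin n) R} (hA : nfcE I A) :
    ∃ B : Matrix (Fin n) (Fin n) R, (1 + A) * B = 1 ∧ B * (1 + A) = 1 := by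
  have h1 : A ^ k = 0 := by
    ext i j
    have h2 := nfcE_pow hA k i j
    rw [hI] at h2
    exact (Submodule.mem_bot R).1 h2
  obtain ⟨u, hu⟩ := IsNilpotent.isUnit_one_add (⟨k, h1⟩ : IsNilpotent A)
  refine ⟨(u⁻¹ : (Matrix (Fin n) (Fin n) R)ˣ), ?_, ?_⟩
  · rw [← hu]; exact u.mul_inv
  · rw [← hu]; exact u.inv_mul

private theorem nfc_main (N : Ideal D) (k : ℕ) (hN : N ^ k = ⊥) (n : ℕ) :
    ∀ t j : ℕ, 1 ≤ j → k ≤ j + t → ∀ M : Matrix (Fin n) (Fin n) (LaurentPolynomial D),
      (∀ a b m, lco (M a b) m ∈ N ^ j) →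
      ∃ P P' Q Q' : Matrix (Fin n) (Fin n) D[X], P * P' = 1 ∧ P' * P = 1 ∧ Q * Q' = 1 ∧
        Q' * Q = 1 ∧ 1 + M = P.map (posIncl D) * Q.map (negIncl D) := by
  intro t
  induction t with
  | zero =>
    intro j _ hj M hM
    have h0 : M = 0 := by
      ext1 a b
      apply lco_ext
      intro m
      have h1 := Ideal.pow_le_pow_right (I := N) (by omega : k ≤ j) (hM a b m)
      rw [hN] at h1
      exact (Submodule.mem_bot D).1 h1
    refine ⟨1, 1, 1, 1, Matrix.one_mul 1, Matrix.one_mul 1, Matrix.one_mul 1, Matrix.one_mul 1,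
      ?_⟩
    rw [h0, add_zero, Matrix.map_one _ (map_zero _) (map_one _),
      Matrix.map_one _ (map_zero _) (map_one _), Matrix.one_mul]
  | succ t ih =>
    intro j hj1 hj M hM
    obtain ⟨A0, B0, hA0, hB0, hAB⟩ : ∃ A B : Matrix (Fin n) (Fin n) D[X],
        (∀ a b, A a b ∈ (N ^ j).map (Polynomial.C : D →+* D[X])) ∧
        (∀ a b, B a b ∈ (N ^ j).map (Polynomial.C : D →+* D[X])) ∧
        ∀ a b, M a b = posIncl D (A a b) + negIncl D (B a b) := by
      choose A0 B0 hA0 hB0 hAB using fun a b => nfc_split (N ^ j) (M a b) (hM a b)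
      exact ⟨A0, B0, hA0, hB0, hAB⟩
    have hPk : (N.map (Polynomial.C : D →+* D[X])) ^ k = ⊥ := by
      rw [← Ideal.map_pow, hN, Ideal.map_bot]
    have hle : (N ^ j).map (Polynomial.C : D →+* D[X]) ≤ N.map (Polynomial.C : D →+* D[X]) :=
      Ideal.map_mono (Ideal.pow_le_self (by omega))
    obtain ⟨A', hA1, hA2⟩ := nfc_unit (A := A0) hPk (fun a b => hle (hA0 a b))
    obtain ⟨B', hB1, hB2⟩ := nfc_unit (A := B0) hPk (fun a b => hle (hB0 a b))
    -- the images
    have hMab : M = A0.map (posIncl D) + B0.map (negIncl D) := by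
      ext1 a b
      exact hAB a b
    have ea : nfcE ((N ^ j).map (LaurentPolynomial.C : D →+* LaurentPolynomial D))
        (A0.map (posIncl D)) := by
      intro a b
      have h1 := Ideal.mem_map_of_mem (posIncl D) (hA0 a b)
      rw [Ideal.map_map, nfc_pos_C] at h1
      exact h1
    have eb : nfcE ((N ^ j).map (LaurentPolynomial.C : D →+* LaurentPolynomial D))
        (B0.map (negIncl D)) := by
      intro a b
      have h1 := Ideal.mem_map_of_mem (negIncl D) (hB0 a b)
      rw [Ideal.map_map, nfc_neg_C] at h1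
      exact h1
    have m1 : (1 + A0).map (posIncl D) = 1 + A0.map (posIncl D) := by
      rw [Matrix.map_add _ (map_add _), Matrix.map_one _ (map_zero _) (map_one _)]
    have m2 : (1 + B0).map (negIncl D) = 1 + B0.map (negIncl D) := by
      rw [Matrix.map_add _ (map_add _), Matrix.map_one _ (map_zero _) (map_one _)]
    have i1 : (1 + A0.map (posIncl D)) * A'.map (posIncl D) = 1 := by
      rw [← m1, ← Matrix.map_mul, hA1, Matrix.map_one _ (map_zero _) (map_one _)]
    have i2 : B'.map (negIncl D) * (1 + B0.map (negIncl D)) = 1 := by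
      rw [← m2, ← Matrix.map_mul, hB2, Matrix.map_one _ (map_zero _) (map_one _)]
    have hM' : ∀ a b m, lco ((-(A'.map (posIncl D) * (A0.map (posIncl D) *
        B0.map (negIncl D)) * B'.map (negIncl D))) a b) m ∈ N ^ (j + 1) := by
      intro a b m
      apply nfc_lco_mem
      rw [Matrix.neg_apply, neg_mem_iff]
      have h1 := nfcE_mul (nfcE_mul (nfcE_top (A'.map (posIncl D))) (nfcE_mul ea eb))
        (nfcE_top (B'.map (negIncl D))) a b
      rw [Ideal.top_mul, Ideal.mul_top, ← Ideal.map_mul, ← pow_add] at h1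
      exact Ideal.map_mono (Ideal.pow_le_pow_right (by omega)) h1
    obtain ⟨P, P', Q, Q', p1, p2, q1, q2, hPQ⟩ := ih (j + 1) (by omega) (by omega) _ hM'
    refine ⟨(1 + A0) * P, P' * A', Q * (1 + B0), B' * Q', ?_, ?_, ?_, ?_, ?_⟩
    · rw [Matrix.mul_assoc, ← Matrix.mul_assoc P, p1, Matrix.one_mul, hA1]
    · rw [Matrix.mul_assoc, ← Matrix.mul_assoc A', hA2, Matrix.one_mul, p2]
    · rw [Matrix.mul_assoc, ← Matrix.mul_assoc (1 + B0), hB1, Matrix.one_mul, q1]
    · rw [Matrix.mul_assoc, ← Matrix.mul_assoc Q', q2, Matrix.one_mul, hB2]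
    · rw [Matrix.map_mul, Matrix.map_mul, m1, m2]
      calc 1 + M = (1 + A0.map (posIncl D)) * (1 + B0.map (negIncl D)) -
            (1 + A0.map (posIncl D)) * A'.map (posIncl D) * (A0.map (posIncl D) *
              B0.map (negIncl D)) * (B'.map (negIncl D) * (1 + B0.map (negIncl D))) := by
            rw [i1, i2, hMab]
            noncomm_ring
        _ = (1 + A0.map (posIncl D)) * (1 + -(A'.map (posIncl D) * (A0.map (posIncl D) *
            B0.map (negIncl D)) * B'.map (negIncl D))) * (1 + B0.map (negIncl D)) := by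
            noncomm_ring
        _ = _ := by
            rw [hPQ]
            noncomm_ring

theorem t_NFC : S_NFC := by
  intro D _ N k hN n M hM
  exact nfc_main N k hN n k 1 le_rfl (by omega) M (by simpa using hM)

end Nfc

end Pool.Agent.KM
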