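import Pool.Agent.KM.St1

/-!
# Idempotent matrices over principal ideal domains
-/

set_option autoImplicit false

open Matrix Polynomial Pool.Agent.Lib25

noncomputable section

namespace Pool.Agent.KM

theorem t_PID : S_PID := by
  intro R _ _ _ m e he
  set N : Submodule R (Fin m → R) := LinearMap.range (Matrix.toLin' e) with hN
  obtain ⟨r, b⟩ := Submodule.basisOfPid (Pi.basisFun R (Fin m)) N
  let f : (Fin r → R) →ₗ[R] (Fin m → R) := N.subtype ∘ₗ (b.equivFun.symm : (Fin r → R) →ₗ[R] N)
  let g : (Fin m → R) →ₗ[R] (Fin r → R) :=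
    (b.equivFun : N →ₗ[R] (Fin r → R)) ∘ₗ (Matrix.toLin' e).rangeRestrict
  have hee : ∀ v, Matrix.toLin' e (Matrix.toLin' e v) = Matrix.toLin' e v := by
    intro v
    rw [← LinearMap.comp_apply, ← Matrix.toLin'_mul, he]
  have h1 : f ∘ₗ g = Matrix.toLin' e := by
    refine LinearMap.ext fun v => ?_
    change ((b.equivFun.symm (b.equivFun ((Matrix.toLin' e).rangeRestrict v)) : N) :
      Fin m → R) = _
    rw [LinearEquiv.symm_apply_apply]
    rfl
  have h2 : g ∘ₗ f = LinearMap.id := by
    refine LinearMap.ext fun v => ?_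
    change b.equivFun ((Matrix.toLin' e).rangeRestrict ((b.equivFun.symm v : N) : Fin m → R)) = v
    have h3 : (Matrix.toLin' e).rangeRestrict ((b.equivFun.symm v : N) : Fin m → R) =
        b.equivFun.symm v := by
      refine Subtype.ext ?_
      obtain ⟨w, hw⟩ := (b.equivFun.symm v).2
      change Matrix.toLin' e ((b.equivFun.symm v : N) : Fin m → R) = _
      rw [← hw, hee]
    rw [h3, LinearEquiv.apply_symm_apply]
  refine ⟨r, LinearMap.toMatrix' f, LinearMap.toMatrix' g, ?_, ?_⟩
  · rw [← LinearMap.toMatrix'_comp, h1, LinearMap.toMatrix'_toLin']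
  · rw [← LinearMap.toMatrix'_comp, h2, LinearMap.toMatrix'_id]

end Pool.Agent.KM
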