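import Pool.Agent.KM.St1

/-!
# K-theory of Milnor squares, module PNI: invertibility modulo a jointly nilpotent family
-/

set_option autoImplicit false
set_option linter.unusedSectionVars false

open Matrix Polynomial Pool.Agent.Lib25

noncomputable section

namespace Pool.Agent.KM

namespace PNI

variable {R : Type} [CommRing R] {I : Type} [Fintype I] {S : I → Type} [∀ i, CommRing (S i)]
  {φ : ∀ i, R →+* S i}

/-- an element which is invertible modulo every kernel is invertible -/
lemma isUnit_of (h : JNil φ) (d : R) (hd : ∀ i, ∃ c : S i, φ i d * c = 1) : IsUnit d := by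
  choose c hc using hd
  obtain ⟨a, ha⟩ := h.surj c
  obtain ⟨k, hk⟩ := h.nil
  have h1 : d * a - 1 ∈ ⨅ i, RingHom.ker (φ i) := by
    rw [Ideal.mem_iInf]
    intro i
    rw [RingHom.mem_ker, map_sub, map_mul, map_one, ha i, hc i, sub_self]
  have h2 : (d * a - 1) ^ k = 0 := by
    have h3 := Ideal.pow_mem_pow h1 k
    rw [hk] at h3
    exact h3
  have h3 : IsUnit (1 + (d * a - 1)) := IsNilpotent.isUnit_one_add ⟨k, h2⟩
  rw [add_sub_cancel] at h3
  exact isUnit_of_mul_isUnit_left h3

lemma matrix (h : JNil φ) (n : ℕ) (M : Matrix (Fin n) (Fin n) R)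
    (hM : ∀ i, ∃ M' : Matrix (Fin n) (Fin n) (S i), M.map (φ i) * M' = 1 ∧ M' * M.map (φ i) = 1) :
    ∃ M' : Matrix (Fin n) (Fin n) R, M * M' = 1 ∧ M' * M = 1 := by
  have h1 : IsUnit M.det := by
    apply isUnit_of h
    intro i
    obtain ⟨M', h1, -⟩ := hM i
    refine ⟨M'.det, ?_⟩
    have h2 : φ i M.det = (M.map (φ i)).det := by
      rw [RingHom.map_det]
      rfl
    rw [h2, ← Matrix.det_mul, h1, Matrix.det_one]
  exact ⟨M⁻¹, Matrix.mul_nonsing_inv M h1, Matrix.nonsing_inv_mul M h1⟩

lemma poly (h : JNil φ) : JNil (fun i => Polynomial.mapRingHom (φ i)) where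
  surj := by
    classical
    intro b
    choose a ha using fun n : ℕ => h.surj fun i => (b i).coeff n
    refine ⟨∑ n ∈ Finset.univ.biUnion (fun i => (b i).support), Polynomial.monomial n (a n), ?_⟩
    intro i
    ext m
    rw [Polynomial.coe_mapRingHom, Polynomial.coeff_map, Polynomial.finsetSum_coeff]
    simp only [Polynomial.coeff_monomial]
    rw [Finset.sum_ite_eq' (Finset.univ.biUnion (fun i => (b i).support)) m (fun n => a n)]
    by_cases hm : m ∈ Finset.univ.biUnion (fun i => (b i).support)
    · rw [if_pos hm, ha m]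
    · rw [if_neg hm, map_zero]
      rw [Finset.mem_biUnion] at hm
      by_contra h1
      apply hm
      refine ⟨i, Finset.mem_univ i, ?_⟩
      rw [Polynomial.mem_support_iff]
      exact fun h2 => h1 h2.symm
  nil := by
    obtain ⟨k, hk⟩ := h.nil
    refine ⟨k, ?_⟩
    have h1 : (⨅ i, RingHom.ker (Polynomial.mapRingHom (φ i))) ≤
        Ideal.map (Polynomial.C : R →+* R[X]) (⨅ i, RingHom.ker (φ i)) := by
      intro f hf
      rw [Ideal.mem_map_C_iff]
      intro n
      rw [Ideal.mem_iInf] at hf ⊢
      intro i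
      have h2 := hf i
      rw [RingHom.mem_ker] at h2 ⊢
      have h3 := congrArg (fun x => x.coeff n) h2
      simpa using h3
    rw [eq_bot_iff]
    refine (Ideal.pow_right_mono h1 k).trans ?_
    rw [← Ideal.map_pow, hk, Ideal.map_bot]

lemma laur (h : JNil φ) : JNil (fun i => mapL (φ i)) where
  surj := by
    classical
    intro b
    choose a ha using fun n : ℤ => h.surj fun i => lco (b i) n
    refine ⟨lmk (Finset.univ.biUnion (fun i => (AddMonoidAlgebra.coeff (b i)).support)) a, ?_⟩
    intro i
    apply lco_ext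
    intro n
    rw [lco_mapL, lco_lmk]
    split_ifs with hn
    · exact ha n i
    · rw [map_zero, lco_not_mem]
      intro h1
      apply hn
      rw [Finset.mem_biUnion]
      exact ⟨i, Finset.mem_univ i, h1⟩
  nil := by
    obtain ⟨k, hk⟩ := h.nil
    refine ⟨k, ?_⟩
    have h1 : (⨅ i, RingHom.ker (mapL (φ i))) ≤
        Ideal.map (LaurentPolynomial.C : R →+* LaurentPolynomial R)
          (⨅ i, RingHom.ker (φ i)) := by
      intro f hf
      have h2 : ∀ n : ℤ, lco f n ∈ ⨅ i, RingHom.ker (φ i) := by
        intro n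
        rw [Ideal.mem_iInf] at hf ⊢
        intro i
        have h2 := hf i
        rw [RingHom.mem_ker] at h2 ⊢
        rw [← lco_mapL, h2]
        rfl
      have h3 : f = ∑ n ∈ (AddMonoidAlgebra.coeff f).support,
          LaurentPolynomial.C (lco f n) * LaurentPolynomial.T n := by
        have h4 := AddMonoidAlgebra.sum_coeff_single f
        conv_lhs => rw [← h4]
        rw [Finsupp.sum]
        apply Finset.sum_congr rfl
        intro n _
        exact LaurentPolynomial.single_eq_C_mul_T _ _
      rw [h3]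
      apply Ideal.sum_mem
      intro n _
      exact Ideal.mul_mem_right _ _ (Ideal.mem_map_of_mem _ (h2 n))
    rw [eq_bot_iff]
    refine (Ideal.pow_right_mono h1 k).trans ?_
    rw [← Ideal.map_pow, hk, Ideal.map_bot]

end PNI

theorem t_PNI : S_PNI := by
  intro R _ I _ S _ φ h
  exact ⟨fun n M hM => PNI.matrix h n M hM, PNI.poly h, PNI.laur h⟩

end Pool.Agent.KM
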