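import Pool.Agent.KM.St1

/-!
# KM_PNL: equivalence of idempotents can be checked modulo a jointly nilpotent family
-/

set_option autoImplicit false
set_option linter.unusedSectionVars false

open Matrix Polynomial Pool.Agent.Lib25

noncomputable section

namespace Pool.Agent.KM

namespace PNL

theorem pow_mem {R : Type} [CommRing R] {n : ℕ} (I : Ideal R) (M : Matrix (Fin n) (Fin n) R)
    (h : ∀ a b, M a b ∈ I) (k : ℕ) : ∀ a b, (M ^ k) a b ∈ I ^ k := by
  induction k with
  | zero =>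
    intro a b
    rw [pow_zero, Ideal.one_eq_top]
    exact Submodule.mem_top
  | succ k ih =>
    intro a b
    rw [pow_succ, pow_succ, Matrix.mul_apply]
    exact Ideal.sum_mem _ fun c _ => Ideal.mul_mem_mul (ih a c) (h c b)

theorem pow_zero_of {R : Type} [CommRing R] {n : ℕ} {I : Ideal R} (M : Matrix (Fin n) (Fin n) R)
    (h : ∀ a b, M a b ∈ I) {k : ℕ} (hk : I ^ k = ⊥) : M ^ k = 0 := by
  ext a b
  have h1 := pow_mem I M h k a b
  rw [hk] at h1
  exact h1

end PNL

open PNL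

theorem t_PNL : S_PNL := by
  intro R _ I _ S _ φ hφ m n e f he hf hmn
  -- joint lifts
  have lift : ∀ {a b : ℕ} (M : ∀ i, Matrix (Fin a) (Fin b) (S i)),
      ∃ L : Matrix (Fin a) (Fin b) R, ∀ i, L.map (φ i) = M i := by
    intro a b M
    choose L hL using fun (r : Fin a) (c : Fin b) => hφ.surj (fun i => M i r c)
    refine ⟨L, fun i => ?_⟩
    ext r c
    exact hL r c i
  obtain ⟨k, hk⟩ := hφ.nil
  have hk1 : (⨅ i, RingHom.ker (φ i)) ^ (k + 1) = ⊥ := by rw [pow_succ, hk, Ideal.bot_mul]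
  have hmem : ∀ {a b : ℕ} (M : Matrix (Fin a) (Fin b) R), (∀ i, M.map (φ i) = 0) →
      ∀ r c, M r c ∈ (⨅ i, RingHom.ker (φ i)) := by
    intro a b M hM r c
    rw [Ideal.mem_iInf]
    intro i
    rw [RingHom.mem_ker]
    exact congrFun (congrFun (hM i) r) c
  choose u v huv hvu using hmn
  obtain ⟨x0, hx0⟩ := lift u
  obtain ⟨y0, hy0⟩ := lift v
  obtain ⟨x, hx⟩ : ∃ x : Matrix (Fin m) (Fin n) R, x = e * x0 * f := ⟨_, rfl⟩
  obtain ⟨y, hy⟩ : ∃ y : Matrix (Fin n) (Fin m) R, y = f * y0 * e := ⟨_, rfl⟩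
  have ex : e * x = x := by rw [hx, ← Matrix.mul_assoc, ← Matrix.mul_assoc, he]
  have xf : x * f = x := by rw [hx, Matrix.mul_assoc, hf]
  have fy : f * y = y := by rw [hy, ← Matrix.mul_assoc, ← Matrix.mul_assoc, hf]
  have ye : y * e = y := by rw [hy, Matrix.mul_assoc, he]
  have hei : ∀ i, e.map (φ i) * e.map (φ i) = e.map (φ i) := fun i => by
    rw [← Matrix.map_mul, he]
  have hfi : ∀ i, f.map (φ i) * f.map (φ i) = f.map (φ i) := fun i => by
    rw [← Matrix.map_mul, hf]
  have xyi : ∀ i, (x * y).map (φ i) = e.map (φ i) := by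
    intro i
    rw [hx, hy, Matrix.map_mul, Matrix.map_mul, Matrix.map_mul, Matrix.map_mul, Matrix.map_mul,
      hx0, hy0]
    have h1 : e.map (φ i) * u i * f.map (φ i) * (f.map (φ i) * v i * e.map (φ i)) =
        e.map (φ i) * (u i * (f.map (φ i) * f.map (φ i)) * v i) * e.map (φ i) := by
      simp only [Matrix.mul_assoc]
    rw [h1, hfi, ← hvu i]
    have h2 : u i * (v i * u i) * v i = (u i * v i) * (u i * v i) := by
      simp only [Matrix.mul_assoc]
    rw [h2, huv, hei, hei, hei]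
  have yxi : ∀ i, (y * x).map (φ i) = f.map (φ i) := by
    intro i
    rw [hx, hy, Matrix.map_mul, Matrix.map_mul, Matrix.map_mul, Matrix.map_mul, Matrix.map_mul,
      hx0, hy0]
    have h1 : f.map (φ i) * v i * e.map (φ i) * (e.map (φ i) * u i * f.map (φ i)) =
        f.map (φ i) * (v i * (e.map (φ i) * e.map (φ i)) * u i) * f.map (φ i) := by
      simp only [Matrix.mul_assoc]
    rw [h1, hei, ← huv i]
    have h2 : v i * (u i * v i) * u i = (v i * u i) * (v i * u i) := by
      simp only [Matrix.mul_assoc]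
    rw [h2, hvu, hfi, hfi, hfi]
  obtain ⟨z, hz⟩ : ∃ z : Matrix (Fin m) (Fin m) R, z = e - x * y := ⟨_, rfl⟩
  have zi : ∀ i, z.map (φ i) = 0 := by
    intro i
    rw [hz, Matrix.map_sub (φ i) (map_sub (φ i)), xyi, sub_self]
  have zk : z ^ (k + 1) = 0 := pow_zero_of z (hmem z zi) hk1
  have ez : e * z = z := by
    rw [hz, Matrix.mul_sub, he, ← Matrix.mul_assoc, ex]
  have ze : z * e = z := by
    rw [hz, Matrix.sub_mul, he, Matrix.mul_assoc, ye]
  obtain ⟨w, hw⟩ : ∃ w : Matrix (Fin m) (Fin m) R,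
      w = e * ∑ j ∈ Finset.range (k + 1), z ^ j := ⟨_, rfl⟩
  have xyw : x * y * w = e := by
    have h1 : x * y = e * (1 - z) := by
      rw [Matrix.mul_sub, Matrix.mul_one, ez, hz]
      abel
    have h2 : (1 - z) * e = e * (1 - z) := by
      rw [Matrix.mul_sub, Matrix.sub_mul, Matrix.one_mul, Matrix.mul_one, ez, ze]
    have h3 : (1 - z) * ∑ j ∈ Finset.range (k + 1), z ^ j = 1 - z ^ (k + 1) :=
      mul_neg_geom_sum z (k + 1)
    rw [h1, hw]
    calc e * (1 - z) * (e * ∑ j ∈ Finset.range (k + 1), z ^ j)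
        = e * ((1 - z) * e) * ∑ j ∈ Finset.range (k + 1), z ^ j := by
          simp only [Matrix.mul_assoc]
      _ = (e * e) * ((1 - z) * ∑ j ∈ Finset.range (k + 1), z ^ j) := by
          rw [h2]
          simp only [Matrix.mul_assoc]
      _ = e := by rw [he, h3, zk, sub_zero, Matrix.mul_one]
  have wi : ∀ i, w.map (φ i) = e.map (φ i) := by
    intro i
    rw [hw, Matrix.map_mul]
    have h1 : (∑ j ∈ Finset.range (k + 1), z ^ j).map (φ i) =
        ∑ j ∈ Finset.range (k + 1), (z.map (φ i)) ^ j := by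
      have := map_sum (RingHom.mapMatrix (φ i) : Matrix (Fin m) (Fin m) R →+* _)
        (fun j => z ^ j) (Finset.range (k + 1))
      rw [RingHom.mapMatrix_apply] at this
      rw [this]
      refine Finset.sum_congr rfl fun j _ => ?_
      rw [map_pow, RingHom.mapMatrix_apply]
    rw [h1, zi i, Finset.sum_range_succ']
    simp
  obtain ⟨y1, hy1⟩ : ∃ y1 : Matrix (Fin n) (Fin m) R, y1 = y * w := ⟨_, rfl⟩
  have xy1 : x * y1 = e := by rw [hy1, ← Matrix.mul_assoc, xyw]
  have f1 : (y1 * x) * (y1 * x) = y1 * x := by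
    have : y1 * x * (y1 * x) = y1 * (x * y1 * x) := by simp only [Matrix.mul_assoc]
    rw [this, xy1, ex]
  have f2 : f * (y1 * x) = y1 * x := by
    rw [hy1, ← Matrix.mul_assoc, ← Matrix.mul_assoc, fy]
  have f3 : (y1 * x) * f = y1 * x := by
    rw [Matrix.mul_assoc, xf]
  have fi : ∀ i, (f - y1 * x).map (φ i) = 0 := by
    intro i
    have h1 : (y1 * x).map (φ i) = f.map (φ i) := by
      rw [hy1, Matrix.map_mul, Matrix.map_mul, wi, ← Matrix.map_mul, ye, ← Matrix.map_mul, yxi]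
    rw [Matrix.map_sub (φ i) (map_sub (φ i)), h1, sub_self]
  have gk : (f - y1 * x) ^ (k + 1) = 0 := pow_zero_of _ (hmem _ fi) hk1
  have gg : (f - y1 * x) * (f - y1 * x) = f - y1 * x := by
    rw [Matrix.mul_sub, Matrix.sub_mul, Matrix.sub_mul, hf, f1, f2, f3]
    abel
  have gpow : ∀ j : ℕ, (f - y1 * x) ^ (j + 1) = f - y1 * x := by
    intro j
    induction j with
    | zero => rw [zero_add, pow_one]
    | succ j ih => rw [pow_succ, ih, gg]
  rw [gpow k] at gk
  exact ⟨x, y1, xy1, (sub_eq_zero.1 gk).symm⟩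

end Pool.Agent.KM
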