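import Pool.Agent.KM.St2

/-!
# KM_PRJ: submodules of free modules over a Dedekind domain are images of idempotents
-/

set_option autoImplicit false
set_option linter.unusedSectionVars false

open Matrix Polynomial Pool.Agent.Lib25

noncomputable section

namespace Pool.Agent.KM

theorem t_PRJ : S_PRJ := by
  intro R _ _ κ _ _ L
  have hfl : Module.Flat R L := inferInstance
  have hfp : Module.FinitePresentation R L := Module.finitePresentation_of_finite R L
  have hpr : Module.Projective R L := Module.Flat.projective_of_finitePresentation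
  obtain ⟨r, f, hf⟩ := Module.Finite.exists_fin' R L
  obtain ⟨σ, hσ⟩ := Module.projective_lifting_property f LinearMap.id hf
  have hσ' : ∀ x, f (σ x) = x := fun x => LinearMap.congr_fun hσ x
  refine ⟨r, LinearMap.toMatrix' (σ ∘ₗ f), LinearMap.toMatrix' (L.subtype ∘ₗ f), ?_, ?_, ?_, ?_, ?_⟩
  · rw [← LinearMap.toMatrix'_comp]
    congr 1
    apply LinearMap.ext
    intro x
    change σ (f (σ (f x))) = σ (f x)
    rw [hσ']
  · rw [← LinearMap.toMatrix'_comp]
    congr 1
    apply LinearMap.ext
    intro x
    change L.subtype (f (σ (f x))) = L.subtype (f x)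
    rw [hσ']
  · intro j
    have h : (fun i => LinearMap.toMatrix' (L.subtype ∘ₗ f) i j) =
        L.subtype (f (Pi.single j 1)) := by
      funext i
      rw [LinearMap.toMatrix'_apply]
      rfl
    rw [h]
    exact (f (Pi.single j 1)).2
  · intro x hx
    refine ⟨σ ⟨x, hx⟩, ?_, ?_⟩
    · rw [LinearMap.toMatrix'_mulVec]
      change σ (f (σ ⟨x, hx⟩)) = _
      rw [hσ']
    · rw [LinearMap.toMatrix'_mulVec]
      change L.subtype (f (σ ⟨x, hx⟩)) = _
      rw [hσ']
      rfl
  · intro v hv h0
    rw [LinearMap.toMatrix'_mulVec] at hv h0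
    have h1 : f v = 0 := by
      apply Subtype.ext
      exact h0
    have h2 : σ (f v) = v := hv
    rw [← h2, h1, map_zero]

end Pool.Agent.KM
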