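import Pool.Agent.KM.St3

/-!
# QSQ: the Milnor square of two ideals
-/

set_option autoImplicit false

open Matrix Polynomial Pool.Agent.Lib25

noncomputable section

namespace Pool.Agent.KM

theorem t_QSQ : S_QSQ := by
  intro R _ I J
  refine ⟨{
    f := Ideal.Quotient.factor (inf_le_left : I ⊓ J ≤ I)
    g := Ideal.Quotient.factor (inf_le_right : I ⊓ J ≤ J)
    p := Ideal.Quotient.factor (le_sup_left : I ≤ I ⊔ J)
    q := Ideal.Quotient.factor (le_sup_right : J ≤ I ⊔ J)
    comm := ?_
    pull := ?_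
    inj := ?_
    surjp := Ideal.Quotient.factor_surjective _
    surjq := Ideal.Quotient.factor_surjective _ }⟩
  · intro a
    obtain ⟨r, rfl⟩ := Ideal.Quotient.mk_surjective a
    simp only [Ideal.Quotient.factor_mk]
  · intro b c h
    obtain ⟨r, rfl⟩ := Ideal.Quotient.mk_surjective b
    obtain ⟨r', rfl⟩ := Ideal.Quotient.mk_surjective c
    rw [Ideal.Quotient.factor_mk, Ideal.Quotient.factor_mk, Ideal.Quotient.eq,
      Submodule.mem_sup] at h
    obtain ⟨i, hi, j, hj, hij⟩ := h
    refine ⟨Ideal.Quotient.mk _ (r - i), ?_, ?_⟩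
    · rw [Ideal.Quotient.factor_mk, Ideal.Quotient.eq]
      have h1 : r - i - r = -i := by ring
      rw [h1]
      exact I.neg_mem hi
    · rw [Ideal.Quotient.factor_mk, Ideal.Quotient.eq]
      have h1 : r - i - r' = j := by
        linear_combination (-1 : R) * hij
      rw [h1]
      exact hj
  · intro a h1 h2
    obtain ⟨r, rfl⟩ := Ideal.Quotient.mk_surjective a
    rw [Ideal.Quotient.factor_mk, Ideal.Quotient.eq_zero_iff_mem] at h1 h2
    rw [Ideal.Quotient.eq_zero_iff_mem]
    exact ⟨h1, h2⟩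

end Pool.Agent.KM
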