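import Pool.Agent.KM.St2
import Pool.Agent.Lib_helper25.Final0

/-!
# KM_RKF: the rank bound for a Milnor square with `D` finite
-/

set_option autoImplicit false
set_option linter.unusedSectionVars false

open Matrix Polynomial Pool.Agent.Lib25

noncomputable section

namespace Pool.Agent.KM

namespace RKF

section Abs

variable {A B C : Type} [AddCommGroup A] [AddCommGroup B] [AddCommGroup C]

/-- A functional vanishing on the joint kernel comes from functionals on the targets. -/
theorem factor (f : A →+ B) (g : A →+ C) (F : A →+ ℚ)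
    (h : ∀ x, f x = 0 → g x = 0 → F x = 0) :
    ∃ (F1 : B →+ ℚ) (F2 : C →+ ℚ), F = F1.comp f + F2.comp g := by
  obtain ⟨H, hH⟩ := exists_functional (A := B × C) (fun x : A => (f x, g x)) (fun x => F x) (by
    intro c hc
    have h1 : (c.sum fun j m => m • ((f j, g j) : B × C)) =
        (f (c.sum fun j m => m • j), g (c.sum fun j m => m • j)) := by
      rw [map_finsuppSum, map_finsuppSum]
      unfold Finsupp.sum
      refine Prod.ext ?_ ?_
      · rw [Prod.fst_sum]
        simp
      · rw [Prod.snd_sum]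
        simp
    rw [h1] at hc
    have h2 := h _ (congrArg Prod.fst hc) (congrArg Prod.snd hc)
    rw [map_finsuppSum] at h2
    rw [← h2]
    unfold Finsupp.sum
    refine Finset.sum_congr rfl fun j _ => ?_
    change (c j : ℚ) * F j = F (c j • j)
    rw [map_zsmul, zsmul_eq_mul])
  refine ⟨H.comp (AddMonoidHom.inl B C), H.comp (AddMonoidHom.inr B C), ?_⟩
  ext x
  rw [AddMonoidHom.add_apply, AddMonoidHom.comp_apply, AddMonoidHom.comp_apply,
    AddMonoidHom.comp_apply, AddMonoidHom.comp_apply, ← map_add, AddMonoidHom.inl_apply,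
    AddMonoidHom.inr_apply, Prod.mk_add_mk, add_zero, zero_add, hH]

/-- The vectors of sum `0`. -/
def sumMap (I : Type) [Fintype I] : (I → ℚ) →ₗ[ℚ] ℚ := ∑ i, LinearMap.proj i

theorem finrank_ker_sum (I : Type) [Fintype I] (δ : ℕ) (h : Nat.card I ≤ δ + 1) :
    Module.finrank ℚ (LinearMap.ker (sumMap I)) ≤ δ := by
  classical
  have h0 : Module.finrank ℚ (I → ℚ) = Nat.card I := by
    rw [Module.finrank_fintype_fun_eq_card, Nat.card_eq_fintype_card]
  rcases isEmpty_or_nonempty I with hI | ⟨⟨i⟩⟩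
  · have h1 := Submodule.finrank_le (LinearMap.ker (sumMap I))
    rw [h0, Nat.card_of_isEmpty] at h1
    omega
  · have hs : LinearMap.range (sumMap I) = ⊤ := by
      rw [LinearMap.range_eq_top]
      intro q
      refine ⟨Pi.single i q, ?_⟩
      unfold sumMap
      simp
    have h1 := LinearMap.finrank_range_add_finrank_ker (sumMap I)
    rw [hs, finrank_top, Module.finrank_self, h0] at h1
    omega

theorem rank_aux {I : Type} [Fintype I] (f : A →+ B) (g : A →+ C) (w : I → A)
    (hw : ∑ i, w i = 0)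
    (hker : ∀ x, f x = 0 → g x = 0 → ∃ c : I → ℤ, x = ∑ i, c i • w i) (β γ δ : ℕ)
    (hβ : Module.rank ℚ (B →+ ℚ) ≤ β) (hγ : Module.rank ℚ (C →+ ℚ) ≤ γ)
    (hδ : Nat.card I ≤ δ + 1) : Module.rank ℚ (A →+ ℚ) ≤ ((β + γ + δ : ℕ) : Cardinal) := by
  obtain ⟨Res, hRes⟩ : ∃ Res : (A →+ ℚ) →ₗ[ℚ] (I → ℚ), ∀ F i, Res F i = F (w i) :=
    ⟨{ toFun := fun F i => F (w i)
       map_add' := fun _ _ => rfl
       map_smul' := fun _ _ => rfl }, fun _ _ => rfl⟩
  obtain ⟨Ψ, hΨ⟩ : ∃ Ψ : ((B →+ ℚ) × (C →+ ℚ)) →ₗ[ℚ] (A →+ ℚ),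
      ∀ F1 F2, Ψ (F1, F2) = F1.comp f + F2.comp g :=
    ⟨{ toFun := fun P => P.1.comp f + P.2.comp g
       map_add' := fun P Q => by
         ext x
         simp only [Prod.fst_add, Prod.snd_add, AddMonoidHom.add_apply, AddMonoidHom.comp_apply]
         ring
       map_smul' := fun q P => by
         ext x
         change q * P.1 (f x) + q * P.2 (g x) = q * (P.1 (f x) + P.2 (g x))
         ring }, fun _ _ => rfl⟩
  have h1 : LinearMap.range Res ≤ LinearMap.ker (sumMap I) := by
    rintro _ ⟨F, rfl⟩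
    rw [LinearMap.mem_ker]
    unfold sumMap
    rw [LinearMap.sum_apply]
    simp only [LinearMap.proj_apply, hRes]
    rw [← map_sum, hw, map_zero]
  have h2 : LinearMap.ker Res ≤ LinearMap.range Ψ := by
    intro F hF
    rw [LinearMap.mem_ker] at hF
    obtain ⟨F1, F2, h⟩ := factor f g F (by
      intro x hx1 hx2
      obtain ⟨c, hc⟩ := hker x hx1 hx2
      rw [hc, map_sum]
      refine Finset.sum_eq_zero fun i _ => ?_
      rw [map_zsmul, ← hRes, hF, Pi.zero_apply, smul_zero])
    exact ⟨(F1, F2), by rw [hΨ, h]⟩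
  have h3 : Module.rank ℚ (LinearMap.range Res) ≤ (δ : Cardinal) := by
    rw [← Module.finrank_eq_rank]
    exact_mod_cast (Submodule.finrank_mono h1).trans (finrank_ker_sum I δ hδ)
  have h4 : Module.rank ℚ (LinearMap.ker Res) ≤ ((β + γ : ℕ) : Cardinal) := by
    refine (Submodule.rank_mono h2).trans ((rank_range_le Ψ).trans ?_)
    rw [rank_prod']
    push_cast
    exact add_le_add hβ hγ
  rw [← LinearMap.rank_range_add_rank_ker Res]
  refine (add_le_add h3 h4).trans (le_of_eq ?_)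
  push_cast
  ring

end Abs

/-- The inverse of `tauE ε`. -/
theorem tauE_unit {D : Type} [CommRing D] (ε : D) (h : ε * ε = ε) :
    tauE ε * (LaurentPolynomial.C ε * LaurentPolynomial.T (-1) + LaurentPolynomial.C (1 - ε)) =
      1 := by
  unfold tauE
  have hT : (LaurentPolynomial.T 1 : LaurentPolynomial D) * LaurentPolynomial.T (-1) = 1 := by
    rw [← LaurentPolynomial.T_add, add_neg_cancel, LaurentPolynomial.T_zero]
  have h1 : (LaurentPolynomial.C ε : LaurentPolynomial D) * LaurentPolynomial.C ε =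
      LaurentPolynomial.C ε := by
    rw [← map_mul, h]
  rw [map_sub, map_one]
  linear_combination (LaurentPolynomial.C ε : LaurentPolynomial D) ^ 2 * hT +
    (2 - LaurentPolynomial.T (-1) - LaurentPolynomial.T 1) * h1

end RKF

open RKF

theorem t_RKF (hDEL : S_DEL) (hFIN : S_FIN) (hF1 : S_F1) (hKER : S_KER) (hDGN : S_DGN) :
    S_RKF := by
  intro A B C D _ _ _ _ _ s β γ δ hβ hγ hδ
  obtain ⟨hfin, h0⟩ := hFIN D
  let _ : Fintype (MaximalSpectrum D) := Fintype.ofFinite _
  obtain ⟨_, ε, hε1, hε2⟩ := h0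
  have hE : IsEps D ε := ⟨hε1, hε2⟩
  obtain ⟨hex, -⟩ := hDEL s.laur
  have hv : ∀ m, ∃ v, IsDel s.laur (Matrix.diagonal fun _ : Fin 1 => tauE (ε m)) v := by
    intro m
    have h1 := tauE_unit (ε m) (hε1.idem m)
    obtain ⟨τ, hτ⟩ : ∃ τ, τ = (LaurentPolynomial.C (ε m) * LaurentPolynomial.T (-1) +
      LaurentPolynomial.C (1 - ε m) : LaurentPolynomial D) := ⟨_, rfl⟩
    rw [← hτ] at h1
    refine hex (Matrix.diagonal fun _ : Fin 1 => tauE (ε m))
      (Matrix.diagonal fun _ : Fin 1 => τ) ?_ ?_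
    · rw [Matrix.diagonal_mul_diagonal]
      simp only [h1]
      exact Matrix.diagonal_one
    · rw [Matrix.diagonal_mul_diagonal]
      simp only [mul_comm τ, h1]
      exact Matrix.diagonal_one
  choose v hv using hv
  obtain ⟨hsum, hgen⟩ := hDGN s ε hE v hv
  refine rank_aux (KNegOne.map s.f) (KNegOne.map s.g) (fun m => KNegOne.mk (v m)) hsum ?_ β γ δ
    hβ hγ hδ
  intro x hx1 hx2
  obtain ⟨n, U, V, a, hUV, hVU, hdel, hxa⟩ := hKER s (hF1 D) x hx1 hx2
  obtain ⟨c, hc⟩ := hgen n U V a hUV hVU hdel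
  exact ⟨c, by rw [hxa, hc]⟩

end Pool.Agent.KM
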