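import Pool.Agent.KM.St2

/-!
# MP_e40716_gt (b): invertible matrices over `k[T;T⁻¹]` (KM_SMI)
-/

set_option autoImplicit false
set_option linter.unusedSectionVars false

open Matrix Polynomial Pool.Agent.Lib25

noncomputable section

namespace Pool.Agent.KM

/-- A common denominator for one Laurent polynomial; every larger exponent works. -/
private theorem smi_one {k : Type} [Field k] (f : LaurentPolynomial k) : ∃ n : ℕ, ∀ N : ℕ, n ≤ N →
    ∃ g : k[X], posIncl k g = f * LaurentPolynomial.T (N : ℤ) := by
  obtain ⟨n, f', hf⟩ := LaurentPolynomial.exists_T_pow f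
  refine ⟨n, fun N hN => ⟨f' * X ^ (N - n), ?_⟩⟩
  have h1 : posIncl k f' = f * LaurentPolynomial.T (n : ℤ) := hf
  have h2 : posIncl k (X ^ (N - n)) = LaurentPolynomial.T ((N - n : ℕ) : ℤ) :=
    Polynomial.toLaurent_X_pow (N - n)
  rw [map_mul, h1, h2, mul_assoc, ← LaurentPolynomial.T_add]
  congr 2
  push_cast [Nat.cast_sub hN]
  ring

/-- A common denominator for the entries of a matrix. -/
private theorem smi_mat {k : Type} [Field k] (n : ℕ)
    (U : Matrix (Fin n) (Fin n) (LaurentPolynomial k)) :
    ∃ (N : ℕ) (M : Matrix (Fin n) (Fin n) k[X]),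
      M.map (posIncl k) = (LaurentPolynomial.T (N : ℤ) : LaurentPolynomial k) • U := by
  choose e he using fun i j => smi_one (U i j)
  let N : ℕ := Finset.univ.sup fun i => Finset.univ.sup fun j => e i j
  have hN : ∀ i j, e i j ≤ N := fun i j =>
    (Finset.le_sup (f := e i) (Finset.mem_univ j)).trans
      (Finset.le_sup (f := fun i => Finset.univ.sup fun j => e i j) (Finset.mem_univ i))
  choose M hM using fun i j => he i j N (hN i j)
  refine ⟨N, Matrix.of M, ?_⟩
  ext1 i j
  rw [Matrix.map_apply, Matrix.of_apply, hM i j, Matrix.smul_apply, smul_eq_mul, mul_comm]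

/-- Every divisor of a power of `X` is a power of `X` up to a unit. -/
private theorem smi_dvd {k : Type} [Field k] {K : ℕ} {d : k[X]} (h : d ∣ X ^ K) :
    ∃ (m : ℕ) (u v : k[X]), u * v = 1 ∧ d = X ^ m * v := by
  obtain ⟨m, _, u, hu⟩ := (dvd_prime_pow (Polynomial.prime_X (R := k)) K).1 h
  refine ⟨m, u, ((u⁻¹ : (k[X])ˣ) : k[X]), u.mul_inv, ?_⟩
  rw [← hu, mul_assoc, u.mul_inv, mul_one]

theorem t_SMI (hSNF : S_SNF) : S_SMI := by
  intro k _ n U V hUV hVU
  obtain ⟨N, M, hM⟩ := smi_mat n U
  have hinj : Function.Injective (posIncl k) := Polynomial.toLaurent_injective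
  -- the determinant
  have hdet : posIncl k M.det * (V.det * LaurentPolynomial.T (-((N : ℤ) * n))) = 1 := by
    have h1 : posIncl k M.det = (M.map (posIncl k)).det := RingHom.map_det _ _
    have h2 : U.det * V.det = 1 := by rw [← Matrix.det_mul, hUV, Matrix.det_one]
    have h3 : (LaurentPolynomial.T (N : ℤ) : LaurentPolynomial k) ^ n =
        LaurentPolynomial.T ((N : ℤ) * n) := by
      rw [LaurentPolynomial.T_pow, mul_comm]
    have h4 : (LaurentPolynomial.T ((N : ℤ) * n) : LaurentPolynomial k) *
        LaurentPolynomial.T (-((N : ℤ) * n)) = 1 := by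
      rw [← LaurentPolynomial.T_add, add_neg_cancel, LaurentPolynomial.T_zero]
    rw [h1, hM, Matrix.det_smul, Fintype.card_fin, h3]
    calc LaurentPolynomial.T ((N : ℤ) * n) * U.det * (V.det * LaurentPolynomial.T (-((N : ℤ) * n)))
        = (U.det * V.det) * (LaurentPolynomial.T ((N : ℤ) * n) *
            LaurentPolynomial.T (-((N : ℤ) * n))) := by ring
      _ = 1 := by rw [h2, h4, one_mul]
  have hne : M.det ≠ 0 := by
    intro h0
    rw [h0, map_zero, zero_mul] at hdet
    exact zero_ne_one hdet
  -- the determinant divides a power of X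
  obtain ⟨K, hK⟩ : ∃ K : ℕ, M.det ∣ X ^ K := by
    obtain ⟨K, hK⟩ := smi_one (V.det * LaurentPolynomial.T (-((N : ℤ) * n)))
    obtain ⟨g, hg⟩ := hK K le_rfl
    refine ⟨K, g, hinj ?_⟩
    have h2 : posIncl k (X ^ K) = LaurentPolynomial.T (K : ℤ) := Polynomial.toLaurent_X_pow K
    rw [map_mul, hg, ← mul_assoc, hdet, one_mul, h2]
  obtain ⟨P, P', Q, Q', d, hP, hP', hQ, hQ', hMd⟩ := hSNF n M hne
  have hd : ∀ i, d i ∣ X ^ K := by
    intro i
    refine dvd_trans ?_ hK
    rw [hMd, Matrix.det_mul, Matrix.det_mul, Matrix.det_diagonal]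
    exact dvd_mul_of_dvd_left (dvd_mul_of_dvd_right (Finset.dvd_prod_of_mem d (Finset.mem_univ i))
      _) _
  choose m u v huv hdm using fun i => smi_dvd (hd i)
  have huv' : Matrix.diagonal u * Matrix.diagonal v = (1 : Matrix (Fin n) (Fin n) k[X]) := by
    rw [Matrix.diagonal_mul_diagonal, ← Matrix.diagonal_one]
    congr 1
    funext i
    exact huv i
  have hvu' : Matrix.diagonal v * Matrix.diagonal u = (1 : Matrix (Fin n) (Fin n) k[X]) := by
    rw [Matrix.diagonal_mul_diagonal, ← Matrix.diagonal_one]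
    congr 1
    funext i
    rw [mul_comm]
    exact huv i
  have hdd : Matrix.diagonal d = Matrix.diagonal (fun i => (X : k[X]) ^ m i) *
      Matrix.diagonal v := by
    rw [Matrix.diagonal_mul_diagonal]
    congr 1
    funext i
    exact hdm i
  refine ⟨P, P', Matrix.diagonal v * Q, Q' * Matrix.diagonal u, fun i => (m i : ℤ) - N, hP, hP',
    ?_, ?_, ?_⟩
  · calc Matrix.diagonal v * Q * (Q' * Matrix.diagonal u)
        = Matrix.diagonal v * (Q * Q') * Matrix.diagonal u := by
          simp only [Matrix.mul_assoc]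
      _ = 1 := by rw [hQ, Matrix.mul_one, hvu']
  · calc Q' * Matrix.diagonal u * (Matrix.diagonal v * Q)
        = Q' * (Matrix.diagonal u * Matrix.diagonal v) * Q := by
          simp only [Matrix.mul_assoc]
      _ = 1 := by rw [huv', Matrix.mul_one, hQ']
  · have h1 : U = (LaurentPolynomial.T (-(N : ℤ)) : LaurentPolynomial k) •
        M.map (posIncl k) := by
      rw [hM, smul_smul, ← LaurentPolynomial.T_add, neg_add_cancel, LaurentPolynomial.T_zero,
        one_smul]
    have h2 : M.map (posIncl k) = P.map (posIncl k) *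
        Matrix.diagonal (fun i => LaurentPolynomial.T ((m i : ℕ) : ℤ)) *
          (Matrix.diagonal v * Q).map (posIncl k) := by
      have h3 : M = P * Matrix.diagonal (fun i => (X : k[X]) ^ m i) *
          (Matrix.diagonal v * Q) := by
        rw [hMd, hdd]
        simp only [Matrix.mul_assoc]
      have h4 : (Matrix.diagonal (fun i => (X : k[X]) ^ m i)).map (posIncl k) =
          Matrix.diagonal (fun i => LaurentPolynomial.T ((m i : ℕ) : ℤ)) := by
        rw [Matrix.diagonal_map (map_zero _)]
        congr 1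
        funext i
        exact Polynomial.toLaurent_X_pow (m i)
      conv_lhs => rw [h3]
      rw [Matrix.map_mul, Matrix.map_mul, h4]
    have h5 : (Matrix.diagonal (fun i => LaurentPolynomial.T ((m i : ℤ) - N)) :
        Matrix (Fin n) (Fin n) (LaurentPolynomial k)) =
        (LaurentPolynomial.T (-(N : ℤ)) : LaurentPolynomial k) •
          (Matrix.diagonal (fun i => LaurentPolynomial.T ((m i : ℕ) : ℤ)) :
            Matrix (Fin n) (Fin n) (LaurentPolynomial k)) := by
      rw [← Matrix.diagonal_smul]
      congr 1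
      funext i
      rw [Pi.smul_apply, smul_eq_mul, ← LaurentPolynomial.T_add]
      congr 1
      ring
    rw [h5, Matrix.mul_smul, Matrix.smul_mul, ← h2]
    exact h1

end Pool.Agent.KM
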