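import Pool.Agent.KM.St1

/-!
# MP_e40716_gt (b), block UB, part 2: generation of the kernel, rank bound, Dedekind domains

File names: `Pool/Agent/KM/P_X.lean`, theorem `t_X (hY : S_Y) ... : S_X`, namespace
`Pool.Agent.KM`.  All rings are in `Type`.
-/

set_option autoImplicit false
set_option linter.unusedSectionVars false

open Matrix Polynomial Pool.Agent.Lib25

noncomputable section

namespace Pool.Agent.KM

/-- KM_SNF (110 lines, no hypotheses).  Smith normal form over a PID.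

PROOF.  `N = LinearMap.range M.mulVecLin` has full rank (`M.mulVec` is injective because
`det M ≠ 0`).  Mathlib: `Submodule.smithNormalFormOfRankEq` (Mathlib/LinearAlgebra/FreeModule/PID.lean)
gives a basis `bM` of `Fin n → R`, a basis `bN` of `N`, an injection (so a bijection) `f` of `Fin n`
and `a` with `bN i = a i • bM (f i)`.  The images `M e_j` form another basis of `N`
(`M.mulVec` is an isomorphism onto `N`): change of basis matrix `Q`.  `P` = matrix with columns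
`bM (f i)`; `M = P * diagonal a * Q`. -/
def S_SNF : Prop := ∀ {R : Type} [CommRing R] [IsDomain R] [IsPrincipalIdealRing R] (n : ℕ)
  (M : Matrix (Fin n) (Fin n) R), M.det ≠ 0 →
  ∃ (P P' Q Q' : Matrix (Fin n) (Fin n) R) (d : Fin n → R), P * P' = 1 ∧ P' * P = 1 ∧
    Q * Q' = 1 ∧ Q' * Q = 1 ∧ M = P * Matrix.diagonal d * Q

/-- KM_SMI (110 lines; hypothesis `S_SNF`).  Invertible matrices over `k[T;T⁻¹]`.

PROOF.  For `N` large `T^N U = M.map posIncl`, `M` over `k[X]` (clear denominators,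
`LaurentPolynomial.exists_T_pow`-style).  `det (M.map pos) = T^(N n) det U` is a unit of
`k[T;T⁻¹]`, so `det M ≠ 0` and `det M` divides a power of `X` in `k[X]`
(`posIncl (det M) * w = 1`, clear the denominator of `w`).  `S_SNF`: `M = P diag(d) Q`; every
`d_i` divides `det M`, hence a power of `X`, so `d_i = c_i X^(a_i)`, `c_i ≠ 0` constant
(`dvd_prime_pow` for the prime `X`).  Absorb the `c_i` in `Q`.  Exponents `a_i - N`. -/
def S_SMI : Prop := ∀ {k : Type} [Field k] (n : ℕ)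
  (U V : Matrix (Fin n) (Fin n) (LaurentPolynomial k)), U * V = 1 → V * U = 1 →
  ∃ (P P' Q Q' : Matrix (Fin n) (Fin n) k[X]) (a : Fin n → ℤ), P * P' = 1 ∧ P' * P = 1 ∧
    Q * Q' = 1 ∧ Q' * Q = 1 ∧
    U = P.map (posIncl k) * Matrix.diagonal (fun i => (LaurentPolynomial.T (a i))) *
      Q.map (posIncl k)

/-- KM_NFC (130 lines; no hypotheses).  Factorisation of `1 + M`, `M` with nilpotent coefficients.

PROOF.  Downward induction on `j` (`1 ≤ j ≤ k`, WLOG `k ≥ 1`) for matrices with coefficients in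
`N^j`.  `j = k`: `M = 0`.  Step: `M = A.map pos + B.map neg` where `A` collects the exponents
`≥ 0`, `B` the exponents `< 0`; all coefficients of `A`, `B` are in `N^j`.  `1 + A`, `1 + B` are
invertible over `D[X]` (geometric series, `A^k = 0` has coefficients in `N^k`).  With
`a = A.map pos`, `b = B.map neg`: `(1+a)^-1 (1 + a + b) (1+b)^-1 = 1 - (1+a)^-1 a b (1+b)^-1`, whose
second term has coefficients in `N^(2j) ≤ N^(j+1)`: by induction it is `P1.map pos * Q1.map neg`;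
`P = (1 + A) P1`, `Q = Q1 (1 + B)`. -/
def S_NFC : Prop := ∀ {D : Type} [CommRing D] (N : Ideal D) (k : ℕ), N ^ k = ⊥ → ∀ (n : ℕ)
  (M : Matrix (Fin n) (Fin n) (LaurentPolynomial D)), (∀ i j m, lco (M i j) m ∈ N) →
  ∃ P P' Q Q' : Matrix (Fin n) (Fin n) D[X], P * P' = 1 ∧ P' * P = 1 ∧ Q * Q' = 1 ∧ Q' * Q = 1 ∧
    1 + M = P.map (posIncl D) * Q.map (negIncl D)

open scoped Classical in
/-- `ε` is the family of orthogonal idempotents of the finite ring `D`. -/
def IsEps (D : Type) [CommRing D] [Fintype (MaximalSpectrum D)] (ε : MaximalSpectrum D → D) :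
    Prop :=
  CompleteOrthogonalIdempotents ε ∧
    ∀ m m' : MaximalSpectrum D, Ideal.Quotient.mk m.asIdeal (ε m') = if m' = m then 1 else 0

/-- KM_DGA (150 lines; hypotheses `S_SMI`, `S_NFC`, `S_FIN`, `S_PNI`).  Decomposition of
invertible matrices over `D[T;T⁻¹]`, `D` finite.

PROOF.  For every `m` the image of `U` over the field `k_m = D/m` is
`pos(P_m) diag(T^(a m i)) pos(Q_m)` (`S_SMI`).  Lift the `P_m` jointly, entrywise, to `P` over
`D[X]` (joint surjectivity of `D[X] → (D/m)[X]`, `S_PNI`), invertible by `S_PNI` (1); the same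
for `Q`.  `Δ = diag(∑ m, C(ε m) T^(a m i))` is invertible (`Δ'` with `-a`; orthogonal
idempotents).  `M = Δ' P'(pos) U Q'(pos) - 1` becomes `0` over every `k_m[T;T⁻¹]` (`ε m' ↦ δ`), so
its coefficients are in `N = ⨅ ker`, `N^k = ⊥` (`S_FIN`).  `S_NFC`: `1 + M = pos(P2) neg(P3)`.
`U = pos(P) Δ pos(P2) neg(P3) pos(Q)`. -/
def S_DGA : Prop := ∀ {D : Type} [CommRing D] [Finite D] [Fintype (MaximalSpectrum D)]
  (ε : MaximalSpectrum D → D), IsEps D ε → ∀ (n : ℕ)
  (U V : Matrix (Fin n) (Fin n) (LaurentPolynomial D)), U * V = 1 → V * U = 1 →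
  ∃ (P P' Q Q' R R' S S' : Matrix (Fin n) (Fin n) D[X]) (a : MaximalSpectrum D → Fin n → ℤ),
    P * P' = 1 ∧ P' * P = 1 ∧ Q * Q' = 1 ∧ Q' * Q = 1 ∧ R * R' = 1 ∧ R' * R = 1 ∧
    S * S' = 1 ∧ S' * S = 1 ∧
    U = P.map (posIncl D) * Matrix.diagonal (fun i => ∑ m, LaurentPolynomial.C (ε m) *
      LaurentPolynomial.T (a m i)) * Q.map (posIncl D) * R.map (negIncl D) * S.map (posIncl D)

/-- KM_DGB (130 lines; hypotheses `S_DEL`, `S_MUL`).  Boundaries of polynomial matrices and of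
diagonal matrices.

PROOF.  (1) `IsDel s.poly P x` for some `x` (`S_DEL` (1)); naturality (`S_MUL` (3)) for
`a = posIncl A`, ..., `d = posIncl D` from `s.poly` to `s.laur` (`mapL_posIncl`):
`IsDel s.laur (P.map pos) (K0.map (posIncl A) x)`; uniqueness (`S_DEL` (2), `b = b' = c = c' = 1`):
`y = K0.map (posIncl A) x` is in `extImage A`, so `KNegOne.mk y = 0`.  The same with `negIncl`.
(2) induction on `n`: `diagonal` on `Fin (n+1)` is, after the reindexing
`Fin n ⊕ Fin 1 ≃ Fin (n+1)`, `fromBlocks`; block rule (`S_DEL` (4)), reindexing (`S_MUL` (2)),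
existence and uniqueness; `n = 0`: the empty matrix is `1`, value `0` (`S_DEL` (5), `b = 1`). -/
def S_DGB : Prop := ∀ {A B C D : Type} [CommRing A] [CommRing B] [CommRing C] [CommRing D]
  (s : MSq A B C D),
  (∀ (n : ℕ) (P P' : Matrix (Fin n) (Fin n) D[X]) (y : K0 (LaurentPolynomial A)), P * P' = 1 →
    P' * P = 1 → IsDel s.laur (P.map (posIncl D)) y → KNegOne.mk y = 0) ∧
  (∀ (n : ℕ) (P P' : Matrix (Fin n) (Fin n) D[X]) (y : K0 (LaurentPolynomial A)), P * P' = 1 →
    P' * P = 1 → IsDel s.laur (P.map (negIncl D)) y → KNegOne.mk y = 0) ∧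
  (∀ (n : ℕ) (u : Fin n → (LaurentPolynomial D)ˣ) (x : Fin n → K0 (LaurentPolynomial A))
    (y : K0 (LaurentPolynomial A)),
    (∀ i, IsDel s.laur (Matrix.diagonal fun _ : Fin 1 => (u i : LaurentPolynomial D)) (x i)) →
    IsDel s.laur (Matrix.diagonal fun i => (u i : LaurentPolynomial D)) y → y = ∑ i, x i)

/-- The unit `ε T + (1 - ε)` of `D[T;T⁻¹]` attached to an idempotent `ε`. -/
def tauE {D : Type} [CommRing D] (ε : D) : LaurentPolynomial D :=
  LaurentPolynomial.C ε * LaurentPolynomial.T 1 + LaurentPolynomial.C (1 - ε)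

/-- KM_DGN (150 lines; hypotheses `S_DEL`, `S_MUL`, `S_DGA`, `S_DGB`).  Generation of the
boundaries.

PROOF.  Write `∂ u` for the value on the `1 × 1` matrix of a unit `u` of `D[T;T⁻¹]`: existence,
uniqueness and additivity by `S_DEL`, `S_MUL` (a homomorphism `units → K0(A[T;T⁻¹])`).
(1) `∏ m, tauE (ε m) = T` (orthogonality, `∑ ε = 1`), and `∂ T = 0` by `S_DEL` (6) as `T = q(T)`,
`T⁻¹ = q(T⁻¹)`; so `∑ m, v m = 0`.
(2) `∑ m, C(ε m) T^(a m i) = ∏ m, (tauE (ε m))^(a m i)` (as units, integer powers; check with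
`C(ε m) tauE(ε m) = C(ε m) T`, `C(ε m') tauE(ε m) = C(ε m')`), so
`∂ (..) = ∑ m, a m i • v m`.  By `S_DGA`, additivity and `S_DGB`:
`mk y = mk ∂(Δ) = ∑ i, ∑ m, a m i • mk (v m)`. -/
def S_DGN : Prop := ∀ {A B C D : Type} [CommRing A] [CommRing B] [CommRing C] [CommRing D]
  [Finite D] [Fintype (MaximalSpectrum D)] (s : MSq A B C D) (ε : MaximalSpectrum D → D),
  IsEps D ε → ∀ v : MaximalSpectrum D → K0 (LaurentPolynomial A),
  (∀ m, IsDel s.laur (Matrix.diagonal fun _ : Fin 1 => tauE (ε m)) (v m)) →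
  (∑ m, KNegOne.mk (v m) = 0) ∧
  ∀ (n : ℕ) (U V : Matrix (Fin n) (Fin n) (LaurentPolynomial D)) (y : K0 (LaurentPolynomial A)),
    U * V = 1 → V * U = 1 → IsDel s.laur U y →
    ∃ c : MaximalSpectrum D → ℤ, KNegOne.mk y = ∑ m, c m • KNegOne.mk (v m)

/-- KM_RKF (130 lines; hypotheses `S_DEL`, `S_FIN`, `S_F1`, `S_KER`, `S_DGN`).  The rank bound for a
Milnor square with `D` finite.

PROOF.  `S_FIN`: finitely many maximal ideals, `ε`.  `v m` exists by `S_DEL` (1) (`tauE (ε m)` has the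
inverse `ε T⁻¹ + (1 - ε)`).  `V_X = (KNegOne X →+ ℚ)`.  The linear map
`Res : V_A → (MaximalSpectrum D → ℚ)`, `F ↦ (F (mk (v m)))_m` has image in the vectors of sum
`0` (`S_DGN`), a space of rank `≤ Nat.card - 1 ≤ δ` (if there is a maximal ideal; otherwise the
space is `0`).  If `Res F = 0` then `F` vanishes on the kernel of
`(K f, K g) : KNegOne A → KNegOne B × KNegOne C` (`S_KER` with `S_F1`, `S_DGN`), so `F` factors
through the image and extends to `KNegOne B × KNegOne C →+ ℚ` (`ℚ` is injective: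
`Module.Baer.of_divisible`, see `exists_functional` in Lib_helper25/Final0.lean for the pattern):
`F = F1 ∘ K f + F2 ∘ K g`.  So `ker Res` is in the range of a linear map from `V_B × V_C`, rank
`≤ β + γ`; `rank V_A = rank range Res + rank ker Res` (`rank_range_add_rank_ker`). -/
def S_RKF : Prop := ∀ {A B C D : Type} [CommRing A] [CommRing B] [CommRing C] [CommRing D]
  [Finite D] (_ : MSq A B C D) (β γ δ : ℕ), Module.rank ℚ (KNegOne B →+ ℚ) ≤ β →
  Module.rank ℚ (KNegOne C →+ ℚ) ≤ γ → Nat.card (MaximalSpectrum D) ≤ δ + 1 →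
  Module.rank ℚ (KNegOne A →+ ℚ) ≤ ((β + γ + δ : ℕ) : Cardinal)

/-! ## Dedekind domains -/

/-- KM_EXQ (90 lines; no hypotheses).  Additivity on exact sequences of images of idempotents.

PROOF.  Choose `W` with columns `W_j`: `g W_j = W_j`, `π W_j = e_j` (the `j`-th column of `e`, fixed
by `e`); `σ = W e`: `g σ = σ`, `π σ = e e = e`, `σ e = σ`.  `ρ = g - σ π`: `g ρ = ρ`, `π ρ = π - e π = 0`;
so there is `τ` with `f τ = τ`, `i τ = ρ` (columnwise); replace `τ` by `τ g` (`ρ g = ρ`).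
`i (τ i - f) = (g - σ π) i - i = 0` and `f (τ i - f) = τ i - f`, so by injectivity `τ i = f`.
`i (τ σ) = ρ σ = σ - σ e = 0`, so `τ σ = 0`.  `X = [σ, i]` (`fromCols`), `Y = [π; τ]` (`fromRows`):
`X Y = σ π + i τ = g`, `Y X = [[π σ, π i],[τ σ, τ i]] = diag(e, f)`.  `cl_congr`, `cl_blocks`. -/
def S_EXQ : Prop := ∀ {S : Type} [CommRing S] {ι κ μ : Type} [Fintype ι] [Fintype κ] [Fintype μ]
  [DecidableEq ι] [DecidableEq κ] [DecidableEq μ]
  (e : Matrix ι ι S) (f : Matrix κ κ S) (g : Matrix μ μ S) (he : e * e = e) (hf : f * f = f)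
  (hg : g * g = g) (i : Matrix μ κ S) (π : Matrix ι μ S), i * f = i → g * i = i → π * g = π →
  e * π = π → π * i = 0 →
  (∀ v, f.mulVec v = v → i.mulVec v = 0 → v = 0) →
  (∀ w, g.mulVec w = w → π.mulVec w = 0 → ∃ v, f.mulVec v = v ∧ i.mulVec v = w) →
  (∀ z, e.mulVec z = z → ∃ w, g.mulVec w = w ∧ π.mulVec w = z) →
  cl g hg = cl e he + cl f hf

/-- All exponents of the vector `v` of Laurent polynomials are in `[a, b]`. -/
def SI {R : Type} [CommRing R] {n : ℕ} (v : Fin n → LaurentPolynomial R) (a b : ℤ) : Prop :=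
  ∀ i k, lco (v i) k ≠ 0 → a ≤ k ∧ k ≤ b

/-- KM_WIN (150 lines; no hypotheses).  Generation by a window.

PROOF.  STEP.  If `2 m ≤ b - a`, `e v = v`, `SI v a (b+1)`: put `c = a + m`, `v = v' + v''` with `v'` the
exponents `≤ c` and `v''` the exponents `≥ c + 1`.  `v = e v' + e v''`; `e v'` has exponents in
`[a - m, c + m]`, `e v''` in `[c + 1 - m, b + 1 + m] = [a + 1, b + 1 + m]`.  As `e v' = v - e v''`, `e v'` has
no exponent `< a`; as `e v'' = v - e v'`, `e v''` has no exponent `> b + 1` (`c + m ≤ b`).  So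
`v = w + w'`, `w = e v'` in `[a, b]`, `w' = e v''` in `[a + 1, b + 1]`, both fixed by `e`.
INDUCTION on `b - a` (natural number): if `b - a ≤ 2 m` take `S = {a}`, `w_a = T(-a) v` (exponents
in `[0, 2m]`).  Otherwise STEP for `(a, b - 1)` and the induction hypothesis for `w`
(`[a, b-1]`) and `w'` (`[a+1, b]`); add the two families (take the union of the sets and put the
`w`'s equal to `0` outside of their set). -/
def S_WIN : Prop := ∀ {R : Type} [CommRing R] (n m : ℕ)
  (e : Matrix (Fin n) (Fin n) (LaurentPolynomial R)), e * e = e →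
  (∀ i j k, lco (e i j) k ≠ 0 → -(m : ℤ) ≤ k ∧ k ≤ m) →
  ∀ v : Fin n → LaurentPolynomial R, e.mulVec v = v →
  ∃ (S : Finset ℤ) (w : ℤ → Fin n → LaurentPolynomial R),
    (∀ k, e.mulVec (w k) = w k ∧ SI (w k) 0 (2 * m)) ∧
    v = ∑ k ∈ S, (LaurentPolynomial.T k : LaurentPolynomial R) • w k

/-- KM_PRJ (100 lines; no hypotheses).  Submodules of free modules over a Dedekind domain are
images of idempotents.

PROOF.  `L` is finitely generated (Noetherian), torsion free, hence flat (instance in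
Mathlib/RingTheory/Flat/TorsionFree.lean), hence projective
(`Module.Flat.projective_of_finitePresentation`, Mathlib/RingTheory/Flat/EquationalCriterion.lean).
A surjection `(Fin r → R) → L` has a section `σ`; `l` = matrix of `σ ∘ surjection`, `Λ` = matrix of
`(L ⊆ (κ → R)) ∘ surjection`. -/
def S_PRJ : Prop := ∀ {R : Type} [CommRing R] [IsDedekindDomain R] {κ : Type} [Fintype κ]
  [DecidableEq κ] (L : Submodule R (κ → R)),
  ∃ (r : ℕ) (l : Matrix (Fin r) (Fin r) R) (Λ : Matrix κ (Fin r) R), l * l = l ∧ Λ * l = Λ ∧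
    (∀ j, (fun i => Λ i j) ∈ L) ∧ (∀ x ∈ L, ∃ v, l.mulVec v = v ∧ Λ.mulVec v = x) ∧
    (∀ v, l.mulVec v = v → Λ.mulVec v = 0 → v = 0)

/-- The vector of Laurent polynomials with coefficient `x (i, k)` at `T ^ k`, `0 ≤ k < q`. -/
def Phi {R : Type} [CommRing R] {n q : ℕ} (x : Fin n × Fin q → R) : Fin n → LaurentPolynomial R :=
  fun i => ∑ k : Fin q, LaurentPolynomial.C (x (i, k)) * LaurentPolynomial.T (k : ℤ)

/-- Extension by zero of the windows `[0, 2m-1] ⊆ [0, 2m]`. -/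
def ext0 {R : Type} [CommRing R] {n m : ℕ} (x : Fin n × Fin (2 * m) → R) :
    Fin n × Fin (2 * m + 1) → R :=
  fun z => if h : (z.2 : ℕ) < 2 * m then x (z.1, ⟨z.2, h⟩) else 0

/-- Shift of the windows: multiplication by `T`. -/
def ext1 {R : Type} [CommRing R] {n m : ℕ} (x : Fin n × Fin (2 * m) → R) :
    Fin n × Fin (2 * m + 1) → R :=
  fun z => if h : 1 ≤ (z.2 : ℕ) then x (z.1, ⟨z.2 - 1, by omega⟩) else 0

/-- Window data: presentations of the modules of the windows `[0, 2m]` and `[0, 2m-1]`. -/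
structure WD {R : Type} [CommRing R] {n : ℕ} (e : Matrix (Fin n) (Fin n) (LaurentPolynomial R))
    (m : ℕ) where
  /-- size -/
  rL : ℕ
  /-- size -/
  rN : ℕ
  /-- idempotent with image `L` -/
  lL : Matrix (Fin rL) (Fin rL) R
  /-- idempotent with image `N` -/
  lN : Matrix (Fin rN) (Fin rN) R
  /-- the embedding of `L` -/
  ΛL : Matrix (Fin n × Fin (2 * m + 1)) (Fin rL) R
  /-- the embedding of `N` -/
  ΛN : Matrix (Fin n × Fin (2 * m)) (Fin rN) R
  /-- the inclusion `N ⊆ L` -/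
  J1 : Matrix (Fin rL) (Fin rN) R
  /-- multiplication by `T : N → L` -/
  J2 : Matrix (Fin rL) (Fin rN) R
  idemL : lL * lL = lL
  idemN : lN * lN = lN
  mulL : ΛL * lL = ΛL
  mulN : ΛN * lN = ΛN
  memL : ∀ v, e.mulVec (Phi (ΛL.mulVec v)) = Phi (ΛL.mulVec v)
  memN : ∀ v, e.mulVec (Phi (ΛN.mulVec v)) = Phi (ΛN.mulVec v)
  surL : ∀ x : Fin n × Fin (2 * m + 1) → R, e.mulVec (Phi x) = Phi x →
    ∃ v, lL.mulVec v = v ∧ ΛL.mulVec v = x
  surN : ∀ x : Fin n × Fin (2 * m) → R, e.mulVec (Phi x) = Phi x →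
    ∃ v, lN.mulVec v = v ∧ ΛN.mulVec v = x
  injL : ∀ v, lL.mulVec v = v → ΛL.mulVec v = 0 → v = 0
  injN : ∀ v, lN.mulVec v = v → ΛN.mulVec v = 0 → v = 0
  J1l : lL * J1 = J1
  J1r : J1 * lN = J1
  J1e : ∀ v, ΛL.mulVec (J1.mulVec v) = ext0 (ΛN.mulVec v)
  J2l : lL * J2 = J2
  J2r : J2 * lN = J2
  J2e : ∀ v, ΛL.mulVec (J2.mulVec v) = ext1 (ΛN.mulVec v)

/-- KM_DWD (120 lines; hypothesis `S_PRJ`).  Window data exist over a Dedekind domain.

PROOF.  `L = {x | e (Phi x) = Phi x}`, `N` likewise are submodules (`Phi` is `R`-linear, `e.mulVec` is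
linear over the Laurent polynomials).  `S_PRJ`.  For `J1`: for every column `y = ΛN(·, j)` one has
`Phi (ext0 y) = Phi y`, so `ext0 y ∈ L` and there is `v_j`, `lL v_j = v_j`, `ΛL v_j = ext0 y`; `J1` =
(matrix with columns `v_j`) `* lN`; `J1e` first for the matrix with columns `v_j` and all
vectors `v` (linearity), then `ΛN lN = ΛN`.  `J2` likewise: `Phi (ext1 y) = T • Phi y`. -/
def S_DWD : Prop := ∀ {R : Type} [CommRing R] [IsDedekindDomain R] {n : ℕ}
  (e : Matrix (Fin n) (Fin n) (LaurentPolynomial R)) (m : ℕ), Nonempty (WD e m)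

section

variable {R : Type} [CommRing R] {n : ℕ} {e : Matrix (Fin n) (Fin n) (LaurentPolynomial R)} {m : ℕ}

/-- The map `N[T;T⁻¹] → L[T;T⁻¹]`, `w ↦ T w - T·w`. -/
def WD.i (W : WD e m) : Matrix (Fin W.rL) (Fin W.rN) (LaurentPolynomial R) :=
  (LaurentPolynomial.T 1 : LaurentPolynomial R) • W.J1.map LaurentPolynomial.C -
    W.J2.map LaurentPolynomial.C

/-- The map `L[T;T⁻¹] → P`. -/
def WD.π (W : WD e m) : Matrix (Fin n) (Fin W.rL) (LaurentPolynomial R) :=
  Matrix.of fun a j => Phi (fun z => W.ΛL z j) a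

end

/-- KM_DXA (150 lines; hypotheses `S_WIN`).  Algebraic identities, injectivity, surjectivity.

PROOF.  Write `C` for `LaurentPolynomial.C`, `g = lL.map C`, `f = lN.map C`.  A vector `v` of Laurent
polynomials is `∑ T^k C(v_k)` with `v_k = (lco (v i) k)_i`; `g v = v` iff all `lL v_k = v_k`.
`π (∑ T^k C(v_k)) = ∑ T^k Phi (ΛL v_k)`.  Identities: `i f = i` (`J1r`, `J2r`), `g i = i`, `π g = π`
(`mulL`), `e π = π` (`memL` for basis vectors), `π i = 0`: on `C(v)`:
`T Phi (ext0 y) - Phi (ext1 y) = 0`, `y = ΛN v`.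
Injectivity of `i` on the image of `f`: `(i v)_k = J1 v_(k-1) - J2 v_k`.  If `v ≠ 0` take the largest
`K` with `v_K ≠ 0`: `(i v)_(K+1) = J1 v_K = 0`, so `ext0 (ΛN v_K) = 0`, `ΛN v_K = 0` (ext0 is
injective), `v_K = 0` by `injN`.
Surjectivity: `z = ∑ T^k w_k` (`S_WIN`), `w_k = Phi x_k` (exponents in `[0, 2m]`), `x_k = ΛL v_k` (`surL`);
`w = ∑ T^k C(v_k)`. -/
def S_DXA : Prop := ∀ {R : Type} [CommRing R] {n : ℕ}
  (e : Matrix (Fin n) (Fin n) (LaurentPolynomial R)) (m : ℕ) (W : WD e m), e * e = e →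
  (∀ i j k, lco (e i j) k ≠ 0 → -(m : ℤ) ≤ k ∧ k ≤ m) →
  W.i * W.lN.map LaurentPolynomial.C = W.i ∧ W.lL.map LaurentPolynomial.C * W.i = W.i ∧
  W.π * W.lL.map LaurentPolynomial.C = W.π ∧ e * W.π = W.π ∧ W.π * W.i = 0 ∧
  (∀ v, (W.lN.map LaurentPolynomial.C).mulVec v = v → W.i.mulVec v = 0 → v = 0) ∧
  (∀ z, e.mulVec z = z → ∃ w, (W.lL.map LaurentPolynomial.C).mulVec w = w ∧ W.π.mulVec w = z)

/-- KM_DXK (150 lines; no hypotheses).  Exactness in the middle.

PROOF.  Notation of `S_DXA`.  `w = ∑ T^k C(w_k)`, `lL w_k = w_k`, `w_k = 0` for `k ∉ [a, b]`,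
`∑ T^k Phi (ΛL w_k) = 0`.  Induction on `b - a` (natural number; the case of an empty interval is
`w = 0`).  Put `x = ΛL w_a`.  The coefficient of `T^a` in `∑ T^k Phi(ΛL w_k)` is
`(x (·, 0))`, so `x (·,0) = 0` and `x = ext1 y`, `T • Phi y = Phi x`; `e (Phi y) = Phi y` because
`e` commutes with `T`.  `y = ΛN u`, `lN u = u` (`surN`).  `ΛL (J2 u) = ext1 y = ΛL w_a`, so `J2 u = w_a`
(`injL`, `lL (J2 u) = J2 u`).  `w + i (T^a C(u)) = w - T^a C(w_a) + T^(a+1) C(J1 u)` is supported in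
`[a + 1, max b (a+1)]`; if `a < b` use the induction hypothesis.  If `a = b`: `w = T^a C(w_a)`, so
`T^a Phi x = 0`, `x = 0` (all coefficients), `w_a = 0` (`injL`), `w = 0`. -/
def S_DXK : Prop := ∀ {R : Type} [CommRing R] {n : ℕ}
  (e : Matrix (Fin n) (Fin n) (LaurentPolynomial R)) (m : ℕ) (W : WD e m),
  ∀ w, (W.lL.map LaurentPolynomial.C).mulVec w = w → W.π.mulVec w = 0 →
    ∃ v, (W.lN.map LaurentPolynomial.C).mulVec v = v ∧ W.i.mulVec v = w

/-- KM_DED (60 lines; hypotheses `S_EXQ`, `S_DWD`, `S_DXA`, `S_DXK`).  `K_{-1}` of a Dedekind domain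
vanishes.

PROOF.  `x = mk y`, `y = cl e - one m'`; `e` has finitely many exponents, all in `[-m, m]` for some
`m`.  By `S_EXQ`: `cl e = cl (lL.map C) - cl (lN.map C) = K0.map C (..)` and
`K0.map C = K0.map (posIncl R) ∘ K0.map Polynomial.C` (`posIncl_monomial`), also
`one m' = K0.map posIncl (one m')`; so `y ∈ extImage R`. -/
def S_DED : Prop := ∀ {R : Type} [CommRing R] [IsDedekindDomain R] (x : KNegOne R), x = 0

end Pool.Agent.KM
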