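import Mathlib
import Pool.Agent.KM.St2

/-!
# Smith normal form of a square matrix with nonzero determinant
-/

set_option autoImplicit false
set_option linter.unusedSectionVars false

open Matrix

namespace Pool.Agent.KM

/-- KM_SNF. -/
theorem t_SNF : S_SNF := by
  intro R _ _ _ n M hM
  have hinj : Function.Injective (Matrix.toLin' M) := by
    rw [← LinearMap.ker_eq_bot, LinearMap.ker_eq_bot']
    intro v hv
    rw [Matrix.toLin'_apply] at hv
    exact Matrix.eq_zero_of_mulVec_eq_zero hM hv
  set e : (Fin n → R) ≃ₗ[R] LinearMap.range (Matrix.toLin' M) :=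
    LinearEquiv.ofInjective (Matrix.toLin' M) hinj with he
  have hrk : Module.finrank R (LinearMap.range (Matrix.toLin' M)) =
      Module.finrank R (Fin n → R) := e.finrank_eq.symm
  obtain ⟨b', a, ab', hab⟩ := Submodule.exists_smith_normal_form_of_rank_eq
    (N := LinearMap.range (Matrix.toLin' M)) (Pi.basisFun R (Fin n)) hrk
  set c : Module.Basis (Fin n) R (Fin n → R) := ab'.map e.symm with hc
  have h1 : ∀ j, Matrix.toLin' M (c j) = a j • b' j := by
    intro j
    have h2 : ((e (c j) : LinearMap.range (Matrix.toLin' M)) : Fin n → R) =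
        Matrix.toLin' M (c j) := LinearEquiv.ofInjective_apply _ _
    rw [← h2, hc, Module.Basis.map_apply, LinearEquiv.apply_symm_apply, hab]
  refine ⟨(Pi.basisFun R (Fin n)).toMatrix b', b'.toMatrix (Pi.basisFun R (Fin n)),
    c.toMatrix (Pi.basisFun R (Fin n)), (Pi.basisFun R (Fin n)).toMatrix c, a,
    Module.Basis.toMatrix_mul_toMatrix_flip _ _, Module.Basis.toMatrix_mul_toMatrix_flip _ _,
    Module.Basis.toMatrix_mul_toMatrix_flip _ _, Module.Basis.toMatrix_mul_toMatrix_flip _ _, ?_⟩
  have h3 : M * (Pi.basisFun R (Fin n)).toMatrix c =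
      (Pi.basisFun R (Fin n)).toMatrix b' * Matrix.diagonal a := by
    ext i j
    rw [Matrix.mul_diagonal, Matrix.mul_apply]
    have h4 := congrFun (h1 j) i
    rw [Matrix.toLin'_apply] at h4
    change ∑ k, M i k * c j k = _ at h4
    change ∑ k, M i k * c j k = b' j i * a j
    rw [h4, Pi.smul_apply, smul_eq_mul, mul_comm]
  rw [← h3, Matrix.mul_assoc, Module.Basis.toMatrix_mul_toMatrix_flip, Matrix.mul_one]

end Pool.Agent.KM
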