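import Pool.Agent.KM.St3

/-!
# KM_UB: the rank bound for the group ring of a cyclic group
-/

set_option autoImplicit false
set_option linter.unusedSectionVars false

open Matrix Polynomial Pool.Agent.Lib25

namespace Pool.Agent.KM

section Ub

private theorem ub_K0_id {R : Type} [Ring R] (x : K0 R) : K0.map (RingHom.id R) x = x := by
  obtain ⟨n, e, he, m, rfl⟩ := exists_cl x
  rw [map_sub, map_cl, map_one']
  congr 1

private theorem ub_map_map {R S : Type} [Ring R] [Ring S] (φ : R →+* S) (χ : S →+* R)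
    (h : φ.comp χ = RingHom.id S) (x : KNegOne S) :
    KNegOne.map φ (KNegOne.map χ x) = x := by
  obtain ⟨y, rfl⟩ := QuotientAddGroup.mk'_surjective (extImage S) x
  change KNegOne.map φ (KNegOne.map χ (KNegOne.mk y)) = KNegOne.mk y
  rw [KNegOne.map_mk, KNegOne.map_mk, K0.map_map]
  have h1 : (mapL φ).comp (mapL χ) = RingHom.id (LaurentPolynomial S) := by
    apply RingHom.ext
    intro z
    apply lco_ext
    intro k
    rw [RingHom.comp_apply, lco_mapL, lco_mapL, RingHom.id_apply, ← RingHom.comp_apply, h,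
      RingHom.id_apply]
  rw [h1, ub_K0_id]

private theorem ub_rank {R S : Type} [Ring R] [Ring S] (φ : R →+* S) (χ : S →+* R)
    (h : φ.comp χ = RingHom.id S) :
    Module.rank ℚ (KNegOne S →+ ℚ) ≤ Module.rank ℚ (KNegOne R →+ ℚ) := by
  let Ψ : (KNegOne S →+ ℚ) →ₗ[ℚ] (KNegOne R →+ ℚ) :=
    { toFun := fun F => F.comp (KNegOne.map φ)
      map_add' := fun F G => by ext; rfl
      map_smul' := fun c F => by ext; rfl }
  refine LinearMap.rank_le_of_injective Ψ fun F G hFG => ?_
  ext x
  have h1 := DFunLike.congr_fun hFG (KNegOne.map χ x)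
  change F (KNegOne.map φ (KNegOne.map χ x)) = G (KNegOne.map φ (KNegOne.map χ x)) at h1
  rwa [ub_map_map φ χ h] at h1

/-- The powers of an element with `x ^ N = 1`. -/
private noncomputable def ubHom {M : Type} [Monoid M] (N : ℕ) [NeZero N] (x : M)
    (hx : x ^ N = 1) : Multiplicative (ZMod N) →* M where
  toFun k := x ^ (Multiplicative.toAdd k).val
  map_one' := by simp
  map_mul' a b := by
    rw [toAdd_mul, ZMod.val_add, ← pow_eq_pow_mod _ hx, pow_add]

theorem t_UB (hUBC : S_UBC) : S_UB := by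
  intro N _
  have hN : 0 < N := Nat.pos_of_ne_zero (NeZero.ne N)
  have hphi : phi N.divisors = (X : ℤ[X]) ^ N - 1 :=
    prod_cyclotomic_eq_X_pow_sub_one hN ℤ
  have h1 := hUBC N.divisors (fun d hd => Nat.pos_of_mem_divisors hd)
  refine le_trans ?_ h1
  -- the homomorphisms
  obtain ⟨g, hg⟩ : ∃ g : MonoidAlgebra ℤ (Multiplicative (ZMod N)),
      g = MonoidAlgebra.single (Multiplicative.ofAdd (1 : ZMod N)) 1 := ⟨_, rfl⟩
  have hgN : g ^ N = 1 := by
    rw [hg, MonoidAlgebra.single_pow, one_pow, ← ofAdd_nsmul]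
    simp
    rfl
  have hxN : (Ideal.Quotient.mk (Iphi N.divisors) X) ^ N = 1 := by
    rw [← map_pow, ← sub_eq_zero, ← map_one (Ideal.Quotient.mk (Iphi N.divisors)), ← map_sub,
      Ideal.Quotient.eq_zero_iff_mem, Iphi, hphi]
    exact Ideal.mem_span_singleton_self _
  have hker : ∀ a : ℤ[X], a ∈ Iphi N.divisors → (aeval g : ℤ[X] →ₐ[ℤ] _).toRingHom a = 0 := by
    intro a ha
    rw [Iphi, Ideal.mem_span_singleton, hphi] at ha
    obtain ⟨b, rfl⟩ := ha
    show aeval g ((X ^ N - 1) * b) = 0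
    rw [map_mul, map_sub, map_pow, aeval_X, hgN, map_one, sub_self, zero_mul]
  refine ub_rank (Ideal.Quotient.lift (Iphi N.divisors) _ hker)
    (MonoidAlgebra.lift ℤ (ℤ[X] ⧸ Iphi N.divisors) (Multiplicative (ZMod N))
      (ubHom N _ hxN)).toRingHom ?_
  refine MonoidAlgebra.ringHom_ext (fun r => ?_) (fun k => ?_)
  · rw [RingHom.comp_apply, RingHom.id_apply]
    have e1 : (MonoidAlgebra.single (1 : Multiplicative (ZMod N)) r :
        MonoidAlgebra ℤ (Multiplicative (ZMod N))) = (r : MonoidAlgebra ℤ _) := by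
      rw [MonoidAlgebra.intCast_def, Int.cast_id]
    rw [e1, map_intCast, map_intCast]
  · rw [RingHom.comp_apply, RingHom.id_apply]
    have e1 : (MonoidAlgebra.lift ℤ (ℤ[X] ⧸ Iphi N.divisors) (Multiplicative (ZMod N))
        (ubHom N _ hxN)).toRingHom (MonoidAlgebra.single k 1) =
        Ideal.Quotient.mk (Iphi N.divisors) (X ^ (Multiplicative.toAdd k).val) := by
      show MonoidAlgebra.lift ℤ (ℤ[X] ⧸ Iphi N.divisors) (Multiplicative (ZMod N))
        (ubHom N _ hxN) (MonoidAlgebra.single k 1) = _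
      rw [MonoidAlgebra.lift_single, one_smul, map_pow]
      rfl
    rw [e1, Ideal.Quotient.lift_mk]
    show aeval g (X ^ (Multiplicative.toAdd k).val) = _
    rw [map_pow, aeval_X, hg, MonoidAlgebra.single_pow, one_pow, ← ofAdd_nsmul]
    congr 1
    rw [nsmul_one, ZMod.natCast_zmod_val]
    rfl

end Ub

end Pool.Agent.KM
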