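import Pool.Agent.KM.St3

/-!
# KM_UBC: the rank bound for `ℤ[X] / (product of cyclotomic polynomials)`
-/

set_option autoImplicit false
set_option linter.unusedSectionVars false

open Matrix Polynomial Pool.Agent.Lib25

namespace Pool.Agent.KM

section Ubc

private theorem ubc_rank_zero {G : Type} [AddCommGroup G] (h : ∀ x : G, x = 0) :
    Module.rank ℚ (G →+ ℚ) ≤ ((0 : ℕ) : Cardinal) := by
  have : Subsingleton (G →+ ℚ) := ⟨fun a b => by
    ext x
    rw [h x, map_zero, map_zero]⟩
  rw [rank_subsingleton', Nat.cast_zero]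

private theorem ubc_trivial {R : Type} [CommRing R] [Subsingleton R] (x : KNegOne R) :
    x = 0 := by
  obtain ⟨y, rfl⟩ := QuotientAddGroup.mk'_surjective (extImage R) x
  obtain ⟨n, e, he, m, rfl⟩ := exists_cl y
  have hL : ∀ a b : LaurentPolynomial R, a = b := by
    intro a b
    apply lco_ext
    intro k
    exact Subsingleton.elim _ _
  have h1 : cl e he = one (LaurentPolynomial R) m := by
    refine cl_congr _ _ ⟨0, 0, ?_, ?_⟩
    · ext1 i j
      exact hL _ _
    · ext1 i j
      exact hL _ _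
  rw [h1, sub_self]
  exact map_zero _

theorem t_UBC (hQSQ : S_QSQ) (hCYI : S_CYI) (hCYD : S_CYD) (hCYM : S_CYM) (hRKF : S_RKF)
    (hDED : S_DED) : S_UBC := by
  intro S
  induction S using Finset.induction_on_max with
  | empty =>
    intro _
    have h1 : Subsingleton (ℤ[X] ⧸ Iphi ∅) := by
      rw [Ideal.Quotient.subsingleton_iff, Iphi, phi, Finset.prod_empty,
        Ideal.span_singleton_one]
    refine (ubc_rank_zero fun x => ubc_trivial x).trans ?_
    exact Nat.cast_le.2 (Nat.zero_le _)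
  | insert d S hmax ih =>
    intro hpos
    have hd : 0 < d := hpos d (Finset.mem_insert_self _ _)
    have hS : ∀ d' ∈ S, 0 < d' := fun d' hd' => hpos d' (Finset.mem_insert_of_mem hd')
    have hdS : d ∉ S := fun h => lt_irrefl d (hmax d h)
    obtain ⟨h1, h2⟩ := hCYI S d hS hd hdS
    have ihS := ih hS
    obtain ⟨s⟩ := hQSQ (Iphi S) (Icyc d)
    have h3 : ∀ d' ∈ S, 0 < d' ∧ ¬ d ∣ d' := fun d' hd' =>
      ⟨hS d' hd', fun h => absurd (Nat.le_of_dvd (hS d' hd') h) (not_le.2 (hmax d' hd'))⟩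
    have h4 := hCYM S d h3 hd h2
    have h5 : IsDedekindDomain (ℤ[X] ⧸ Icyc d) := hCYD d hd
    have h6 : Module.rank ℚ (KNegOne (ℤ[X] ⧸ Icyc d) →+ ℚ) ≤ ((0 : ℕ) : Cardinal) :=
      ubc_rank_zero fun x => hDED x
    have h7 := hRKF s _ 0 ((∑ p ∈ d.primeFactors, nU d p) - 1) ihS h6 (by omega)
    rw [← h1] at h7
    refine h7.trans (Nat.cast_le.2 ?_)
    by_cases hd1 : d = 1
    · subst hd1
      rw [Finset.erase_insert hdS]
      have h8 : S.erase 1 = S := Finset.erase_eq_of_notMem hdS
      rw [h8]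
      simp
    · rw [Finset.erase_insert_of_ne hd1, Finset.sum_insert (fun h => hdS (Finset.mem_of_mem_erase h))]
      omega

end Ubc

end Pool.Agent.KM
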