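import Pool.Agent.KM.St2

/-!
# KM_WIN: generation by a window
-/

set_option autoImplicit false
set_option linter.unusedSectionVars false

open Matrix Polynomial Pool.Agent.Lib25

namespace Pool.Agent.KM

section Win

variable {R : Type} [CommRing R]

/-- The coefficient as a homomorphism. -/
private noncomputable def winH (k : ℤ) : LaurentPolynomial R →+ R where
  toFun x := lco x k
  map_zero' := rfl
  map_add' _ _ := rfl

private theorem win_sub (x y : LaurentPolynomial R) (k : ℤ) :
    lco (x - y) k = lco x k - lco y k := map_sub (winH (R := R) k) x y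

private theorem win_sum {ι : Type} (s : Finset ι) (f : ι → LaurentPolynomial R) (k : ℤ) :
    lco (∑ j ∈ s, f j) k = ∑ j ∈ s, lco (f j) k := map_sum (winH (R := R) k) f s

private theorem win_mul {x y : LaurentPolynomial R} {k : ℤ} (h : lco (x * y) k ≠ 0) :
    ∃ p q : ℤ, lco x p ≠ 0 ∧ lco y q ≠ 0 ∧ p + q = k := by
  classical
  by_contra hne
  apply h
  show AddMonoidAlgebra.coeff (x * y) k = 0
  rw [AddMonoidAlgebra.coeff_mul]
  refine Finset.sum_eq_zero fun p hp => Finset.sum_eq_zero fun q hq => ?_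
  exact if_neg fun hpq =>
    hne ⟨p, q, Finsupp.mem_support_iff.1 hp, Finsupp.mem_support_iff.1 hq, hpq⟩

private theorem win_T {a k : ℤ} {x : LaurentPolynomial R}
    (h : lco ((LaurentPolynomial.T a : LaurentPolynomial R) * x) k ≠ 0) :
    lco x (k - a) ≠ 0 := by
  obtain ⟨p, q, hp, hq, rfl⟩ := win_mul h
  have e : lco (LaurentPolynomial.T a : LaurentPolynomial R) p = if a = p then 1 else 0 :=
    LaurentPolynomial.T_apply p a
  rw [e] at hp
  by_cases hap : a = p
  · subst hap
    rwa [add_sub_cancel_left]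
  · rw [if_neg hap] at hp
    exact absurd rfl hp

variable {n m : ℕ} {e : Matrix (Fin n) (Fin n) (LaurentPolynomial R)}

private theorem win_mulVec (he : ∀ i j k, lco (e i j) k ≠ 0 → -(m : ℤ) ≤ k ∧ k ≤ m)
    {v : Fin n → LaurentPolynomial R} {a b : ℤ} (hv : SI v a b) :
    SI (e.mulVec v) (a - m) (b + m) := by
  intro i k hk
  have h1 : lco (e.mulVec v i) k = ∑ j, lco (e i j * v j) k := by
    show lco (∑ j, e i j * v j) k = _
    rw [win_sum]
  rw [h1] at hk
  obtain ⟨j, -, hj⟩ := Finset.exists_ne_zero_of_sum_ne_zero hk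
  obtain ⟨p, q, hp, hq, rfl⟩ := win_mul hj
  have h2 := he i j p hp
  have h3 := hv j q hq
  constructor <;> omega

private theorem win_SI_sub {v w : Fin n → LaurentPolynomial R} {a b a' b' : ℤ} (hv : SI v a b)
    (hw : SI w a' b') : SI (v - w) (min a a') (max b b') := by
  intro i k hk
  rw [Pi.sub_apply, win_sub] at hk
  by_cases h1 : lco (v i) k = 0
  · have h2 : lco (w i) k ≠ 0 := by
      intro h2
      rw [h1, h2, sub_zero] at hk
      exact hk rfl
    have h3 := hw i k h2
    exact ⟨le_trans (min_le_right _ _) h3.1, le_trans h3.2 (le_max_right _ _)⟩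
  · have h3 := hv i k h1
    exact ⟨le_trans (min_le_left _ _) h3.1, le_trans h3.2 (le_max_left _ _)⟩

private theorem win_SI_inter {v : Fin n → LaurentPolynomial R} {a b a' b' c d : ℤ}
    (hv : SI v a b) (hw : SI v a' b') (hc : c ≤ a ∨ c ≤ a') (hd : b ≤ d ∨ b' ≤ d) :
    SI v c d := by
  intro i k hk
  have h1 := hv i k hk
  have h2 := hw i k hk
  constructor <;> omega

open scoped Classical in
/-- Truncation. -/
private noncomputable def winC (c : ℤ) (x : LaurentPolynomial R) : LaurentPolynomial R :=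
  lmk ((AddMonoidAlgebra.coeff x).support.filter (fun k => k ≤ c)) (fun k => lco x k)

private theorem win_lco_C (c : ℤ) (x : LaurentPolynomial R) (k : ℤ) :
    lco (winC c x) k = if k ≤ c then lco x k else 0 := by
  classical
  unfold winC
  rw [lco_lmk]
  by_cases hk : k ≤ c
  · rw [if_pos hk]
    by_cases h1 : k ∈ (AddMonoidAlgebra.coeff x).support
    · rw [if_pos (Finset.mem_filter.2 ⟨h1, hk⟩)]
    · rw [if_neg (fun h => h1 (Finset.mem_filter.1 h).1), lco_not_mem h1]
  · rw [if_neg hk]
    have h2 : k ∉ (AddMonoidAlgebra.coeff x).support.filter (fun k => k ≤ c) :=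
      fun h => hk (Finset.mem_filter.1 h).2
    rw [if_neg h2]

/-- The step. -/
private theorem win_step (hee : e * e = e)
    (he : ∀ i j k, lco (e i j) k ≠ 0 → -(m : ℤ) ≤ k ∧ k ≤ m)
    {v : Fin n → LaurentPolynomial R} {a b : ℤ} (hab : 2 * (m : ℤ) ≤ b - a)
    (hev : e.mulVec v = v) (hv : SI v a (b + 1)) :
    ∃ w w' : Fin n → LaurentPolynomial R, e.mulVec w = w ∧ e.mulVec w' = w' ∧ SI w a b ∧
      SI w' (a + 1) (b + 1) ∧ v = w + w' := by
  obtain ⟨v', hv'⟩ : ∃ v' : Fin n → LaurentPolynomial R, v' = fun i => winC (a + m) (v i) :=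
    ⟨_, rfl⟩
  have s1 : SI v' a (a + m) := by
    intro i k hk
    rw [hv', win_lco_C] at hk
    by_cases h1 : k ≤ a + m
    · rw [if_pos h1] at hk
      exact ⟨(hv i k hk).1, h1⟩
    · rw [if_neg h1] at hk
      exact absurd rfl hk
  have s2 : SI (v - v') (a + m + 1) (b + 1) := by
    intro i k hk
    rw [Pi.sub_apply, win_sub, hv', win_lco_C] at hk
    by_cases h1 : k ≤ a + m
    · rw [if_pos h1, sub_self] at hk
      exact absurd rfl hk
    · rw [if_neg h1, sub_zero] at hk
      exact ⟨by omega, (hv i k hk).2⟩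
  have t1 := win_mulVec he s1
  have t2 := win_mulVec he s2
  have hsum : e.mulVec v' + e.mulVec (v - v') = v := by
    rw [← Matrix.mulVec_add, add_sub_cancel, hev]
  have r1 : e.mulVec v' = v - e.mulVec (v - v') := eq_sub_of_add_eq hsum
  have r2 : e.mulVec (v - v') = v - e.mulVec v' := eq_sub_of_add_eq' hsum
  have u1 := win_SI_sub hv t2
  rw [← r1] at u1
  have u2 := win_SI_sub hv t1
  rw [← r2] at u2
  refine ⟨e.mulVec v', e.mulVec (v - v'), ?_, ?_, ?_, ?_, hsum.symm⟩
  · rw [Matrix.mulVec_mulVec, hee]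
  · rw [Matrix.mulVec_mulVec, hee]
  · exact win_SI_inter t1 u1 (Or.inr (by omega)) (Or.inl (by omega))
  · exact win_SI_inter t2 u2 (Or.inl (by omega)) (Or.inr (by omega))

/-- The conclusion. -/
private def winQ (e : Matrix (Fin n) (Fin n) (LaurentPolynomial R)) (m : ℕ)
    (v : Fin n → LaurentPolynomial R) : Prop :=
  ∃ (S : Finset ℤ) (w : ℤ → Fin n → LaurentPolynomial R),
    (∀ k, e.mulVec (w k) = w k ∧ SI (w k) 0 (2 * m)) ∧
    v = ∑ k ∈ S, (LaurentPolynomial.T k : LaurentPolynomial R) • w k

private theorem win_SI_zero (a b : ℤ) : SI (0 : Fin n → LaurentPolynomial R) a b := by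
  intro i k hk
  exact absurd rfl hk

private theorem winQ_add {v v' : Fin n → LaurentPolynomial R} (h : winQ e m v)
    (h' : winQ e m v') : winQ e m (v + v') := by
  classical
  obtain ⟨S, w, h1, h2⟩ := h
  obtain ⟨S', w', h3, h4⟩ := h'
  refine ⟨S ∪ S', fun k => (if k ∈ S then w k else 0) + (if k ∈ S' then w' k else 0), ?_, ?_⟩
  · intro k
    have a1 : e.mulVec (if k ∈ S then w k else 0) = (if k ∈ S then w k else 0) ∧
        SI (if k ∈ S then w k else 0) 0 (2 * m) := by
      split_ifs
      · exact h1 k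
      · exact ⟨Matrix.mulVec_zero e, win_SI_zero _ _⟩
    have a2 : e.mulVec (if k ∈ S' then w' k else 0) = (if k ∈ S' then w' k else 0) ∧
        SI (if k ∈ S' then w' k else 0) 0 (2 * m) := by
      split_ifs
      · exact h3 k
      · exact ⟨Matrix.mulVec_zero e, win_SI_zero _ _⟩
    refine ⟨by rw [Matrix.mulVec_add, a1.1, a2.1], ?_⟩
    intro i j hj
    by_cases h5 : lco ((if k ∈ S then w k else 0 : Fin n → LaurentPolynomial R) i) j = 0
    · refine a2.2 i j fun h6 => hj ?_
      have h7 : lco (((if k ∈ S then w k else 0 : Fin n → LaurentPolynomial R) +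
        (if k ∈ S' then w' k else 0)) i) j = lco ((if k ∈ S then w k else 0 :
          Fin n → LaurentPolynomial R) i) j + lco ((if k ∈ S' then w' k else 0 :
          Fin n → LaurentPolynomial R) i) j := rfl
      rw [h7, h5, h6, add_zero]
    · exact a1.2 i j h5
  · have e1 : ∑ k ∈ S ∪ S', (LaurentPolynomial.T k : LaurentPolynomial R) •
        (if k ∈ S then w k else 0) = ∑ k ∈ S, (LaurentPolynomial.T k : LaurentPolynomial R) •
          w k := by
      rw [← Finset.sum_subset (Finset.subset_union_left (s₁ := S) (s₂ := S'))]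
      · exact Finset.sum_congr rfl fun k hk => by rw [if_pos hk]
      · intro k _ hk
        rw [if_neg hk, smul_zero]
    have e2 : ∑ k ∈ S ∪ S', (LaurentPolynomial.T k : LaurentPolynomial R) •
        (if k ∈ S' then w' k else 0) = ∑ k ∈ S', (LaurentPolynomial.T k : LaurentPolynomial R) •
          w' k := by
      rw [← Finset.sum_subset (Finset.subset_union_right (s₁ := S) (s₂ := S'))]
      · exact Finset.sum_congr rfl fun k hk => by rw [if_pos hk]
      · intro k _ hk
        rw [if_neg hk, smul_zero]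
    simp only [smul_add]
    rw [Finset.sum_add_distrib, e1, e2, ← h2, ← h4]

private theorem winQ_base {v : Fin n → LaurentPolynomial R} {a b : ℤ} (hev : e.mulVec v = v)
    (hv : SI v a b) (hab : b - a ≤ 2 * m) : winQ e m v := by
  refine ⟨{a}, fun _ => (LaurentPolynomial.T (-a) : LaurentPolynomial R) • v, ?_, ?_⟩
  · intro _
    refine ⟨by rw [Matrix.mulVec_smul, hev], ?_⟩
    intro i k hk
    have h1 : lco ((LaurentPolynomial.T (-a) : LaurentPolynomial R) * v i) k ≠ 0 := hk
    have h2 := hv i _ (win_T h1)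
    constructor <;> omega
  · rw [Finset.sum_singleton, smul_smul, ← LaurentPolynomial.T_add, add_neg_cancel,
      LaurentPolynomial.T_zero, one_smul]

private theorem winQ_all (hee : e * e = e)
    (he : ∀ i j k, lco (e i j) k ≠ 0 → -(m : ℤ) ≤ k ∧ k ≤ m) :
    ∀ (d : ℕ) (a b : ℤ), b - a ≤ d → ∀ v : Fin n → LaurentPolynomial R, e.mulVec v = v →
      SI v a b → winQ e m v := by
  intro d
  induction d with
  | zero =>
    intro a b hab v hev hv
    exact winQ_base hev hv (by push_cast at hab; omega)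
  | succ d ih =>
    intro a b hab v hev hv
    by_cases h1 : b - a ≤ d
    · exact ih a b h1 v hev hv
    · by_cases h2 : b - a ≤ 2 * m
      · exact winQ_base hev hv h2
      · push_cast at hab
        obtain ⟨w, w', g1, g2, g3, g4, g5⟩ := win_step (a := a) (b := b - 1) hee he
          (by omega) hev (by rwa [sub_add_cancel])
        rw [g5]
        rw [sub_add_cancel] at g4
        exact winQ_add (ih a (b - 1) (by omega) w g1 g3) (ih (a + 1) b (by omega) w' g2 g4)

private theorem win_exists (v : Fin n → LaurentPolynomial R) : ∃ K : ℕ, SI v (-K) K := by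
  classical
  refine ⟨∑ i, ∑ k ∈ (AddMonoidAlgebra.coeff (v i)).support, k.natAbs, ?_⟩
  intro i k hk
  have h1 : k ∈ (AddMonoidAlgebra.coeff (v i)).support := Finsupp.mem_support_iff.2 hk
  have h2 : k.natAbs ≤ ∑ k ∈ (AddMonoidAlgebra.coeff (v i)).support, k.natAbs :=
    Finset.single_le_sum (f := fun k : ℤ => k.natAbs) (fun _ _ => Nat.zero_le _) h1
  have h3 : ∑ k ∈ (AddMonoidAlgebra.coeff (v i)).support, k.natAbs ≤
      ∑ i, ∑ k ∈ (AddMonoidAlgebra.coeff (v i)).support, k.natAbs :=
    Finset.single_le_sum (f := fun i => ∑ k ∈ (AddMonoidAlgebra.coeff (v i)).support, k.natAbs)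
      (fun _ _ => Nat.zero_le _) (Finset.mem_univ i)
  have h4 : k.natAbs ≤ ∑ i, ∑ k ∈ (AddMonoidAlgebra.coeff (v i)).support, k.natAbs :=
    h2.trans h3
  generalize (∑ i, ∑ k ∈ (AddMonoidAlgebra.coeff (v i)).support, k.natAbs) = K at h4
  constructor <;> omega

end Win

theorem t_WIN : S_WIN := by
  intro R _ n m e hee he v hev
  obtain ⟨K, hK⟩ := win_exists v
  exact winQ_all hee he (2 * K) _ _ (by push_cast; omega) v hev hK

end Pool.Agent.KM
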