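import Pool.Agent.KM.P_PAT
import Pool.Agent.KM.P_GLU
import Pool.Agent.KM.P_DEL
import Pool.Agent.KM.P_MUL
import Pool.Agent.KM.P_MVA
import Pool.Agent.KM.P_MVB
import Pool.Agent.KM.P_KER
import Pool.Agent.KM.P_PNL
import Pool.Agent.KM.P_PNI
import Pool.Agent.KM.P_FIN
import Pool.Agent.KM.P_PID
import Pool.Agent.KM.P_F1
import Pool.Agent.KM.P_SNF
import Pool.Agent.KM.P_SMI
import Pool.Agent.KM.P_NFC
import Pool.Agent.KM.P_DGA
import Pool.Agent.KM.P_DGB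
import Pool.Agent.KM.P_DGN
import Pool.Agent.KM.P_RKF
import Pool.Agent.KM.P_EXQ
import Pool.Agent.KM.P_WIN
import Pool.Agent.KM.P_PRJ
import Pool.Agent.KM.P_DWD
import Pool.Agent.KM.P_DXA
import Pool.Agent.KM.P_DXK
import Pool.Agent.KM.P_DED
import Pool.Agent.KM.P_QSQ
import Pool.Agent.KM.P_CYI
import Pool.Agent.KM.P_CYD
import Pool.Agent.KM.P_CYM
import Pool.Agent.KM.P_UBC
import Pool.Agent.KM.P_UB

/-!
# The rank bound for `K_{-1}(ℤ[C_N])`
-/

set_option autoImplicit false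

namespace Pool.Agent.KM

theorem all_DEL : S_DEL := t_DEL t_PAT t_GLU

theorem all_MUL : S_MUL := t_MUL all_DEL

theorem all_KER : S_KER := t_KER (t_MVA t_PAT) t_MVB

theorem all_F1 : S_F1 := t_F1 t_PNL t_PNI t_FIN t_PID

theorem all_DGA : S_DGA := t_DGA (t_SMI t_SNF) t_NFC t_FIN t_PNI

theorem all_DGB : S_DGB := t_DGB all_DEL all_MUL

theorem all_DGN : S_DGN := t_DGN all_DEL all_MUL all_DGA all_DGB

theorem all_RKF : S_RKF := t_RKF all_DEL t_FIN all_F1 all_KER all_DGN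

theorem all_DED : S_DED := t_DED t_EXQ (t_DWD t_PRJ) (t_DXA t_WIN) t_DXK

theorem all_UB : S_UB := t_UB (t_UBC t_QSQ t_CYI t_CYD t_CYM all_RKF all_DED)

end Pool.Agent.KM
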