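import Pool.Agent.KM.StA

/-!
# KM block A, module CH (helper54): the chain of elementary steps
-/

set_option autoImplicit false
set_option linter.unusedSectionVars false

open Matrix Polynomial Pool.Agent.Lib25

namespace Pool.Agent.KM

universe u

/-- Conjugation of a representation. -/
def conjRep {H : Type u} [Group H] {m : ℕ} (ρ : H →* Matrix (Fin m) (Fin m) ℤ)
    (U U' : Matrix (Fin m) (Fin m) ℤ) (h1 : U * U' = 1) (h2 : U' * U = 1) :
    H →* Matrix (Fin m) (Fin m) ℤ where
  toFun h := U' * ρ h * U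
  map_one' := by rw [map_one, Matrix.mul_one, h2]
  map_mul' x y := by
    rw [map_mul]
    calc U' * (ρ x * ρ y) * U = U' * ρ x * 1 * ρ y * U := by
          rw [Matrix.mul_one]; simp only [Matrix.mul_assoc]
      _ = U' * ρ x * U * (U' * ρ y * U) := by
          rw [← h1]; simp only [Matrix.mul_assoc]

theorem A_CH_thm (h0 : StA_SM) (h1 : StA_Q1.{u}) (h2 : StA_CHD.{u}) : StA_CH.{u} := by
  intro H _ m ρ ρ' P hP hρ
  obtain ⟨U, U', V, V', d, hU, hU', hV, hV', hd, hPd⟩ := h0 m P hP
  let D : Matrix (Fin m) (Fin m) ℤ := Matrix.diagonal fun i => (d i : ℤ)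
  have hPD : P = U * D * V := hPd
  let σ := conjRep ρ U U' hU hU'
  let σ' := conjRep ρ' V' V hV' hV
  have hσ : ∀ h, σ h = U' * ρ h * U := fun h => rfl
  have hσ' : ∀ h, σ' h = V * ρ' h * V' := fun h => rfl
  have key : ∀ h, σ h * D = D * σ' h := by
    intro h
    have e1 : U' * (ρ h * P) * V' = U' * (P * ρ' h) * V' := by rw [hρ h]
    rw [hPD] at e1
    calc σ h * D = U' * ρ h * U * D * 1 := by rw [hσ, Matrix.mul_one]
      _ = U' * (ρ h * (U * D * V)) * V' := by rw [← hV]; simp only [Matrix.mul_assoc]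
      _ = U' * (U * D * V * ρ' h) * V' := e1
      _ = (U' * U) * (D * (V * ρ' h * V')) := by simp only [Matrix.mul_assoc]
      _ = D * σ' h := by rw [hU', Matrix.one_mul, hσ']
  have vd : Via σ d σ' := by
    refine ⟨hd, fun h i j => ?_⟩
    have e1 := congrFun (congrFun (key h) i) j
    have e2 : (σ h * D) i j = σ h i j * (d j : ℤ) := Matrix.mul_diagonal _ _ _ _
    have e3 : (D * σ' h) i j = (d i : ℤ) * σ' h i j := Matrix.diagonal_mul _ _ _ _
    rw [e2, e3] at e1
    exact e1
  have o1 : Op σ = Op ρ := by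
    refine h1 H (Fin m) (Fin m) ρ σ U' U hU' hU fun h => ?_
    rw [hσ, Matrix.mul_assoc, hU, Matrix.mul_one]
  have o2 : Op σ' = Op ρ' := by
    refine h1 H (Fin m) (Fin m) ρ' σ' V V' hV hV' fun h => ?_
    rw [hσ', Matrix.mul_assoc, hV', Matrix.mul_one]
  rw [← o1, ← o2]
  exact h2 H m σ σ' d vd

end Pool.Agent.KM
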