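import Pool.Agent.KM.StA

/-!
# KM block A, module CHD (helper54): a chain of elementary steps, diagonal case
-/

set_option autoImplicit false
set_option linter.unusedSectionVars false

open Matrix Polynomial Pool.Agent.Lib25

namespace Pool.Agent.KM

universe u

theorem A_CHD.aux (H : Type u) [Group H] (m : ℕ) : ∀ (N : ℕ) (ρ ρ' : H →* Matrix (Fin m) (Fin m) ℤ)
    (d : Fin m → ℕ), (∏ i, d i) = N → Via ρ d ρ' →
    Op ρ - Op ρ' ∈ AddSubgroup.closure (ElD H) := by
  intro N
  induction N using Nat.strong_induction_on with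
  | _ N ih =>
  intro ρ ρ' d hN h
  by_cases h1 : ∀ i, d i = 1
  · have h2 : ρ = ρ' := by
      refine Via.unique (Via.const ρ Nat.one_pos) ?_
      have h3 : d = fun _ => 1 := funext h1
      rwa [h3] at h
    rw [h2, sub_self]
    exact AddSubgroup.zero_mem _
  · push Not at h1
    obtain ⟨i₀, hi₀⟩ := h1
    obtain ⟨p, hp, hpd⟩ := Nat.exists_prime_and_dvd hi₀
    obtain ⟨ρ₁, v1⟩ := (Via.const ρ hp.pos).exists_gcd h
    have hdiv : ∀ i, Nat.gcd p (d i) * (d i / Nat.gcd p (d i)) = d i := fun i =>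
      Nat.mul_div_cancel' (Nat.gcd_dvd_right _ _)
    have v2 : Via ρ₁ (fun i => d i / Nat.gcd p (d i)) ρ' := by
      refine Via.div (d := fun i => Nat.gcd p (d i)) ?_ v1
      rw [show (fun i => Nat.gcd p (d i) * (d i / Nat.gcd p (d i))) = d from funext hdiv]
      exact h
    have hlt : (∏ i, d i / Nat.gcd p (d i)) < N := by
      rw [← hN]
      refine Finset.prod_lt_prod (fun i _ => v2.pos i) (fun i _ => Nat.div_le_self _ _)
        ⟨i₀, Finset.mem_univ _, ?_⟩
      rw [Nat.gcd_eq_left hpd]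
      exact Nat.div_lt_self (h.pos i₀) hp.one_lt
    have h3 := ih _ hlt ρ₁ ρ' _ rfl v2
    have h4 : Op ρ - Op ρ₁ ∈ AddSubgroup.closure (ElD H) := by
      refine AddSubgroup.subset_closure ⟨m, ρ, ρ₁, fun i => Nat.gcd p (d i), p, hp, ?_, v1, rfl⟩
      intro i
      exact (Nat.dvd_prime hp).1 (Nat.gcd_dvd_left p (d i))
    have h5 : Op ρ - Op ρ' = (Op ρ - Op ρ₁) + (Op ρ₁ - Op ρ') := by abel
    rw [h5]
    exact AddSubgroup.add_mem _ h4 h3

theorem A_CHD_thm : StA_CHD.{u} := fun H _ m ρ ρ' d h => A_CHD.aux H m _ ρ ρ' d rfl h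

end Pool.Agent.KM
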