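import Pool.Agent.KM.StA

/-!
# Project KM, block A: DIF (the pairs character, operator)
-/

set_option autoImplicit false
set_option linter.unusedSectionVars false

open Matrix Polynomial Pool.Agent.Lib25

noncomputable section

namespace Pool.Agent.KM

universe u

section A_DIF

variable {H : Type u} [Group H]

/-- The direct sum of two representations. -/
def A_DIF_sum {k l : Type} [Fintype k] [DecidableEq k] [Fintype l] [DecidableEq l]
    (ρ : H →* Matrix k k ℤ) (σ : H →* Matrix l l ℤ) : H →* Matrix (k ⊕ l) (k ⊕ l) ℤ where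
  toFun h := Matrix.fromBlocks (ρ h) 0 0 (σ h)
  map_one' := by
    rw [map_one, map_one, Matrix.fromBlocks_one]
  map_mul' x y := by
    rw [map_mul, map_mul, Matrix.fromBlocks_multiply]
    simp

/-- Reindexing of a representation. -/
def A_DIF_re {k k' : Type} [Fintype k] [DecidableEq k] [Fintype k'] [DecidableEq k']
    (e : k ≃ k') (ρ : H →* Matrix k k ℤ) : H →* Matrix k' k' ℤ where
  toFun h := (ρ h).submatrix e.symm e.symm
  map_one' := by
    rw [map_one]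
    exact Matrix.submatrix_one_equiv e.symm
  map_mul' x y := by
    rw [map_mul]
    exact (Matrix.submatrix_mul_equiv _ _ _ _ _).symm

theorem A_DIF_Op_re (h1 : StA_Q1.{u}) {k k' : Type} [Fintype k] [DecidableEq k] [Fintype k']
    [DecidableEq k'] (e : k ≃ k') (ρ : H →* Matrix k k ℤ) : Op (A_DIF_re e ρ) = Op ρ := by
  refine h1 H k k' ρ (A_DIF_re e ρ) ((1 : Matrix k k ℤ).submatrix e.symm id)
    ((1 : Matrix k k ℤ).submatrix id e.symm) ?_ ?_ ?_
  · ext i j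
    rw [Matrix.mul_apply]
    simp only [Matrix.submatrix_apply, id_eq, Matrix.one_apply, ite_mul, one_mul, zero_mul]
    rw [Finset.sum_eq_single (e.symm i)]
    · simp
    · intro b _ hb
      rw [if_neg (Ne.symm hb)]
    · intro hb
      exact absurd (Finset.mem_univ _) hb
  · ext i j
    rw [Matrix.mul_apply]
    simp only [Matrix.submatrix_apply, id_eq, Matrix.one_apply, ite_mul, one_mul, zero_mul]
    rw [Finset.sum_eq_single (e i)]
    · simp
    · intro b _ hb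
      rw [if_neg]
      rintro rfl
      exact hb (e.apply_symm_apply b).symm
    · intro hb
      exact absurd (Finset.mem_univ _) hb
  · intro h
    change (ρ h).submatrix e.symm e.symm * ((1 : Matrix k k ℤ).submatrix e.symm id) = _
    rw [Matrix.submatrix_mul_equiv, Matrix.mul_one]
    ext i j
    rw [Matrix.mul_apply]
    simp only [Matrix.submatrix_apply, id_eq, Matrix.one_apply, ite_mul, one_mul, zero_mul]
    rw [Finset.sum_eq_single (e.symm i)]
    · simp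
    · intro b _ hb
      rw [if_neg (Ne.symm hb)]
    · intro hb
      exact absurd (Finset.mem_univ _) hb

theorem A_DIF_Op_sum (h2 : StA_Q2.{u}) {k l : Type} [Fintype k] [DecidableEq k] [Fintype l]
    [DecidableEq l] (ρ : H →* Matrix k k ℤ) (σ : H →* Matrix l l ℤ) :
    Op (A_DIF_sum ρ σ) = Op ρ + Op σ :=
  h2 H k l (A_DIF_sum ρ σ) ρ σ (fun _ _ _ => rfl) (fun _ _ _ => rfl) (fun _ _ _ => rfl)

theorem A_DIF_tr_re {k k' : Type} [Fintype k] [DecidableEq k] [Fintype k'] [DecidableEq k']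
    (e : k ≃ k') (ρ : H →* Matrix k k ℤ) (h : H) :
    Matrix.trace (A_DIF_re e ρ h) = Matrix.trace (ρ h) := by
  change ∑ i, (ρ h) (e.symm i) (e.symm i) = ∑ i, (ρ h) i i
  exact Equiv.sum_comp e.symm (fun i => (ρ h) i i)

theorem A_DIF_tr_sum {k l : Type} [Fintype k] [DecidableEq k] [Fintype l]
    [DecidableEq l] (ρ : H →* Matrix k k ℤ) (σ : H →* Matrix l l ℤ) (h : H) :
    Matrix.trace (A_DIF_sum ρ σ h) = Matrix.trace (ρ h) + Matrix.trace (σ h) := by
  change ∑ i, (Matrix.fromBlocks (ρ h) 0 0 (σ h)) i i = _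
  rw [Fintype.sum_sum_type]
  rfl

/-- The zero representation. -/
theorem A_DIF_zero (h1 : StA_Q1.{u}) (h2 : StA_Q2.{u}) (ρ : H →* Matrix (Fin 0) (Fin 0) ℤ) :
    Op ρ = 0 := by
  have h3 := A_DIF_Op_sum h2 ρ ρ
  have e : Fin 0 ⊕ Fin 0 ≃ Fin 0 := Equiv.equivOfIsEmpty _ _
  have h4 := A_DIF_Op_re h1 e (A_DIF_sum ρ ρ)
  have h5 : A_DIF_re e (A_DIF_sum ρ ρ) = ρ := by
    ext h i j
    exact i.elim0
  rw [h5, h3] at h4
  exact (left_eq_add.mp h4)

/-- The additive group of the pairs. -/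
def A_DIF_G (h1 : StA_Q1.{u}) (h2 : StA_Q2.{u}) (H : Type u) [Group H] :
    AddSubgroup ((H → ℤ) × AddMonoid.End (KNegOne (MonoidAlgebra ℤ H))) where
  carrier := {x | ∃ (m m' : ℕ) (ρ : H →* Matrix (Fin m) (Fin m) ℤ)
    (ρ' : H →* Matrix (Fin m') (Fin m') ℤ),
    (∀ h, x.1 h = Matrix.trace (ρ h) - Matrix.trace (ρ' h)) ∧ x.2 = Op ρ - Op ρ'}
  zero_mem' := ⟨0, 0, 1, 1, fun h => by simp, by simp⟩
  add_mem' := by
    rintro x y ⟨m, m', ρ, ρ', hx1, hx2⟩ ⟨n, n', σ, σ', hy1, hy2⟩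
    refine ⟨m + n, m' + n', A_DIF_re finSumFinEquiv (A_DIF_sum ρ σ),
      A_DIF_re finSumFinEquiv (A_DIF_sum ρ' σ'), ?_, ?_⟩
    · intro h
      rw [A_DIF_tr_re, A_DIF_tr_re, A_DIF_tr_sum, A_DIF_tr_sum, Prod.fst_add, Pi.add_apply, hx1,
        hy1]
      ring
    · rw [A_DIF_Op_re h1, A_DIF_Op_re h1, A_DIF_Op_sum h2, A_DIF_Op_sum h2, Prod.snd_add, hx2, hy2]
      abel
  neg_mem' := by
    rintro x ⟨m, m', ρ, ρ', hx1, hx2⟩
    refine ⟨m', m, ρ', ρ, ?_, ?_⟩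
    · intro h
      rw [Prod.fst_neg, Pi.neg_apply, hx1]
      ring
    · rw [Prod.snd_neg, hx2]
      abel

theorem A_DIF_mem (h1 : StA_Q1.{u}) (h2 : StA_Q2.{u}) {m : ℕ}
    (ρ : H →* Matrix (Fin m) (Fin m) ℤ) :
    ((fun h => Matrix.trace (ρ h), Op ρ) :
      (H → ℤ) × AddMonoid.End (KNegOne (MonoidAlgebra ℤ H))) ∈ A_DIF_G h1 h2 H := by
  refine ⟨m, 0, ρ, 1, ?_, ?_⟩
  · intro h
    simp
  · rw [A_DIF_zero h1 h2, sub_zero]

theorem A_DIF_one (h1 : StA_Q1.{u}) (h2 : StA_Q2.{u}) (h4 : StA_Q5.{u}) :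
    ((1, 1) : (H → ℤ) × AddMonoid.End (KNegOne (MonoidAlgebra ℤ H))) ∈ A_DIF_G h1 h2 H := by
  have e : Unit ≃ Fin 1 := (finOneEquiv.symm : Unit ≃ Fin 1)
  have h5 := A_DIF_mem h1 h2 (A_DIF_re e (1 : H →* Matrix Unit Unit ℤ))
  rw [A_DIF_Op_re h1, h4 H 1 (fun _ => rfl)] at h5
  have h6 : (fun h : H => Matrix.trace (A_DIF_re e (1 : H →* Matrix Unit Unit ℤ) h)) = 1 := by
    funext h
    rw [A_DIF_tr_re]
    simp
  rw [h6] at h5
  exact h5

end A_DIF

theorem A_DIF_thm (h1 : StA_Q1.{u}) (h2 : StA_Q2.{u}) (h3 : StA_Q4.{u}) (h4 : StA_Q5.{u})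
    (h5 : StA_ART.{u}) : StA_DIF.{u} := by
  intro H _ _
  obtain ⟨S, a, n, hn, hS, hsum⟩ := h5 H
  choose m π htr hy using fun C : Subgroup H => h3 H C
  -- the pair
  have hmem : (∑ C ∈ S, a C • (((fun h => Matrix.trace (π C h), Op (π C)) :
      (H → ℤ) × AddMonoid.End (KNegOne (MonoidAlgebra ℤ H)))) -
      (n : ℤ) • ((1, 1) : (H → ℤ) × AddMonoid.End (KNegOne (MonoidAlgebra ℤ H)))) ∈
      A_DIF_G h1 h2 H := by
    refine AddSubgroup.sub_mem _ (AddSubgroup.sum_mem _ fun C _ => ?_) ?_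
    · exact AddSubgroup.zsmul_mem _ (A_DIF_mem h1 h2 (π C)) _
    · exact AddSubgroup.zsmul_mem _ (A_DIF_one h1 h2 h4) _
  obtain ⟨k, k', ρ, ρ', hρ1, hρ2⟩ := hmem
  refine ⟨n, ∑ C ∈ S, a C • Op (π C), k, k', ρ, ρ', hn, ?_, ?_, ?_⟩
  · intro x
    have h6 : (∑ C ∈ S, a C • Op (π C)) x = ∑ C ∈ S, a C • Op (π C) x :=
      AddMonoidHom.finsetSum_apply (fun C => (a C • Op (π C) :
        KNegOne (MonoidAlgebra ℤ H) →+ KNegOne (MonoidAlgebra ℤ H))) S x
    rw [h6]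
    refine AddSubgroup.sum_mem _ fun C hC => AddSubgroup.zsmul_mem _ ?_ _
    obtain ⟨y, hyx⟩ := hy C x
    exact AddSubgroup.subset_closure ⟨C, hS C hC, y, hyx⟩
  · intro h
    have h7 := hρ1 h
    have h8 : (∑ C ∈ S, a C • (((fun h => Matrix.trace (π C h), Op (π C)) :
      (H → ℤ) × AddMonoid.End (KNegOne (MonoidAlgebra ℤ H)))) -
      (n : ℤ) • ((1, 1) : (H → ℤ) × AddMonoid.End (KNegOne (MonoidAlgebra ℤ H)))).1 h =
      (∑ C ∈ S, a C * Matrix.trace (π C h)) - n := by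
      rw [Prod.fst_sub, Prod.fst_sum, Pi.sub_apply, Finset.sum_apply]
      simp
    rw [h8, Finset.sum_congr rfl (fun C _ => by rw [htr C h]), hsum h, sub_self] at h7
    linarith
  · rw [← hρ2, Prod.snd_sub, Prod.snd_sum]
    rfl

end Pool.Agent.KM
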