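import Pool.Agent.KM.StA

/-!
# KM block A, module FIC (helper54): the form with the standard cyclic groups
-/

set_option autoImplicit false
set_option linter.unusedSectionVars false

open Matrix Polynomial Pool.Agent.Lib25

namespace Pool.Agent.KM

universe u

theorem A_FIC_mapL_comp {R S U : Type*} [Ring R] [Ring S] [Ring U] (φ : R →+* S) (ψ : S →+* U)
    (f : LaurentPolynomial R) : mapL ψ (mapL φ f) = mapL (ψ.comp φ) f := by
  induction f using AddMonoidAlgebra.induction_linear with
  | zero => rw [map_zero, map_zero, map_zero]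
  | add f g hf hg => rw [map_add, map_add, map_add, hf, hg]
  | single n r => rw [mapL_single, mapL_single, mapL_single]; rfl

theorem A_FIC_map_comp {R S U : Type*} [Ring R] [Ring S] [Ring U] (φ : R →+* S) (ψ : S →+* U)
    (x : KNegOne R) : KNegOne.map ψ (KNegOne.map φ x) = KNegOne.map (ψ.comp φ) x := by
  have h : (KNegOne.map ψ).comp (KNegOne.map φ) = KNegOne.map (ψ.comp φ) := by
    refine KNegOne_hom_ext fun n e he => ?_
    rw [AddMonoidHom.comp_apply, map_ngo, map_ngo, map_ngo]
    congr 1
    refine Matrix.ext fun i j => ?_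
    rw [Matrix.map_apply, Matrix.map_apply, Matrix.map_apply, A_FIC_mapL_comp]
  exact DFunLike.congr_fun h x

theorem A_FIC_thm (h1 : StA_FIN.{u}) : StA_FIC.{u} := by
  intro H _ _ l hl
  have hker : AddSubgroup.closure (CycInd H) ≤ l.ker := by
    rw [AddSubgroup.closure_le]
    rintro _ ⟨C, hC, y, rfl⟩
    rw [SetLike.mem_coe, AddMonoidHom.mem_ker]
    have hpos : 0 < Nat.card C := Nat.card_pos
    let φ₀ := zmodCyclicMulEquiv hC
    let φ : Multiplicative (ZMod (Nat.card C)) →* H := C.subtype.comp φ₀.toMonoidHom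
    have hφ : Function.Injective φ := C.subtype_injective.comp φ₀.injective
    have e1 := hl (Nat.card C) hpos φ hφ
      (KNegOne.map (MonoidAlgebra.mapDomainRingHom ℤ φ₀.symm.toMonoidHom) y)
    rw [A_FIC_map_comp, ← MonoidAlgebra.mapDomainRingHom_comp] at e1
    have e2 : φ.comp φ₀.symm.toMonoidHom = C.subtype := by
      ext c
      change (φ₀ (φ₀.symm c) : H) = c
      rw [φ₀.apply_symm_apply]
    rw [e2] at e1
    exact e1
  ext x
  obtain ⟨n, hn, hx⟩ := h1 H x
  have e1 : l (n • x) = 0 := hker hx
  rw [map_nsmul, nsmul_eq_mul] at e1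
  rcases mul_eq_zero.1 e1 with e2 | e2
  · exact absurd (by exact_mod_cast e2) hn.ne'
  · rw [e2]; rfl

end Pool.Agent.KM
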