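import Pool.Agent.KM.StA

/-!
# KM block A, module FIN (helper54): the theorem
-/

set_option autoImplicit false
set_option linter.unusedSectionVars false

open Matrix Polynomial Pool.Agent.Lib25

namespace Pool.Agent.KM

universe u

theorem A_FIN_thm (h1 : StA_DIF.{u}) (h2 : StA_IS.{u}) (h3 : StA_CH.{u}) (h4 : StA_NIL.{u}) :
    StA_FIN.{u} := by
  intro H _ _ x
  obtain ⟨n, w, m, m', ρ, ρ', hn, hw, htr, hwn⟩ := h1 H
  have hm : m = m' := by
    have e1 := htr 1
    rw [map_one, map_one, Matrix.trace_one, Matrix.trace_one, Fintype.card_fin,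
      Fintype.card_fin] at e1
    exact_mod_cast e1
  subst hm
  obtain ⟨P, hP, hρ⟩ := h2 H m ρ ρ' htr
  have hz := h3 H m ρ ρ' P hP hρ
  rw [← hwn] at hz
  have hzz := h4 H _ hz _ hz
  refine ⟨n * n, Nat.mul_pos hn hn, ?_⟩
  have e1 : (w - (n : ℤ) • 1) ((w - (n : ℤ) • 1) x) = 0 := by
    have e2 := DFunLike.congr_fun hzz x
    exact e2
  have e3 : ∀ y, (w - (n : ℤ) • (1 : AddMonoid.End (KNegOne (MonoidAlgebra ℤ H)))) y =
      w y - (n : ℤ) • y := fun y => rfl
  rw [e3, e3, map_sub, map_zsmul] at e1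
  have e4 : (n * n) • x = w ((2 * n) • x - w x) := by
    rw [map_sub, map_nsmul]
    rw [smul_sub, natCast_zsmul, natCast_zsmul, natCast_zsmul, smul_smul] at e1
    have e5 : (2 * n) • w x = n • w x + n • w x := by rw [two_mul, add_nsmul]
    rw [e5]
    have e6 : (n * n) • x = (w (w x) - n • w x - (n • w x - (n * n) • x)) +
        (n • w x + n • w x - w (w x)) := by abel
    rw [e6, e1, zero_add]
  rw [e4]
  exact hw _

end Pool.Agent.KM
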