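import Pool.Agent.KM.StA

/-!
# Project KM, block A: integral representations with the same character
-/

set_option autoImplicit false

open Matrix

namespace Pool.Agent.KM

universe u

section

variable {H : Type u} [Group H] {m : ℕ}

/-- The rational representation of an integral one. -/
noncomputable def A_IS_rep (ρ : H →* Matrix (Fin m) (Fin m) ℤ) :
    Representation ℚ H (Fin m → ℚ) where
  toFun h := Matrix.toLin' ((ρ h).map (Int.castRingHom ℚ))
  map_one' := by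
    rw [map_one, Matrix.map_one _ (map_zero _) (map_one _), Matrix.toLin'_one]
    rfl
  map_mul' x y := by
    rw [map_mul, Matrix.map_mul, Matrix.toLin'_mul]
    rfl

theorem A_IS_rep_apply (ρ : H →* Matrix (Fin m) (Fin m) ℤ) (h : H) :
    A_IS_rep ρ h = Matrix.toLin' ((ρ h).map (Int.castRingHom ℚ)) := rfl

theorem A_IS_trace (ρ : H →* Matrix (Fin m) (Fin m) ℤ) (h : H) :
    LinearMap.trace ℚ (Fin m → ℚ) (A_IS_rep ρ h) = ((Matrix.trace (ρ h) : ℤ) : ℚ) := by
  rw [A_IS_rep_apply, Matrix.trace_toLin'_eq, Matrix.trace, Matrix.trace, Int.cast_sum]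
  rfl

end

/-- A rational matrix has a common denominator. -/
theorem A_IS_denom {m : ℕ} (P₀ : Matrix (Fin m) (Fin m) ℚ) :
    ∃ (N : ℤ) (P : Matrix (Fin m) (Fin m) ℤ), N ≠ 0 ∧
      P.map (Int.castRingHom ℚ) = (N : ℚ) • P₀ := by
  classical
  obtain ⟨N, hN⟩ : ∃ N : ℕ, N = ∏ i : Fin m, ∏ j : Fin m, (P₀ i j).den := ⟨_, rfl⟩
  have hN0 : N ≠ 0 := by
    rw [hN]
    exact Finset.prod_ne_zero_iff.2 fun i _ => Finset.prod_ne_zero_iff.2 fun j _ =>
      (P₀ i j).den_ne_zero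
  have hdvd : ∀ i j, (P₀ i j).den ∣ N := by
    intro i j
    rw [hN]
    exact (Finset.dvd_prod_of_mem (fun j => (P₀ i j).den) (Finset.mem_univ j)).trans
      (Finset.dvd_prod_of_mem (fun i => ∏ j : Fin m, (P₀ i j).den) (Finset.mem_univ i))
  have hex : ∀ i j, ∃ z : ℤ, (z : ℚ) = (N : ℚ) * P₀ i j := by
    intro i j
    obtain ⟨c, hc⟩ := hdvd i j
    refine ⟨c * (P₀ i j).num, ?_⟩
    have h1 : (P₀ i j) * ((P₀ i j).den : ℚ) = (P₀ i j).num := Rat.mul_den_eq_num _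
    rw [hc]
    push_cast
    calc (c : ℚ) * (P₀ i j).num = c * (P₀ i j * ((P₀ i j).den : ℚ)) := by rw [h1]
      _ = _ := by ring
  choose z hz using hex
  refine ⟨N, Matrix.of z, by exact_mod_cast hN0, ?_⟩
  ext i j
  rw [Matrix.map_apply, Matrix.smul_apply, Matrix.of_apply, smul_eq_mul]
  exact hz i j

theorem A_IS_thm (h1 : StA_ISQ.{u}) : StA_IS.{u} := by
  intro H _ _ m ρ ρ' htr
  obtain ⟨f, hf⟩ := h1 H (Fin m → ℚ) (Fin m → ℚ) (A_IS_rep ρ') (A_IS_rep ρ) (fun h => by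
    rw [A_IS_trace, A_IS_trace, htr])
  obtain ⟨P₀, hP₀⟩ : ∃ P₀ : Matrix (Fin m) (Fin m) ℚ,
      P₀ = LinearMap.toMatrix' (f : (Fin m → ℚ) →ₗ[ℚ] (Fin m → ℚ)) := ⟨_, rfl⟩
  have hunit : P₀ * LinearMap.toMatrix' (f.symm : (Fin m → ℚ) →ₗ[ℚ] (Fin m → ℚ)) = 1 := by
    rw [hP₀, ← LinearMap.toMatrix'_comp, LinearEquiv.comp_symm, LinearMap.toMatrix'_id]
  have hdet : P₀.det ≠ 0 := by
    intro h0
    have h2 := congrArg Matrix.det hunit
    rw [Matrix.det_mul, h0, zero_mul, Matrix.det_one] at h2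
    exact zero_ne_one h2
  have hcomm : ∀ h, (ρ h).map (Int.castRingHom ℚ) * P₀ = P₀ * (ρ' h).map (Int.castRingHom ℚ) := by
    intro h
    have h2 : (A_IS_rep ρ h).comp (f : (Fin m → ℚ) →ₗ[ℚ] (Fin m → ℚ)) =
        (f : (Fin m → ℚ) →ₗ[ℚ] (Fin m → ℚ)).comp (A_IS_rep ρ' h) := by
      refine LinearMap.ext fun v => ?_
      exact (hf h v).symm
    have h3 := congrArg LinearMap.toMatrix' h2
    rw [LinearMap.toMatrix'_comp, LinearMap.toMatrix'_comp, A_IS_rep_apply, A_IS_rep_apply,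
      LinearMap.toMatrix'_toLin', LinearMap.toMatrix'_toLin', ← hP₀] at h3
    exact h3
  obtain ⟨N, P, hN, hP⟩ := A_IS_denom P₀
  have hNq : (N : ℚ) ≠ 0 := by exact_mod_cast hN
  have hinj : Function.Injective (fun A : Matrix (Fin m) (Fin m) ℤ => A.map (Int.castRingHom ℚ)) :=
    Matrix.map_injective Int.cast_injective
  refine ⟨P, ?_, ?_⟩
  · intro h0
    have h2 : ((P.map (Int.castRingHom ℚ)).det : ℚ) = 0 := by
      have h3 := (RingHom.map_det (Int.castRingHom ℚ) P).symm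
      rw [h0, map_zero] at h3
      exact h3
    rw [hP, Matrix.det_smul] at h2
    rcases mul_eq_zero.1 h2 with h3 | h3
    · exact pow_ne_zero _ hNq h3
    · exact hdet h3
  · intro h
    apply hinj
    change (ρ h * P).map (Int.castRingHom ℚ) = (P * ρ' h).map (Int.castRingHom ℚ)
    rw [Matrix.map_mul, Matrix.map_mul, hP, Matrix.mul_smul, Matrix.smul_mul, hcomm]

end Pool.Agent.KM
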