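import Pool.Agent.KM.StA

/-!
# ISQ: representations over `ℚ` with the same character are isomorphic
-/

set_option autoImplicit false

namespace Pool.Agent.KM

universe u

section A_ISQ

variable {H : Type u} [Group H] {V W : Type} [AddCommGroup V] [AddCommGroup W] [Module ℚ V]
  [Module ℚ W]

/-- A linear map has a generalised inverse. -/
theorem A_ISQ_pinv (f : V →ₗ[ℚ] W) : ∃ g : W →ₗ[ℚ] V, ∀ v, f (g (f v)) = f v := by
  obtain ⟨s, hs⟩ := f.rangeRestrict.exists_rightInverse_of_surjective f.range_rangeRestrict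
  obtain ⟨g, hg⟩ := LinearMap.exists_extend s
  refine ⟨g, fun v => ?_⟩
  have h1 : g (f v) = s (f.rangeRestrict v) := LinearMap.congr_fun hg (f.rangeRestrict v)
  have h2 := LinearMap.congr_fun hs (f.rangeRestrict v)
  rw [h1]
  exact congrArg Subtype.val h2

/-- An equivariant linear map has an equivariant generalised inverse. -/
theorem A_ISQ_avg [Fintype H] (ρ : Representation ℚ H V) (σ : Representation ℚ H W)
    (f : V →ₗ[ℚ] W) (hf : ∀ h v, f (ρ h v) = σ h (f v)) :
    ∃ g : W →ₗ[ℚ] V, (∀ h w, g (σ h w) = ρ h (g w)) ∧ ∀ v, f (g (f v)) = f v := by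
  obtain ⟨g0, hg0⟩ := A_ISQ_pinv f
  have happ : ∀ w, ((Fintype.card H : ℚ)⁻¹ • ∑ x : H, ρ x ∘ₗ g0 ∘ₗ σ x⁻¹) w =
      (Fintype.card H : ℚ)⁻¹ • ∑ x : H, ρ x (g0 (σ x⁻¹ w)) := by
    intro w
    simp only [LinearMap.smul_apply, LinearMap.sum_apply, LinearMap.comp_apply]
  refine ⟨(Fintype.card H : ℚ)⁻¹ • ∑ x : H, ρ x ∘ₗ g0 ∘ₗ σ x⁻¹, fun h w => ?_, fun v => ?_⟩
  · rw [happ, happ, map_smul, map_sum]
    congr 1
    refine Fintype.sum_equiv (Equiv.mulLeft h⁻¹) _ _ fun x => ?_
    rw [Equiv.coe_mulLeft]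
    have h1 : ρ h (ρ (h⁻¹ * x) (g0 (σ (h⁻¹ * x)⁻¹ w))) = (ρ h * ρ (h⁻¹ * x)) (g0 (σ (h⁻¹ * x)⁻¹ w)) :=
      rfl
    have h2 : σ x⁻¹ (σ h w) = (σ x⁻¹ * σ h) w := rfl
    rw [h1, h2, ← map_mul, ← map_mul, mul_inv_cancel_left, mul_inv_rev, inv_inv]
  · rw [happ, map_smul, map_sum]
    have h1 : ∀ x : H, f (ρ x (g0 (σ x⁻¹ (f v)))) = f v := by
      intro x
      rw [← hf, hf, hg0, ← hf]
      have h2 : ρ x (ρ x⁻¹ v) = (ρ x * ρ x⁻¹) v := rfl
      rw [h2, ← map_mul, mul_inv_cancel, map_one]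
      rfl
    rw [Finset.sum_congr rfl fun x _ => h1 x, Finset.sum_const, Finset.card_univ,
      ← Nat.cast_smul_eq_nsmul ℚ, smul_smul, inv_mul_cancel₀, one_smul]
    exact Nat.cast_ne_zero.2 Fintype.card_ne_zero

/-- The character of an invariant subspace which is the image of an idempotent. -/
theorem A_ISQ_trace [FiniteDimensional ℚ V] (ρ : Representation ℚ H V)
    (K : Subrepresentation ρ) (e : V →ₗ[ℚ] V) (h1 : ∀ v, v - e v ∈ K.toSubmodule)
    (h2 : ∀ v ∈ K.toSubmodule, e v = 0) (h : H) :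
    K.toRepresentation.character h = LinearMap.trace ℚ V (ρ h) - LinearMap.trace ℚ V (ρ h ∘ₗ e) := by
  rw [← map_sub]
  have h3 : ∀ v, (ρ h - ρ h ∘ₗ e) v ∈ K.toSubmodule := by
    intro v
    have h4 : (ρ h - ρ h ∘ₗ e) v = ρ h (v - e v) := by
      rw [map_sub]
      rfl
    rw [h4]
    exact K.apply_mem_toSubmodule h (h1 v)
  rw [← LinearMap.trace_restrict_eq_of_forall_mem K.toSubmodule (ρ h - ρ h ∘ₗ e) h3]
  unfold Representation.character
  congr 1
  ext v
  change (ρ h (v : V)) = ρ h (v : V) - ρ h (e (v : V))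
  rw [h2 v v.2, map_zero, sub_zero]

/-- If two representations have the same character and the first one is not zero then there is a
nonzero equivariant map. -/
theorem A_ISQ_ex [Fintype H] [FiniteDimensional ℚ V] [FiniteDimensional ℚ W]
    (ρ : Representation ℚ H V) (σ : Representation ℚ H W)
    (hc : ∀ h, ρ.character h = σ.character h) (v : V) (hv : v ≠ 0) :
    ∃ (g : V →ₗ[ℚ] W) (x : V), (∀ h v, g (ρ h v) = σ h (g v)) ∧ g x ≠ 0 := by
  have hne : (Nat.card H : ℚ) ≠ 0 := Nat.cast_ne_zero.2 Nat.card_pos.ne'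
  have : Invertible (Nat.card H : ℚ) := invertibleOfNonzero hne
  have h1 := Representation.card_inv_mul_sum_char_mul_char_eq_finrank ρ ρ
  have h2 := Representation.card_inv_mul_sum_char_mul_char_eq_finrank ρ σ
  have h3 : (Module.finrank ℚ (Representation.IntertwiningMap ρ ρ) : ℚ) =
      Module.finrank ℚ (Representation.IntertwiningMap ρ σ) := by
    rw [← h1, ← h2]
    simp only [hc]
  have h4 : Module.finrank ℚ (Representation.IntertwiningMap ρ ρ) =
      Module.finrank ℚ (Representation.IntertwiningMap ρ σ) := by exact_mod_cast h3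
  have : Module.Finite ℚ (Representation.IntertwiningMap ρ ρ) :=
    Module.Finite.equiv (Representation.invariantsEquivIntertwiningMap ρ ρ)
  have : Nontrivial (Representation.IntertwiningMap ρ ρ) := by
    refine ⟨⟨Representation.IntertwiningMap.id ρ, 0, fun h => hv ?_⟩⟩
    have h5 := DFunLike.congr_fun h v
    exact h5
  have h5 : 0 < Module.finrank ℚ (Representation.IntertwiningMap ρ ρ) := Module.finrank_pos
  rw [h4] at h5
  have := Module.nontrivial_of_finrank_pos h5
  obtain ⟨g, hg⟩ := exists_ne (0 : Representation.IntertwiningMap ρ σ)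
  by_contra hcon
  push Not at hcon
  apply hg
  ext x
  exact hcon g.toLinearMap x fun h v => Representation.IntertwiningMap.isIntertwining ρ σ g h v

/-- An equivariant map which is not injective can be improved. -/
theorem A_ISQ_step [Fintype H] [FiniteDimensional ℚ V] [FiniteDimensional ℚ W]
    (ρ : Representation ℚ H V) (σ : Representation ℚ H W)
    (hc : ∀ h, LinearMap.trace ℚ V (ρ h) = LinearMap.trace ℚ W (σ h))
    (f : V →ₗ[ℚ] W) (hf : ∀ h v, f (ρ h v) = σ h (f v)) (v : V) (hv : v ≠ 0) (hfv : f v = 0) :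
    ∃ f' : V →ₗ[ℚ] W, (∀ h v, f' (ρ h v) = σ h (f' v)) ∧
      Module.finrank ℚ (LinearMap.range f) < Module.finrank ℚ (LinearMap.range f') := by
  obtain ⟨g, hg, hfg⟩ := A_ISQ_avg ρ σ f hf
  let K : Subrepresentation ρ := ⟨LinearMap.ker f, fun h x hx => by
    rw [LinearMap.mem_ker] at hx ⊢
    rw [hf, hx, map_zero]⟩
  let L : Subrepresentation σ := ⟨LinearMap.ker (f ∘ₗ g), fun h x hx => by
    rw [LinearMap.mem_ker] at hx ⊢
    rw [LinearMap.comp_apply] at hx ⊢
    rw [hg, hf, hx, map_zero]⟩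
  have hK : ∀ x, x ∈ K.toSubmodule ↔ f x = 0 := fun x => LinearMap.mem_ker
  have hL : ∀ x, x ∈ L.toSubmodule ↔ f (g x) = 0 := fun x => LinearMap.mem_ker
  have hKm : ∀ x, x - g (f x) ∈ K.toSubmodule := fun x => by
    rw [hK, map_sub, hfg, sub_self]
  have h1 : ∀ h, K.toRepresentation.character h = L.toRepresentation.character h := by
    intro h
    rw [A_ISQ_trace ρ K (g ∘ₗ f) hKm (fun x hx => by
        rw [LinearMap.comp_apply, (hK x).1 hx, map_zero]) h,
      A_ISQ_trace σ L (f ∘ₗ g) (fun x => by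
        rw [hL, map_sub, map_sub]
        change f (g x) - f (g (f (g x))) = 0
        rw [hfg, sub_self]) (fun x hx => (hL x).1 hx) h, hc]
    congr 1
    have h2 : ρ h ∘ₗ g ∘ₗ f = (g ∘ₗ σ h) ∘ₗ f := by
      ext x
      exact (hg h (f x)).symm
    have h3 : σ h ∘ₗ f ∘ₗ g = f ∘ₗ (g ∘ₗ σ h) := by
      ext x
      change σ h (f (g x)) = f (g (σ h x))
      rw [hg, hf]
    rw [h2, h3, LinearMap.trace_comp_comm']
  obtain ⟨q, x, hq, hx⟩ := A_ISQ_ex K.toRepresentation L.toRepresentation h1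
    ⟨v, (hK v).2 hfv⟩ (fun h => hv (congrArg Subtype.val h))
  let P : V →ₗ[ℚ] K.toSubmodule := LinearMap.codRestrict K.toSubmodule (LinearMap.id - g ∘ₗ f) hKm
  have hP : ∀ y, ((P y : K.toSubmodule) : V) = y - g (f y) := fun y => rfl
  have hP2 : ∀ y : K.toSubmodule, P (y : V) = y := fun y => by
    apply Subtype.ext
    rw [hP, (hK y).1 y.2, map_zero, sub_zero]
  have hP3 : ∀ y, P (g (f y)) = 0 := fun y => by
    apply Subtype.ext
    rw [hP, hfg, sub_self]
    rfl
  have hP4 : ∀ h y, P (ρ h y) = K.toRepresentation h (P y) := fun h y => by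
    apply Subtype.ext
    change ρ h y - g (f (ρ h y)) = ρ h (y - g (f y))
    rw [map_sub, hf, hg]
  refine ⟨f + L.toSubmodule.subtype ∘ₗ q ∘ₗ P, fun h y => ?_, ?_⟩
  · change f (ρ h y) + ((q (P (ρ h y)) : L.toSubmodule) : W) =
      σ h (f y + ((q (P y) : L.toSubmodule) : W))
    rw [hP4, hq, hf, map_add]
    rfl
  · apply Submodule.finrank_lt_finrank_of_lt
    refine lt_of_le_of_ne ?_ ?_
    · rintro _ ⟨y, rfl⟩
      refine ⟨g (f y), ?_⟩
      change f (g (f y)) + ((q (P (g (f y))) : L.toSubmodule) : W) = f y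
      rw [hP3, map_zero, hfg]
      exact add_zero _
    · intro heq
      have h2 : (f + L.toSubmodule.subtype ∘ₗ q ∘ₗ P) (x : V) ∈ LinearMap.range f := by
        rw [heq]
        exact ⟨_, rfl⟩
      have h3 : (f + L.toSubmodule.subtype ∘ₗ q ∘ₗ P) (x : V) = ((q x : L.toSubmodule) : W) := by
        change f x + ((q (P x) : L.toSubmodule) : W) = _
        rw [hP2, (hK x).1 x.2, zero_add]
      rw [h3] at h2
      obtain ⟨y, hy⟩ := h2
      have h4 := (hL _).1 (q x).2
      rw [← hy, hfg] at h4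
      apply hx
      apply Subtype.ext
      rw [← hy, h4]
      rfl

end A_ISQ

theorem A_ISQ_thm : StA_ISQ.{u} := by
  intro H _ _ V W _ _ _ _ _ _ ρ σ hc
  have : Fintype H := Fintype.ofFinite H
  have hdim : Module.finrank ℚ V = Module.finrank ℚ W := by
    have h1 := hc 1
    rw [show ρ 1 = 1 from map_one ρ, show σ 1 = 1 from map_one σ, LinearMap.trace_one,
      LinearMap.trace_one] at h1
    exact_mod_cast h1
  have key : ∀ (n : ℕ) (f : V →ₗ[ℚ] W), (∀ h v, f (ρ h v) = σ h (f v)) →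
      Module.finrank ℚ W - Module.finrank ℚ (LinearMap.range f) ≤ n →
      ∃ f : V ≃ₗ[ℚ] W, ∀ h v, f (ρ h v) = σ h (f v) := by
    intro n
    induction n with
    | zero =>
      intro f hf hn
      by_cases hinj : ∀ v, f v = 0 → v = 0
      · have hi : Function.Injective f := (injective_iff_map_eq_zero f).2 hinj
        exact ⟨LinearMap.linearEquivOfInjective f hi hdim, fun h v => by
          rw [LinearMap.linearEquivOfInjective_apply, LinearMap.linearEquivOfInjective_apply, hf]⟩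
      · push Not at hinj
        obtain ⟨v, hfv, hv⟩ := hinj
        obtain ⟨f', -, hlt⟩ := A_ISQ_step ρ σ hc f hf v hv hfv
        have h2 := Submodule.finrank_le (LinearMap.range f')
        omega
    | succ n ih =>
      intro f hf hn
      by_cases hinj : ∀ v, f v = 0 → v = 0
      · have hi : Function.Injective f := (injective_iff_map_eq_zero f).2 hinj
        exact ⟨LinearMap.linearEquivOfInjective f hi hdim, fun h v => by
          rw [LinearMap.linearEquivOfInjective_apply, LinearMap.linearEquivOfInjective_apply, hf]⟩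
      · push Not at hinj
        obtain ⟨v, hfv, hv⟩ := hinj
        obtain ⟨f', hf', hlt⟩ := A_ISQ_step ρ σ hc f hf v hv hfv
        exact ih f' hf' (by omega)
  exact key _ 0 (fun h v => by simp) le_rfl

end Pool.Agent.KM
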