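import Pool.Agent.KM.StA

/-!
# KM block A, module MV (helper54): the sum and the intersection of two lattices
-/

set_option autoImplicit false
set_option linter.unusedSectionVars false

open Matrix Polynomial Pool.Agent.Lib25

namespace Pool.Agent.KM

universe u

section

variable {H : Type u} [Group H] {k : Type} [Fintype k] [DecidableEq k]

/-- `ρ D = D ρ'` for the diagonal matrix. -/
theorem A_MV.via_diag {ρ ρ' : H →* Matrix k k ℤ} {d : k → ℕ} (h : Via ρ d ρ') (x : H) :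
    ρ x * Matrix.diagonal (fun i => (d i : ℤ)) = Matrix.diagonal (fun i => (d i : ℤ)) * ρ' x := by
  refine Matrix.ext fun i j => ?_
  rw [Matrix.mul_diagonal, Matrix.diagonal_mul, h.eq]

/-- The direct sum of two representations. -/
def A_MV.dsum {l : Type} [Fintype l] [DecidableEq l] (τ₁ : H →* Matrix k k ℤ)
    (τ₂ : H →* Matrix l l ℤ) : H →* Matrix (k ⊕ l) (k ⊕ l) ℤ where
  toFun x := Matrix.fromBlocks (τ₁ x) 0 0 (τ₂ x)
  map_one' := by rw [map_one, map_one, Matrix.fromBlocks_one]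
  map_mul' x y := by
    rw [Matrix.fromBlocks_multiply, map_mul, map_mul]
    simp

/-- The conjugate of a representation. -/
def A_MV.conj (σ : H →* Matrix k k ℤ) (M M' : Matrix k k ℤ) (h1 : M * M' = 1) (h2 : M' * M = 1) :
    H →* Matrix k k ℤ where
  toFun x := M' * σ x * M
  map_one' := by rw [map_one, Matrix.mul_one, h2]
  map_mul' x y := by
    calc M' * σ (x * y) * M = M' * σ x * 1 * σ y * M := by
          rw [map_mul, Matrix.mul_one]
          simp only [Matrix.mul_assoc]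
      _ = M' * σ x * M * (M' * σ y * M) := by
          rw [← h1]
          simp only [Matrix.mul_assoc]

end

theorem A_MV_thm (h1 : StA_Q1.{u}) (h2 : StA_Q2.{u}) : StA_MV.{u} := by
  intro H _ k _ _ τ τ₁ τ₂ d₁ d₂ v1 v2
  obtain ⟨τG, vG⟩ := v1.exists_gcd v2
  obtain ⟨τL, vL⟩ := v1.exists_lcm v2
  refine ⟨τG, τL, vG, vL, ?_⟩
  set p : k → ℕ := fun i => d₂ i / Nat.gcd (d₁ i) (d₂ i) with hp
  set q : k → ℕ := fun i => d₁ i / Nat.gcd (d₁ i) (d₂ i) with hq
  have hd1 : ∀ i, Nat.gcd (d₁ i) (d₂ i) * q i = d₁ i := fun i =>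
    Nat.mul_div_cancel' (Nat.gcd_dvd_left _ _)
  have hd2 : ∀ i, Nat.gcd (d₁ i) (d₂ i) * p i = d₂ i := fun i =>
    Nat.mul_div_cancel' (Nat.gcd_dvd_right _ _)
  have hl1 : ∀ i, d₁ i * p i = Nat.lcm (d₁ i) (d₂ i) := by
    intro i
    apply Nat.eq_of_mul_eq_mul_left (vG.pos i)
    rw [Nat.gcd_mul_lcm]
    calc Nat.gcd (d₁ i) (d₂ i) * (d₁ i * p i) = d₁ i * (Nat.gcd (d₁ i) (d₂ i) * p i) := by ring
      _ = d₁ i * d₂ i := by rw [hd2]
  have hl2 : ∀ i, d₂ i * q i = Nat.lcm (d₁ i) (d₂ i) := by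
    intro i
    apply Nat.eq_of_mul_eq_mul_left (vG.pos i)
    rw [Nat.gcd_mul_lcm]
    calc Nat.gcd (d₁ i) (d₂ i) * (d₂ i * q i) = (Nat.gcd (d₁ i) (d₂ i) * q i) * d₂ i := by ring
      _ = d₁ i * d₂ i := by rw [hd1]
  have w1 : Via τ₁ p τL := by
    refine Via.div (d := d₁) ?_ v1
    rw [show (fun i => d₁ i * p i) = fun i => Nat.lcm (d₁ i) (d₂ i) from funext hl1]
    exact vL
  have w2 : Via τ₂ q τL := by
    refine Via.div (d := d₂) ?_ v2
    rw [show (fun i => d₂ i * q i) = fun i => Nat.lcm (d₁ i) (d₂ i) from funext hl2]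
    exact vL
  have w3 : Via τG q τ₁ := by
    refine Via.div (d := fun i => Nat.gcd (d₁ i) (d₂ i)) ?_ vG
    rw [show (fun i => Nat.gcd (d₁ i) (d₂ i) * q i) = d₁ from funext hd1]
    exact v1
  have w4 : Via τG p τ₂ := by
    refine Via.div (d := fun i => Nat.gcd (d₁ i) (d₂ i)) ?_ vG
    rw [show (fun i => Nat.gcd (d₁ i) (d₂ i) * p i) = d₂ from funext hd2]
    exact v2
  set a : k → ℤ := fun i => Nat.gcdA (d₁ i) (d₂ i) with ha
  set b : k → ℤ := fun i => Nat.gcdB (d₁ i) (d₂ i) with hb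
  have hab : ∀ i, (q i : ℤ) * a i + (p i : ℤ) * b i = 1 := by
    intro i
    have h3 : ((Nat.gcd (d₁ i) (d₂ i) : ℕ) : ℤ) ≠ 0 := by
      have := vG.pos i
      exact_mod_cast this.ne'
    apply mul_left_cancel₀ h3
    have h4 := Nat.gcd_eq_gcd_ab (d₁ i) (d₂ i)
    have h5 : ((Nat.gcd (d₁ i) (d₂ i) : ℕ) : ℤ) * q i = d₁ i := by exact_mod_cast hd1 i
    have h6 : ((Nat.gcd (d₁ i) (d₂ i) : ℕ) : ℤ) * p i = d₂ i := by exact_mod_cast hd2 i
    calc ((Nat.gcd (d₁ i) (d₂ i) : ℕ) : ℤ) * ((q i : ℤ) * a i + (p i : ℤ) * b i)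
        = (((Nat.gcd (d₁ i) (d₂ i) : ℕ) : ℤ) * q i) * a i +
          (((Nat.gcd (d₁ i) (d₂ i) : ℕ) : ℤ) * p i) * b i := by ring
      _ = ((Nat.gcd (d₁ i) (d₂ i) : ℕ) : ℤ) * 1 := by rw [h5, h6, mul_one, h4]
  -- the matrices
  set P : Matrix k k ℤ := Matrix.diagonal fun i => (p i : ℤ) with hP
  set Q : Matrix k k ℤ := Matrix.diagonal fun i => (q i : ℤ) with hQ
  set A : Matrix k k ℤ := Matrix.diagonal a with hA
  set B : Matrix k k ℤ := Matrix.diagonal b with hB
  have c1 : Q * A + P * B = 1 := by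
    rw [hQ, hA, hP, hB, Matrix.diagonal_mul_diagonal, Matrix.diagonal_mul_diagonal,
      Matrix.diagonal_add, ← Matrix.diagonal_one]
    congr 1
    funext i
    exact hab i
  have cQA : Q * A = A * Q := by
    rw [hQ, hA, Matrix.diagonal_mul_diagonal, Matrix.diagonal_mul_diagonal]
    congr 1
    funext i
    ring
  have cPB : P * B = B * P := by
    rw [hP, hB, Matrix.diagonal_mul_diagonal, Matrix.diagonal_mul_diagonal]
    congr 1
    funext i
    ring
  have cPA : P * A = A * P := by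
    rw [hP, hA, Matrix.diagonal_mul_diagonal, Matrix.diagonal_mul_diagonal]
    congr 1
    funext i
    ring
  have cQB : Q * B = B * Q := by
    rw [hQ, hB, Matrix.diagonal_mul_diagonal, Matrix.diagonal_mul_diagonal]
    congr 1
    funext i
    ring
  have cAB : A * B = B * A := by
    rw [hA, hB, Matrix.diagonal_mul_diagonal, Matrix.diagonal_mul_diagonal]
    congr 1
    funext i
    ring
  have cPQ : P * Q = Q * P := by
    rw [hP, hQ, Matrix.diagonal_mul_diagonal, Matrix.diagonal_mul_diagonal]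
    congr 1
    funext i
    ring
  set M : Matrix (k ⊕ k) (k ⊕ k) ℤ := Matrix.fromBlocks P A (-Q) B with hM
  set M' : Matrix (k ⊕ k) (k ⊕ k) ℤ := Matrix.fromBlocks B (-A) Q P with hM'
  have hMM' : M * M' = 1 := by
    rw [hM, hM', Matrix.fromBlocks_multiply, ← Matrix.fromBlocks_one]
    congr 1
    · rw [← cQA, add_comm]
      exact c1
    · rw [Matrix.mul_neg, cPA]
      abel
    · rw [Matrix.neg_mul, cQB]
      abel
    · rw [Matrix.neg_mul, Matrix.mul_neg, neg_neg, ← cPB]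
      exact c1
  have hM'M : M' * M = 1 := by
    rw [hM, hM', Matrix.fromBlocks_multiply, ← Matrix.fromBlocks_one]
    congr 1
    · rw [Matrix.neg_mul, Matrix.mul_neg, neg_neg, ← cPB, ← cQA, add_comm]
      exact c1
    · rw [Matrix.neg_mul, cAB]
      abel
    · rw [Matrix.mul_neg, cPQ]
      abel
  have key := h1 H (k ⊕ k) (k ⊕ k) (A_MV.conj (A_MV.dsum τ₁ τ₂) M M' hMM' hM'M)
    (A_MV.dsum τ₁ τ₂) M M' hMM' hM'M (by
      intro x
      change A_MV.dsum τ₁ τ₂ x * M = M * (M' * A_MV.dsum τ₁ τ₂ x * M)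
      rw [Matrix.mul_assoc M', ← Matrix.mul_assoc M, hMM', Matrix.one_mul])
  have e1 : Op (A_MV.dsum τ₁ τ₂) = Op τ₁ + Op τ₂ :=
    h2 H k k _ τ₁ τ₂ (fun _ _ _ => rfl) (fun _ _ _ => rfl) (fun _ _ _ => rfl)
  rw [← e1, key, add_comm (Op τG)]
  have hblk : ∀ x, A_MV.conj (A_MV.dsum τ₁ τ₂) M M' hMM' hM'M x =
      Matrix.fromBlocks (τL x) (B * τ₁ x * A - A * τ₂ x * B) 0 (τG x) := by
    intro x
    change M' * Matrix.fromBlocks (τ₁ x) 0 0 (τ₂ x) * M = _
    rw [hM, hM', Matrix.fromBlocks_multiply, Matrix.fromBlocks_multiply]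
    simp only [Matrix.mul_zero, add_zero, zero_add]
    congr 1
    · rw [Matrix.neg_mul, Matrix.neg_mul, Matrix.mul_neg, neg_neg, Matrix.mul_assoc,
        Matrix.mul_assoc, A_MV.via_diag w1 x, A_MV.via_diag w2 x, ← Matrix.mul_assoc,
        ← Matrix.mul_assoc, ← Matrix.add_mul]
      change (B * P + A * Q) * τL x = τL x
      rw [← cPB, ← cQA, add_comm, c1, Matrix.one_mul]
    · rw [Matrix.neg_mul, Matrix.neg_mul, sub_eq_add_neg]
    · rw [Matrix.mul_neg, Matrix.mul_assoc, Matrix.mul_assoc, A_MV.via_diag w1 x,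
        A_MV.via_diag w2 x, ← Matrix.mul_assoc, ← Matrix.mul_assoc]
      change Q * P * τL x + -(P * Q * τL x) = 0
      rw [cPQ]
      abel
    · have t1 : Q * τ₁ x = τG x * Q := (A_MV.via_diag w3 x).symm
      have t2 : P * τ₂ x = τG x * P := (A_MV.via_diag w4 x).symm
      rw [t1, t2, Matrix.mul_assoc, Matrix.mul_assoc, ← Matrix.mul_add, c1, Matrix.mul_one]
  refine h2 H k k _ τL τG ?_ ?_ ?_
  · intro x i j
    rw [hblk x, Matrix.fromBlocks_apply₁₁]
  · intro x i j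
    rw [hblk x, Matrix.fromBlocks_apply₂₂]
  · intro x i j
    rw [hblk x, Matrix.fromBlocks_apply₂₁]
    rfl

end Pool.Agent.KM
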