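import Pool.Agent.KM.StA

/-!
# KM block A, module NIL: products of sums of elementary differences are zero
-/

set_option autoImplicit false

open Matrix Pool.Agent.Lib25

namespace Pool.Agent.KM

universe u

theorem A_NIL_thm (h1 : StA_SW.{u}) : StA_NIL.{u} := by
  intro H _ z hz w hw
  have key : ∀ x ∈ ElD H, ∀ y ∈ ElD H, x * y = 0 := by
    rintro x ⟨m, ρ, ρ', d, p, hp, hd, vd, rfl⟩ y ⟨n, σ, σ', e, q, hq, he, ve, rfl⟩
    exact h1 H (Fin m) (Fin n) ρ ρ' d p hp hd vd σ σ' e q hq he ve
  induction hz using AddSubgroup.closure_induction with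
  | mem x hx =>
    induction hw using AddSubgroup.closure_induction with
    | mem y hy => exact key x hx y hy
    | zero => exact mul_zero x
    | add a b _ _ ha hb => rw [mul_add, ha, hb, add_zero]
    | neg a _ ha => rw [mul_neg, ha, neg_zero]
  | zero => exact zero_mul w
  | add a b _ _ ha hb => rw [add_mul, ha, hb, add_zero]
  | neg a _ ha => rw [neg_mul, ha, neg_zero]

end Pool.Agent.KM
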