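import Pool.Agent.KM.StA

/-!
# KM block A, module P2 (helper54): block triangular homomorphisms
-/

set_option autoImplicit false
set_option linter.unusedSectionVars false

open Matrix Polynomial Pool.Agent.Lib25

namespace Pool.Agent.KM

universe u

section

variable {R S : Type u} [Ring R] [Ring S] {k l : Type} [Fintype k] [DecidableEq k]
  [Fintype l] [DecidableEq l]

theorem A_P2.lau_11 (θ : R →+* Matrix (k ⊕ l) (k ⊕ l) S) (θ₁ : R →+* Matrix k k S)
    (h : ∀ r a b, θ r (Sum.inl a) (Sum.inl b) = θ₁ r a b) (f : LaurentPolynomial R) (a b : k) :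
    lau θ f (Sum.inl a) (Sum.inl b) = lau θ₁ f a b := by
  induction f using AddMonoidAlgebra.induction_linear with
  | zero => rw [map_zero, map_zero, Matrix.zero_apply, Matrix.zero_apply]
  | add f g hf hg => rw [map_add, map_add, Matrix.add_apply, Matrix.add_apply, hf, hg]
  | single n r => rw [lau_single, lau_single, h]

theorem A_P2.lau_22 (θ : R →+* Matrix (k ⊕ l) (k ⊕ l) S) (θ₂ : R →+* Matrix l l S)
    (h : ∀ r a b, θ r (Sum.inr a) (Sum.inr b) = θ₂ r a b) (f : LaurentPolynomial R) (a b : l) :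
    lau θ f (Sum.inr a) (Sum.inr b) = lau θ₂ f a b := by
  induction f using AddMonoidAlgebra.induction_linear with
  | zero => rw [map_zero, map_zero, Matrix.zero_apply, Matrix.zero_apply]
  | add f g hf hg => rw [map_add, map_add, Matrix.add_apply, Matrix.add_apply, hf, hg]
  | single n r => rw [lau_single, lau_single, h]

theorem A_P2.lau_21 (θ : R →+* Matrix (k ⊕ l) (k ⊕ l) S)
    (h : ∀ r a b, θ r (Sum.inr a) (Sum.inl b) = 0) (f : LaurentPolynomial R) (a : l) (b : k) :
    lau θ f (Sum.inr a) (Sum.inl b) = 0 := by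
  induction f using AddMonoidAlgebra.induction_linear with
  | zero => rw [map_zero, Matrix.zero_apply]
  | add f g hf hg => rw [map_add, Matrix.add_apply, hf, hg, add_zero]
  | single n r => rw [lau_single, h, AddMonoidAlgebra.single_zero]

end

/-- A block triangular idempotent is equivalent to its diagonal part. -/
theorem A_P2.tri {A : Type u} [Ring A] {m n : Type*} [Fintype m] [Fintype n] [DecidableEq m]
    [DecidableEq n] (a : Matrix m m A) (b : Matrix m n A) (d : Matrix n n A)
    (h : Matrix.fromBlocks a b 0 d * Matrix.fromBlocks a b 0 d = Matrix.fromBlocks a b 0 d) :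
    MvN (Matrix.fromBlocks a b 0 d) (Matrix.fromBlocks a 0 0 d) := by
  rw [Matrix.fromBlocks_multiply, Matrix.fromBlocks_inj] at h
  obtain ⟨h1, h2, _, h4⟩ := h
  rw [Matrix.mul_zero, add_zero] at h1
  rw [Matrix.zero_mul, zero_add] at h4
  have h5 : a * (b * d) = 0 := by
    have h6 : a * (a * b + b * d) = a * b := by rw [h2]
    rw [Matrix.mul_add, ← Matrix.mul_assoc, h1] at h6
    simpa using h6
  have h7 : a * b * d = 0 := by rw [Matrix.mul_assoc, h5]
  have hD : Matrix.fromBlocks a 0 0 d * Matrix.fromBlocks a 0 0 d =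
      (Matrix.fromBlocks a 0 0 d : Matrix (m ⊕ n) (m ⊕ n) A) := idem_fromBlocks h1 h4
  have hu : (Matrix.fromBlocks 1 (a * b - b * d) 0 1 : Matrix (m ⊕ n) (m ⊕ n) A) *
      Matrix.fromBlocks 1 (-(a * b - b * d)) 0 1 = 1 := by
    rw [Matrix.fromBlocks_multiply]
    simp
  refine ⟨Matrix.fromBlocks 1 (-(a * b - b * d)) 0 1 * Matrix.fromBlocks a 0 0 d,
    Matrix.fromBlocks a 0 0 d * Matrix.fromBlocks 1 (a * b - b * d) 0 1, ?_, ?_⟩
  · calc Matrix.fromBlocks 1 (-(a * b - b * d)) 0 1 * Matrix.fromBlocks a 0 0 d *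
          (Matrix.fromBlocks a 0 0 d * Matrix.fromBlocks 1 (a * b - b * d) 0 1)
        = Matrix.fromBlocks 1 (-(a * b - b * d)) 0 1 *
          ((Matrix.fromBlocks a 0 0 d * Matrix.fromBlocks a 0 0 d) *
            Matrix.fromBlocks 1 (a * b - b * d) 0 1) := by
          simp only [Matrix.mul_assoc]
      _ = Matrix.fromBlocks a b 0 d := by
          rw [hD, Matrix.fromBlocks_multiply, Matrix.fromBlocks_multiply]
          congr 1
          · simp
          · simp only [Matrix.zero_mul, add_zero, Matrix.one_mul, Matrix.mul_one, Matrix.mul_sub,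
              Matrix.neg_mul, Matrix.sub_mul]
            rw [← Matrix.mul_assoc, h1, h5, sub_self, zero_add, h7, Matrix.mul_assoc b d d, h4,
              sub_zero, zero_sub, neg_neg]
            exact h2
          · simp
          · simp
  · calc Matrix.fromBlocks a 0 0 d * Matrix.fromBlocks 1 (a * b - b * d) 0 1 *
          (Matrix.fromBlocks 1 (-(a * b - b * d)) 0 1 * Matrix.fromBlocks a 0 0 d)
        = Matrix.fromBlocks a 0 0 d * ((Matrix.fromBlocks 1 (a * b - b * d) 0 1 *
          Matrix.fromBlocks 1 (-(a * b - b * d)) 0 1) * Matrix.fromBlocks a 0 0 d) := by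
          simp only [Matrix.mul_assoc]
      _ = Matrix.fromBlocks a 0 0 d := by rw [hu, Matrix.one_mul, hD]

theorem A_P2_thm : StA_P2.{u} := by
  intro R S _ _ k l _ _ _ _ θ θ₁ θ₂ h1 h2 h3
  refine KNegOne_hom_ext fun n e he => ?_
  rw [AddMonoidHom.add_apply, Kn_ngo, Kn_ngo, Kn_ngo, ← ngo_blocks]
  refine ngo_congr _ _ ?_
  have h4 := MvN.submatrix (blow_idem (lau θ) he) (Equiv.prodSumDistrib (Fin n) k l).symm
  have h5 : (blow (lau θ) e).submatrix (Equiv.prodSumDistrib (Fin n) k l).symm
      (Equiv.prodSumDistrib (Fin n) k l).symm = Matrix.fromBlocks (blow (lau θ₁) e)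
        (((blow (lau θ) e).submatrix (Equiv.prodSumDistrib (Fin n) k l).symm
          (Equiv.prodSumDistrib (Fin n) k l).symm).toBlocks₁₂) 0 (blow (lau θ₂) e) := by
    refine Matrix.ext fun i j => ?_
    rcases i with ⟨i, a⟩ | ⟨i, a⟩ <;> rcases j with ⟨j, b⟩ | ⟨j, b⟩
    · exact A_P2.lau_11 θ θ₁ h1 _ _ _
    · rfl
    · exact A_P2.lau_21 θ h3 _ _ _
    · exact A_P2.lau_22 θ θ₂ h2 _ _ _
  have h6 := idem_submatrix (blow_idem (lau θ) he) (Equiv.prodSumDistrib (Fin n) k l).symm
  rw [h5] at h6 h4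
  exact h4.trans (blow_idem (lau θ) he) (idem_fromBlocks (blow_idem _ he) (blow_idem _ he))
    (A_P2.tri _ _ _ h6)

end Pool.Agent.KM
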