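import Pool.Agent.KM.StA

/-!
# KM block A, module P3 (helper54): composition
-/

set_option autoImplicit false
set_option linter.unusedSectionVars false

open Matrix Polynomial Pool.Agent.Lib25

namespace Pool.Agent.KM

universe u

theorem A_P3.lau_comp {R S U : Type u} [Ring R] [Ring S] [Ring U] {k l : Type} [Fintype k]
    [DecidableEq k] [Fintype l] [DecidableEq l] (θ : R →+* Matrix k k S) (η : S →+* Matrix l l U)
    (ζ : R →+* Matrix (k × l) (k × l) U) (h : ∀ r a b, ζ r a b = η (θ r a.1 b.1) a.2 b.2)
    (f : LaurentPolynomial R) (a b : k × l) :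
    lau ζ f a b = lau η (lau θ f a.1 b.1) a.2 b.2 := by
  induction f using AddMonoidAlgebra.induction_linear with
  | zero =>
    rw [map_zero, map_zero, Matrix.zero_apply, Matrix.zero_apply, map_zero, Matrix.zero_apply]
  | add f g hf hg =>
    rw [map_add, map_add, Matrix.add_apply, Matrix.add_apply, map_add, Matrix.add_apply, hf, hg]
  | single n r => rw [lau_single, lau_single, lau_single, h]

theorem A_P3_thm : StA_P3.{u} := by
  intro R S U _ _ _ k l _ _ _ _ θ η ζ h
  refine KNegOne_hom_ext fun n e he => ?_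
  rw [AddMonoidHom.comp_apply, Kn_ngo, Kn_ngo, Kn_ngo]
  refine ngo_congr _ _ ?_
  have h1 := MvN.submatrix (blow_idem (lau ζ) he) (Equiv.prodAssoc (Fin n) k l)
  have h2 : (blow (lau ζ) e).submatrix (Equiv.prodAssoc (Fin n) k l) (Equiv.prodAssoc (Fin n) k l) =
      blow (lau η) (blow (lau θ) e) := by
    refine Matrix.ext fun i j => ?_
    rw [Matrix.submatrix_apply, blow_apply, blow_apply, blow_apply]
    exact A_P3.lau_comp θ η ζ h _ _ _
  rw [h2] at h1
  exact h1.symm

end Pool.Agent.KM
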