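import Pool.Agent.KM.StA

/-!
# KM block A, module P4 (helper54): ring homomorphisms and matrices of size one
-/

set_option autoImplicit false
set_option linter.unusedSectionVars false

open Matrix Polynomial Pool.Agent.Lib25

namespace Pool.Agent.KM

universe u

theorem A_P4.lau_map {R S U : Type u} [Ring R] [Ring S] [Ring U] {k : Type} [Fintype k]
    [DecidableEq k] (θ : R →+* Matrix k k S) (φ : S →+* U) (f : LaurentPolynomial R) (a b : k) :
    lau (φ.mapMatrix.comp θ) f a b = mapL φ (lau θ f a b) := by
  induction f using AddMonoidAlgebra.induction_linear with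
  | zero => rw [map_zero, map_zero, Matrix.zero_apply, Matrix.zero_apply, map_zero]
  | add f g hf hg =>
    rw [map_add, map_add, Matrix.add_apply, Matrix.add_apply, map_add, hf, hg]
  | single n r =>
    rw [lau_single, lau_single, mapL_single]
    rfl

theorem A_P4.lau_unit {R : Type u} [Ring R] (θ : R →+* Matrix Unit Unit R)
    (h : ∀ r, θ r () () = r) (f : LaurentPolynomial R) : lau θ f () () = f := by
  induction f using AddMonoidAlgebra.induction_linear with
  | zero => rw [map_zero, Matrix.zero_apply]
  | add f g hf hg => rw [map_add, Matrix.add_apply, hf, hg]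
  | single n r => rw [lau_single, h]

theorem A_P4_thm : StA_P4.{u} := by
  constructor
  · intro R S U _ _ _ k _ _ θ φ
    refine KNegOne_hom_ext fun n e he => ?_
    rw [AddMonoidHom.comp_apply, Kn_ngo, Kn_ngo, map_ngo]
    refine ngo_congr _ _ ?_
    have h2 : blow (lau (φ.mapMatrix.comp θ)) e = (blow (lau θ) e).map (mapL φ) := by
      refine Matrix.ext fun i j => ?_
      rw [Matrix.map_apply, blow_apply, blow_apply]
      exact A_P4.lau_map θ φ _ _ _
    rw [h2]
    exact MvN.refl (by rw [← Matrix.map_mul, blow_idem (lau θ) he])
  · intro R _ θ h x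
    have h1 : Kn θ = AddMonoidHom.id _ := by
      refine KNegOne_hom_ext fun n e he => ?_
      rw [Kn_ngo, AddMonoidHom.id_apply]
      refine ngo_congr _ _ ?_
      have h3 := MvN.submatrix he (Equiv.prodPUnit (Fin n))
      have h4 : e.submatrix (Equiv.prodPUnit (Fin n)) (Equiv.prodPUnit (Fin n)) =
          blow (lau θ) e := by
        refine Matrix.ext fun i j => ?_
        rw [Matrix.submatrix_apply, blow_apply]
        exact (A_P4.lau_unit θ h _).symm
      rw [h4] at h3
      exact h3.symm
    rw [h1, AddMonoidHom.id_apply]

end Pool.Agent.KM
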