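import Pool.Agent.KM.StA

/-!
# KM block A, module Q1 (helper54): isomorphic representations
-/

set_option autoImplicit false
set_option linter.unusedSectionVars false

open Matrix Polynomial Pool.Agent.Lib25

namespace Pool.Agent.KM

universe u

theorem A_Q1.tw_conj {H : Type u} [Group H] {k k' : Type} [Fintype k] [DecidableEq k]
    [Fintype k'] [DecidableEq k'] (ρ : H →* Matrix k k ℤ) (ρ' : H →* Matrix k' k' ℤ)
    (P : Matrix k' k ℤ) (h : ∀ h, ρ' h * P = P * ρ h) (x : MonoidAlgebra ℤ H) :
    tw ρ' x * P.map (Int.castRingHom (MonoidAlgebra ℤ H)) =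
      P.map (Int.castRingHom (MonoidAlgebra ℤ H)) * tw ρ x := by
  induction x using MonoidAlgebra.induction_linear with
  | zero => rw [map_zero, map_zero, Matrix.zero_mul, Matrix.mul_zero]
  | add f g hf hg => rw [map_add, map_add, Matrix.add_mul, Matrix.mul_add, hf, hg]
  | single g n =>
    refine Matrix.ext fun a b => ?_
    have h1 : ∀ c, tw ρ' (MonoidAlgebra.single g n) a c *
        (P.map (Int.castRingHom (MonoidAlgebra ℤ H))) c b =
        MonoidAlgebra.single g (n * (ρ' g a c * P c b)) := by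
      intro c
      have e1 : (P.map (Int.castRingHom (MonoidAlgebra ℤ H))) c b =
          ((P c b : ℤ) : MonoidAlgebra ℤ H) := rfl
      rw [tw_single, e1, ← (Int.cast_commute (P c b) _).eq, ← zsmul_eq_mul,
        MonoidAlgebra.smul_single, smul_eq_mul]
      congr 1
      ring
    have h2 : ∀ c, (P.map (Int.castRingHom (MonoidAlgebra ℤ H))) a c *
        tw ρ (MonoidAlgebra.single g n) c b =
        MonoidAlgebra.single g (n * (P a c * ρ g c b)) := by
      intro c
      have e1 : (P.map (Int.castRingHom (MonoidAlgebra ℤ H))) a c =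
          ((P a c : ℤ) : MonoidAlgebra ℤ H) := rfl
      rw [tw_single, e1, ← zsmul_eq_mul, MonoidAlgebra.smul_single, smul_eq_mul]
      congr 1
      ring
    rw [Matrix.mul_apply, Matrix.mul_apply]
    simp only [h1, h2]
    have h3 := congrFun (congrFun (h g) a) b
    rw [Matrix.mul_apply, Matrix.mul_apply] at h3
    have h4 := (map_sum (MonoidAlgebra.singleAddHom (R := ℤ) g)
      (fun c => n * (ρ' g a c * P c b)) Finset.univ).symm
    have h5 := (map_sum (MonoidAlgebra.singleAddHom (R := ℤ) g)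
      (fun c => n * (P a c * ρ g c b)) Finset.univ).symm
    rw [← Finset.mul_sum, h3, Finset.mul_sum] at h4
    exact h4.trans h5.symm

theorem A_Q1_thm (h1 : StA_P1.{u}) : StA_Q1.{u} := by
  intro H _ k k' _ _ _ _ ρ ρ' P Q hPQ hQP h
  have e1 : P.map (Int.castRingHom (MonoidAlgebra ℤ H)) *
      Q.map (Int.castRingHom (MonoidAlgebra ℤ H)) = 1 := by
    rw [← Matrix.map_mul, hPQ, Matrix.map_one _ (map_zero _) (map_one _)]
  have e2 : Q.map (Int.castRingHom (MonoidAlgebra ℤ H)) *
      P.map (Int.castRingHom (MonoidAlgebra ℤ H)) = 1 := by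
    rw [← Matrix.map_mul, hQP, Matrix.map_one _ (map_zero _) (map_one _)]
  exact h1 _ _ k k' (tw ρ) (tw ρ') _ _ e1 e2 (A_Q1.tw_conj ρ ρ' P h)

end Pool.Agent.KM
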