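import Pool.Agent.KM.StA

/-!
# KM block A, module Q2 (helper54): block triangular representations
-/

set_option autoImplicit false
set_option linter.unusedSectionVars false

open Matrix Polynomial Pool.Agent.Lib25

namespace Pool.Agent.KM

universe u

theorem A_Q2_thm (h1 : StA_P2.{u}) : StA_Q2.{u} := by
  intro H _ k l _ _ _ _ ρ ρ₁ ρ₂ e1 e2 e3
  refine h1 _ _ k l (tw ρ) (tw ρ₁) (tw ρ₂) ?_ ?_ ?_
  · intro x a b
    induction x using MonoidAlgebra.induction_linear with
    | zero => rw [map_zero, map_zero, Matrix.zero_apply, Matrix.zero_apply]
    | add f g hf hg => rw [map_add, map_add, Matrix.add_apply, Matrix.add_apply, hf, hg]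
    | single g n => rw [tw_single, tw_single, e1]
  · intro x a b
    induction x using MonoidAlgebra.induction_linear with
    | zero => rw [map_zero, map_zero, Matrix.zero_apply, Matrix.zero_apply]
    | add f g hf hg => rw [map_add, map_add, Matrix.add_apply, Matrix.add_apply, hf, hg]
    | single g n => rw [tw_single, tw_single, e2]
  · intro x a b
    induction x using MonoidAlgebra.induction_linear with
    | zero => rw [map_zero, Matrix.zero_apply]
    | add f g hf hg => rw [map_add, Matrix.add_apply, hf, hg, add_zero]
    | single g n => rw [tw_single, e3, mul_zero, MonoidAlgebra.single_zero]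

end Pool.Agent.KM
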