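import Pool.Agent.KM.StA

/-!
# KM block A, module Q3 (helper54): tensor products of representations
-/

set_option autoImplicit false
set_option linter.unusedSectionVars false

open Matrix Polynomial Pool.Agent.Lib25

namespace Pool.Agent.KM

universe u

theorem A_Q3_thm (h1 : StA_P3.{u}) : StA_Q3.{u} := by
  intro H _ k l _ _ _ _ ρ σ
  refine h1 _ _ _ l k (tw σ) (tw ρ) (tw (kron σ ρ)) ?_
  intro x a b
  induction x using MonoidAlgebra.induction_linear with
  | zero =>
    rw [map_zero, map_zero, Matrix.zero_apply, Matrix.zero_apply, map_zero, Matrix.zero_apply]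
  | add f g hf hg =>
    rw [map_add, map_add, Matrix.add_apply, Matrix.add_apply, map_add, Matrix.add_apply, hf, hg]
  | single g n =>
    rw [tw_single, tw_single, tw_single]
    have h2 : kron σ ρ g a b = σ g a.1 b.1 * ρ g a.2 b.2 := rfl
    rw [h2, mul_assoc]

end Pool.Agent.KM
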