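import Pool.Agent.KM.StA

/-!
# Module Q4: the permutation representation on `H/C`
-/

set_option autoImplicit false
set_option linter.unusedSectionVars false

open Matrix Polynomial Pool.Agent.Lib25

noncomputable section

namespace Pool.Agent.KM

universe u

section A_Q4

variable {H : Type u} [Group H] {C : Subgroup H} {m : ℕ}

/-- Matrix representations from a function supported on `C` and representatives of `H/C`. -/
def A_Q4_hom {A : Type*} [Ring A] (g : H → A) (h1 : g 1 = 1) (hz : ∀ a, a ∉ C → g a = 0)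
    (hm : ∀ a b, b ∈ C → g (a * b) = g a * g b) (s : Fin m → H)
    (hs : ∀ i j, (s i)⁻¹ * s j ∈ C → i = j) (hex : ∀ y, ∃ l, (s l)⁻¹ * y ∈ C) :
    H →* Matrix (Fin m) (Fin m) A where
  toFun h := Matrix.of fun i j => g ((s i)⁻¹ * h * s j)
  map_one' := by
    refine Matrix.ext fun i j => ?_
    rw [Matrix.of_apply, Matrix.one_apply, mul_one]
    by_cases h : i = j
    · subst h
      rw [if_pos rfl, inv_mul_cancel, h1]
    · rw [if_neg h, hz]
      exact fun h2 => h (hs i j h2)
  map_mul' x y := by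
    refine Matrix.ext fun i j => ?_
    rw [Matrix.mul_apply, Matrix.of_apply]
    obtain ⟨l, hl⟩ := hex (y * s j)
    have hl' : (s l)⁻¹ * y * s j ∈ C := by rwa [mul_assoc]
    rw [Finset.sum_eq_single l]
    · rw [Matrix.of_apply, Matrix.of_apply, ← hm _ _ hl']
      congr 1
      group
    · intro b _ hb
      rw [Matrix.of_apply, Matrix.of_apply, hz ((s b)⁻¹ * y * s j), mul_zero]
      intro h2
      apply hb
      apply hs
      have h3 := C.mul_mem h2 (C.inv_mem hl')
      have h4 : (s b)⁻¹ * y * s j * ((s l)⁻¹ * y * s j)⁻¹ = (s b)⁻¹ * s l := by group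
      rwa [h4] at h3
    · intro h2
      exact absurd (Finset.mem_univ l) h2

theorem A_Q4_hom_apply {A : Type*} [Ring A] (g : H → A) (h1 : g 1 = 1)
    (hz : ∀ a, a ∉ C → g a = 0) (hm : ∀ a b, b ∈ C → g (a * b) = g a * g b) (s : Fin m → H)
    (hs : ∀ i j, (s i)⁻¹ * s j ∈ C → i = j) (hex : ∀ y, ∃ l, (s l)⁻¹ * y ∈ C) (h : H)
    (i j : Fin m) : A_Q4_hom g h1 hz hm s hs hex h i j = g ((s i)⁻¹ * h * s j) := rfl

/-- The extension of a matrix representation over a ring to the integral group ring. -/
def A_Q4_lift {A : Type*} [Ring A] (f : H →* Matrix (Fin m) (Fin m) A) :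
    MonoidAlgebra ℤ H →+* Matrix (Fin m) (Fin m) A :=
  MonoidAlgebra.liftNCRingHom (Int.castRingHom (Matrix (Fin m) (Fin m) A)) f
    (fun n _ => Int.cast_commute n _)

theorem A_Q4_lift_single {A : Type*} [Ring A] (f : H →* Matrix (Fin m) (Fin m) A) (h : H)
    (n : ℤ) (i j : Fin m) : A_Q4_lift f (MonoidAlgebra.single h n) i j = n • f h i j := by
  have h1 : A_Q4_lift f (MonoidAlgebra.single h n) =
      Int.castRingHom (Matrix (Fin m) (Fin m) A) n * f h :=
    MonoidAlgebra.liftNCRingHom_single _ _ _ h n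
  have h2 : A_Q4_lift f (MonoidAlgebra.single h n) = n • f h := by
    rw [h1, zsmul_eq_mul]
    rfl
  rw [h2, Matrix.smul_apply]

open Classical in
/-- the function `h ↦ h` on `C`, zero outside -/
def A_Q4_g (C : Subgroup H) (h : H) : MonoidAlgebra ℤ C :=
  if hC : h ∈ C then MonoidAlgebra.single ⟨h, hC⟩ 1 else 0

theorem A_Q4_g_one : A_Q4_g C 1 = 1 := by
  unfold A_Q4_g
  rw [dif_pos C.one_mem]
  rfl

theorem A_Q4_g_zero (a : H) (ha : a ∉ C) : A_Q4_g C a = 0 := by
  unfold A_Q4_g
  rw [dif_neg ha]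

theorem A_Q4_g_mul (a b : H) (hb : b ∈ C) : A_Q4_g C (a * b) = A_Q4_g C a * A_Q4_g C b := by
  unfold A_Q4_g
  by_cases ha : a ∈ C
  · rw [dif_pos ha, dif_pos hb, dif_pos (C.mul_mem ha hb), MonoidAlgebra.single_mul_single,
      one_mul]
    rfl
  · rw [dif_neg ha, zero_mul, dif_neg]
    intro h
    exact ha ((C.mul_mem_cancel_right hb).1 h)

end A_Q4

theorem A_Q4_thm (h1 : StA_P1.{u}) (h2 : StA_P4.{u}) : StA_Q4.{u} := by
  classical
  intro H _ _ C
  have hfin : Finite (H ⧸ C) := inferInstance
  obtain ⟨m, ⟨e⟩⟩ := Finite.exists_equiv_fin (H ⧸ C)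
  set s : Fin m → H := fun i => Quotient.out (e.symm i) with hsdef
  have hsm : ∀ i, (QuotientGroup.mk (s i) : H ⧸ C) = e.symm i := fun i =>
    QuotientGroup.out_eq' _
  have hs : ∀ i j, (s i)⁻¹ * s j ∈ C → i = j := by
    intro i j h
    have h3 := QuotientGroup.eq.2 h
    rw [hsm, hsm] at h3
    exact e.symm.injective h3
  have hex : ∀ y, ∃ l, (s l)⁻¹ * y ∈ C := by
    intro y
    refine ⟨e (QuotientGroup.mk y), QuotientGroup.eq.1 ?_⟩
    rw [hsm, Equiv.symm_apply_apply]
  -- the permutation representation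
  set g0 : H → ℤ := fun h => if h ∈ C then 1 else 0 with hg0
  have g01 : g0 1 = 1 := if_pos C.one_mem
  have g0z : ∀ a, a ∉ C → g0 a = 0 := fun a ha => if_neg ha
  have g0m : ∀ a b, b ∈ C → g0 (a * b) = g0 a * g0 b := by
    intro a b hb
    simp only [hg0]
    rw [if_pos hb, mul_one]
    by_cases ha : a ∈ C
    · rw [if_pos ha, if_pos (C.mul_mem ha hb)]
    · rw [if_neg ha, if_neg]
      exact fun h => ha ((C.mul_mem_cancel_right hb).1 h)
  set ρ : H →* Matrix (Fin m) (Fin m) ℤ := A_Q4_hom g0 g01 g0z g0m s hs hex with hρ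
  set f : H →* Matrix (Fin m) (Fin m) (MonoidAlgebra ℤ C) :=
    A_Q4_hom (A_Q4_g C) A_Q4_g_one A_Q4_g_zero A_Q4_g_mul s hs hex with hf
  set res := A_Q4_lift f with hres
  set ι : MonoidAlgebra ℤ C →+* MonoidAlgebra ℤ H :=
    MonoidAlgebra.mapDomainRingHom ℤ C.subtype with hι
  refine ⟨m, ρ, ?_, ?_⟩
  · intro h
    have h3 : ∀ i, ρ h i i = if h • e.symm i = e.symm i then 1 else 0 := by
      intro i
      rw [hρ, A_Q4_hom_apply]
      simp only [hg0]
      refine if_congr ?_ rfl rfl
      rw [mul_assoc, ← QuotientGroup.eq, hsm]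
      have h4 : (QuotientGroup.mk (h * s i) : H ⧸ C) = h • e.symm i := by
        rw [← hsm i]
        rfl
      rw [h4]
      exact eq_comm
    have h4 : Matrix.trace (ρ h) = ∑ i : Fin m, if h • e.symm i = e.symm i then (1 : ℤ) else 0 := by
      rw [Matrix.trace]
      exact Finset.sum_congr rfl fun i _ => h3 i
    rw [h4, Finset.sum_boole]
    have h5 : Nat.card {x : H ⧸ C // h • x = x} =
        (Finset.univ.filter fun i : Fin m => h • e.symm i = e.symm i).card := by
      rw [← Fintype.card_subtype, ← Nat.card_eq_fintype_card]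
      exact Nat.card_congr (e.subtypeEquiv fun x => by rw [Equiv.symm_apply_apply])
    rw [h5]
  · intro x
    refine ⟨Kn res x, ?_⟩
    have h3 : Kn (tw ρ) = Kn (ι.mapMatrix.comp res) := by
      refine h1 (MonoidAlgebra ℤ H) (MonoidAlgebra ℤ H) (Fin m) (Fin m) (ι.mapMatrix.comp res)
        (tw ρ) (Matrix.diagonal fun i => MonoidAlgebra.single (s i) 1)
        (Matrix.diagonal fun i => MonoidAlgebra.single (s i)⁻¹ 1) ?_ ?_ ?_
      · rw [Matrix.diagonal_mul_diagonal, ← Matrix.diagonal_one]
        congr 1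
        funext i
        rw [MonoidAlgebra.single_mul_single, mul_inv_cancel, one_mul]
        rfl
      · rw [Matrix.diagonal_mul_diagonal, ← Matrix.diagonal_one]
        congr 1
        funext i
        rw [MonoidAlgebra.single_mul_single, inv_mul_cancel, one_mul]
        rfl
      · intro r
        induction r using MonoidAlgebra.induction_linear with
        | zero => simp
        | add a b ha hb => rw [map_add, map_add, add_mul, mul_add, ha, hb]
        | single h n =>
          refine Matrix.ext fun i j => ?_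
          rw [Matrix.mul_diagonal, Matrix.diagonal_mul, tw_single]
          change _ = MonoidAlgebra.single (s i) 1 * ι (res (MonoidAlgebra.single h n) i j)
          have e1 : f h i j = A_Q4_g C ((s i)⁻¹ * h * s j) := rfl
          have e2 : ρ h i j = g0 ((s i)⁻¹ * h * s j) := rfl
          rw [hres, A_Q4_lift_single, e1, e2]
          simp only [hg0]
          unfold A_Q4_g
          by_cases hC : (s i)⁻¹ * h * s j ∈ C
          · rw [if_pos hC, dif_pos hC, map_zsmul]
            have h4 : ι (MonoidAlgebra.single (⟨(s i)⁻¹ * h * s j, hC⟩ : C) 1) =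
                MonoidAlgebra.single ((s i)⁻¹ * h * s j) 1 := by
              simp [hι]
            rw [h4, mul_smul_comm, MonoidAlgebra.single_mul_single,
              MonoidAlgebra.single_mul_single, MonoidAlgebra.smul_single]
            congr 1
            · group
            · simp
          · rw [if_neg hC, dif_neg hC, smul_zero, map_zero, mul_zero, mul_zero,
              MonoidAlgebra.single_zero, zero_mul]
    have h4 := DFunLike.congr_fun (h2.1 (MonoidAlgebra ℤ H) (MonoidAlgebra ℤ C)
      (MonoidAlgebra ℤ H) (Fin m) res ι) x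
    change Kn (tw ρ) x = KNegOne.map ι (Kn res x)
    rw [h3, ← h4]
    rfl

end Pool.Agent.KM
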