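import Pool.Agent.KM.StA

/-!
# KM block A, module Q5 (helper54): the trivial representation
-/

set_option autoImplicit false
set_option linter.unusedSectionVars false

open Matrix Polynomial Pool.Agent.Lib25

namespace Pool.Agent.KM

universe u

theorem A_Q5_thm (h1 : StA_P4.{u}) : StA_Q5.{u} := by
  intro H _ ρ h
  have h2 : ∀ x : MonoidAlgebra ℤ H, tw ρ x () () = x := by
    intro x
    induction x using MonoidAlgebra.induction_linear with
    | zero => rw [map_zero, Matrix.zero_apply]
    | add f g hf hg => rw [map_add, Matrix.add_apply, hf, hg]
    | single g n => rw [tw_single, h, Matrix.one_apply_eq, mul_one]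
  ext x
  exact h1.2 _ (tw ρ) h2 x

end Pool.Agent.KM
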