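import Mathlib
import Pool.Agent.KM.StA

/-!
# Smith normal form of a square integer matrix with nonzero determinant (module of helper5)
-/

set_option autoImplicit false

open Matrix

namespace Pool.Agent.KM

universe u

/-- as in `P_SNF` -/
theorem A_SM_snf (n : ℕ) (M : Matrix (Fin n) (Fin n) ℤ) (hM : M.det ≠ 0) :
    ∃ (P P' Q Q' : Matrix (Fin n) (Fin n) ℤ) (d : Fin n → ℤ), P * P' = 1 ∧ P' * P = 1 ∧
      Q * Q' = 1 ∧ Q' * Q = 1 ∧ M = P * Matrix.diagonal d * Q := by
  have hinj : Function.Injective (Matrix.toLin' M) := by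
    rw [← LinearMap.ker_eq_bot, LinearMap.ker_eq_bot']
    intro v hv
    rw [Matrix.toLin'_apply] at hv
    exact Matrix.eq_zero_of_mulVec_eq_zero hM hv
  set e : (Fin n → ℤ) ≃ₗ[ℤ] LinearMap.range (Matrix.toLin' M) :=
    LinearEquiv.ofInjective (Matrix.toLin' M) hinj with he
  have hrk : Module.finrank ℤ (LinearMap.range (Matrix.toLin' M)) =
      Module.finrank ℤ (Fin n → ℤ) := e.finrank_eq.symm
  obtain ⟨b', a, ab', hab⟩ := Submodule.exists_smith_normal_form_of_rank_eq
    (N := LinearMap.range (Matrix.toLin' M)) (Pi.basisFun ℤ (Fin n)) hrk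
  set c : Module.Basis (Fin n) ℤ (Fin n → ℤ) := ab'.map e.symm with hc
  have h1 : ∀ j, Matrix.toLin' M (c j) = a j • b' j := by
    intro j
    have h2 : ((e (c j) : LinearMap.range (Matrix.toLin' M)) : Fin n → ℤ) =
        Matrix.toLin' M (c j) := LinearEquiv.ofInjective_apply _ _
    rw [← h2, hc, Module.Basis.map_apply, LinearEquiv.apply_symm_apply, hab]
  refine ⟨(Pi.basisFun ℤ (Fin n)).toMatrix b', b'.toMatrix (Pi.basisFun ℤ (Fin n)),
    c.toMatrix (Pi.basisFun ℤ (Fin n)), (Pi.basisFun ℤ (Fin n)).toMatrix c, a,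
    Module.Basis.toMatrix_mul_toMatrix_flip _ _, Module.Basis.toMatrix_mul_toMatrix_flip _ _,
    Module.Basis.toMatrix_mul_toMatrix_flip _ _, Module.Basis.toMatrix_mul_toMatrix_flip _ _, ?_⟩
  have h3 : M * (Pi.basisFun ℤ (Fin n)).toMatrix c =
      (Pi.basisFun ℤ (Fin n)).toMatrix b' * Matrix.diagonal a := by
    ext i j
    rw [Matrix.mul_diagonal, Matrix.mul_apply]
    have h4 := congrFun (h1 j) i
    rw [Matrix.toLin'_apply] at h4
    change ∑ k, M i k * c j k = _ at h4
    change ∑ k, M i k * c j k = b' j i * a j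
    rw [h4, Pi.smul_apply, smul_eq_mul, mul_comm]
  rw [← h3, Matrix.mul_assoc, Module.Basis.toMatrix_mul_toMatrix_flip, Matrix.mul_one]

/-- (SM) -/
theorem A_SM_thm : StA_SM := by
  intro m P hP
  obtain ⟨U, U', V, V', a, h1, h2, h3, h4, h5⟩ := A_SM_snf m P hP
  have ha : ∀ i, a i ≠ 0 := by
    intro i h
    apply hP
    rw [h5, Matrix.det_mul, Matrix.det_mul, Matrix.det_diagonal,
      Finset.prod_eq_zero (Finset.mem_univ i) h, mul_zero, zero_mul]
  have hs : Matrix.diagonal (fun i => (a i).sign) * Matrix.diagonal (fun i => (a i).sign) =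
      (1 : Matrix (Fin m) (Fin m) ℤ) := by
    rw [Matrix.diagonal_mul_diagonal, ← Matrix.diagonal_one]
    congr 1
    funext i
    rcases lt_or_gt_of_ne (ha i) with h | h
    · rw [Int.sign_eq_neg_one_of_neg h]
      norm_num
    · rw [Int.sign_eq_one_of_pos h]
      norm_num
  have hd : Matrix.diagonal a =
      Matrix.diagonal (fun i => (((a i).natAbs : ℕ) : ℤ)) * Matrix.diagonal (fun i => (a i).sign) := by
    rw [Matrix.diagonal_mul_diagonal]
    congr 1
    funext i
    rw [mul_comm]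
    exact (Int.sign_mul_natAbs (a i)).symm
  refine ⟨U, U', Matrix.diagonal (fun i => (a i).sign) * V,
    V' * Matrix.diagonal (fun i => (a i).sign), fun i => (a i).natAbs, h1, h2, ?_, ?_,
    fun i => Int.natAbs_pos.2 (ha i), ?_⟩
  · rw [Matrix.mul_assoc, ← Matrix.mul_assoc V V', h3, Matrix.one_mul, hs]
  · rw [Matrix.mul_assoc, ← Matrix.mul_assoc (Matrix.diagonal (fun i => (a i).sign))
      (Matrix.diagonal (fun i => (a i).sign)) V, hs, Matrix.one_mul, h4]
  · rw [h5, hd, Matrix.mul_assoc, Matrix.mul_assoc, Matrix.mul_assoc]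

end Pool.Agent.KM
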