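import Pool.Agent.KM.StA

/-!
# KM block A, module SW (helper54): Swan's theorem for elementary pairs
-/

set_option autoImplicit false
set_option linter.unusedSectionVars false

open Matrix Polynomial Pool.Agent.Lib25

namespace Pool.Agent.KM

universe u

theorem Via.congr {H : Type u} [Group H] {k : Type} [Fintype k] [DecidableEq k]
    {ρ ρ' : H →* Matrix k k ℤ} {d e : k → ℕ} (h : Via ρ d ρ') (he : ∀ i, d i = e i) :
    Via ρ e ρ' := by
  have : d = e := funext he
  rwa [← this]

theorem A_SW_thm (h1 : StA_MV.{u}) (h2 : StA_Q3.{u}) : StA_SW.{u} := by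
  intro H _ k l _ _ _ _ ρ ρ' d p hp hd vd σ σ' e q hq he ve
  have vr : Via (kron σ ρ) (fun x => d x.2) (kron σ ρ') := Via.kron_right σ vd
  have vl : Via (kron σ ρ) (fun x => e x.1) (kron σ' ρ) := Via.kron_left ρ ve
  have vr' : Via (kron σ' ρ) (fun x => d x.2) (kron σ' ρ') := Via.kron_right σ' vd
  have vb : Via (kron σ ρ) (fun x => e x.1 * d x.2) (kron σ' ρ') := vl.mul vr'
  have key : Op (kron σ ρ) + Op (kron σ' ρ') = Op (kron σ ρ') + Op (kron σ' ρ) := by
    obtain ⟨τG, τL, vG, vL, hMV⟩ := h1 H (l × k) (kron σ ρ) (kron σ ρ') (kron σ' ρ)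
      (fun x => d x.2) (fun x => e x.1) vr vl
    rw [hMV]
    by_cases hpq : p = q
    · subst hpq
      obtain ⟨τG', τL', vG', vL', hMV'⟩ := h1 H (l × k) (kron σ ρ) (kron σ ρ) (kron σ' ρ')
        (fun _ => p) (fun x => e x.1 * d x.2) (Via.const _ hp.pos) vb
      rw [hMV']
      have e1 : τG' = τL := by
        refine Via.unique vG' (vL.congr fun x => ?_)
        rcases hd x.2 with h3 | h3 <;> rcases he x.1 with h4 | h4 <;> rw [h3, h4]
        · simp
        · simp
        · simp
        · rw [Nat.lcm_self, Nat.gcd_mul_left_right]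
      have e2 : τL' = τG := by
        refine Via.unique vL' (((Via.const (kron σ ρ) hp.pos).mul vG).congr fun x => ?_)
        rcases hd x.2 with h3 | h3 <;> rcases he x.1 with h4 | h4 <;> rw [h3, h4]
        · simp
        · simp
        · simp
        · rw [Nat.gcd_self]
          exact (Nat.lcm_eq_right (dvd_mul_right p p)).symm
      rw [e1, e2, add_comm]
    · have hcop : ∀ x : l × k, Nat.Coprime (d x.2) (e x.1) := by
        intro x
        rcases hd x.2 with h3 | h3 <;> rcases he x.1 with h4 | h4 <;> rw [h3, h4]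
        · exact Nat.coprime_one_left 1
        · exact Nat.coprime_one_left q
        · exact Nat.coprime_one_right p
        · exact (Nat.coprime_primes hp hq).2 hpq
      have e1 : τG = kron σ ρ := by
        refine Via.unique vG ((Via.const (kron σ ρ) Nat.one_pos).congr fun x => ?_)
        exact (Nat.Coprime.gcd_eq_one (hcop x)).symm
      have e2 : τL = kron σ' ρ' := by
        refine Via.unique vL (vb.congr fun x => ?_)
        rw [Nat.Coprime.lcm_eq_mul (hcop x), mul_comm]
      rw [e1, e2]
  have e1 := h2 H k l ρ σ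
  have e2 := h2 H k l ρ σ'
  have e3 := h2 H k l ρ' σ
  have e4 := h2 H k l ρ' σ'
  rw [sub_mul, mul_sub, mul_sub, e1, e2, e3, e4]
  have e5 : Op (kron σ ρ) - Op (kron σ' ρ) - (Op (kron σ ρ') - Op (kron σ' ρ')) =
      (Op (kron σ ρ) + Op (kron σ' ρ')) - (Op (kron σ ρ') + Op (kron σ' ρ)) := by abel
  rw [e5, key, sub_self]

end Pool.Agent.KM
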