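import Pool.Agent.KM.A_P1
import Pool.Agent.KM.A_P2
import Pool.Agent.KM.A_P3
import Pool.Agent.KM.A_P4
import Pool.Agent.KM.A_Q1
import Pool.Agent.KM.A_Q2
import Pool.Agent.KM.A_Q3
import Pool.Agent.KM.A_Q4
import Pool.Agent.KM.A_Q5
import Pool.Agent.KM.A_MV
import Pool.Agent.KM.A_SW
import Pool.Agent.KM.A_NIL
import Pool.Agent.KM.A_SM
import Pool.Agent.KM.A_CHD
import Pool.Agent.KM.A_CH
import Pool.Agent.KM.A_ISQ
import Pool.Agent.KM.A_IS
import Pool.Agent.KM.A_ART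
import Pool.Agent.KM.A_DIF
import Pool.Agent.KM.A_FIN
import Pool.Agent.KM.A_FIC

/-!
# Artin induction for `K_{-1}` of integral group rings of finite groups
-/

set_option autoImplicit false

namespace Pool.Agent.KM

universe u

theorem all_Q1 : StA_Q1.{u} := A_Q1_thm A_P1_thm

theorem all_Q2 : StA_Q2.{u} := A_Q2_thm A_P2_thm

theorem all_NIL : StA_NIL.{u} := A_NIL_thm (A_SW_thm (A_MV_thm all_Q1 all_Q2) (A_Q3_thm A_P3_thm))

theorem all_CH : StA_CH.{u} := A_CH_thm A_SM_thm all_Q1 A_CHD_thm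

theorem all_DIF : StA_DIF.{u} :=
  A_DIF_thm all_Q1 all_Q2 (A_Q4_thm A_P1_thm A_P4_thm) (A_Q5_thm A_P4_thm) A_ART_thm

theorem all_FIN : StA_FIN.{u} :=
  A_FIN_thm all_DIF (A_IS_thm A_ISQ_thm) all_CH all_NIL

theorem all_FIC : StA_FIC.{u} := A_FIC_thm all_FIN

end Pool.Agent.KM
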