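import Pool.Agent.KM.St4

/-!
# Module TLA: admissible functions on a cyclic group from local data
-/

set_option autoImplicit false
set_option linter.unusedSectionVars false

open Pool.Agent.Lib25

namespace Pool.Agent.KM

namespace TLA

/-- the sum over the units as a sum over the numbers coprime to `n` -/
theorem sum_units {G : Type*} [Group G] {n : ℕ} [NeZero n] (h : G) (F : G → ℚ) :
    ∑ a ∈ (Finset.range n).filter (fun a => a.Coprime n), F (h ^ a) =
      ∑ u : (ZMod n)ˣ, F (h ^ (u : ZMod n).val) := by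
  symm
  refine Finset.sum_bij (fun (u : (ZMod n)ˣ) _ => (u : ZMod n).val) ?_ ?_ ?_ ?_
  · intro u _
    rw [Finset.mem_filter, Finset.mem_range]
    exact ⟨ZMod.val_lt _, ZMod.val_coe_unit_coprime u⟩
  · intro u _ v _ huv
    exact Units.ext (ZMod.val_injective n huv)
  · intro a ha
    rw [Finset.mem_filter, Finset.mem_range] at ha
    refine ⟨ZMod.unitOfCoprime a ha.2, Finset.mem_univ _, ?_⟩
    rw [ZMod.coe_unitOfCoprime, ZMod.val_natCast, Nat.mod_eq_of_lt ha.1]
  · intro u _
    rfl

variable {N : ℕ} [NeZero N] {φ : ∀ d : ℕ, Multiplicative (ZMod d) →* Multiplicative (ZMod N)}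

theorem pow_phi {d : ℕ} (v : ZMod d) (k : ℕ) :
    (φ d (Multiplicative.ofAdd v)) ^ k = φ d (Multiplicative.ofAdd ((k : ZMod d) * v)) := by
  rw [← map_pow, ← ofAdd_nsmul, nsmul_eq_mul]

theorem phi_eq_iff {d : ℕ} (hφ : Function.Injective (φ d)) (v w : ZMod d) :
    φ d (Multiplicative.ofAdd v) = φ d (Multiplicative.ofAdd w) ↔ v = w := by
  constructor
  · intro h
    exact Multiplicative.ofAdd.injective (hφ h)
  · intro h
    rw [h]

theorem order_phi {d : ℕ} (hφ : Function.Injective (φ d)) (u : (ZMod d)ˣ) :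
    orderOf (φ d (Multiplicative.ofAdd (u : ZMod d))) = d := by
  have key : ∀ k : ℕ, (φ d (Multiplicative.ofAdd (u : ZMod d))) ^ k = 1 ↔ d ∣ k := by
    intro k
    have h1 : (1 : Multiplicative (ZMod N)) = φ d (Multiplicative.ofAdd (0 : ZMod d)) := by
      rw [ofAdd_zero, map_one]
    rw [pow_phi, h1, phi_eq_iff hφ, Units.mul_left_eq_zero, ZMod.natCast_eq_zero_iff]
  apply Nat.dvd_antisymm
  · exact orderOf_dvd_of_pow_eq_one ((key d).2 (dvd_refl d))
  · exact (key _).1 (pow_orderOf_eq_one _)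

theorem exists_unit {d : ℕ} [NeZero d] (hφ : Function.Injective (φ d))
    (h : Multiplicative (ZMod N)) (hh : orderOf h = d) :
    ∃ u : (ZMod d)ˣ, φ d (Multiplicative.ofAdd (u : ZMod d)) = h := by
  classical
  have hd : 0 < d := Nat.pos_of_ne_zero (NeZero.ne d)
  -- the elements with `x ^ d = 1`
  have hsub : Finset.univ.image (fun v : ZMod d => φ d (Multiplicative.ofAdd v)) ⊆
      Finset.univ.filter (fun x : Multiplicative (ZMod N) => x ^ d = 1) := by
    intro x hx
    obtain ⟨v, -, rfl⟩ := Finset.mem_image.1 hx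
    rw [Finset.mem_filter]
    refine ⟨Finset.mem_univ _, ?_⟩
    rw [pow_phi, CharP.cast_eq_zero, zero_mul, ofAdd_zero, map_one]
  have hcard : (Finset.univ.image (fun v : ZMod d => φ d (Multiplicative.ofAdd v))).card = d := by
    rw [Finset.card_image_of_injective _ (fun v w hvw => (phi_eq_iff hφ v w).1 hvw),
      Finset.card_univ, ZMod.card]
  have heq := Finset.eq_of_subset_of_card_le hsub (by
    rw [hcard]
    exact IsCyclic.card_pow_eq_one_le hd)
  have hmem : h ∈ Finset.univ.filter (fun x : Multiplicative (ZMod N) => x ^ d = 1) := by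
    rw [Finset.mem_filter]
    exact ⟨Finset.mem_univ _, by rw [← hh]; exact pow_orderOf_eq_one h⟩
  rw [← heq, Finset.mem_image] at hmem
  obtain ⟨v, -, hv⟩ := hmem
  have h1 : v.val.Coprime d := by
    by_contra hc
    have h2 : 1 < v.val.gcd d := by
      have h3 : v.val.gcd d ≠ 1 := hc
      have h4 : 0 < v.val.gcd d := Nat.gcd_pos_of_pos_right _ hd
      omega
    -- then `h ^ (d / gcd) = 1`
    obtain ⟨b, hb⟩ := Nat.gcd_dvd_right v.val d
    obtain ⟨a, ha⟩ := Nat.gcd_dvd_left v.val d
    have hb0 : 0 < b := Nat.pos_of_ne_zero (by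
      rintro rfl
      rw [mul_zero] at hb
      omega)
    have h5 : h ^ b = 1 := by
      rw [← hv, pow_phi]
      have h6 : ((b : ℕ) : ZMod d) * v = 0 := by
        have h7 : v = ((v.val : ℕ) : ZMod d) := (ZMod.natCast_rightInverse v).symm
        rw [h7, ← Nat.cast_mul, ZMod.natCast_eq_zero_iff]
        refine ⟨a, ?_⟩
        calc b * v.val = b * (v.val.gcd d * a) := by rw [← ha]
          _ = v.val.gcd d * b * a := by ring
          _ = d * a := by rw [← hb]
      rw [h6, ofAdd_zero, map_one]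
    have h8 := orderOf_dvd_of_pow_eq_one h5
    rw [hh] at h8
    have h9 := Nat.le_of_dvd hb0 h8
    have h10 : b * 1 < b * v.val.gcd d := by
      exact Nat.mul_lt_mul_of_pos_left h2 hb0
    rw [mul_one, mul_comm, ← hb] at h10
    omega
  refine ⟨ZMod.unitOfCoprime v.val h1, ?_⟩
  rw [ZMod.coe_unitOfCoprime, ZMod.natCast_rightInverse v]
  exact hv

end TLA

open TLA in
theorem t_TLA : S_TLA := by
  classical
  intro N _ φ hφ f hf hsum
  set P : ℕ → Multiplicative (ZMod N) → Prop := fun p h =>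
    ∃ x : Σ d : ℕ, (ZMod d)ˣ, x.1 ∣ N ∧ 1 < x.1 ∧ p ∈ x.1.primeFactors ∧
      φ x.1 (Multiplicative.ofAdd (x.2 : ZMod x.1)) = h with hP
  set L : ℕ → Multiplicative (ZMod N) → ℚ := fun p h =>
    if hx : P p h then f hx.choose.1 p hx.choose.2 else 0 with hL
  have hval : ∀ d, 1 < d → d ∣ N → ∀ p ∈ d.primeFactors, ∀ u : (ZMod d)ˣ,
      L p (φ d (Multiplicative.ofAdd (u : ZMod d))) = f d p u := by
    intro d hd hdN p hp u
    have hx : P p (φ d (Multiplicative.ofAdd (u : ZMod d))) := ⟨⟨d, u⟩, hdN, hd, hp, rfl⟩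
    simp only [hL]
    rw [dif_pos hx]
    obtain ⟨h1, h2, h3, h4⟩ := hx.choose_spec
    generalize hx.choose = x at h1 h2 h3 h4 ⊢
    obtain ⟨d', u'⟩ := x
    dsimp only at h1 h2 h3 h4 ⊢
    have h5 : d' = d := by
      rw [← order_phi (hφ d' h1) u', h4, order_phi (hφ d hdN) u]
    subst h5
    have h6 := (phi_eq_iff (hφ d' h1) _ _).1 h4
    rw [Units.ext h6]
  have hzero : ∀ p h, p ∉ (orderOf h).primeFactors → L p h = 0 := by
    intro p h hp
    simp only [hL]
    rw [dif_neg]
    rintro ⟨⟨d, u⟩, h1, h2, h3, h4⟩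
    dsimp only at h1 h2 h3 h4
    apply hp
    rw [← h4, order_phi (hφ d h1) u]
    exact h3
  have hdvd : ∀ h : Multiplicative (ZMod N), orderOf h ∣ N := by
    intro h
    have h1 := orderOf_dvd_card (x := h)
    have h2 : Fintype.card (Multiplicative (ZMod N)) = N := by
      rw [Fintype.card_multiplicative, ZMod.card]
    rwa [h2] at h1
  have hpos : ∀ h : Multiplicative (ZMod N), 0 < orderOf h := fun h =>
    orderOf_pos_iff.2 (isOfFinOrder_of_finite h)
  refine ⟨L, ⟨?_, ?_, ?_⟩, hval⟩
  · intro p h x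
    rw [mul_comm x h, mul_inv_cancel_right]
  · intro p h h' j k hz hjk
    have hord : orderOf h = orderOf h' := by
      rw [← Nat.card_zpowers, ← Nat.card_zpowers, hz]
    by_cases hp : p ∈ (orderOf h).primeFactors
    · have hd : 1 < orderOf h := by
        have h1 := Nat.le_of_dvd (hpos h) (Nat.dvd_of_mem_primeFactors hp)
        have h2 := (Nat.prime_of_mem_primeFactors hp).one_lt
        omega
      generalize hdd : orderOf h = d at hp hd hord
      have hdN : d ∣ N := hdd ▸ hdvd h
      have hne : NeZero d := ⟨by omega⟩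
      obtain ⟨u, hu⟩ := exists_unit (hφ d hdN) h hdd
      obtain ⟨z, hz'⟩ := exists_unit (hφ d hdN) h' hord.symm
      rw [← hu, ← hz', hval d hd hdN p hp u, hval d hd hdN p hp z]
      apply hf
      refine ⟨j, k, ?_⟩
      rw [← hu, ← hz', pow_phi, pow_phi, phi_eq_iff (hφ d hdN)] at hjk
      push_cast at hjk
      rw [mul_comm, hjk, mul_comm]
    · rw [hzero p h hp, hzero p h' (by rwa [← hord])]
  · intro h _
    by_cases hd : 1 < orderOf h
    · generalize hdd : orderOf h = d at hd
      have hdN : d ∣ N := hdd ▸ hdvd h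
      have hne : NeZero d := ⟨by omega⟩
      obtain ⟨u, hu⟩ := exists_unit (hφ d hdN) h hdd
      rw [← hsum d hd hdN]
      refine Finset.sum_congr rfl fun p hp => ?_
      rw [sum_units]
      have h1 : ∀ v : (ZMod d)ˣ, L p (h ^ (v : ZMod d).val) = f d p (v * u) := by
        intro v
        rw [← hu, pow_phi, ZMod.natCast_rightInverse (v : ZMod d), ← Units.val_mul]
        exact hval d hd hdN p hp (v * u)
      rw [Finset.sum_congr rfl fun v _ => h1 v]
      exact Fintype.sum_equiv (Equiv.mulRight u) _ _ fun v => rfl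
    · have h1 : orderOf h = 1 := by
        have := hpos h
        omega
      rw [h1, Nat.primeFactors_one, Finset.sum_empty]

end Pool.Agent.KM
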