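import Pool.Agent.KM.ADefs

/-!
# The source of the assembly map in degree `-1` and THE map

* `grm φ : ℤ[C] →+* ℤ[G]` for a group homomorphism `φ`.
* `KNegOne_map_comp`, `KNegOne_map_id`, `KNegOne_map_conj`: functoriality, inner automorphisms act
  trivially.
* `FSub G` : the finite subgroups of `G`.
* `Src G` : the colimit of `K_{-1}(ℤ[H])` over the finite subgroups `H` of `G` with the morphisms
  `H → H'` given by conjugation by an element `g` of `G` with `g H g⁻¹ ≤ H'`.
* `asm G : Src G →+ KNegOne (ℤ[G])` : the map induced by the inclusions.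
* `AdmM L` : the admissible functions.
-/

set_option autoImplicit false
set_option linter.unusedSectionVars false

open Matrix Polynomial Pool.Agent.Lib25

noncomputable section

namespace Pool.Agent.KM

universe u v w

section Fun

variable {R : Type u} {S : Type v} {T : Type w} [Ring R] [Ring S] [Ring T]

theorem mapL_comp (φ : R →+* S) (χ : S →+* T) : (mapL χ).comp (mapL φ) = mapL (χ.comp φ) := by
  apply RingHom.ext
  intro x
  apply lco_ext
  intro n
  rw [RingHom.comp_apply, lco_mapL, lco_mapL, lco_mapL, RingHom.comp_apply]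

theorem KNegOne_map_comp (φ : R →+* S) (χ : S →+* T) (x : KNegOne R) :
    KNegOne.map χ (KNegOne.map φ x) = KNegOne.map (χ.comp φ) x := by
  obtain ⟨y, rfl⟩ := KNegOne_mk_surjective x
  rw [KNegOne.map_mk, KNegOne.map_mk, KNegOne.map_mk, K0.map_map, mapL_comp]

theorem K0_map_id (x : K0 R) : K0.map (RingHom.id R) x = x := by
  obtain ⟨n, e, he, m, rfl⟩ := exists_cl x
  rw [map_sub, map_one', map_cl]
  congr 1

theorem KNegOne_map_id (x : KNegOne R) : KNegOne.map (RingHom.id R) x = x := by
  obtain ⟨y, rfl⟩ := KNegOne_mk_surjective x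
  rw [KNegOne.map_mk]
  have h : mapL (RingHom.id R) = RingHom.id _ := by
    apply RingHom.ext
    intro x
    apply lco_ext
    intro n
    rw [lco_mapL]
    rfl
  rw [h, K0_map_id]

/-- Inner automorphisms act trivially on `K₀`. -/
theorem K0_map_inner (χ : R →+* R) (a b : R) (hba : b * a = 1)
    (h : ∀ z, χ z = a * z * b) (x : K0 R) : K0.map χ x = x := by
  obtain ⟨n, e, he, m, rfl⟩ := exists_cl x
  rw [map_sub, map_one', map_cl]
  congr 1
  apply cl_congr
  have hid : ∀ i j, e i j = ∑ k, e i k * e k j := by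
    intro i j
    conv_lhs => rw [← he, Matrix.mul_apply]
  refine ⟨e.map (fun z => a * z), e.map (fun z => z * b), ?_, ?_⟩
  · ext i j
    rw [Matrix.map_apply, h, Matrix.mul_apply, hid i j, Finset.mul_sum, Finset.sum_mul]
    apply Finset.sum_congr rfl
    intro k _
    change a * e i k * (e k j * b) = a * (e i k * e k j) * b
    simp only [mul_assoc]
  · ext i j
    rw [Matrix.mul_apply, hid i j]
    apply Finset.sum_congr rfl
    intro k _
    change e i k * b * (a * e k j) = e i k * e k j
    rw [mul_assoc, ← mul_assoc b a, hba, one_mul]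

end Fun

section Grp

variable {C : Type u} {G : Type v} {P : Type w} [Group C] [Group G] [Group P]

/-- The ring homomorphism of integral group rings induced by a group homomorphism. -/
abbrev grm (φ : C →* G) : MonoidAlgebra ℤ C →+* MonoidAlgebra ℤ G :=
  MonoidAlgebra.mapDomainRingHom ℤ φ

theorem grm_single (φ : C →* G) (c : C) (r : ℤ) :
    grm φ (MonoidAlgebra.single c r) = MonoidAlgebra.single (φ c) r := by
  change MonoidAlgebra.mapDomain _ _ = _
  rw [MonoidAlgebra.mapDomain_single]

theorem grm_comp (φ : C →* G) (χ : G →* P) : (grm χ).comp (grm φ) = grm (χ.comp φ) := by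
  apply RingHom.ext
  intro x
  rw [RingHom.comp_apply]
  induction x using MonoidAlgebra.induction_linear with
  | zero => simp
  | add a b ha hb => rw [map_add, map_add, ha, hb, map_add]
  | single c r => rw [grm_single, grm_single, grm_single, MonoidHom.comp_apply]

/-- The map `K_{-1}(ℤ[C]) → K_{-1}(ℤ[G])` induced by a group homomorphism. -/
abbrev Kg (φ : C →* G) : KNegOne (MonoidAlgebra ℤ C) →+ KNegOne (MonoidAlgebra ℤ G) :=
  KNegOne.map (grm φ)

theorem Kg_comp (φ : C →* G) (χ : G →* P) (x : KNegOne (MonoidAlgebra ℤ C)) :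
    Kg χ (Kg φ x) = Kg (χ.comp φ) x := by
  rw [KNegOne_map_comp, grm_comp]

theorem Kg_id (x : KNegOne (MonoidAlgebra ℤ C)) : Kg (MonoidHom.id C) x = x := by
  have h : grm (MonoidHom.id C) = RingHom.id _ := by
    apply RingHom.ext
    intro x
    induction x using MonoidAlgebra.induction_linear with
    | zero => simp
    | add a b ha hb => rw [map_add, ha, hb, map_add]
    | single c r => rw [grm_single]; rfl
  change KNegOne.map (grm (MonoidHom.id C)) x = x
  rw [h, KNegOne_map_id]

theorem grm_conj (g : G) (z : MonoidAlgebra ℤ G) :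
    grm (MulAut.conj g).toMonoidHom z =
      MonoidAlgebra.single g 1 * z * MonoidAlgebra.single g⁻¹ 1 := by
  induction z using MonoidAlgebra.induction_linear with
  | zero => simp
  | add a b ha hb => rw [map_add, ha, hb, mul_add, add_mul]
  | single h r =>
    rw [grm_single, MonoidAlgebra.single_mul_single,
      MonoidAlgebra.single_mul_single, one_mul, mul_one]
    rfl

/-- Inner automorphisms of `G` act trivially on `K_{-1}(ℤ[G])`. -/
theorem Kg_conj (g : G) (x : KNegOne (MonoidAlgebra ℤ G)) :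
    Kg (MulAut.conj g).toMonoidHom x = x := by
  obtain ⟨y, rfl⟩ := KNegOne_mk_surjective x
  rw [KNegOne.map_mk]
  congr 1
  refine K0_map_inner _ (LaurentPolynomial.C (MonoidAlgebra.single g 1))
    (LaurentPolynomial.C (MonoidAlgebra.single g⁻¹ 1)) ?_ ?_ y
  · rw [← map_mul, MonoidAlgebra.single_mul_single, inv_mul_cancel, one_mul]
    exact map_one _
  · intro z
    induction z using AddMonoidAlgebra.induction_linear with
    | zero => simp
    | add a b ha hb => rw [map_add, ha, hb, mul_add, add_mul]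
    | single n a =>
      rw [mapL_single, grm_conj]
      change _ = AddMonoidAlgebra.single 0 (MonoidAlgebra.single g 1) * AddMonoidAlgebra.single n a *
        AddMonoidAlgebra.single 0 (MonoidAlgebra.single g⁻¹ 1)
      rw [AddMonoidAlgebra.single_mul_single, AddMonoidAlgebra.single_mul_single, zero_add,
        add_zero]

end Grp

section Src

variable (G : Type u) [Group G]

/-- The finite subgroups of `G`. -/
abbrev FSub : Type u := {H : Subgroup G // Finite H}

variable {G}

/-- Conjugation by `g` as a homomorphism from `H` to `H'`, when `g H g⁻¹ ≤ H'`. -/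
def cj (H H' : Subgroup G) (g : G) (h : ∀ a ∈ H, g * a * g⁻¹ ∈ H') : H →* H' where
  toFun a := ⟨g * a * g⁻¹, h a a.2⟩
  map_one' := by
    apply Subtype.ext
    simp
  map_mul' a b := by
    apply Subtype.ext
    simp

/-- The group `K_{-1}(ℤ[H])` of a finite subgroup `H` of `G`. -/
def fam (H : FSub G) : Type u := KNegOne (MonoidAlgebra ℤ H.1)

instance famI (H : FSub G) : AddCommGroup (fam H) := KNegOne.instAddCommGroup _

/-- The map `K_{-1}(ℤ[H]) → K_{-1}(ℤ[H'])` induced by the conjugation by `g`. -/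
def cjK (H H' : FSub G) (g : G) (h : ∀ a ∈ H.1, g * a * g⁻¹ ∈ H'.1) : fam H →+ fam H' :=
  Kg (cj H.1 H'.1 g h)

variable (G)

open scoped DirectSum in
/-- The direct sum of the groups `K_{-1}(ℤ[H])`, `H` a finite subgroup of `G`. -/
def DS : Type u := ⨁ H : FSub G, fam H

open scoped DirectSum in
instance DSI : AddCommGroup (DS G) := inferInstanceAs (AddCommGroup (⨁ H : FSub G, fam H))

variable {G}

open scoped Classical in
/-- The inclusion of a summand. -/
def DS.of (H : FSub G) : fam H →+ DS G := DirectSum.of (fam (G := G)) H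

/-- `z` is a relation `[H, x] - [H', (conjugation by g)_* x]`, with `g H g⁻¹ ≤ H'`. -/
def IsRelS (z : DS G) : Prop :=
  ∃ (H H' : FSub G) (g : G) (h : ∀ a ∈ H.1, g * a * g⁻¹ ∈ H'.1) (x : fam H),
    z = DS.of H x - DS.of H' (cjK H H' g h x)

variable (G)

/-- The subgroup generated by the relations `[H, x] = [H', (conjugation by g)_* x]` for
`g H g⁻¹ ≤ H'`. -/
def relS : AddSubgroup (DS G) := AddSubgroup.closure {z | IsRelS z}

/-- The colimit of `K_{-1}(ℤ[H])` over the finite subgroups `H` of `G` (morphisms: conjugations and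
inclusions). -/
def Src : Type u := DS G ⧸ relS G

instance : AddCommGroup (Src G) := QuotientAddGroup.Quotient.addCommGroup (relS G)

variable {G}

/-- The class `[H, x]`. -/
def Src.of (H : FSub G) : KNegOne (MonoidAlgebra ℤ H.1) →+ Src G :=
  (QuotientAddGroup.mk' (relS G)).comp (DS.of H)

theorem Src.of_conj (H H' : FSub G) (g : G) (h : ∀ a ∈ H.1, g * a * g⁻¹ ∈ H'.1)
    (x : KNegOne (MonoidAlgebra ℤ H.1)) : Src.of H' (Kg (cj H.1 H'.1 g h) x) = Src.of H x := by
  refine (QuotientAddGroup.eq.2 ?_)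
  apply AddSubgroup.subset_closure
  refine ⟨H, H', g, h, x, ?_⟩
  rw [neg_add_eq_sub]
  rfl

theorem Src.hom_ext {A : Type*} [AddCommGroup A] {f g : Src G →+ A}
    (h : ∀ (H : FSub G) (x : KNegOne (MonoidAlgebra ℤ H.1)), f (Src.of H x) = g (Src.of H x)) :
    f = g := by
  classical
  apply QuotientAddGroup.addMonoidHom_ext
  apply DirectSum.addHom_ext
  intro H x
  exact h H x

/-- The universal property of the colimit. -/
theorem Src.exists_lift {A : Type*} [AddCommGroup A]
    (l : ∀ H : FSub G, KNegOne (MonoidAlgebra ℤ H.1) →+ A)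
    (hl : ∀ (H H' : FSub G) (g : G) (h : ∀ a ∈ H.1, g * a * g⁻¹ ∈ H'.1)
      (x : KNegOne (MonoidAlgebra ℤ H.1)), l H' (Kg (cj H.1 H'.1 g h) x) = l H x) :
    ∃ f : Src G →+ A, ∀ H x, f (Src.of H x) = l H x := by
  classical
  let L : DS G →+ A := DirectSum.toAddMonoid (β := fam (G := G)) l
  have hL : ∀ H x, L (DS.of H x) = l H x := fun H x => DirectSum.toAddMonoid_of
    (β := fam (G := G)) l H x
  refine ⟨QuotientAddGroup.lift (relS G) L ?_, ?_⟩
  · unfold relS
    rw [AddSubgroup.closure_le]
    rintro _ ⟨H, H', g, h, x, rfl⟩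
    change _ = _
    rw [map_sub, hL, hL]
    exact sub_eq_zero.2 (hl H H' g h x).symm
  · intro H x
    exact hL H x

theorem Kg_cj (H H' : Subgroup G) (g : G) (h : ∀ a ∈ H, g * a * g⁻¹ ∈ H')
    (x : KNegOne (MonoidAlgebra ℤ H)) : Kg H'.subtype (Kg (cj H H' g h) x) = Kg H.subtype x := by
  rw [Kg_comp]
  have h1 : H'.subtype.comp (cj H H' g h) = (MulAut.conj g).toMonoidHom.comp H.subtype := by
    ext a
    rfl
  rw [h1, ← Kg_comp, Kg_conj]

/-- The map `⨁ K_{-1}(ℤ[H]) → K_{-1}(ℤ[G])` induced by the inclusions. -/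
def asmDS (G : Type u) [Group G] : DS G →+ KNegOne (MonoidAlgebra ℤ G) := by
  classical exact DirectSum.toAddMonoid (β := fam (G := G)) fun H : FSub G => Kg H.1.subtype

theorem asmDS_of (H : FSub G) (x : KNegOne (MonoidAlgebra ℤ H.1)) :
    asmDS G (DS.of H x) = Kg H.1.subtype x := by
  classical
  exact DirectSum.toAddMonoid_of (β := fam (G := G)) (fun H : FSub G => Kg H.1.subtype) H x

theorem relS_le (G : Type u) [Group G] : relS G ≤ (asmDS G).ker := by
  unfold relS
  rw [AddSubgroup.closure_le]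
  rintro _ ⟨H, H', g, h, x, rfl⟩
  change _ = _
  rw [map_sub, sub_eq_zero]
  exact (asmDS_of H x).trans ((Kg_cj H.1 H'.1 g h x).symm.trans
    (asmDS_of H' (Kg (cj H.1 H'.1 g h) x)).symm)

/-- **The assembly map in degree `-1`**: the homomorphism
`colim_{H finite} K_{-1}(ℤ[H]) → K_{-1}(ℤ[G])` induced by the inclusions `H ⊆ G`. -/
def asm (G : Type u) [Group G] : Src G →+ KNegOne (MonoidAlgebra ℤ G) :=
  QuotientAddGroup.lift (relS G) (asmDS G) (relS_le G)

theorem asm_of (H : FSub G) (x : KNegOne (MonoidAlgebra ℤ H.1)) :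
    asm G (Src.of H x) = Kg H.1.subtype x := asmDS_of H x

instance finite_range' {C : Type v} [Group C] [Finite C] (φ : C →* G) : Finite φ.range :=
  Finite.of_surjective φ.rangeRestrict φ.rangeRestrict_surjective

/-- The class `[φ, x]` for a homomorphism from a finite group. -/
def scl {C : Type v} [Group C] [Finite C] (φ : C →* G) :
    KNegOne (MonoidAlgebra ℤ C) →+ Src G :=
  (Src.of ⟨φ.range, inferInstance⟩).comp (Kg φ.rangeRestrict)

theorem asm_scl {C : Type v} [Group C] [Finite C] (φ : C →* G)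
    (x : KNegOne (MonoidAlgebra ℤ C)) : asm G (scl φ x) = Kg φ x := by
  unfold scl
  rw [AddMonoidHom.comp_apply, asm_of, Kg_comp]
  rfl

theorem scl_eq_of {C : Type v} [Group C] [Finite C] (φ : C →* G) (H : FSub G)
    (ψ : C →* H.1) (g : G) (h : ∀ c, g * φ c * g⁻¹ = ψ c) (x : KNegOne (MonoidAlgebra ℤ C)) :
    Src.of H (Kg ψ x) = scl φ x := by
  have hle : ∀ a ∈ φ.range, g * a * g⁻¹ ∈ H.1 := by
    rintro _ ⟨c, rfl⟩
    rw [h c]
    exact (ψ c).2
  have h1 := Src.of_conj (⟨φ.range, inferInstance⟩ : FSub G) H g hle (Kg φ.rangeRestrict x)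
  rw [Kg_comp] at h1
  have h2 : (cj φ.range H.1 g hle).comp φ.rangeRestrict = ψ := by
    ext c
    exact h c
  rw [h2] at h1
  exact h1

/-- `[φ, ψ_* x] = [φ ψ, x]`. -/
theorem scl_comp {C : Type v} [Group C] [Finite C] {C' : Type w} [Group C'] [Finite C']
    (φ : C →* G) (ψ : C' →* C) (x : KNegOne (MonoidAlgebra ℤ C')) :
    scl φ (Kg ψ x) = scl (φ.comp ψ) x := by
  unfold scl
  rw [AddMonoidHom.comp_apply, Kg_comp]
  exact scl_eq_of (φ.comp ψ) ⟨φ.range, inferInstance⟩ (φ.rangeRestrict.comp ψ) 1
    (by intro c; simp) x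

/-- `[conj_g φ, x] = [φ, x]`. -/
theorem scl_conj {C : Type v} [Group C] [Finite C] (φ : C →* G) (g : G)
    (x : KNegOne (MonoidAlgebra ℤ C)) :
    scl ((MulAut.conj g).toMonoidHom.comp φ) x = scl φ x := by
  unfold scl
  rw [AddMonoidHom.comp_apply]
  exact scl_eq_of φ ⟨((MulAut.conj g).toMonoidHom.comp φ).range, inferInstance⟩
    ((MulAut.conj g).toMonoidHom.comp φ).rangeRestrict g (by intro c; rfl) x

/-- `[H ⊆ G, x] = [H, x]`. -/
theorem scl_subtype (H : FSub G) (x : KNegOne (MonoidAlgebra ℤ H.1)) :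
    haveI := H.2
    scl H.1.subtype x = Src.of H x := by
  have := H.2
  rw [← scl_eq_of H.1.subtype H (MonoidHom.id _) 1 (by intro c; simp) x, Kg_id]

end Src

/-- Admissible functions on `G`: conjugation invariant, invariant under the `p`-power relation,
and satisfying the sum relation at every element of finite order. -/
structure AdmM {G : Type u} [Group G] (L : ℕ → G → ℚ) : Prop where
  conj : ∀ p h x, L p (x * h * x⁻¹) = L p h
  frob : ∀ p h h' (j k : ℕ), Subgroup.zpowers h = Subgroup.zpowers h' →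
    h ^ p ^ j = h' ^ p ^ k → L p h = L p h'
  sum : ∀ h, IsOfFinOrder h → ∑ p ∈ (orderOf h).primeFactors,
    ∑ a ∈ (Finset.range (orderOf h)).filter (fun a => a.Coprime (orderOf h)), L p (h ^ a) = 0

/-- The `w`-th power map of `C_N`. -/
def pwr (N : ℕ) (w : (ZMod N)ˣ) : Multiplicative (ZMod N) →* Multiplicative (ZMod N) :=
  powMonoidHom (w : ZMod N).val

/-- The standard generator of `C_N`. -/
abbrev gn (N : ℕ) : Multiplicative (ZMod N) := Multiplicative.ofAdd 1

end Pool.Agent.KM
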