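import Pool.Agent.KM.St3
import Pool.Agent.KM.StA
import Pool.Agent.KM.ZDefs

/-!
# MP_e40716_gt (b), blocks T and Z: universal classes, cyclic groups, finite groups, THE map

Definitions in `ZDefs.lean`: `grm`, `Kg`, `Src`, `asm`, `scl`, `AdmM`, `pwr`, `gn`.
File names: `Pool/Agent/KM/P_X.lean`, theorem `t_X (hY : S_Y) ... : S_X`, namespace
`Pool.Agent.KM`; write `S_X.{v}` for the universes.
-/

set_option autoImplicit false
set_option linter.unusedSectionVars false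

open Matrix Polynomial Pool.Agent.Lib25

noncomputable section

namespace Pool.Agent.KM

universe u v

/-- The local property of the classes `x p` over `ℤ[C_n][T;T⁻¹]` (`N` a normalising integer). -/
def LocN (n : ℕ) [NeZero n] (N : ℕ)
    (x : ℕ → K0 (LaurentPolynomial (MonoidAlgebra ℤ (Multiplicative (ZMod n))))) : Prop := by
  classical exact
  ∀ (p : ℕ) [Fact p.Prime], p ∣ n → ∃ t : (ZMod n)ˣ → ℚ_[p],
    (∀ (Y : (ZMod n)ˣ → ℚ) (y : ℚ), ∑ u, t u * (Y u : ℚ_[p]) = (y : ℚ_[p]) →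
      ∀ z, (N : ℚ) * ∑ u ∈ Finset.univ.filter (fun u => uR n p u z), Y u =
        y * (Finset.univ.filter (fun u => uR n p u z)).card) ∧
    ∀ {G : Type v} [Group G] (ψ : Multiplicative (ZMod n) →* G),
      ∃ w : ∀ (q : ℕ) [Fact q.Prime], G → ℚ_[q],
        Triv (K0.map (mapL (grm ψ)) (x p)) w ∧
        Triv (- K0.map (mapL (grm ψ)) (x p)) (fun q _ h => - w q h) ∧
        (∀ h, w p h = ∑ u : (ZMod n)ˣ, t u *
          (if IsConj (ψ (gn n) ^ (u : ZMod n).val) h then 1 else 0)) ∧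
        ∀ (q : ℕ) [Fact q.Prime], q ≠ p → ∀ h, w q h = 0

/-- KM_TKA (200 lines; ADAPTATION of `exists_kappa` of Lib_helper25/Class0.lean).  The universal
classes.

PROOF.  Exactly the proof of `Pool.Agent.Lib25.exists_kappa` (Class0.lean, lines 257 to 420) with
`exists_class` (Lib_helper25/Approx.lean) in place of `exists_class0`, `Triv` in place of
`Triv0`, no `rkG` and no additivity part.  For a prime `p` take `E`, `m`, `Np` from
`exists_theta p`, `x = ∑ k, m k • x k` with `x k` from `exists_class p (E k)`,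
`t u = (∑ k, m k • E k).coeff (unitsGens n u)`; `w p h = ∑ k, m k * tau h (push ψ (E k))
= ∑_{c ∈ C_n} (∑ k, m k • E k)(c) [ψ c conjugate to h]` (`tau_push`, `cset` in Local.lean), the
coefficients at non generators vanish, and the generators are the `ofAdd u`
(`ψ (ofAdd u) = ψ(gn)^(u.val)`).  Then normalise: `N = ∏ p ∈ n.primeFactors, Np p`,
`x p = (N / Np p) • ..` (as at the end of `exists_kappa`).  `uR` is `uRel` by definition. -/
def S_TKA : Prop := ∀ (n : ℕ) [NeZero n], ∃ (N : ℕ)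
  (x : ℕ → K0 (LaurentPolynomial (MonoidAlgebra ℤ (Multiplicative (ZMod n))))), 0 < N ∧
  LocN.{v} n N x

/-- The index set of the induced classes. -/
structure IdxM (G : Type v) [Group G] where
  /-- the order -/
  n : ℕ
  /-- the prime -/
  p : ℕ
  hn : 0 < n
  hp : p.Prime
  hpn : p ∣ n
  /-- the embedding -/
  φ : Multiplicative (ZMod n) →* G
  inj : Function.Injective φ

/-- KM_TRL (250 lines; ADAPTATION of `relation` of Lib_helper25/Main0.lean).  Relations between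
induced classes are respected by admissible functions.

PROOF.  `h_j = φ_j (gn)`, of order `n_j`.  `mk (∑ c_j φ_j* x_j) = 0`, so (`KNegOne.mk_eq_zero`,
`detection` of Detect.lean, `Triv.sum`, `Triv.zsmul`) there is `y : G → ℚ` with
`∑_j c_j w_j(q, h) = y h` for all `h` of finite order and primes `q ∣ orderOf h`.  `w_j(q,h) = 0` unless
`p_j = q` and `n_j = orderOf h`.  With `M_q(h; u) = ∑_{j : n_j = n, p_j = q} c_j [h_j^u ~ h]` for `h` of
order `n`, `q ∣ n`: `∑_u t(u) M_q(h;u) = y h`, so by the first part of `LocN`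
(*) `N n * ∑_{u ∈ class of z} M_q(h;u) = y h * |class of z|` for all units `z`.
Fix `h0` of order `n`; `W = {u : h0 ~ h0^u}`.  For `j` with `n_j = n` the number of `u` with
`h_j^u ~ h0` is `|W|` if `⟨h_j⟩` is conjugate to `⟨h0⟩` (`cz` in Main0.lean) and `0` otherwise, and for
such `u`: `h_j ~ h0^(u^-1)`, `L p h_j = L p (h0^(u^-1))` (`conj`).  So
`|W| ∑_{j : ⟨h_j⟩ ~ ⟨h0⟩} c_j L(p_j,h_j) = ∑_{q ∣ n} ∑_u L(q, h0^(u^-1)) M_q(h0;u)`.
`u ↦ L(q, h0^(u^-1))` is constant on the classes of `uR n q` (`frob`), so by (*) the inner sum is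
`∑_u L(q, h0^(u^-1)) y(h0)/N n`; the sum over `q` vanishes by `sum` (`sum_units_eq`).  Finally sum
over the conjugacy classes of cyclic subgroups.  Main0.lean does this for `L p h g` with an
additive variable `g` (`Pt G`, `mu`): here there is no `g`, `mu` becomes the indicator of
`IsConj`. -/
def S_TRL : Prop := ∀ {G : Type v} [Group G] (N : ℕ → ℕ)
  (x : ∀ n : ℕ, ℕ → K0 (LaurentPolynomial (MonoidAlgebra ℤ (Multiplicative (ZMod n))))),
  (∀ n, 0 < n → 0 < N n) → (∀ (n : ℕ) [NeZero n], LocN.{v} n (N n) (x n)) →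
  ∀ (L : ℕ → G → ℚ), AdmM L → ∀ c : IdxM G →₀ ℤ,
  (c.sum fun j m => m • Kg j.φ (KNegOne.mk (x j.n j.p))) = 0 →
  (c.sum fun j m => (m : ℚ) * L j.p (j.φ (gn j.n))) = 0

/-- The classes `κ` detect the admissible functions on the group `G`, with factors `ω`. -/
def DetG (κ : ∀ N : ℕ, ℕ → KNegOne (MonoidAlgebra ℤ (Multiplicative (ZMod N)))) (ω : ℕ → ℚ)
    (G : Type v) [Group G] : Prop :=
  ∀ (L : ℕ → G → ℚ), AdmM L → ∃ F : KNegOne (MonoidAlgebra ℤ G) →+ ℚ,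
    ∀ (N : ℕ), 1 < N → ∀ p : ℕ, p.Prime → p ∣ N → ∀ φ : Multiplicative (ZMod N) →* G,
      Function.Injective φ → F (Kg φ (κ N p)) = ω N * L p (φ (gn N))

/-- KM_TAV (180 lines; hypotheses `S_TKA`, `S_TRL`).  The universal classes of `K_{-1}`.

PROOF.  (1) Choose `N n`, `x n` from `S_TKA` (for `n > 0`), `κ0 n p = mk (x n p)`.  For an admissible `L` on
`G : Type v`: `S_TRL` and `exists_functional` (Lib_helper25/Final0.lean) for the family
`j : IdxM G`, `a j = Kg j.φ (κ0 j.n j.p)`, `b j = L j.p (j.φ gn)` give `F` with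
`F (Kg φ (κ0 N p)) = L p (φ gn)`.
(2) Averaging, `N > 1`.  `Tw w = Kg (pwr N w)`, `Tw w ∘ Tw w' = Tw (w w')`, and
`φ ∘ pwr N w` is injective with `(φ ∘ pwr N w) gn = (φ gn)^(w.val)`.  Let
`cl q = {w : uR N q w 1}` (a subgroup), `M = ∏ q ∈ N.primeFactors, |cl q|`,
`κ1 q = (M / |cl q|) • ∑ w ∈ cl q, Tw w (κ0 N q)`: then `Tw w (κ1 q) = κ1 q` for `w ∈ cl q` and
`F (Kg φ (κ1 q)) = M L q (φ gn)` by `frob` (`L q (h^w) = L q h` for `w ∈ cl q`).
Let `c = ∑ q ∈ N.primeFactors, ∑ w, Tw w (κ1 q)`; `Tw w c = c`; put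
`κ N q = (|units| * |N.primeFactors|) • κ1 q - c`.  Then `∑_q ∑_w Tw w (κ N q)
= |units| |PF| c - |PF| |units| c = 0`, `F (Kg φ c) = M ∑_q ∑_w L q (φ(gn)^w) = 0` by `sum`, and
`F (Kg φ (κ N q)) = |units| |PF| M L q (φ gn)`; `ω N = |units| |PF| M`.
(3) groups in `Type`: apply (1), (2) to `ULift.{v} G` and transport `F` with
`Kg (MulEquiv.ulift.symm)`; admissibility transports along the isomorphism. -/
def S_TAV : Prop := ∃ (κ : ∀ N : ℕ, ℕ → KNegOne (MonoidAlgebra ℤ (Multiplicative (ZMod N))))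
  (ω : ℕ → ℚ), (∀ N, 1 < N → ω N ≠ 0) ∧
  (∀ (N : ℕ) [NeZero N], 1 < N → ∀ p : ℕ, p.Prime → p ∣ N → ∀ w : (ZMod N)ˣ, uR N p w 1 →
    Kg (pwr N w) (κ N p) = κ N p) ∧
  (∀ (N : ℕ) [NeZero N], 1 < N → ∑ q ∈ N.primeFactors, ∑ w : (ZMod N)ˣ,
    Kg (pwr N w) (κ N q) = 0) ∧
  (∀ (G : Type v) [Group G], DetG κ ω G) ∧ (∀ (G : Type) [Group G], DetG κ ω G)

/-- KM_TLA (130 lines; no hypotheses).  Admissible functions on a cyclic group from local data.

PROOF.  For `h` in `C_N` of order `d` (so `d ∣ N`) the range of `φ d` is the unique subgroup of order `d`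
(`IsCyclic.card_pow_eq_one_le`-type uniqueness, or: both `range (φ d)` and `zpowers h` are the set of
elements with `x^d = 1`, which has at most `d` elements), so `h = φ d (ofAdd u)` for a unique unit
`u`.  `L p h = f d p u` if `p` is a prime factor of `d`, `0` otherwise.
`conj`: commutative.  `frob`: `zpowers h = zpowers h'` gives the same `d`; `h = φ d (ofAdd u)`,
`h' = φ d (ofAdd z)`, `h^(p^j) = h'^(p^k)` gives `u p^j = z p^k` in `ZMod d`, i.e. `uR d p u z`.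
`sum`: for `h = φ d (ofAdd u)` the elements `h^a`, `a < d` coprime to `d`, are the `φ d (ofAdd v)`, `v`
a unit, each once. -/
def S_TLA : Prop := ∀ (N : ℕ) [NeZero N]
  (φ : ∀ d : ℕ, Multiplicative (ZMod d) →* Multiplicative (ZMod N)),
  (∀ d, d ∣ N → Function.Injective (φ d)) → ∀ f : ∀ d : ℕ, ℕ → (ZMod d)ˣ → ℚ,
  (∀ (d p : ℕ) (u z : (ZMod d)ˣ), uR d p u z → f d p u = f d p z) →
  (∀ (d : ℕ) [NeZero d], 1 < d → d ∣ N → ∑ p ∈ d.primeFactors, ∑ u : (ZMod d)ˣ, f d p u = 0) →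
  ∃ L : ℕ → Multiplicative (ZMod N) → ℚ, AdmM L ∧ ∀ d, 1 < d → d ∣ N → ∀ p ∈ d.primeFactors,
    ∀ u : (ZMod d)ˣ, L p (φ d (Multiplicative.ofAdd (u : ZMod d))) = f d p u

/-- KM_TCY (200 lines; hypotheses `S_UB`, `S_TLA`).  Cyclic groups: the induced universal classes
generate `K_{-1}(ℤ[C_N])` rationally.

PROOF.  `V = (KNegOne ℤ[C_N] →+ ℚ)`; embeddings `φ d : C_d → C_N`, `gn ↦ gn^(N/d)` for `d ∣ N`.
`𝓛` = product over `d ∈ N.divisors.erase 1` of `𝓛_d`, `𝓛_d` = families `f_p : Quot (uR d p) → ℚ`,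
`p ∈ d.primeFactors`, with `∑_p ∑_{u unit} f_p [u] = 0`: the kernel of one linear form on a space of
dimension `∑_p nU d p`, so `finrank 𝓛_d ≥ (∑_p nU d p) - 1`.
Linear map `Ψ : V → ∏_d ∏_p ((ZMod d)ˣ → ℚ)`, `Ψ(F)(d,p,u) = F (Kg (φ d ∘ pwr d u) (κ d p))`.  For
`f ∈ 𝓛`: `S_TLA` and `DetG` give `F` with `Ψ(F)(d,p,u) = ω d * f_{d,p}[u]`.  So the range of `Ψ`
contains the image of `𝓛` under the injective linear map `f ↦ (ω d * f_{d,p} [u])`:
`finrank range Ψ ≥ ∑_d ((∑_p nU d p) - 1) ≥ rank V` (`S_UB`; `V` is finite dimensional).  So `Ψ` is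
injective (`LinearMap.finrank_range_add_finrank_ker`).  The hypothesis says `Ψ l = 0`. -/
def S_TCY : Prop := ∀ (κ : ∀ N : ℕ, ℕ → KNegOne (MonoidAlgebra ℤ (Multiplicative (ZMod N))))
  (ω : ℕ → ℚ), (∀ N, 1 < N → ω N ≠ 0) → (∀ (G : Type) [Group G], DetG κ ω G) →
  ∀ (N : ℕ) [NeZero N] (l : KNegOne (MonoidAlgebra ℤ (Multiplicative (ZMod N))) →+ ℚ),
  (∀ M : ℕ, 1 < M → ∀ p : ℕ, p.Prime → p ∣ M →
    ∀ φ : Multiplicative (ZMod M) →* Multiplicative (ZMod N), Function.Injective φ →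
      l (Kg φ (κ M p)) = 0) → l = 0

/-- KM_TFI (50 lines; hypotheses `S_TCY`, `StA_FIC.{u}`).  Finite groups.

PROOF.  For `ψ : C_N → H` injective the functional `l ∘ Kg ψ` on `KNegOne ℤ[C_N]` vanishes on all
`Kg φ (κ M p)` (`Kg_comp`, `ψ ∘ φ` injective), so it is `0` by `S_TCY`.  Then `StA_FIC`. -/
def S_TFI : Prop := ∀ (κ : ∀ N : ℕ, ℕ → KNegOne (MonoidAlgebra ℤ (Multiplicative (ZMod N))))
  (ω : ℕ → ℚ), (∀ N, 1 < N → ω N ≠ 0) → (∀ (G : Type) [Group G], DetG κ ω G) →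
  ∀ (H : Type u) [Group H] [Finite H] (l : KNegOne (MonoidAlgebra ℤ H) →+ ℚ),
  (∀ M : ℕ, 1 < M → ∀ p : ℕ, p.Prime → p ∣ M → ∀ φ : Multiplicative (ZMod M) →* H,
    Function.Injective φ → l (Kg φ (κ M p)) = 0) → l = 0

/-- KM_ZAD (130 lines; no hypotheses).  The admissible function of a functional on the source.

PROOF.  For `h` of finite order `N` let `φ_h : C_N → G`, `gn ↦ h` (`zmultiplesHom`/`ZMod.lift`; any
injective homomorphism with `φ_h gn = h`; unique).  Put `L p h = Λ (scl φ_h (κ N p)) / ω N` if `h` has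
finite order `N > 1` and `p` is a prime factor of `N`, and `0` otherwise.
For an injective `φ : C_N → G` with `φ gn = h`: `φ = φ_h` (homomorphisms from `C_N` are determined by
the value at `gn`).  `conj`: `φ_(x h x⁻¹) = conj_x ∘ φ_h`, `scl_conj`.  `frob`: `h' = h^(w.val)` for a
unit `w` of `ZMod N` (`zpowers h = zpowers h'`), `φ_h' = φ_h ∘ pwr N w`; `h^(p^j) = h^(w p^k)` gives
`uR N p w 1`; `scl_comp` and the invariance (κ1).  `sum`: `h^a` for `a < N` coprime to `N` is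
`φ_h (pwr N w gn)` for the unit `w` of `a`; the sum is
`Λ (scl φ_h (∑_q ∑_w Kg (pwr N w) (κ N q))) / ω N = 0` by (κ2) (`sum_units_eq` of
Lib_helper25/Main0.lean for the bijection). -/
def S_ZAD : Prop := ∀ (κ : ∀ N : ℕ, ℕ → KNegOne (MonoidAlgebra ℤ (Multiplicative (ZMod N))))
  (ω : ℕ → ℚ), (∀ N, 1 < N → ω N ≠ 0) →
  (∀ (N : ℕ) [NeZero N], 1 < N → ∀ p : ℕ, p.Prime → p ∣ N → ∀ w : (ZMod N)ˣ, uR N p w 1 →
    Kg (pwr N w) (κ N p) = κ N p) →
  (∀ (N : ℕ) [NeZero N], 1 < N → ∑ q ∈ N.primeFactors, ∑ w : (ZMod N)ˣ,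
    Kg (pwr N w) (κ N q) = 0) →
  ∀ {G : Type u} [Group G] (Λ : Src G →+ ℚ), ∃ L : ℕ → G → ℚ, AdmM L ∧
    ∀ (N : ℕ) [NeZero N], 1 < N → ∀ p : ℕ, p.Prime → p ∣ N → ∀ φ : Multiplicative (ZMod N) →* G,
      Function.Injective φ → ω N * L p (φ (gn N)) = Λ (scl φ (κ N p))

/-- KM_ZEX (60 lines; hypotheses `S_TAV.{u}`, `S_TFI.{u}`, `S_ZAD.{u}`).  Every functional on the source
extends to `K_{-1}(ℤ[G])`.

PROOF.  `κ, ω` from `S_TAV`; `L` from `S_ZAD`; `F` from `DetG κ ω G`.  For a finite subgroup `H` the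
functional `l x = F (Kg H.subtype x) - Λ (Src.of H x)` on `KNegOne ℤ[H]` vanishes on
`Kg φ (κ M p)`, `φ : C_M → H` injective: `F (Kg (H.subtype ∘ φ) κ) = ω M * L p (..) = Λ (scl (H.subtype ∘ φ) κ)
= Λ (scl H.subtype (Kg φ κ)) = Λ (Src.of H (Kg φ κ))` (`scl_comp`, `scl_subtype`).  `S_TFI`: `l = 0`.
So `F ∘ asm = Λ` by `Src.hom_ext`, `asm_of`. -/
def S_ZEX : Prop := ∀ (G : Type u) [Group G] (Λ : Src G →+ ℚ),
  ∃ F : KNegOne (MonoidAlgebra ℤ G) →+ ℚ, ∀ s : Src G, F (asm G s) = Λ s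

/-- KM_ZIN (60 lines; hypothesis `S_ZEX.{u}`).  **The theorem**: for every group `G` the kernel of
`colim_{H finite} K_{-1}(ℤ[H]) → K_{-1}(ℤ[G])` is a torsion group.

PROOF.  Let `asm s = 0` and suppose `n • s ≠ 0` for all `n > 0`.  `exists_functional`
(Lib_helper25/Final0.lean) for the one element family `a = s`, `b = 1` gives `Λ : Src G →+ ℚ` with
`Λ s = 1` (a relation `m • s = 0` forces `m = 0`).  `S_ZEX`: `1 = Λ s = F (asm s) = 0`. -/
def S_ZIN : Prop := ∀ (G : Type u) [Group G] (s : Src G), asm G s = 0 →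
  ∃ n : ℕ, 0 < n ∧ n • s = 0

end Pool.Agent.KM
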