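import Pool.Agent.KM.Defs

/-!
# Matrix valued ring homomorphisms and K-theory: definitions for block A (Artin induction)

* `blow θ e` : the matrix obtained from a matrix `e` over `R` and a ring homomorphism
  `θ : R →+* Matrix k k S` by replacing the entries by their images.
* `K0m θ : K0 R →+ K0 S`, `cl e ↦ cl (blow θ e)`.
* `lau θ : R[T;T⁻¹] →+* Matrix k k S[T;T⁻¹]`, `pol θ : R[X] →+* Matrix k k S[X]`.
* `Kn θ : KNegOne R →+ KNegOne S`.
* `tw ρ : ℤ[H] →+* Matrix k k ℤ[H]` for `ρ : H →* Matrix k k ℤ`, `h ↦ ρ(h) h`.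
* `Op ρ : KNegOne ℤ[H] →+ KNegOne ℤ[H]`.
-/

set_option autoImplicit false
set_option linter.unusedSectionVars false

open Matrix Polynomial Pool.Agent.Lib25

noncomputable section

namespace Pool.Agent.KM

universe u v w

section Blow

variable {R : Type u} {S : Type v} [Ring R] [Ring S] {k : Type*} [Fintype k] [DecidableEq k]

/-- The matrix over `S` obtained from the matrix `e` over `R` by replacing every entry `r` by the
matrix `θ r`. -/
def blow (θ : R →+* Matrix k k S) {m n : Type*} (e : Matrix m n R) : Matrix (m × k) (n × k) S :=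
  Matrix.of fun i j => θ (e i.1 j.1) i.2 j.2

theorem blow_apply (θ : R →+* Matrix k k S) {m n : Type*} (e : Matrix m n R) (i : m × k)
    (j : n × k) : blow θ e i j = θ (e i.1 j.1) i.2 j.2 := rfl

theorem blow_mul (θ : R →+* Matrix k k S) {l m n : Type*} [Fintype m] (x : Matrix l m R)
    (y : Matrix m n R) : blow θ (x * y) = blow θ x * blow θ y := by
  ext i j
  rw [blow_apply, Matrix.mul_apply, Matrix.mul_apply, map_sum, Matrix.sum_apply,
    Fintype.sum_prod_type]
  refine Finset.sum_congr rfl fun a _ => ?_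
  rw [map_mul, Matrix.mul_apply]
  rfl

theorem blow_one (θ : R →+* Matrix k k S) {m : Type*} [DecidableEq m] :
    blow θ (1 : Matrix m m R) = 1 := by
  ext i j
  obtain ⟨i, a⟩ := i
  obtain ⟨j, b⟩ := j
  rw [blow_apply, Matrix.one_apply, Matrix.one_apply]
  dsimp only
  by_cases h : i = j
  · subst h
    rw [if_pos rfl, map_one, Matrix.one_apply]
    by_cases h2 : a = b
    · subst h2
      rw [if_pos rfl, if_pos rfl]
    · rw [if_neg h2, if_neg (fun h3 => h2 (Prod.mk.inj h3).2)]
  · rw [if_neg h, map_zero, if_neg (fun h3 => h (Prod.mk.inj h3).1)]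
    rfl

theorem blow_idem (θ : R →+* Matrix k k S) {m : Type*} [Fintype m] {e : Matrix m m R}
    (he : e * e = e) : blow θ e * blow θ e = blow θ e := by
  rw [← blow_mul, he]

theorem blow_mvn (θ : R →+* Matrix k k S) {m n : Type*} [Fintype m] [Fintype n]
    {e : Matrix m m R} {f : Matrix n n R} (h : MvN e f) : MvN (blow θ e) (blow θ f) := by
  obtain ⟨x, y, h1, h2⟩ := h
  exact ⟨blow θ x, blow θ y, by rw [← blow_mul, h1], by rw [← blow_mul, h2]⟩

theorem blow_fromBlocks (θ : R →+* Matrix k k S) {m n : Type*}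
    (e : Matrix m m R) (f : Matrix n n R) :
    (blow θ (Matrix.fromBlocks e 0 0 f)).submatrix (Equiv.sumProdDistrib m n k).symm
      (Equiv.sumProdDistrib m n k).symm = Matrix.fromBlocks (blow θ e) 0 0 (blow θ f) := by
  ext i j
  rcases i with ⟨i, a⟩ | ⟨i, a⟩ <;> rcases j with ⟨j, b⟩ | ⟨j, b⟩ <;>
    simp [blow_apply, Equiv.sumProdDistrib]

/-- The map `K₀(R) → K₀(S)` induced by a ring homomorphism `R → Matrix k k S`. -/
def K0m (θ : R →+* Matrix k k S) : K0 R →+ K0 S :=
  Algebra.GrothendieckAddGroup.lift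
    { toFun := Quotient.lift (fun e : IdemMat R => cl (blow θ e.mat) (blow_idem θ e.idem))
        (fun e f h => cl_congr _ _ (blow_mvn θ h))
      map_zero' := by
        change cl (blow θ (IdemMat.zero R).mat) _ = 0
        have h1 := cl_one (R := S) (ι := Fin 0 × k)
        have h2 : one S (Fintype.card (Fin 0 × k)) = 0 := by
          have h3 : Fintype.card (Fin 0 × k) = 0 := by simp
          rw [h3]
          have h4 := one_add (R := S) 0 0
          simpa using h4
        rw [h2] at h1
        rw [← h1]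
        congr 1
        ext i j
        exact i.1.elim0
      map_add' := by
        rintro ⟨e⟩ ⟨f⟩
        change cl (blow θ (IdemMat.add e f).mat) _ =
          cl (blow θ e.mat) _ + cl (blow θ f.mat) _
        rw [← cl_blocks]
        refine cl_congr _ _ ?_
        have h1 : MvN (blow θ (Matrix.fromBlocks e.mat 0 0 f.mat)) (blow θ (e.add f).mat) :=
          blow_mvn θ (IdemMat.add_equiv_blocks e f)
        have h2 := MvN.submatrix (blow_idem θ (idem_fromBlocks e.idem f.idem))
          (Equiv.sumProdDistrib (Fin e.n) (Fin f.n) k).symm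
        rw [blow_fromBlocks] at h2
        exact h1.symm.trans (blow_idem θ (e.add f).idem)
          (idem_fromBlocks (blow_idem θ e.idem) (blow_idem θ f.idem)) h2 }

theorem K0m_of (θ : R →+* Matrix k k S) (e : IdemMat R) :
    K0m θ (K0.of e) = cl (blow θ e.mat) (blow_idem θ e.idem) := by
  unfold K0m K0.of
  exact congrArg (fun F => F (IdemClass.mk e)) ((Algebra.GrothendieckAddGroup.lift
    (M := IdemClass R) (G := K0 S)).symm_apply_apply _)

theorem K0m_cl (θ : R →+* Matrix k k S) {ι : Type*} [Fintype ι] {e : Matrix ι ι R}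
    (he : e * e = e) : K0m θ (cl e he) = cl (blow θ e) (blow_idem θ he) := by
  unfold cl
  rw [K0m_of]
  exact cl_congr _ _ (blow_mvn θ (IM_mvn e he)).symm

/-- Two homomorphisms from `K₀(R)` which agree on the classes of idempotent matrices are equal. -/
theorem K0_hom_ext {A : Type*} [AddCommGroup A] {f g : K0 R →+ A}
    (h : ∀ (n : ℕ) (e : Matrix (Fin n) (Fin n) R) (he : e * e = e), f (cl e he) = g (cl e he)) :
    f = g := by
  ext x
  obtain ⟨e, e', rfl⟩ := K0.exists_sub x
  rw [map_sub, map_sub, of_eq_cl, of_eq_cl, h, h]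

theorem K0_map_eq_cl {S' : Type w} [Ring S'] (φ : R →+* S') {ι : Type*} [Fintype ι]
    {e : Matrix ι ι R} (he : e * e = e) :
    K0.map φ (cl e he) = cl (e.map φ) (by rw [← Matrix.map_mul, he]) := map_cl φ he

end Blow

section Ext

variable {R : Type u} {S : Type v} [Ring R] [Ring S] {k : Type*} [Fintype k] [DecidableEq k]

/-- The scalar matrices `T ^ n`. -/
def lauT (S : Type v) [Ring S] (k : Type*) [Fintype k] [DecidableEq k] :
    Multiplicative ℤ →* Matrix k k (LaurentPolynomial S) where
  toFun n := Matrix.diagonal fun _ => LaurentPolynomial.T (Multiplicative.toAdd n)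
  map_one' := by
    rw [toAdd_one, LaurentPolynomial.T_zero, Matrix.diagonal_one]
  map_mul' a b := by
    rw [Matrix.diagonal_mul_diagonal, toAdd_mul]
    simp only [LaurentPolynomial.T_add]

theorem lau_comm (θ : R →+* Matrix k k S) (x : R) (n : Multiplicative ℤ) :
    Commute (((LaurentPolynomial.C : S →+* LaurentPolynomial S).mapMatrix.comp θ) x)
      (lauT S k n) := by
  have h : (θ x).map (LaurentPolynomial.C : S →+* LaurentPolynomial S) *
      (Matrix.diagonal fun _ : k => LaurentPolynomial.T (Multiplicative.toAdd n)) =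
      (Matrix.diagonal fun _ : k => LaurentPolynomial.T (Multiplicative.toAdd n)) *
      (θ x).map (LaurentPolynomial.C : S →+* LaurentPolynomial S) := by
    refine Matrix.ext fun i j => ?_
    rw [Matrix.mul_diagonal, Matrix.diagonal_mul, Matrix.map_apply]
    exact (LaurentPolynomial.commute_T _ _).symm
  exact h

/-- The extension of `θ : R → Matrix k k S` to the Laurent polynomials (`T ↦ T`). -/
def lau (θ : R →+* Matrix k k S) : LaurentPolynomial R →+* Matrix k k (LaurentPolynomial S) :=
  AddMonoidAlgebra.liftNCRingHom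
    ((LaurentPolynomial.C : S →+* LaurentPolynomial S).mapMatrix.comp θ) (lauT S k) (lau_comm θ)

theorem lau_single (θ : R →+* Matrix k k S) (n : ℤ) (r : R) (a b : k) :
    lau θ (AddMonoidAlgebra.single n r) a b = AddMonoidAlgebra.single n (θ r a b) := by
  have h := AddMonoidAlgebra.liftNCRingHom_single
    ((LaurentPolynomial.C : S →+* LaurentPolynomial S).mapMatrix.comp θ) (lauT S k) (lau_comm θ)
    n r
  have h2 : lau θ (AddMonoidAlgebra.single n r) =
    (θ r).map (LaurentPolynomial.C : S →+* LaurentPolynomial S) *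
      (Matrix.diagonal fun _ => LaurentPolynomial.T n) := h
  rw [h2, Matrix.mul_diagonal, Matrix.map_apply, LaurentPolynomial.single_eq_C_mul_T]

theorem pol_comm (θ : R →+* Matrix k k S) (x : R) :
    Commute (((Polynomial.C : S →+* S[X]).mapMatrix.comp θ) x)
      (Matrix.diagonal fun _ : k => (X : S[X])) := by
  have h : (θ x).map (Polynomial.C : S →+* S[X]) * (Matrix.diagonal fun _ : k => (X : S[X])) =
      (Matrix.diagonal fun _ : k => (X : S[X])) * (θ x).map (Polynomial.C : S →+* S[X]) := by
    refine Matrix.ext fun i j => ?_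
    rw [Matrix.mul_diagonal, Matrix.diagonal_mul, Matrix.map_apply, Polynomial.X_mul]
  exact h

/-- The extension of `θ : R → Matrix k k S` to the polynomials (`X ↦ X`). -/
def pol (θ : R →+* Matrix k k S) : R[X] →+* Matrix k k S[X] :=
  Polynomial.eval₂RingHom' ((Polynomial.C : S →+* S[X]).mapMatrix.comp θ)
    (Matrix.diagonal fun _ => (X : S[X])) (pol_comm θ)

theorem pol_monomial (θ : R →+* Matrix k k S) (n : ℕ) (r : R) (a b : k) :
    pol θ (Polynomial.monomial n r) a b = Polynomial.monomial n (θ r a b) := by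
  have h : pol θ (Polynomial.monomial n r) =
      ((Polynomial.C : S →+* S[X]).mapMatrix.comp θ) r *
        (Matrix.diagonal fun _ : k => (X : S[X])) ^ n := Polynomial.eval₂_monomial _ _
  have h2 : pol θ (Polynomial.monomial n r) = (θ r).map (Polynomial.C : S →+* S[X]) *
      (Matrix.diagonal ((fun _ : k => (X : S[X])) ^ n)) := by
    rw [h, Matrix.diagonal_pow]
    rfl
  rw [h2, Matrix.mul_diagonal, Matrix.map_apply, Pi.pow_apply, Polynomial.C_mul_X_pow_eq_monomial]

theorem lau_posIncl (θ : R →+* Matrix k k S) (f : R[X]) :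
    lau θ (posIncl R f) = (pol θ f).map (posIncl S) := by
  induction f using Polynomial.induction_on' with
  | add f g hf hg =>
    rw [map_add, map_add, hf, hg, map_add]
    ext a b
    simp
  | monomial n r =>
    ext a b : 2
    rw [posIncl_monomial, lau_single, Matrix.map_apply, pol_monomial, posIncl_monomial]

theorem lau_negIncl (θ : R →+* Matrix k k S) (f : R[X]) :
    lau θ (negIncl R f) = (pol θ f).map (negIncl S) := by
  induction f using Polynomial.induction_on' with
  | add f g hf hg =>
    rw [map_add, map_add, hf, hg, map_add]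
    ext a b
    simp
  | monomial n r =>
    ext a b : 2
    rw [negIncl, RingHom.comp_apply, posIncl_monomial, flipT_single, lau_single, Matrix.map_apply,
      pol_monomial, negIncl, RingHom.comp_apply, posIncl_monomial, flipT_single]

theorem K0m_posIncl (θ : R →+* Matrix k k S) (x : K0 R[X]) :
    K0m (lau θ) (K0.map (posIncl R) x) = K0.map (posIncl S) (K0m (pol θ) x) := by
  have h : (K0m (lau θ)).comp (K0.map (posIncl R)) =
      (K0.map (posIncl S)).comp (K0m (pol θ)) := by
    refine K0_hom_ext fun n e he => ?_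
    rw [AddMonoidHom.comp_apply, AddMonoidHom.comp_apply, map_cl, K0m_cl, K0m_cl, map_cl]
    congr 1
    ext i j : 2
    rw [blow_apply, Matrix.map_apply, lau_posIncl, Matrix.map_apply, Matrix.map_apply, blow_apply]
  exact DFunLike.congr_fun h x

theorem K0m_negIncl (θ : R →+* Matrix k k S) (x : K0 R[X]) :
    K0m (lau θ) (K0.map (negIncl R) x) = K0.map (negIncl S) (K0m (pol θ) x) := by
  have h : (K0m (lau θ)).comp (K0.map (negIncl R)) =
      (K0.map (negIncl S)).comp (K0m (pol θ)) := by
    refine K0_hom_ext fun n e he => ?_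
    rw [AddMonoidHom.comp_apply, AddMonoidHom.comp_apply, map_cl, K0m_cl, K0m_cl, map_cl]
    congr 1
    ext i j : 2
    rw [blow_apply, Matrix.map_apply, lau_negIncl, Matrix.map_apply, Matrix.map_apply, blow_apply]
  exact DFunLike.congr_fun h x

theorem extImage_le (θ : R →+* Matrix k k S) :
    extImage R ≤ (extImage S).comap (K0m (lau θ)) := by
  unfold extImage
  rw [sup_le_iff]
  constructor
  · rintro _ ⟨x, rfl⟩
    rw [AddSubgroup.mem_comap, K0m_posIncl]
    exact AddSubgroup.mem_sup_left ⟨_, rfl⟩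
  · rintro _ ⟨x, rfl⟩
    rw [AddSubgroup.mem_comap, K0m_negIncl]
    exact AddSubgroup.mem_sup_right ⟨_, rfl⟩

/-- The map `K_{-1}(R) → K_{-1}(S)` induced by a ring homomorphism `R → Matrix k k S`. -/
def Kn (θ : R →+* Matrix k k S) : KNegOne R →+ KNegOne S :=
  QuotientAddGroup.map (extImage R) (extImage S) (K0m (lau θ)) (extImage_le θ)

theorem Kn_mk (θ : R →+* Matrix k k S) (x : K0 (LaurentPolynomial R)) :
    Kn θ (KNegOne.mk x) = KNegOne.mk (K0m (lau θ) x) := rfl

theorem KNegOne_mk_surjective (x : KNegOne R) : ∃ y, KNegOne.mk y = x :=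
  QuotientAddGroup.mk'_surjective _ x

/-- Two homomorphisms from `K_{-1}(R)` which agree on the classes of idempotent matrices over
`R[T;T⁻¹]` are equal. -/
theorem KNegOne_hom_ext {A : Type*} [AddCommGroup A] {f g : KNegOne R →+ A}
    (h : ∀ (n : ℕ) (e : Matrix (Fin n) (Fin n) (LaurentPolynomial R)) (he : e * e = e),
      f (ngo e he) = g (ngo e he)) : f = g := by
  have h1 : f.comp KNegOne.mk = g.comp KNegOne.mk := K0_hom_ext h
  ext x
  obtain ⟨y, rfl⟩ := KNegOne_mk_surjective x
  exact DFunLike.congr_fun h1 y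

theorem Kn_ngo (θ : R →+* Matrix k k S) {ι : Type*} [Fintype ι]
    {e : Matrix ι ι (LaurentPolynomial R)} (he : e * e = e) :
    Kn θ (ngo e he) = ngo (blow (lau θ) e) (blow_idem _ he) := by
  unfold ngo
  rw [Kn_mk, K0m_cl]

theorem map_ngo {S' : Type w} [Ring S'] (φ : R →+* S') {ι : Type*} [Fintype ι]
    {e : Matrix ι ι (LaurentPolynomial R)} (he : e * e = e) :
    KNegOne.map φ (ngo e he) = ngo (e.map (mapL φ)) (by rw [← Matrix.map_mul, he]) := by
  unfold ngo
  rw [KNegOne.map_mk, map_cl]

theorem ngo_congr {ι κ : Type*} [Fintype ι] [Fintype κ] {e : Matrix ι ι (LaurentPolynomial R)}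
    {f : Matrix κ κ (LaurentPolynomial R)} (he : e * e = e) (hf : f * f = f) (h : MvN e f) :
    ngo e he = ngo f hf := by
  unfold ngo
  rw [cl_congr he hf h]

theorem ngo_blocks {ι κ : Type*} [Fintype ι] [Fintype κ] {e : Matrix ι ι (LaurentPolynomial R)}
    {f : Matrix κ κ (LaurentPolynomial R)} (he : e * e = e) (hf : f * f = f) :
    ngo (Matrix.fromBlocks e 0 0 f) (idem_fromBlocks he hf) = ngo e he + ngo f hf := by
  unfold ngo
  rw [cl_blocks he hf, map_add]

end Ext

section Tw

variable {H : Type u} [Group H] {k l : Type*} [Fintype k] [DecidableEq k] [Fintype l]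
  [DecidableEq l]

/-- The homomorphism `h ↦ ρ(h) h`. -/
def twHom (ρ : H →* Matrix k k ℤ) : H →* Matrix k k (MonoidAlgebra ℤ H) where
  toFun h := Matrix.of fun a b => MonoidAlgebra.single h (ρ h a b)
  map_one' := by
    refine Matrix.ext fun a b => ?_
    rw [Matrix.of_apply, map_one, Matrix.one_apply, Matrix.one_apply]
    by_cases hab : a = b
    · rw [if_pos hab, if_pos hab]
      rfl
    · rw [if_neg hab, if_neg hab]
      exact MonoidAlgebra.single_zero _
  map_mul' x y := by
    refine Matrix.ext fun a b => ?_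
    rw [Matrix.mul_apply]
    simp only [Matrix.of_apply, MonoidAlgebra.single_mul_single]
    rw [map_mul, Matrix.mul_apply]
    exact (map_sum (MonoidAlgebra.singleAddHom (x * y)) (fun j => ρ x a j * ρ y j b) Finset.univ)

theorem tw_comm (ρ : H →* Matrix k k ℤ) (n : ℤ) (h : H) :
    Commute (Int.castRingHom (Matrix k k (MonoidAlgebra ℤ H)) n) (twHom ρ h) :=
  Int.cast_commute n _

/-- The ring homomorphism `ℤ[H] → Matrix k k ℤ[H]`, `h ↦ ρ(h) h`, for a representation `ρ` of `H`
by integral matrices. -/
def tw (ρ : H →* Matrix k k ℤ) : MonoidAlgebra ℤ H →+* Matrix k k (MonoidAlgebra ℤ H) :=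
  MonoidAlgebra.liftNCRingHom (Int.castRingHom (Matrix k k (MonoidAlgebra ℤ H))) (twHom ρ)
    (tw_comm ρ)

theorem tw_single (ρ : H →* Matrix k k ℤ) (h : H) (n : ℤ) (a b : k) :
    tw ρ (MonoidAlgebra.single h n) a b = MonoidAlgebra.single h (n * ρ h a b) := by
  have h1 : tw ρ (MonoidAlgebra.single h n) =
      Int.castRingHom (Matrix k k (MonoidAlgebra ℤ H)) n * twHom ρ h :=
    MonoidAlgebra.liftNCRingHom_single _ _ _ h n
  have h2 : tw ρ (MonoidAlgebra.single h n) = n • twHom ρ h := by
    rw [h1, zsmul_eq_mul]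
    rfl
  rw [h2, Matrix.smul_apply]
  change n • MonoidAlgebra.single h (ρ h a b) = _
  rw [MonoidAlgebra.smul_single, smul_eq_mul]

/-- The action of a representation of `H` by integral matrices on `K_{-1}(ℤ[H])`. -/
def Op (ρ : H →* Matrix k k ℤ) : AddMonoid.End (KNegOne (MonoidAlgebra ℤ H)) := Kn (tw ρ)

/-- The tensor product of two representations. -/
def kron (ρ : H →* Matrix k k ℤ) (σ : H →* Matrix l l ℤ) : H →* Matrix (k × l) (k × l) ℤ where
  toFun h := Matrix.kroneckerMap (· * ·) (ρ h) (σ h)
  map_one' := by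
    rw [map_one, map_one]
    exact Matrix.one_kronecker_one
  map_mul' x y := by
    rw [map_mul, map_mul]
    exact Matrix.mul_kronecker_mul _ _ _ _

/-- `Via ρ d ρ'` : `ρ D = D ρ'` for the diagonal matrix `D` with the positive entries `d`. -/
structure Via (ρ : H →* Matrix k k ℤ) (d : k → ℕ) (ρ' : H →* Matrix k k ℤ) : Prop where
  pos : ∀ i, 0 < d i
  eq : ∀ h i j, ρ h i j * (d j : ℤ) = (d i : ℤ) * ρ' h i j

end Tw

end Pool.Agent.KM
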