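import Pool.Agent.KM.ADefs

/-!
# Lattices in a representation: lemmas on `Via`
-/

set_option autoImplicit false
set_option linter.unusedSectionVars false

open Matrix Pool.Agent.Lib25

namespace Pool.Agent.KM

universe u

variable {H : Type u} [Group H] {k l : Type*} [Fintype k] [DecidableEq k] [Fintype l]
  [DecidableEq l]

theorem Via.unique {ρ ρ₁ ρ₂ : H →* Matrix k k ℤ} {d : k → ℕ} (h1 : Via ρ d ρ₁)
    (h2 : Via ρ d ρ₂) : ρ₁ = ρ₂ := by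
  ext h i j
  have h3 : (d i : ℤ) * ρ₁ h i j = (d i : ℤ) * ρ₂ h i j := by
    rw [← h1.eq h i j, ← h2.eq h i j]
  have h4 : (d i : ℤ) ≠ 0 := by
    have := h1.pos i
    positivity
  exact mul_left_cancel₀ h4 h3

theorem Via.mul {ρ ρ' ρ'' : H →* Matrix k k ℤ} {d e : k → ℕ} (h1 : Via ρ d ρ')
    (h2 : Via ρ' e ρ'') : Via ρ (fun i => d i * e i) ρ'' where
  pos i := Nat.mul_pos (h1.pos i) (h2.pos i)
  eq h i j := by
    push_cast
    calc ρ h i j * ((d j : ℤ) * e j) = (ρ h i j * d j) * e j := by ring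
      _ = d i * (ρ' h i j * e j) := by rw [h1.eq h i j]; ring
      _ = d i * e i * ρ'' h i j := by rw [h2.eq h i j]; ring

theorem Via.div {ρ ρ' ρ'' : H →* Matrix k k ℤ} {d e : k → ℕ}
    (h1 : Via ρ (fun i => d i * e i) ρ'') (h2 : Via ρ d ρ') : Via ρ' e ρ'' where
  pos i := Nat.pos_of_mul_pos_left (h1.pos i)
  eq h i j := by
    have h3 : (d i : ℤ) ≠ 0 := by
      have := h2.pos i
      positivity
    apply mul_left_cancel₀ h3
    have h4 := h1.eq h i j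
    push_cast at h4
    calc (d i : ℤ) * (ρ' h i j * e j) = (d i * ρ' h i j) * e j := by ring
      _ = ρ h i j * d j * e j := by rw [h2.eq h i j]
      _ = ρ h i j * (d j * e j) := by ring
      _ = d i * (e i * ρ'' h i j) := by rw [h4]; ring

theorem Via.const (ρ : H →* Matrix k k ℤ) {c : ℕ} (hc : 0 < c) : Via ρ (fun _ => c) ρ where
  pos _ := hc
  eq h i j := by ring

theorem Via.kron_right (ρ : H →* Matrix k k ℤ) {σ σ' : H →* Matrix l l ℤ} {e : l → ℕ}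
    (h1 : Via σ e σ') : Via (kron ρ σ) (fun x => e x.2) (kron ρ σ') where
  pos x := h1.pos x.2
  eq h i j := by
    change ρ h i.1 j.1 * σ h i.2 j.2 * (e j.2 : ℤ) = (e i.2 : ℤ) * (ρ h i.1 j.1 * σ' h i.2 j.2)
    rw [mul_assoc, h1.eq h i.2 j.2]
    ring

theorem Via.kron_left {ρ ρ' : H →* Matrix k k ℤ} (σ : H →* Matrix l l ℤ) {d : k → ℕ}
    (h1 : Via ρ d ρ') : Via (kron ρ σ) (fun x => d x.1) (kron ρ' σ) where
  pos x := h1.pos x.1
  eq h i j := by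
    change ρ h i.1 j.1 * σ h i.2 j.2 * (d j.1 : ℤ) = (d i.1 : ℤ) * (ρ' h i.1 j.1 * σ h i.2 j.2)
    calc ρ h i.1 j.1 * σ h i.2 j.2 * (d j.1 : ℤ) = (ρ h i.1 j.1 * d j.1) * σ h i.2 j.2 := by ring
      _ = _ := by rw [h1.eq h i.1 j.1]; ring

/-- Existence of the representation on the lattice `D ℤ^k`. -/
theorem Via.exists_of (τ : H →* Matrix k k ℤ) {d : k → ℕ} (hd : ∀ i, 0 < d i)
    (h : ∀ h i j, (d i : ℤ) ∣ τ h i j * (d j : ℤ)) : ∃ ρ : H →* Matrix k k ℤ, Via τ d ρ := by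
  have hd' : ∀ i, (d i : ℤ) ≠ 0 := fun i => by
    have := hd i
    positivity
  let r : H → Matrix k k ℤ := fun x => Matrix.of fun i j => τ x i j * (d j : ℤ) / (d i : ℤ)
  have hr : ∀ x i j, τ x i j * (d j : ℤ) = (d i : ℤ) * r x i j := by
    intro x i j
    exact (Int.mul_ediv_cancel' (h x i j)).symm
  refine ⟨{ toFun := r, map_one' := ?_, map_mul' := ?_ }, hd, hr⟩
  · refine Matrix.ext fun i j => ?_
    apply mul_left_cancel₀ (hd' i)
    rw [← hr, map_one, Matrix.one_apply]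
    by_cases hij : i = j
    · subst hij
      rw [if_pos rfl]
      ring
    · rw [if_neg hij]
      ring
  · intro x y
    refine Matrix.ext fun i j => ?_
    apply mul_left_cancel₀ (hd' i)
    rw [← hr, map_mul, Matrix.mul_apply, Matrix.mul_apply, Finset.mul_sum, Finset.sum_mul]
    refine Finset.sum_congr rfl fun a _ => ?_
    calc τ x i a * τ y a j * (d j : ℤ) = τ x i a * (τ y a j * (d j : ℤ)) := by ring
      _ = (τ x i a * d a) * r y a j := by rw [hr y a j]; ring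
      _ = (d i : ℤ) * (r x i a * r y a j) := by rw [hr x i a]; ring

/-- The sum of two lattices. -/
theorem Via.exists_gcd {τ τ₁ τ₂ : H →* Matrix k k ℤ} {d₁ d₂ : k → ℕ} (h1 : Via τ d₁ τ₁)
    (h2 : Via τ d₂ τ₂) : ∃ τG : H →* Matrix k k ℤ, Via τ (fun i => Nat.gcd (d₁ i) (d₂ i)) τG := by
  refine Via.exists_of τ (fun i => Nat.gcd_pos_of_pos_left _ (h1.pos i)) fun h i j => ?_
  have h3 : ((Nat.gcd (d₁ j) (d₂ j) : ℕ) : ℤ) =
      (d₁ j : ℤ) * Nat.gcdA (d₁ j) (d₂ j) + (d₂ j : ℤ) * Nat.gcdB (d₁ j) (d₂ j) :=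
    Nat.gcd_eq_gcd_ab _ _
  have h4 : ((Nat.gcd (d₁ i) (d₂ i) : ℕ) : ℤ) ∣ (d₁ i : ℤ) :=
    Int.natCast_dvd_natCast.2 (Nat.gcd_dvd_left _ _)
  have h5 : ((Nat.gcd (d₁ i) (d₂ i) : ℕ) : ℤ) ∣ (d₂ i : ℤ) :=
    Int.natCast_dvd_natCast.2 (Nat.gcd_dvd_right _ _)
  rw [h3, mul_add, ← mul_assoc, ← mul_assoc, h1.eq h i j, h2.eq h i j, mul_assoc, mul_assoc]
  exact dvd_add (h4.mul_right _) (h5.mul_right _)

/-- The intersection of two lattices. -/
theorem Via.exists_lcm {τ τ₁ τ₂ : H →* Matrix k k ℤ} {d₁ d₂ : k → ℕ} (h1 : Via τ d₁ τ₁)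
    (h2 : Via τ d₂ τ₂) : ∃ τL : H →* Matrix k k ℤ, Via τ (fun i => Nat.lcm (d₁ i) (d₂ i)) τL := by
  refine Via.exists_of τ (fun i => Nat.lcm_pos (h1.pos i) (h2.pos i)) fun h i j => ?_
  have h4 : (d₁ j : ℤ) ∣ ((Nat.lcm (d₁ j) (d₂ j) : ℕ) : ℤ) :=
    Int.natCast_dvd_natCast.2 (Nat.dvd_lcm_left _ _)
  have h5 : (d₂ j : ℤ) ∣ ((Nat.lcm (d₁ j) (d₂ j) : ℕ) : ℤ) :=
    Int.natCast_dvd_natCast.2 (Nat.dvd_lcm_right _ _)
  obtain ⟨a, ha⟩ := h4
  obtain ⟨b, hb⟩ := h5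
  have h6 : (d₁ i : ℤ) ∣ τ h i j * ((Nat.lcm (d₁ j) (d₂ j) : ℕ) : ℤ) := by
    rw [ha, ← mul_assoc, h1.eq h i j, mul_assoc]
    exact dvd_mul_right _ _
  have h7 : (d₂ i : ℤ) ∣ τ h i j * ((Nat.lcm (d₁ j) (d₂ j) : ℕ) : ℤ) := by
    rw [hb, ← mul_assoc, h2.eq h i j, mul_assoc]
    exact dvd_mul_right _ _
  have h8 := Int.coe_lcm_dvd h6 h7
  exact h8

end Pool.Agent.KM
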