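import Pool.Agent.KM.StA

/-!
# Artin's theorem for permutation characters (KMA_ART)
-/

set_option autoImplicit false
set_option linter.unusedSectionVars false

open Matrix Polynomial Pool.Agent.Lib25

noncomputable section

namespace Pool.Agent.KM

universe u

section A_ART

variable {H : Type u} [Group H]

/-- The permutation character on `H / C`. -/
def A_ART_pi (C : Subgroup H) (h : H) : ℤ := (Nat.card {x : H ⧸ C // h • x = x} : ℤ)

theorem A_ART_fix (C : Subgroup H) (h y : H) :
    h • (y : H ⧸ C) = (y : H ⧸ C) ↔ y⁻¹ * h * y ∈ C := by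
  rw [MulAction.Quotient.smul_coe, QuotientGroup.eq, smul_eq_mul, ← C.inv_mem_iff]
  have h1 : ((h * y)⁻¹ * y)⁻¹ = y⁻¹ * h * y := by group
  rw [h1]

variable [Fintype H]

open Classical in
/-- The number of the `y` for which `y⁻¹ h y` generates `C`. -/
def A_ART_F (C : Subgroup H) (h : H) : ℤ :=
  ((Finset.univ.filter fun y : H => Subgroup.zpowers (y⁻¹ * h * y) = C).card : ℤ)

open Classical in
theorem A_ART_count (C : Subgroup H) (h : H) : (Nat.card C : ℤ) * A_ART_pi C h =
    ((Finset.univ.filter fun y : H => y⁻¹ * h * y ∈ C).card : ℤ) := by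
  have h1 := Nat.card_congr (QuotientGroup.preimageMkEquivSubgroupProdSet C
    {x : H ⧸ C | h • x = x})
  rw [Nat.card_prod] at h1
  have h2 : Nat.card ((QuotientGroup.mk : H → H ⧸ C) ⁻¹' {x : H ⧸ C | h • x = x}) =
      (Finset.univ.filter fun y : H => y⁻¹ * h * y ∈ C).card := by
    refine Nat.subtype_card _ fun y => ?_
    rw [Finset.mem_filter, Set.mem_preimage, Set.mem_ofPred_eq, A_ART_fix]
    exact ⟨fun h => h.2, fun h => ⟨Finset.mem_univ _, h⟩⟩
  rw [h2] at h1
  rw [h1]
  push_cast
  rfl

open Classical in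
theorem A_ART_sum (C : Subgroup H) (h : H) : (Nat.card C : ℤ) * A_ART_pi C h =
    ∑ D ∈ Finset.univ.filter (fun D : Subgroup H => D ≤ C), A_ART_F D h := by
  rw [A_ART_count, Finset.card_eq_sum_card_fiberwise
    (f := fun y : H => Subgroup.zpowers (y⁻¹ * h * y))
    (t := Finset.univ.filter (fun D : Subgroup H => D ≤ C))]
  · push_cast
    refine Finset.sum_congr rfl fun D hD => ?_
    unfold A_ART_F
    congr 2
    ext y
    rw [Finset.mem_filter, Finset.mem_filter, Finset.mem_filter]
    constructor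
    · rintro ⟨⟨h1, -⟩, h2⟩
      exact ⟨h1, h2⟩
    · rintro ⟨h1, h2⟩
      refine ⟨⟨h1, ?_⟩, h2⟩
      rw [← Subgroup.zpowers_le, h2]
      exact (Finset.mem_filter.1 hD).2
  · intro y hy
    have hy' := (Finset.mem_filter.1 (Finset.mem_coe.1 hy)).2
    exact Finset.mem_coe.2 (Finset.mem_filter.2 ⟨Finset.mem_univ _, Subgroup.zpowers_le.2 hy'⟩)

open Classical in
/-- Integral combinations of the permutation characters of the cyclic subgroups. -/
def A_ART_Q (f : H → ℤ) : Prop := ∃ a : Subgroup H → ℤ, ∀ h,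
  f h = ∑ D ∈ Finset.univ.filter (fun D : Subgroup H => IsCyclic D), a D * A_ART_pi D h

theorem A_ART_Q_sub {f g : H → ℤ} (hf : A_ART_Q f) (hg : A_ART_Q g) :
    A_ART_Q fun h => f h - g h := by
  obtain ⟨a, ha⟩ := hf
  obtain ⟨b, hb⟩ := hg
  refine ⟨fun D => a D - b D, fun h => ?_⟩
  simp only [sub_mul, Finset.sum_sub_distrib]
  rw [ha h, hb h]

theorem A_ART_Q_sum (S : Finset (Subgroup H)) (f : Subgroup H → H → ℤ)
    (hf : ∀ D ∈ S, A_ART_Q (f D)) : A_ART_Q fun h => ∑ D ∈ S, f D h := by
  classical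
  induction S using Finset.induction_on with
  | empty => exact ⟨fun _ => 0, fun h => by simp⟩
  | insert D S hD ih =>
    obtain ⟨a, ha⟩ := ih fun E hE => hf E (Finset.mem_insert_of_mem hE)
    obtain ⟨b, hb⟩ := hf D (Finset.mem_insert_self _ _)
    refine ⟨fun E => b E + a E, fun h => ?_⟩
    simp only [add_mul, Finset.sum_add_distrib]
    rw [Finset.sum_insert hD, ← ha h, hb h]

theorem A_ART_Q_pi (C : Subgroup H) (hC : IsCyclic C) (n : ℤ) :
    A_ART_Q fun h => n * A_ART_pi C h := by
  classical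
  refine ⟨fun D => if D = C then n else 0, fun h => ?_⟩
  rw [Finset.sum_eq_single_of_mem C (Finset.mem_filter.2 ⟨Finset.mem_univ _, hC⟩)]
  · simp
  · intro D _ hD
    simp [hD]

theorem A_ART_Q_F (C : Subgroup H) : IsCyclic C → A_ART_Q (A_ART_F C) := by
  classical
  induction C using WellFoundedLT.induction with
  | ind C ih =>
    intro hC
    have h1 : A_ART_Q fun h => (Nat.card C : ℤ) * A_ART_pi C h -
        ∑ D ∈ Finset.univ.filter (fun D : Subgroup H => D < C), A_ART_F D h := by
      refine A_ART_Q_sub (A_ART_Q_pi C hC _) (A_ART_Q_sum _ _ fun D hD => ?_)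
      have hDC := (Finset.mem_filter.1 hD).2
      exact ih D hDC (Subgroup.isCyclic_of_le hDC.le)
    obtain ⟨a, ha⟩ := h1
    refine ⟨a, fun h => ?_⟩
    rw [← ha h]
    show A_ART_F C h = (Nat.card C : ℤ) * A_ART_pi C h -
        ∑ D ∈ Finset.univ.filter (fun D : Subgroup H => D < C), A_ART_F D h
    rw [A_ART_sum]
    have h2 : Finset.univ.filter (fun D : Subgroup H => D ≤ C) =
        insert C (Finset.univ.filter (fun D : Subgroup H => D < C)) := by
      ext D
      rw [Finset.mem_insert, Finset.mem_filter, Finset.mem_filter, le_iff_eq_or_lt]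
      simp
    rw [h2, Finset.sum_insert (by simp)]
    ring

theorem A_ART_total (h : H) : open Classical in
    ∑ C ∈ Finset.univ.filter (fun D : Subgroup H => IsCyclic D), A_ART_F C h =
      (Fintype.card H : ℤ) := by
  classical
  have h1 : (Finset.univ : Finset H).card = ∑ C ∈ Finset.univ.filter
      (fun D : Subgroup H => IsCyclic D),
      (Finset.univ.filter fun y : H => Subgroup.zpowers (y⁻¹ * h * y) = C).card := by
    refine Finset.card_eq_sum_card_fiberwise fun y _ => ?_
    exact Finset.mem_coe.2 (Finset.mem_filter.2 ⟨Finset.mem_univ _,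
      Subgroup.isCyclic_zpowers _⟩)
  rw [← Finset.card_univ, h1]
  push_cast
  refine Finset.sum_congr (by congr) fun C _ => ?_
  unfold A_ART_F
  congr!

end A_ART

theorem A_ART_thm : StA_ART.{u} := by
  classical
  intro H _ _
  let _ : Fintype H := Fintype.ofFinite H
  have h1 : A_ART_Q fun h : H => ∑ C ∈ Finset.univ.filter (fun D : Subgroup H => IsCyclic D),
      A_ART_F C h :=
    A_ART_Q_sum _ _ fun C hC => A_ART_Q_F C (Finset.mem_filter.1 hC).2
  obtain ⟨a, ha⟩ := h1
  refine ⟨Finset.univ.filter (fun D : Subgroup H => IsCyclic D), a, Fintype.card H,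
    Fintype.card_pos, fun C hC => (Finset.mem_filter.1 hC).2, fun h => ?_⟩
  have h2 := ha h
  rw [← A_ART_total h]
  refine Eq.trans ?_ (h2.symm.trans ?_)
  · refine Finset.sum_congr (by congr!) fun C _ => rfl
  · refine Finset.sum_congr (by congr!) fun C _ => rfl

end Pool.Agent.KM
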