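import Pool.Agent.KM.A_P1
import Pool.Agent.KM.A_P2
import Pool.Agent.KM.A_P3
import Pool.Agent.KM.A_P4
import Pool.Agent.KM.A_Q1
import Pool.Agent.KM.A_Q2
import Pool.Agent.KM.A_Q3
import Pool.Agent.KM.A_Q4
import Pool.Agent.KM.A_Q5
import Pool.Agent.KM.A_MV
import Pool.Agent.KM.A_SW
import Pool.Agent.KM.A_NIL
import Pool.Agent.KM.A_SM
import Pool.Agent.KM.A_CHD
import Pool.Agent.KM.A_CH
import Pool.Agent.KM.A_ISQ
import Pool.Agent.KM.A_IS
import Pool.Agent.KM.A_ART
import Pool.Agent.KM.A_DIF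
import Pool.Agent.KM.A_FIN
import Pool.Agent.KM.A_FIC

/-!
# KM block A: Artin induction for the lower K-group of integral group rings of finite groups
-/

set_option autoImplicit false

namespace Pool.Agent.KM

universe u

theorem artin_SW : StA_SW.{u} := A_SW_thm (A_MV_thm (A_Q1_thm A_P1_thm) (A_Q2_thm A_P2_thm))
  (A_Q3_thm A_P3_thm)

/-- Some positive multiple of every element of `K_{-1}(ℤ[H])`, `H` finite, is a sum of elements
induced from cyclic subgroups. -/
theorem artin : StA_FIN.{u} :=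
  A_FIN_thm
    (A_DIF_thm (A_Q1_thm A_P1_thm) (A_Q2_thm A_P2_thm) (A_Q4_thm A_P1_thm A_P4_thm)
      (A_Q5_thm A_P4_thm) A_ART_thm)
    (A_IS_thm A_ISQ_thm)
    (A_CH_thm A_SM_thm (A_Q1_thm A_P1_thm) A_CHD_thm)
    (A_NIL_thm artin_SW)

/-- A homomorphism `K_{-1}(ℤ[H]) → ℚ`, `H` finite, which vanishes on the elements induced from
the cyclic groups is zero. -/
theorem artinC : StA_FIC.{u} := A_FIC_thm artin

end Pool.Agent.KM
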