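import Pool.Agent.KM.StA

/-!
# KM block A, module P1 (helper54): conjugate matrix valued homomorphisms
-/

set_option autoImplicit false
set_option linter.unusedSectionVars false

open Matrix Polynomial Pool.Agent.Lib25

namespace Pool.Agent.KM

universe u

section

variable {R S : Type u} [Ring R] [Ring S] {k k' : Type} [Fintype k] [DecidableEq k]
  [Fintype k'] [DecidableEq k']

theorem A_P1.lau_conj (θ : R →+* Matrix k k S) (θ' : R →+* Matrix k' k' S) (P : Matrix k' k S)
    (h : ∀ r, θ' r * P = P * θ r) (f : LaurentPolynomial R) :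
    lau θ' f * P.map (LaurentPolynomial.C : S →+* LaurentPolynomial S) =
      P.map (LaurentPolynomial.C : S →+* LaurentPolynomial S) * lau θ f := by
  induction f using AddMonoidAlgebra.induction_linear with
  | zero => rw [map_zero, map_zero, Matrix.zero_mul, Matrix.mul_zero]
  | add f g hf hg => rw [map_add, map_add, Matrix.add_mul, Matrix.mul_add, hf, hg]
  | single n r =>
    refine Matrix.ext fun a b => ?_
    have h1 : ∀ c, lau θ' (AddMonoidAlgebra.single n r) a c *
        (P.map (LaurentPolynomial.C : S →+* LaurentPolynomial S)) c b =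
        AddMonoidAlgebra.single n (θ' r a c * P c b) := by
      intro c
      have e1 : (P.map (LaurentPolynomial.C : S →+* LaurentPolynomial S)) c b =
          AddMonoidAlgebra.single 0 (P c b) := rfl
      rw [lau_single, e1, AddMonoidAlgebra.single_mul_single, add_zero]
    have h2 : ∀ c, (P.map (LaurentPolynomial.C : S →+* LaurentPolynomial S)) a c *
        lau θ (AddMonoidAlgebra.single n r) c b =
        AddMonoidAlgebra.single n (P a c * θ r c b) := by
      intro c
      have e1 : (P.map (LaurentPolynomial.C : S →+* LaurentPolynomial S)) a c =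
          AddMonoidAlgebra.single 0 (P a c) := rfl
      rw [lau_single, e1, AddMonoidAlgebra.single_mul_single, zero_add]
    rw [Matrix.mul_apply, Matrix.mul_apply]
    simp only [h1, h2]
    have h3 := congrFun (congrFun (h r) a) b
    rw [Matrix.mul_apply, Matrix.mul_apply] at h3
    have h4 := (map_sum (AddMonoidAlgebra.singleAddHom (R := S) n)
      (fun c => θ' r a c * P c b) Finset.univ).symm
    have h5 := (map_sum (AddMonoidAlgebra.singleAddHom (R := S) n)
      (fun c => P a c * θ r c b) Finset.univ).symm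
    rw [h3] at h4
    exact h4.trans h5.symm

/-- The kronecker product of the identity matrix and `P`. -/
def A_P1.amp {A : Type*} [Ring A] (ι : Type*) [DecidableEq ι] (P : Matrix k' k A) :
    Matrix (ι × k') (ι × k) A :=
  Matrix.of fun i j => if i.1 = j.1 then P i.2 j.2 else 0

theorem A_P1.amp_mul {A : Type*} [Ring A] {ι : Type*} [Fintype ι] [DecidableEq ι]
    {k'' : Type} (P : Matrix k'' k' A) (Q : Matrix k' k A) :
    A_P1.amp ι P * A_P1.amp ι Q = A_P1.amp ι (P * Q) := by
  refine Matrix.ext fun i j => ?_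
  rw [Matrix.mul_apply, Fintype.sum_prod_type]
  simp only [A_P1.amp, Matrix.of_apply, Matrix.mul_apply]
  rw [Finset.sum_eq_single i.1]
  · simp only [if_true]
    split_ifs with h
    · rfl
    · simp
  · intro c _ hc
    simp only [if_neg (Ne.symm hc), zero_mul, Finset.sum_const_zero]
  · intro h
    exact absurd (Finset.mem_univ _) h

theorem A_P1.amp_one {A : Type*} [Ring A] {ι : Type*} [DecidableEq ι] :
    A_P1.amp ι (1 : Matrix k k A) = 1 := by
  refine Matrix.ext fun i j => ?_
  obtain ⟨i, a⟩ := i
  obtain ⟨j, b⟩ := j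
  simp only [A_P1.amp, Matrix.of_apply, Matrix.one_apply, Prod.mk.injEq]
  by_cases h1 : i = j <;> by_cases h2 : a = b <;> simp [h1, h2]

theorem A_P1.blow_amp {A B : Type*} [Ring A] [Ring B] (θ : B →+* Matrix k k A)
    (θ' : B →+* Matrix k' k' A) (P : Matrix k' k A) (h : ∀ r, θ' r * P = P * θ r) {ι : Type*}
    [Fintype ι] [DecidableEq ι] (e : Matrix ι ι B) :
    blow θ' e * A_P1.amp ι P = A_P1.amp ι P * blow θ e := by
  refine Matrix.ext fun i j => ?_
  rw [Matrix.mul_apply, Matrix.mul_apply, Fintype.sum_prod_type, Fintype.sum_prod_type]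
  simp only [A_P1.amp, Matrix.of_apply, blow_apply]
  rw [Finset.sum_eq_single j.1, Finset.sum_eq_single i.1]
  · simp only [if_true]
    have h1 := congrFun (congrFun (h (e i.1 j.1)) i.2) j.2
    rw [Matrix.mul_apply, Matrix.mul_apply] at h1
    exact h1
  · intro c _ hc
    simp only [if_neg (Ne.symm hc), zero_mul, Finset.sum_const_zero]
  · intro h
    exact absurd (Finset.mem_univ _) h
  · intro c _ hc
    simp only [if_neg hc, mul_zero, Finset.sum_const_zero]
  · intro h
    exact absurd (Finset.mem_univ _) h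

end

theorem A_P1_thm : StA_P1.{u} := by
  intro R S _ _ k k' _ _ _ _ θ θ' P Q hPQ hQP h
  refine KNegOne_hom_ext fun n e he => ?_
  rw [Kn_ngo, Kn_ngo]
  refine ngo_congr _ _ ?_
  set c : S →+* LaurentPolynomial S := LaurentPolynomial.C with hc
  have h1 : P.map c * Q.map c = 1 := by
    rw [← Matrix.map_mul, hPQ, Matrix.map_one c (map_zero c) (map_one c)]
  have h2 : Q.map c * P.map c = 1 := by
    rw [← Matrix.map_mul, hQP, Matrix.map_one c (map_zero c) (map_one c)]
  have h3 := A_P1.blow_amp (lau θ) (lau θ') (P.map c) (A_P1.lau_conj θ θ' P h) e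
  have h4 : A_P1.amp (Fin n) (P.map c) * A_P1.amp (Fin n) (Q.map c) = 1 := by
    rw [A_P1.amp_mul, h1, A_P1.amp_one]
  have h5 : A_P1.amp (Fin n) (Q.map c) * A_P1.amp (Fin n) (P.map c) = 1 := by
    rw [A_P1.amp_mul, h2, A_P1.amp_one]
  have h6 := blow_idem (lau θ') he
  refine ⟨blow (lau θ') e * A_P1.amp (Fin n) (P.map c), A_P1.amp (Fin n) (Q.map c) * blow (lau θ') e, ?_, ?_⟩
  · calc blow (lau θ') e * A_P1.amp (Fin n) (P.map c) * (A_P1.amp (Fin n) (Q.map c) * blow (lau θ') e)
        = blow (lau θ') e * (A_P1.amp (Fin n) (P.map c) * A_P1.amp (Fin n) (Q.map c)) * blow (lau θ') e := by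
          simp only [Matrix.mul_assoc]
      _ = blow (lau θ') e := by rw [h4, Matrix.mul_one, h6]
  · calc A_P1.amp (Fin n) (Q.map c) * blow (lau θ') e * (blow (lau θ') e * A_P1.amp (Fin n) (P.map c))
        = A_P1.amp (Fin n) (Q.map c) * ((blow (lau θ') e * blow (lau θ') e) * A_P1.amp (Fin n) (P.map c)) := by
          simp only [Matrix.mul_assoc]
      _ = (A_P1.amp (Fin n) (Q.map c) * A_P1.amp (Fin n) (P.map c)) * blow (lau θ) e := by
          rw [h6, h3, Matrix.mul_assoc]
      _ = blow (lau θ) e := by rw [h5, Matrix.one_mul]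

end Pool.Agent.KM
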