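import Pool.Agent.KM.St4
import Pool.Agent.Lib_helper25.Final0

/-!
# KM_TAV: the universal classes of `K_{-1}`, averaged
-/

set_option autoImplicit false
set_option linter.unusedSectionVars false

open Matrix Polynomial Pool.Agent.Lib25

noncomputable section

namespace Pool.Agent.KM

universe u v

namespace TAV

section Tw

variable {n : ℕ} [NeZero n]

/-- The cyclic group of order `n`. -/
abbrev Cc (n : ℕ) : Type := Multiplicative (ZMod n)

theorem pow_n (x : Cc n) : x ^ n = 1 := by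
  have h1 : x ^ n = Multiplicative.ofAdd (n • Multiplicative.toAdd x) := rfl
  rw [h1, nsmul_eq_mul, CharP.cast_eq_zero, zero_mul]
  rfl

theorem pwr_comp (u w : (ZMod n)ˣ) : (pwr n u).comp (pwr n w) = pwr n (u * w) := by
  apply MonoidHom.ext
  intro x
  change (x ^ (w : ZMod n).val) ^ (u : ZMod n).val = x ^ ((u * w : (ZMod n)ˣ) : ZMod n).val
  rw [mul_comm u w, pow_val_mul (pow_n x)]

theorem pwr_one : pwr n (1 : (ZMod n)ˣ) = MonoidHom.id _ := by
  apply MonoidHom.ext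
  intro x
  exact pow_val_one (pow_n x)

theorem comp_inj {G : Type u} [Group G] {φ : Cc n →* G} (hφ : Function.Injective φ)
    (w : (ZMod n)ˣ) : Function.Injective (φ.comp (pwr n w)) := by
  intro x y hxy
  have h1 : pwr n w x = pwr n w y := hφ hxy
  have h2 := congrArg (pwr n w⁻¹) h1
  rw [← MonoidHom.comp_apply, ← MonoidHom.comp_apply, pwr_comp, inv_mul_cancel, pwr_one] at h2
  exact h2

theorem comp_gn {G : Type u} [Group G] (φ : Cc n →* G) (w : (ZMod n)ˣ) :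
    (φ.comp (pwr n w)) (gn n) = φ (gn n) ^ (w : ZMod n).val := by
  change φ ((gn n) ^ (w : ZMod n).val) = _
  rw [map_pow]

/-- The action of the units on `K_{-1}(ℤ[C_n])`. -/
def tw (w : (ZMod n)ˣ) : KNegOne (MonoidAlgebra ℤ (Cc n)) →+ KNegOne (MonoidAlgebra ℤ (Cc n)) :=
  Kg (pwr n w)

theorem map_tw {G : Type u} [Group G] (φ : Cc n →* G) (w : (ZMod n)ˣ)
    (z : KNegOne (MonoidAlgebra ℤ (Cc n))) : Kg φ (tw w z) = Kg (φ.comp (pwr n w)) z :=
  Kg_comp _ _ _

theorem tw_tw (u w : (ZMod n)ˣ) (z : KNegOne (MonoidAlgebra ℤ (Cc n))) :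
    tw u (tw w z) = tw (u * w) z := by
  unfold tw
  rw [Kg_comp, pwr_comp]

/-- First averaging: over the decomposition group of `p`. -/
def kap2 (κ : ℕ → KNegOne (MonoidAlgebra ℤ (Cc n))) (p : ℕ) : KNegOne (MonoidAlgebra ℤ (Cc n)) :=
  (∏ q ∈ n.primeFactors.erase p, (ucl q (1 : (ZMod n)ˣ)).card) •
    ∑ w ∈ ucl p (1 : (ZMod n)ˣ), tw w (κ p)

/-- The sum over all primes and all units. -/
def kapS (κ : ℕ → KNegOne (MonoidAlgebra ℤ (Cc n))) : KNegOne (MonoidAlgebra ℤ (Cc n)) :=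
  ∑ q ∈ n.primeFactors, ∑ u : (ZMod n)ˣ, tw u (kap2 κ q)

/-- Second averaging. -/
def kap3 (κ : ℕ → KNegOne (MonoidAlgebra ℤ (Cc n))) (p : ℕ) : KNegOne (MonoidAlgebra ℤ (Cc n)) :=
  (n.primeFactors.card * Fintype.card (ZMod n)ˣ) • kap2 κ p - kapS κ

theorem tw_kap2 (κ : ℕ → KNegOne (MonoidAlgebra ℤ (Cc n))) (p : ℕ) (w : (ZMod n)ˣ)
    (hw : uRel n p w 1) : tw w (kap2 κ p) = kap2 κ p := by
  unfold kap2
  rw [map_nsmul, map_sum]
  congr 1
  refine Finset.sum_bij (fun w' _ => w * w') ?_ ?_ ?_ ?_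
  · intro w' hw'
    rw [mem_ucl] at hw' ⊢
    have h1 := uRel_mul hw w'
    rw [one_mul] at h1
    exact uRel_trans h1 hw'
  · intro a _ b _ hab
    exact mul_left_cancel hab
  · intro b hb
    refine ⟨w⁻¹ * b, ?_, by rw [mul_inv_cancel_left]⟩
    rw [mem_ucl] at hb ⊢
    have h1 := uRel_mul hw (w⁻¹ * b)
    rw [mul_inv_cancel_left, one_mul] at h1
    exact uRel_trans (uRel_symm h1) hb
  · intro w' _
    exact tw_tw w w' _

theorem tw_kapS (κ : ℕ → KNegOne (MonoidAlgebra ℤ (Cc n))) (w : (ZMod n)ˣ) :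
    tw w (kapS κ) = kapS κ := by
  unfold kapS
  rw [map_sum]
  apply Finset.sum_congr rfl
  intro q _
  rw [map_sum, ← Equiv.sum_comp (Equiv.mulLeft w) (fun u : (ZMod n)ˣ => tw u (kap2 κ q))]
  apply Finset.sum_congr rfl
  intro u _
  exact tw_tw w u _

theorem tw_kap3 (κ : ℕ → KNegOne (MonoidAlgebra ℤ (Cc n))) (p : ℕ) (w : (ZMod n)ˣ)
    (hw : uRel n p w 1) : tw w (kap3 κ p) = kap3 κ p := by
  unfold kap3
  rw [map_sub, map_nsmul, tw_kap2 κ p w hw, tw_kapS]

theorem sum_kap3 (κ : ℕ → KNegOne (MonoidAlgebra ℤ (Cc n))) :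
    ∑ q ∈ n.primeFactors, ∑ u : (ZMod n)ˣ, tw u (kap3 κ q) = 0 := by
  have h1 : ∀ q ∈ n.primeFactors, ∑ u : (ZMod n)ˣ, tw u (kap3 κ q) =
      (n.primeFactors.card * Fintype.card (ZMod n)ˣ) • ∑ u : (ZMod n)ˣ, tw u (kap2 κ q) -
        Fintype.card (ZMod n)ˣ • kapS κ := by
    intro q _
    rw [Finset.smul_sum, ← Finset.card_univ, ← Finset.sum_const, ← Finset.sum_sub_distrib]
    apply Finset.sum_congr rfl
    intro u _
    unfold kap3
    rw [map_sub, map_nsmul, tw_kapS, Finset.card_univ]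
  rw [Finset.sum_congr rfl h1, Finset.sum_sub_distrib, ← Finset.smul_sum, Finset.sum_const,
    ← mul_smul]
  exact sub_self _

theorem sum_units {G : Type u} [Group G] {h : G} (F : G → ℚ) :
    ∑ u : (ZMod n)ˣ, F (h ^ (u : ZMod n).val) =
      ∑ a ∈ (Finset.range n).filter (fun a => a.Coprime n), F (h ^ a) := by
  refine Finset.sum_bij (fun (u : (ZMod n)ˣ) _ => (u : ZMod n).val) ?_ ?_ ?_ ?_
  · intro u _
    rw [Finset.mem_filter, Finset.mem_range]
    exact ⟨ZMod.val_lt _, ZMod.val_coe_unit_coprime u⟩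
  · intro u _ v _ huv
    exact Units.ext (ZMod.val_injective n huv)
  · intro a ha
    rw [Finset.mem_filter, Finset.mem_range] at ha
    refine ⟨ZMod.unitOfCoprime a ha.2, Finset.mem_univ _, ?_⟩
    rw [ZMod.coe_unitOfCoprime, ZMod.val_natCast, Nat.mod_eq_of_lt ha.1]
  · intro u _
    rfl

/-- The factor. -/
def om (n : ℕ) [NeZero n] : ℕ := n.primeFactors.card * Fintype.card (ZMod n)ˣ *
  ∏ q ∈ n.primeFactors, (ucl q (1 : (ZMod n)ˣ)).card

theorem om_pos (hn : 1 < n) : 0 < om n := by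
  unfold om
  have h1 : 0 < n.primeFactors.card := Finset.card_pos.2 (Nat.nonempty_primeFactors.2 hn)
  have h2 : 0 < Fintype.card (ZMod n)ˣ := Fintype.card_pos
  have h3 : 0 < ∏ q ∈ n.primeFactors, (ucl q (1 : (ZMod n)ˣ)).card :=
    Finset.prod_pos fun q _ => card_ucl_pos q 1
  positivity

/-- The value of the functionals on the averaged classes. -/
theorem functional_kap3 {G : Type u} [Group G] (κ : ℕ → KNegOne (MonoidAlgebra ℤ (Cc n)))
    (L : ℕ → G → ℚ) (hL : AdmM L) (F : KNegOne (MonoidAlgebra ℤ G) →+ ℚ)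
    (hF : ∀ (p : ℕ) (φ : Cc n →* G), p.Prime → p ∣ n → Function.Injective φ →
      F (Kg φ (κ p)) = L p (φ (gn n)))
    (p : ℕ) (hp : p ∈ n.primeFactors) (φ : Cc n →* G) (hφ : Function.Injective φ) :
    F (Kg φ (kap3 κ p)) = (om n : ℚ) * L p (φ (gn n)) := by
  set M : ℕ := ∏ q ∈ n.primeFactors, (ucl q (1 : (ZMod n)ˣ)).card with hM
  have hpow : ∀ (φ : Cc n →* G), φ (gn n) ^ n = 1 := by
    intro φ
    rw [← map_pow, pow_n, map_one]
  -- the value on `kap2`
  have h2 : ∀ q ∈ n.primeFactors, ∀ φ : Cc n →* G, Function.Injective φ →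
      F (Kg φ (kap2 κ q)) = (M : ℚ) * L q (φ (gn n)) := by
    intro q hq φ hφ
    unfold kap2
    rw [map_nsmul, map_nsmul, map_sum, map_sum]
    have h3 : ∀ w ∈ ucl q (1 : (ZMod n)ˣ), F (Kg φ (tw w (κ q))) = L q (φ (gn n)) := by
      intro w hw
      rw [map_tw, hF q _ (Nat.prime_of_mem_primeFactors hq) (Nat.dvd_of_mem_primeFactors hq)
        (comp_inj hφ w), comp_gn]
      obtain ⟨i, k, hik⟩ := mem_ucl.1 hw
      refine hL.frob q _ _ i k (zpowers_pow_val (hpow φ) w) ?_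
      rw [← pow_mul, ← map_pow φ, ← map_pow φ]
      congr 1
      have h4 : ∀ a b : ℕ, ((a : ℕ) : ZMod n) = b → (gn n) ^ a = (gn n) ^ b := by
        intro a b hab
        have h5 : orderOf (gn n) ∣ n := orderOf_dvd_of_pow_eq_one (pow_n _)
        rw [pow_eq_pow_iff_modEq]
        exact ((ZMod.natCast_eq_natCast_iff _ _ _).1 hab).of_dvd h5
      apply h4
      push_cast
      rw [ZMod.natCast_zmod_val, hik, Units.val_one, one_mul]
    rw [Finset.sum_congr rfl h3, Finset.sum_const, nsmul_eq_mul, nsmul_eq_mul, ← mul_assoc,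
      ← Nat.cast_mul, hM, Finset.prod_erase_mul _ _ hq]
  have h3 : F (Kg φ (kapS κ)) = 0 := by
    unfold kapS
    rw [map_sum, map_sum]
    have h4 : ∀ q ∈ n.primeFactors, F (Kg φ (∑ u : (ZMod n)ˣ, tw u (kap2 κ q))) =
        (M : ℚ) * (∑ a ∈ (Finset.range n).filter (fun a => a.Coprime n),
          L q (φ (gn n) ^ a)) := by
      intro q hq
      rw [← sum_units (fun z => L q z), map_sum, map_sum, Finset.mul_sum]
      apply Finset.sum_congr rfl
      intro u _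
      rw [map_tw, h2 q hq _ (comp_inj hφ u), comp_gn]
    rw [Finset.sum_congr rfl h4, ← Finset.mul_sum]
    have hord : orderOf (φ (gn n)) = n := by
      have h5 : orderOf (φ (gn n)) = orderOf (Multiplicative.ofAdd (1 : ZMod n)) :=
        orderOf_injective _ hφ _
      rw [h5, orderOf_gen (zpowers_one_eq_top n), card_Cn]
    have hfin : IsOfFinOrder (φ (gn n)) := by
      rw [← orderOf_pos_iff, hord]
      exact Nat.pos_of_ne_zero (NeZero.ne n)
    have h6 := hL.sum (φ (gn n)) hfin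
    rw [hord] at h6
    rw [h6, mul_zero]
  unfold kap3
  rw [map_sub, map_sub, h3, sub_zero, map_nsmul, map_nsmul, h2 p hp φ hφ, nsmul_eq_mul]
  unfold om
  push_cast
  rw [hM]
  push_cast
  ring

end Tw

/-- The classes for all `N`. -/
def kap (κ0 : ∀ N : ℕ, ℕ → KNegOne (MonoidAlgebra ℤ (Multiplicative (ZMod N)))) (N p : ℕ) :
    KNegOne (MonoidAlgebra ℤ (Multiplicative (ZMod N))) := by
  classical
  exact if h : N ≠ 0 then
    haveI : NeZero N := ⟨h⟩
    kap3 (κ0 N) p else 0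

theorem kap_eq (κ0 : ∀ N : ℕ, ℕ → KNegOne (MonoidAlgebra ℤ (Multiplicative (ZMod N))))
    (N p : ℕ) [NeZero N] : kap κ0 N p = kap3 (κ0 N) p := by
  unfold kap
  rw [dif_pos (NeZero.ne N)]

/-- The factors for all `N`. -/
def omg (N : ℕ) : ℚ := by
  classical
  exact if h : N ≠ 0 then
    haveI : NeZero N := ⟨h⟩
    (om N : ℚ) else 0

theorem omg_eq (N : ℕ) [NeZero N] : omg N = (om N : ℚ) := by
  unfold omg
  rw [dif_pos (NeZero.ne N)]

theorem detG (κ0 : ∀ N : ℕ, ℕ → KNegOne (MonoidAlgebra ℤ (Multiplicative (ZMod N))))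
    {G : Type u} [Group G]
    (H : ∀ (L : ℕ → G → ℚ), AdmM L → ∃ F : KNegOne (MonoidAlgebra ℤ G) →+ ℚ,
      ∀ (N : ℕ), 0 < N → ∀ p : ℕ, p.Prime → p ∣ N → ∀ φ : Multiplicative (ZMod N) →* G,
      Function.Injective φ → F (Kg φ (κ0 N p)) = L p (φ (gn N))) :
    DetG (kap κ0) omg G := by
  intro L hL
  obtain ⟨F, hF⟩ := H L hL
  refine ⟨F, fun N hN p hp hpN φ hφ => ?_⟩
  have : NeZero N := ⟨by omega⟩
  rw [kap_eq, omg_eq]
  exact functional_kap3 (κ0 N) L hL F
    (fun p φ hp hpn hφ => hF N (by omega) p hp hpn φ hφ) p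
    (Nat.mem_primeFactors.2 ⟨hp, hpN, NeZero.ne N⟩) φ hφ

/-- The isomorphism of `ULift G` with `G`. -/
def ulE (G : Type) [Group G] : ULift.{v} G ≃* G := MulEquiv.ulift

theorem admM_ulift {G : Type} [Group G] {L : ℕ → G → ℚ} (hL : AdmM L) :
    AdmM (fun p (h : ULift.{v} G) => L p h.down) where
  conj p h x := hL.conj p h.down x.down
  frob p h h' j k hz hjk := by
    refine hL.frob p h.down h'.down j k ?_ ?_
    · have h1 := congrArg (Subgroup.map (ulE.{v} G).toMonoidHom) hz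
      rw [MonoidHom.map_zpowers, MonoidHom.map_zpowers] at h1
      exact h1
    · exact congrArg ULift.down hjk
  sum h hh := by
    have h1 : orderOf h.down = orderOf h :=
      orderOf_injective (ulE.{v} G).toMonoidHom
        (ulE.{v} G).injective h
    have h2 : IsOfFinOrder h.down := (ulE.{v} G).toMonoidHom.isOfFinOrder hh
    have h3 := hL.sum h.down h2
    rw [h1] at h3
    exact h3

end TAV

open TAV in
theorem t_TAV (hTKA : S_TKA.{v}) (hTRL : S_TRL.{v}) : S_TAV.{v} := by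
  have hex : ∀ n : ℕ, ∃ (N : ℕ)
      (x : ℕ → K0 (LaurentPolynomial (MonoidAlgebra ℤ (Multiplicative (ZMod n))))), 0 < N ∧
      ∀ [NeZero n], LocN.{v} n N x := by
    intro n
    by_cases h : n = 0
    · exact ⟨1, 0, one_pos, fun {inst} => absurd h inst.ne⟩
    · have : NeZero n := ⟨h⟩
      obtain ⟨N, x, hN, hx⟩ := hTKA n
      exact ⟨N, x, hN, fun {_} => hx⟩
  choose N x hN hx using hex
  set κ0 : ∀ N : ℕ, ℕ → KNegOne (MonoidAlgebra ℤ (Multiplicative (ZMod N))) :=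
    fun n p => KNegOne.mk (x n p) with hκ0
  -- functionals for groups in `Type v`
  have hfun : ∀ (G : Type v) [Group G] (L : ℕ → G → ℚ), AdmM L →
      ∃ F : KNegOne (MonoidAlgebra ℤ G) →+ ℚ,
      ∀ (N : ℕ), 0 < N → ∀ p : ℕ, p.Prime → p ∣ N → ∀ φ : Multiplicative (ZMod N) →* G,
      Function.Injective φ → F (Kg φ (κ0 N p)) = L p (φ (gn N)) := by
    intro G _ L hL
    obtain ⟨F, hF⟩ := exists_functional (J := IdxM G)
      (fun j => Kg j.φ (KNegOne.mk (x j.n j.p))) (fun j => L j.p (j.φ (gn j.n)))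
      (fun c hc => hTRL N x (fun n _ => hN n) (fun n _ => hx n) L hL c hc)
    exact ⟨F, fun n hn p hp hpn φ hφ => hF ⟨n, p, hn, hp, hpn, φ, hφ⟩⟩
  -- functionals for groups in `Type`
  have hfun0 : ∀ (G : Type) [Group G] (L : ℕ → G → ℚ), AdmM L →
      ∃ F : KNegOne (MonoidAlgebra ℤ G) →+ ℚ,
      ∀ (N : ℕ), 0 < N → ∀ p : ℕ, p.Prime → p ∣ N → ∀ φ : Multiplicative (ZMod N) →* G,
      Function.Injective φ → F (Kg φ (κ0 N p)) = L p (φ (gn N)) := by
    intro G _ L hL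
    obtain ⟨F, hF⟩ := hfun (ULift.{v} G) _ (admM_ulift.{v} hL)
    refine ⟨F.comp (Kg (ulE.{v} G).symm.toMonoidHom),
      fun n hn p hp hpn φ hφ => ?_⟩
    rw [AddMonoidHom.comp_apply, Kg_comp]
    have h1 := hF n hn p hp hpn ((ulE.{v} G).symm.toMonoidHom.comp φ)
      ((ulE.{v} G).symm.injective.comp hφ)
    rw [h1]
    rfl
  refine ⟨kap κ0, omg, ?_, ?_, ?_, ?_, ?_⟩
  · intro n hn
    have : NeZero n := ⟨by omega⟩
    rw [omg_eq]
    exact_mod_cast (om_pos hn).ne'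
  · intro n _ hn p _ _ w hw
    rw [kap_eq]
    exact tw_kap3 (κ0 n) p w hw
  · intro n _ hn
    simp only [kap_eq]
    exact sum_kap3 (κ0 n)
  · intro G _
    exact detG κ0 (hfun G)
  · intro G _
    exact detG κ0 (hfun0 G)

end Pool.Agent.KM
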