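import Pool.Agent.KM.St4

/-!
# Finite groups: functionals which vanish on the induced universal classes
-/

set_option autoImplicit false
set_option linter.unusedSectionVars false

open Matrix Polynomial Pool.Agent.Lib25

noncomputable section

namespace Pool.Agent.KM

universe u

/-- KM_TFI. -/
theorem t_TFI (hTCY : S_TCY) (hFIC : StA_FIC.{u}) : S_TFI.{u} := by
  intro κ ω hω hD H _ _ l hl
  refine hFIC H l fun N hN φ hφ x => ?_
  have hN0 : NeZero N := ⟨hN.ne'⟩
  have h := hTCY κ ω hω hD N (l.comp (Kg φ)) (by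
    intro M hM p hp hpM ψ hψ
    change l (Kg φ (Kg ψ (κ M p))) = 0
    rw [Kg_comp]
    exact hl M hM p hp hpM (φ.comp ψ) (hφ.comp hψ))
  exact DFunLike.congr_fun h x

end Pool.Agent.KM
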