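import Pool.Agent.KM.St4
import Pool.Agent.Lib_helper25.Class0

/-!
# The universal classes (KM_TKA)
-/

set_option autoImplicit false
set_option linter.unusedSectionVars false

open Matrix Polynomial Pool.Agent.Lib25

noncomputable section

namespace Pool.Agent.KM

universe u v

open scoped Classical in
theorem t_TKA : S_TKA.{v} := by
  intro n hn0
  -- the local data
  have hloc : ∀ p : ℕ, ∃ (Np : ℕ) (x : K0 (LaurentPolynomial (MonoidAlgebra ℤ
      (Multiplicative (ZMod n))))), 0 < Np ∧ ∀ [Fact p.Prime],
      ∃ t : (ZMod n)ˣ → ℚ_[p],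
      (∀ (Y : (ZMod n)ˣ → ℚ) (y : ℚ), ∑ u, t u * (Y u : ℚ_[p]) = (y : ℚ_[p]) →
        ∀ z, (Np : ℚ) * ∑ u ∈ Finset.univ.filter (fun u => uR n p u z), Y u =
          y * (Finset.univ.filter (fun u => uR n p u z)).card) ∧
      ∀ {G : Type v} [Group G] (ψ : Multiplicative (ZMod n) →* G),
        ∃ w : ∀ (q : ℕ) [Fact q.Prime], G → ℚ_[q],
          Triv (K0.map (mapL (grm ψ)) x) w ∧
          Triv (- K0.map (mapL (grm ψ)) x) (fun q _ h => - w q h) ∧
          (∀ h, w p h = ∑ u : (ZMod n)ˣ, t u *
            (if IsConj (ψ (gn n) ^ (u : ZMod n).val) h then 1 else 0)) ∧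
          ∀ (q : ℕ) [Fact q.Prime], q ≠ p → ∀ x, w q x = 0 := by
    intro p
    by_cases hp : p.Prime
    swap
    · exact ⟨1, 0, one_pos, fun {h} => absurd h.out hp⟩
    have : Fact p.Prime := ⟨hp⟩
    obtain ⟨r, E, m, Np, hE, hNp, hsupp, hkey⟩ :=
      exists_theta p (C := Multiplicative (ZMod n))
    choose x hx using fun k => exists_class.{0, v} p (E k) (hE k)
    refine ⟨Np, ∑ k, m k • x k, hNp, fun {_} =>
      ⟨fun u => (∑ k, (m k : ℚ_[p]) • E k).coeff (unitsGens n u).1, ?_, ?_⟩⟩
    · intro Y y hy z
      have h1 := hkey (fun x => Y ((unitsGens n).symm x)) y (by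
        rw [← hy, ← (unitsGens n).sum_comp]
        apply Finset.sum_congr rfl
        intro u _
        rw [Equiv.symm_apply_apply]) (unitsGens n z)
      have h2 : Finset.univ.filter (fun u : Gens (Multiplicative (ZMod n)) =>
          rel p u.1 (unitsGens n z).1) =
          (Finset.univ.filter (fun u => uRel n p u z)).map (unitsGens n).toEmbedding := by
        ext u
        rw [Finset.mem_map, Finset.mem_filter]
        constructor
        · intro hu
          refine ⟨(unitsGens n).symm u, ?_, by simp⟩
          rw [Finset.mem_filter]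
          refine ⟨Finset.mem_univ _, ?_⟩
          rw [← uRel_iff, Equiv.apply_symm_apply]
          exact hu.2
        · rintro ⟨v, hv, rfl⟩
          refine ⟨Finset.mem_univ _, ?_⟩
          exact (uRel_iff n p v z).2 (Finset.mem_filter.1 hv).2
      rw [h2, Finset.sum_map, Finset.card_map] at h1
      change _ = y * ((Finset.univ.filter (fun u => uRel n p u z)).card : ℚ)
      rw [← h1]
      congr 1
      apply Finset.sum_congr rfl
      intro u _
      simp
    · intro G _ ψ
      have hsum : K0.map (mapL (grm ψ)) (∑ k, m k • x k) =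
          ∑ k, m k • K0.map (mapL (grm ψ)) (x k) := by
        rw [map_sum]
        apply Finset.sum_congr rfl
        intro k _
        rw [map_zsmul]
      choose w hw1 hw2 hw3 hw4 using fun k => hx k ψ
      rw [hsum]
      refine ⟨fun q _ x => ∑ k, (m k : ℚ_[q]) * w k q x, ?_, ?_, ?_, ?_⟩
      · exact Triv.sum Finset.univ fun k _ => (hw1 k).zsmul (hw2 k) (m k)
      · have h1 := Triv.sum Finset.univ fun k (_ : k ∈ Finset.univ) =>
          (hw1 k).zsmul (hw2 k) (-m k)
        convert h1 using 1
        · rw [← Finset.sum_neg_distrib]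
          apply Finset.sum_congr rfl
          intro k _
          rw [neg_smul]
        · funext q _ x
          rw [← Finset.sum_neg_distrib]
          apply Finset.sum_congr rfl
          intro k _
          push_cast
          ring
      · intro h
        have h1 : ∑ k, (m k : ℚ_[p]) * w k p h =
            ∑ c ∈ cset ψ h, (∑ k, (m k : ℚ_[p]) • E k).coeff c := by
          have h2 : ∀ c, (∑ k, (m k : ℚ_[p]) • E k).coeff c =
              ∑ k, (m k : ℚ_[p]) * (E k).coeff c := by
            intro c
            rw [MonoidAlgebra.coeff_sum, Finsupp.finset_sum_apply]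
            rfl
          simp only [h2]
          rw [Finset.sum_comm]
          apply Finset.sum_congr rfl
          intro k _
          rw [hw3, tau_push, Finset.mul_sum]
        change ∑ k, (m k : ℚ_[p]) * w k p h = ∑ u : (ZMod n)ˣ,
          (∑ k, (m k : ℚ_[p]) • E k).coeff (unitsGens n u).1 *
            (if IsConj (ψ (gn n) ^ (u : ZMod n).val) h then 1 else 0)
        rw [h1]
        have h3 : ∑ c ∈ cset ψ h, (∑ k, (m k : ℚ_[p]) • E k).coeff c =
            ∑ c : Multiplicative (ZMod n), (∑ k, (m k : ℚ_[p]) • E k).coeff c *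
              (if IsConj (ψ c) h then 1 else 0) := by
          unfold cset
          rw [Finset.sum_filter]
          apply Finset.sum_congr rfl
          intro c _
          split_ifs <;> simp
        rw [h3]
        refine Eq.trans ?_ ((sum_gens (fun c => (∑ k, (m k : ℚ_[p]) • E k).coeff c)
          (fun c : Gens (Multiplicative (ZMod n)) =>
            ((if IsConj (ψ c.1) h then 1 else 0 : ℚ_[p])))).trans ?_)
        · apply Finset.sum_congr rfl
          intro c _
          by_cases h' : Subgroup.zpowers c = ⊤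
          · rw [dif_pos h']
          · rw [hsupp c h', zero_mul, zero_mul]
        · rw [← (unitsGens n).sum_comp]
          apply Finset.sum_congr rfl
          intro u _
          have h4 : ψ (unitsGens n u).1 = ψ (gn n) ^ (u : ZMod n).val := by
            change ψ (Multiplicative.ofAdd (u : ZMod n)) = _
            rw [ofAdd_eq_pow n (u : ZMod n), map_pow]
          rw [h4]
      · intro q _ hq x
        apply Finset.sum_eq_zero
        intro k _
        rw [hw4 k q hq, mul_zero]
  choose Np x hNp hx using hloc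
  -- common denominators
  let N : ℕ := ∏ p ∈ n.primeFactors, Np p
  have hN : 0 < N := Finset.prod_pos fun p _ => hNp p
  refine ⟨N, fun p => (N / Np p) • x p, hN, fun p _ hpn => ?_⟩
  obtain ⟨t, ht1, ht2⟩ := hx p
  have hdvd : Np p ∣ N := Finset.dvd_prod_of_mem _
    (Nat.mem_primeFactors.2 ⟨Fact.out, hpn, NeZero.ne n⟩)
  obtain ⟨M, hM⟩ := hdvd
  have hM' : N / Np p = M := by rw [hM]; exact Nat.mul_div_cancel_left _ (hNp p)
  have hMpos : 0 < M := by
    rcases Nat.eq_zero_or_pos M with h | h
    · rw [h, mul_zero] at hM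
      omega
    · exact h
  have hMQ : (M : ℚ) ≠ 0 := Nat.cast_ne_zero.2 hMpos.ne'
  have hMp : (M : ℚ_[p]) ≠ 0 := Nat.cast_ne_zero.2 hMpos.ne'
  refine ⟨fun u => (M : ℚ_[p]) * t u, ?_, ?_⟩
  · intro Y y hy z
    have h1 := ht1 Y (y / M) (by
      push_cast
      rw [eq_div_iff hMp, ← hy, Finset.sum_mul]
      apply Finset.sum_congr rfl
      intro u _
      ring) z
    rw [hM]
    push_cast
    rw [mul_comm (Np p : ℚ), mul_assoc, h1, ← mul_assoc, mul_div_cancel₀ _ hMQ]
  · intro G _ ψ
    obtain ⟨w, hw1, hw2, hw3, hw4⟩ := ht2 ψ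
    have hmap : K0.map (mapL (grm ψ)) ((N / Np p) • x p) = M • K0.map (mapL (grm ψ)) (x p) := by
      rw [map_nsmul, hM']
    rw [hmap]
    refine ⟨fun q _ x => M * w q x, hw1.nsmul M, ?_, ?_, ?_⟩
    · have h1 := hw2.nsmul M
      rw [smul_neg] at h1
      convert h1 using 4
      ring
    · intro x
      change (M : ℚ_[p]) * w p x = _
      rw [hw3, Finset.mul_sum]
      apply Finset.sum_congr rfl
      intro u _
      exact (mul_assoc _ _ _).symm
    · intro q _ hq x
      change (M : ℚ_[q]) * w q x = 0
      rw [hw4 q hq, mul_zero]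

end Pool.Agent.KM
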