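import Pool.Agent.KM.St4
import Pool.Agent.Lib_helper25.Main0

/-!
# KM_TRL: relations between induced classes are respected by admissible functions
-/

set_option autoImplicit false
set_option linter.unusedSectionVars false

noncomputable section

namespace Pool.Agent.KM

open Pool.Agent.Lib25

universe u v

namespace TRL

variable {G : Type v} [Group G]

/-- the element of order `n` -/
def hh (j : IdxM G) : G := j.φ (gn j.n)

theorem orderOf_hh (j : IdxM G) : orderOf (hh j) = j.n := by
  have : NeZero j.n := ⟨j.hn.ne'⟩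
  have h1 : orderOf (j.φ (Multiplicative.ofAdd 1)) = orderOf (Multiplicative.ofAdd (1 : ZMod j.n)) :=
    orderOf_injective j.φ j.inj _
  change orderOf (j.φ (Multiplicative.ofAdd 1)) = j.n
  rw [h1, orderOf_gen (zpowers_one_eq_top j.n), card_Cn]

theorem sum_units {n : ℕ} [NeZero n] {h : G} (F : G → ℚ) :
    ∑ u : (ZMod n)ˣ, F (h ^ (u : ZMod n).val) =
      ∑ a ∈ (Finset.range n).filter (fun a => a.Coprime n), F (h ^ a) := by
  refine Finset.sum_bij (fun (u : (ZMod n)ˣ) _ => (u : ZMod n).val) ?_ ?_ ?_ ?_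
  · intro u _
    rw [Finset.mem_filter, Finset.mem_range]
    exact ⟨ZMod.val_lt _, ZMod.val_coe_unit_coprime u⟩
  · intro u _ v _ huv
    exact Units.ext (ZMod.val_injective n huv)
  · intro a ha
    rw [Finset.mem_filter, Finset.mem_range] at ha
    refine ⟨ZMod.unitOfCoprime a ha.2, Finset.mem_univ _, ?_⟩
    rw [ZMod.coe_unitOfCoprime, ZMod.val_natCast, Nat.mod_eq_of_lt ha.1]
  · intro u _
    rfl

/-- the local data for one index -/
theorem loc {n : ℕ} [NeZero n] {N : ℕ}
    {x : ℕ → K0 (LaurentPolynomial (MonoidAlgebra ℤ (Multiplicative (ZMod n))))}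
    (h : LocN.{v} n N x) (p : ℕ) [Fact p.Prime] (hp : p ∣ n) :
    ∃ t : (ZMod n)ˣ → ℚ_[p],
      (∀ (Y : (ZMod n)ˣ → ℚ) (y : ℚ), ∑ u, t u * (Y u : ℚ_[p]) = (y : ℚ_[p]) →
        ∀ z, (N : ℚ) * ∑ u ∈ ucl p z, Y u = y * (ucl p z).card) ∧
      ∀ {G : Type v} [Group G] (ψ : Multiplicative (ZMod n) →* G),
        ∃ w : ∀ (q : ℕ) [Fact q.Prime], G → ℚ_[q],
          Triv (K0.map (mapL (grm ψ)) (x p)) w ∧
          Triv (- K0.map (mapL (grm ψ)) (x p)) (fun q _ h => - w q h) ∧
          (∀ (h : G) (Y : (ZMod n)ˣ → ℚ), (∀ u : (ZMod n)ˣ, IsConj h (ψ (gn n) ^ (u : ZMod n).val) → Y u = 1) →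
            (∀ u : (ZMod n)ˣ, ¬ IsConj h (ψ (gn n) ^ (u : ZMod n).val) → Y u = 0) →
            w p h = ∑ u : (ZMod n)ˣ, t u * (Y u : ℚ_[p])) ∧
          ∀ (q : ℕ) [Fact q.Prime], q ≠ p → ∀ h, w q h = 0 := by
  classical
  obtain ⟨t, h1, h2⟩ := h p hp
  refine ⟨t, ?_, ?_⟩
  · intro Y y hY z
    have h3 := h1 Y y hY z
    have h4 : ucl p z = Finset.univ.filter (fun u => uR n p u z) := by
      ext u
      rw [mem_ucl, Finset.mem_filter]
      exact ⟨fun h => ⟨Finset.mem_univ _, h⟩, fun h => h.2⟩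
    rw [h4]
    exact h3
  · intro G _ ψ
    obtain ⟨w, w1, w2, w3, w4⟩ := h2 ψ
    refine ⟨w, w1, w2, ?_, w4⟩
    intro h Y hY1 hY2
    rw [w3 h]
    apply Finset.sum_congr rfl
    intro u _
    congr 1
    by_cases hc : IsConj h (ψ (gn n) ^ (u : ZMod n).val)
    · rw [if_pos hc.symm, hY1 u hc, Rat.cast_one]
    · rw [if_neg (fun hc' => hc hc'.symm), hY2 u hc, Rat.cast_zero]

end TRL

open TRL

open scoped Classical in
theorem t_TRL : S_TRL.{v} := by
  intro G _ N x hN hκ L hL c hc
  -- choose the local data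
  have hκ' : ∀ (n : ℕ) (hn : 0 < n) (p : ℕ) (hp : p.Prime) (hpn : p ∣ n),
      haveI : NeZero n := ⟨hn.ne'⟩
      haveI : Fact p.Prime := ⟨hp⟩
      ∃ t : (ZMod n)ˣ → ℚ_[p],
      (∀ (Y : (ZMod n)ˣ → ℚ) (y : ℚ), ∑ u, t u * (Y u : ℚ_[p]) = (y : ℚ_[p]) →
        ∀ z, (N n : ℚ) * ∑ u ∈ ucl p z, Y u = y * (ucl p z).card) ∧
      ∀ (ψ : Multiplicative (ZMod n) →* G),
        ∃ w : ∀ (q : ℕ) [Fact q.Prime], G → ℚ_[q],
          Triv (K0.map (mapL (grm ψ)) (x n p)) w ∧
          Triv (- K0.map (mapL (grm ψ)) (x n p)) (fun q _ h => - w q h) ∧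
          (∀ (h : G) (Y : (ZMod n)ˣ → ℚ), (∀ u : (ZMod n)ˣ, IsConj h (ψ (gn n) ^ (u : ZMod n).val) → Y u = 1) →
            (∀ u : (ZMod n)ˣ, ¬ IsConj h (ψ (gn n) ^ (u : ZMod n).val) → Y u = 0) →
            w p h = ∑ u : (ZMod n)ˣ, t u * (Y u : ℚ_[p])) ∧
          ∀ (q : ℕ) [Fact q.Prime], q ≠ p → ∀ h, w q h = 0 := by
    intro n hn p hp hpn
    have : NeZero n := ⟨hn.ne'⟩
    have : Fact p.Prime := ⟨hp⟩
    obtain ⟨t, h1, h2⟩ := loc (hκ n) p hpn
    exact ⟨t, h1, fun ψ => h2 ψ⟩
  choose t ht1 ht2 using hκ'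
  choose w hw1 hw2 hw3 hw4 using fun j : IdxM G => ht2 j.n j.hn j.p j.hp j.hpn j.φ
  -- detection
  have htriv := Triv.sum c.support (fun j _ => (hw1 j).zsmul (hw2 j) (c j))
  have hmem : ∑ j ∈ c.support, c j • K0.map (mapL (grm j.φ)) (x j.n j.p) ∈
      (K0.map (posIncl (MonoidAlgebra ℤ G))).range ⊔
      (K0.map (negIncl (MonoidAlgebra ℤ G))).range := by
    apply KNegOne.mk_eq_zero
    rw [map_sum]
    have h1 : (c.sum fun j m => m • Kg j.φ (KNegOne.mk (x j.n j.p))) =
        ∑ j ∈ c.support, c j • Kg j.φ (KNegOne.mk (x j.n j.p)) := rfl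
    rw [h1] at hc
    rw [← hc]
    apply Finset.sum_congr rfl
    intro j _
    rw [map_zsmul, KNegOne.map_mk]
  obtain ⟨y, hy⟩ := detection htriv hmem
  have wform : ∀ (n : ℕ) (hn : 0 < n) (q : ℕ) (hq : q.Prime) (hqn : q ∣ n) (j : IdxM G)
      (_ : j.n = n) (_ : j.p = q) (h : G),
      haveI : NeZero n := ⟨hn.ne'⟩
      haveI : Fact q.Prime := ⟨hq⟩
      w j q h = ∑ u : (ZMod n)ˣ, t n hn q hq hqn u *
        (((if IsConj h (hh j ^ (u : ZMod n).val) then 1 else 0 : ℚ)) : ℚ_[q]) := by
    intro n hn q hq hqn j h1 h2 h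
    subst h1
    subst h2
    refine hw3 j h _ ?_ ?_
    · intro u hu
      exact if_pos hu
    · intro u hu
      exact if_neg hu
  -- the relation for one prime and one element
  have star : ∀ (n : ℕ) (hn : 0 < n) (h0 : G) (_ : orderOf h0 = n) (q : ℕ) (_ : q.Prime)
      (_ : q ∣ n),
      haveI : NeZero n := ⟨hn.ne'⟩
      ∀ z : (ZMod n)ˣ, (N n : ℚ) * ∑ u ∈ ucl q z, ∑ j ∈ c.support.filter
        (fun j => j.n = n ∧ j.p = q),
        (c j : ℚ) * (if IsConj h0 (hh j ^ (u : ZMod n).val) then 1 else 0 : ℚ) =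
      y h0 * (ucl q z).card := by
    intro n hn h0 hord q hq hqn
    have : NeZero n := ⟨hn.ne'⟩
    have : Fact q.Prime := ⟨hq⟩
    apply ht1 n hn q hq hqn
    have hfin : IsOfFinOrder h0 := by
      rw [← orderOf_pos_iff, hord]
      exact hn
    have h1 := hy q h0 hfin (by rw [hord]; exact hqn)
    rw [← h1]
    have h2 : ∀ j ∈ c.support, j ∉ c.support.filter (fun j => j.n = n ∧ j.p = q) →
        (c j : ℚ_[q]) * w j q h0 = 0 := by
      intro j hj hj'
      by_cases hjp : j.p = q
      · have hjn : j.n ≠ n := fun h => hj' (Finset.mem_filter.2 ⟨hj, h, hjp⟩)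
        have : NeZero j.n := ⟨j.hn.ne'⟩
        rw [wform j.n j.hn q hq (by rw [← hjp]; exact j.hpn) j rfl hjp h0, Finset.sum_eq_zero,
          mul_zero]
        intro u _
        rw [if_neg, Rat.cast_zero, mul_zero]
        intro hcon
        apply hjn
        have h3 : orderOf (hh j ^ (u : ZMod j.n).val) = j.n := orderOf_pow_val (orderOf_hh j) u
        have h4 : orderOf h0 = orderOf (hh j ^ (u : ZMod j.n).val) := by
          obtain ⟨v, hv⟩ := hcon
          exact hv.orderOf_eq (v : G)
        rw [← h3, ← h4, hord]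
      · rw [hw4 j q (fun h => hjp h.symm), mul_zero]
    change _ = ∑ j ∈ c.support, (c j : ℚ_[q]) * w j q h0
    rw [← Finset.sum_subset (Finset.filter_subset (fun j => j.n = n ∧ j.p = q) c.support) h2]
    push_cast
    simp only [Finset.mul_sum]
    rw [Finset.sum_comm]
    apply Finset.sum_congr rfl
    intro j hj
    obtain ⟨-, hjn, hjp⟩ := Finset.mem_filter.1 hj
    rw [wform n hn q hq hqn j hjn hjp h0, Finset.mul_sum]
    apply Finset.sum_congr rfl
    intro u _
    ring
  -- the main computation for one class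
  have main : ∀ j0 : IdxM G, ∑ j ∈ c.support.filter (fun j => cz (hh j) = cz (hh j0)),
      (c j : ℚ) * L j.p (hh j) = 0 := by
    intro j0
    have hNe : NeZero j0.n := ⟨j0.hn.ne'⟩
    set n := j0.n with hn
    set h0 := hh j0 with hh0
    have hnpos : 0 < n := j0.hn
    have hord : orderOf h0 = n := orderOf_hh j0
    have hfin : IsOfFinOrder h0 := by
      rw [← orderOf_pos_iff, hord]
      exact j0.hn
    have hpow : h0 ^ n = 1 := by rw [← hord]; exact pow_orderOf_eq_one _
    have hNn : (N n : ℚ) ≠ 0 := Nat.cast_ne_zero.2 (hN n hnpos).ne'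
    -- the number of units conjugating `j.h` into `h0`
    let W : Finset (ZMod n)ˣ := Finset.univ.filter (fun u => IsConj h0 (h0 ^ (u : ZMod n).val))
    have hW : (W.card : ℚ) ≠ 0 := by
      have : (1 : (ZMod n)ˣ) ∈ W := by
        rw [Finset.mem_filter, pow_val_one hpow]
        exact ⟨Finset.mem_univ _, IsConj.refl _⟩
      exact Nat.cast_ne_zero.2 (Finset.card_pos.2 ⟨_, this⟩).ne'
    have hr : ∀ j : IdxM G, j.n = n →
        ((Finset.univ.filter (fun u : (ZMod n)ˣ => IsConj h0 (hh j ^ (u : ZMod n).val))).card : ℚ) =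
        if cz (hh j) = cz h0 then (W.card : ℚ) else 0 := by
      intro j hjn
      have hjord : orderOf (hh j) = n := by rw [orderOf_hh j, hjn]
      have hjpow : (hh j) ^ n = 1 := by rw [← hjord]; exact pow_orderOf_eq_one _
      split_ifs with hcz
      · obtain ⟨u0, hu0⟩ := exists_unit_of_cz hjord hcz
        congr 1
        refine Finset.card_bij (fun u _ => u0⁻¹ * u) ?_ ?_ ?_
        · intro u hu
          rw [Finset.mem_filter] at hu ⊢
          refine ⟨Finset.mem_univ _, hu.2.trans ?_⟩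
          have h1 := isConj_pow_nat hu0.symm ((u0⁻¹ * u : (ZMod n)ˣ) : ZMod n).val
          rw [← pow_val_mul hjpow, mul_inv_cancel_left] at h1
          exact h1
        · intro u _ v _ huv
          exact mul_left_cancel huv
        · intro v hv
          refine ⟨u0 * v, ?_, by rw [inv_mul_cancel_left]⟩
          rw [Finset.mem_filter] at hv ⊢
          refine ⟨Finset.mem_univ _, hv.2.trans ?_⟩
          rw [pow_val_mul hjpow]
          exact isConj_pow_nat hu0 _
      · rw [Nat.cast_eq_zero, Finset.card_eq_zero, Finset.filter_eq_empty_iff]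
        intro u _ hu
        apply hcz
        rw [← cz_pow_val hjpow u]
        exact (cz_of_isConj hu).symm
    -- the computation for one prime
    have hprime : ∀ q : ℕ, q.Prime → q ∣ n → y h0 * ∑ a : (ZMod n)ˣ, L q (h0 ^ (a : ZMod n).val) =
        (N n : ℚ) * W.card * ∑ j ∈ c.support.filter (fun j => cz (hh j) = cz h0 ∧ j.p = q),
          (c j : ℚ) * L j.p (hh j) := by
      intro q hq hqn
      let Y' : (ZMod n)ˣ → ℚ := fun u => ∑ j ∈ c.support.filter (fun j => j.n = n ∧ j.p = q),
        (c j : ℚ) * (if IsConj h0 (hh j ^ (u : ZMod n).val) then L q (hh j) else 0)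
      have h1 : ∀ a : (ZMod n)ˣ, y h0 * L q (h0 ^ (a : ZMod n).val) =
          (N n : ℚ) * ((∑ u ∈ ucl q a⁻¹, Y' u) / ((ucl q a⁻¹).card : ℚ)) := by
        intro a
        have h2 := star n hnpos h0 hord q hq hqn a⁻¹
        have h3 : ((ucl q a⁻¹).card : ℚ) ≠ 0 := Nat.cast_ne_zero.2 (card_ucl_pos q a⁻¹).ne'
        rw [← mul_div_assoc, eq_div_iff h3]
        have h4 : ∑ u ∈ ucl q a⁻¹, Y' u = (∑ u ∈ ucl q a⁻¹, ∑ j ∈ c.support.filter
            (fun j => j.n = n ∧ j.p = q),
            (c j : ℚ) * (if IsConj h0 (hh j ^ (u : ZMod n).val) then 1 else 0 : ℚ)) *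
              L q (h0 ^ (a : ZMod n).val) := by
          rw [Finset.sum_mul]
          apply Finset.sum_congr rfl
          intro u hu
          rw [Finset.sum_mul]
          apply Finset.sum_congr rfl
          intro j hj
          obtain ⟨-, hjn, hjp⟩ := Finset.mem_filter.1 hj
          have hjord : orderOf (hh j) = n := by rw [orderOf_hh j, hjn]
          have hjpow : (hh j) ^ n = 1 := by rw [← hjord]; exact pow_orderOf_eq_one _
          by_cases hc : IsConj h0 (hh j ^ (u : ZMod n).val)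
          · rw [if_pos hc, if_pos hc, mul_one]
            congr 1
            -- `L q (h0 ^ a) = L q (hh j ^ (u a)) = L q (hh j)`
            have h5 : IsConj (h0 ^ (a : ZMod n).val) (hh j ^ ((u * a : (ZMod n)ˣ) : ZMod n).val) := by
              rw [pow_val_mul hjpow]
              exact isConj_pow_nat hc _
            obtain ⟨b, hb⟩ := isConj_iff.1 h5
            have h6 : L q (h0 ^ (a : ZMod n).val) =
                L q (hh j ^ ((u * a : (ZMod n)ˣ) : ZMod n).val) := by
              rw [← hb]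
              exact (hL.conj q _ b).symm
            rw [h6]
            have h7 : uRel n q (u * a) 1 := by
              have h8 := uRel_mul (mem_ucl.1 hu) a
              rwa [inv_mul_cancel] at h8
            obtain ⟨i, k, hik⟩ := h7
            symm
            apply hL.frob q _ _ i k (zpowers_pow_val hjpow _)
            rw [← pow_mul, pow_eq_pow_iff_modEq, hjord, ← ZMod.natCast_eq_natCast_iff]
            push_cast
            rw [ZMod.natCast_zmod_val]
            rw [Units.val_one, one_mul] at hik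
            rw [← hik, Units.val_mul]
          · rw [if_neg hc, if_neg hc, mul_zero, zero_mul]
        rw [h4, ← mul_assoc, h2]
        ring
      rw [Finset.mul_sum, Finset.sum_congr rfl (fun a _ => h1 a), ← Finset.mul_sum, sum_classes,
        mul_assoc]
      congr 1
      simp only [Y']
      rw [Finset.sum_comm]
      have h2 : ∀ j ∈ c.support.filter (fun j => j.n = n ∧ j.p = q), ∑ u : (ZMod n)ˣ,
          (c j : ℚ) * (if IsConj h0 (hh j ^ (u : ZMod n).val) then L q (hh j) else 0) =
          if cz (hh j) = cz h0 then (W.card : ℚ) * ((c j : ℚ) * L j.p (hh j)) else 0 := by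
        intro j hj
        obtain ⟨-, hjn, hjp⟩ := Finset.mem_filter.1 hj
        have h3 := hr j hjn
        rw [← Finset.mul_sum, ← Finset.sum_filter, Finset.sum_const, nsmul_eq_mul, h3, hjp]
        split_ifs <;> ring
      rw [Finset.sum_congr rfl h2, ← Finset.sum_filter, Finset.filter_filter, Finset.mul_sum]
      apply Finset.sum_congr _ (fun _ _ => rfl)
      ext j
      rw [Finset.mem_filter, Finset.mem_filter]
      constructor
      · rintro ⟨h3, ⟨-, h4⟩, h5⟩
        exact ⟨h3, h5, h4⟩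
      · rintro ⟨h3, h4, h5⟩
        refine ⟨h3, ⟨?_, h5⟩, h4⟩
        rw [← orderOf_hh j, orderOf_of_cz h4, hord]
    -- conclusion
    have hsum : (N n : ℚ) * W.card * ∑ j ∈ c.support.filter (fun j => cz (hh j) = cz h0),
        (c j : ℚ) * L j.p (hh j) = 0 := by
      have h1 : ∑ j ∈ c.support.filter (fun j => cz (hh j) = cz h0),
          (c j : ℚ) * L j.p (hh j) =
          ∑ q ∈ n.primeFactors, ∑ j ∈ c.support.filter (fun j => cz (hh j) = cz h0 ∧ j.p = q),
          (c j : ℚ) * L j.p (hh j) := by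
        rw [← Finset.sum_fiberwise_of_maps_to (t := n.primeFactors) (g := fun j : IdxM G => j.p)]
        · apply Finset.sum_congr rfl
          intro q _
          rw [Finset.filter_filter]
        · intro j hj
          have h2 := (Finset.mem_filter.1 hj).2
          have h3 : j.n = n := by rw [← orderOf_hh j, orderOf_of_cz h2, hord]
          rw [Nat.mem_primeFactors]
          refine ⟨j.hp, ?_, hnpos.ne'⟩
          rw [← h3]
          exact j.hpn
      have h4 : ∑ q ∈ n.primeFactors, y h0 * ∑ a : (ZMod n)ˣ, L q (h0 ^ (a : ZMod n).val) = 0 := by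
        rw [← Finset.mul_sum]
        have h3 := hL.sum h0 hfin
        rw [hord] at h3
        have h5 : ∑ q ∈ n.primeFactors, ∑ a : (ZMod n)ˣ, L q (h0 ^ (a : ZMod n).val) = 0 := by
          rw [← h3]
          apply Finset.sum_congr rfl
          intro q _
          exact sum_units (fun z => L q z)
        rw [h5, mul_zero]
      rw [← h4, h1, Finset.mul_sum]
      apply Finset.sum_congr rfl
      intro q hq
      rw [hprime q (Nat.prime_of_mem_primeFactors hq) (Nat.dvd_of_mem_primeFactors hq)]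
    exact (mul_eq_zero.1 hsum).resolve_left (mul_ne_zero hNn hW)
  -- partition
  change ∑ j ∈ c.support, (c j : ℚ) * L j.p (hh j) = 0
  rw [← Finset.sum_fiberwise_of_maps_to (t := c.support.image (fun j => cz (hh j)))
    (g := fun j : IdxM G => cz (hh j)) (fun j hj => Finset.mem_image_of_mem _ hj)]
  apply Finset.sum_eq_zero
  intro K hK
  obtain ⟨j0, -, rfl⟩ := Finset.mem_image.1 hK
  exact main j0

end Pool.Agent.KM
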