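import Pool.Agent.KM.St5
import Pool.Agent.Lib_helper25.Final0

/-!
# Functionals vanishing on the basis vanish on the universal classes (KM_YBA)
-/

set_option autoImplicit false

open Matrix Polynomial Pool.Agent.Lib25

noncomputable section

namespace Pool.Agent.KM

universe u v

namespace YBA

/-- Evaluation as a linear map. -/
def evL {A : Type u} [AddCommGroup A] (a : A) : (A →+ ℚ) →ₗ[ℚ] ℚ where
  toFun Λ := Λ a
  map_add' _ _ := rfl
  map_smul' _ _ := rfl

variable {G : Type u} [Group G]

theorem range_conj {C : Type*} [Group C] (φ : C →* G) (g : G) :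
    ((MulAut.conj g).toMonoidHom.comp φ).range = φ.range.map (MulAut.conj g).toMonoidHom := by
  rw [MonoidHom.map_range]

theorem inj_conj {C : Type*} [Group C] (φ : C →* G) (hφ : Function.Injective φ) (g : G) :
    Function.Injective ((MulAut.conj g).toMonoidHom.comp φ) :=
  (MulAut.conj g).injective.comp hφ

theorem card_range {M : ℕ} [NeZero M] (φ : Multiplicative (ZMod M) →* G)
    (hφ : Function.Injective φ) : Nat.card φ.range = M := by
  rw [← Nat.card_congr (MonoidHom.ofInjective hφ).toEquiv]
  change Nat.card (ZMod M) = M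
  simp

theorem map_conj_map (D : Subgroup G) (g h : G) :
    (D.map (MulAut.conj g).toMonoidHom).map (MulAut.conj h).toMonoidHom =
      D.map (MulAut.conj (h * g)).toMonoidHom := by
  rw [Subgroup.map_map]
  congr 1
  ext x
  simp [mul_assoc]

theorem map_conj_one (D : Subgroup G) : D.map (MulAut.conj (1 : G)).toMonoidHom = D := by
  have h : (MulAut.conj (1 : G)).toMonoidHom = MonoidHom.id G := by
    ext x
    simp
  rw [h, Subgroup.map_id]

theorem zero_of_T (κ : ∀ N : ℕ, ℕ → KNegOne (MonoidAlgebra ℤ (Multiplicative (ZMod N))))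
    (D : Subgroup G) (Λ : Src G →+ ℚ)
    (hD : ∀ p : ℕ, p.Prime → p ∣ Nat.card D → ∀ φ : Multiplicative (ZMod (Nat.card D)) →* G,
      Function.Injective φ → φ.range = D → ∀ [Finite (Multiplicative (ZMod (Nat.card D)))],
      Λ (scl φ (κ (Nat.card D) p)) = 0)
    (M : ℕ) [NeZero M] (p : ℕ) (hp : p.Prime) (hpM : p ∣ M)
    (φ : Multiplicative (ZMod M) →* G) (hφ : Function.Injective φ) (g : G)
    (hg : D = φ.range.map (MulAut.conj g).toMonoidHom) : Λ (scl φ (κ M p)) = 0 := by
  have h1 : ((MulAut.conj g).toMonoidHom.comp φ).range = D := by rw [range_conj, hg]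
  have hinj := inj_conj φ hφ g
  have hM : M = Nat.card D := by
    rw [← h1]
    exact (card_range _ hinj).symm
  rw [← scl_conj φ g]
  revert h1 hinj
  generalize (MulAut.conj g).toMonoidHom.comp φ = φ'
  intro h1 hinj
  clear hg hφ
  subst hM
  exact hD p hp hpM φ' hinj h1

end YBA

open YBA

theorem t_YBA (hYDM : S_YDM.{u}) (hTFI : S_TFI.{u}) : S_YBA.{u, v} := by
  intro κ ω hω hdet0 hInv G _ I C hC x hx Λ0 hΛ0 M _ hM p hp hpM φ hφ
  classical
  -- the linear forms
  choose T hT using fun i => hYDM κ hInv (C i) (hC.fin i) (hC.cyc i) (hC.nt i)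
  -- representatives for ranges
  have hrep : ∀ (K : ℕ) [NeZero K] (_ : 1 < K) (ψ : Multiplicative (ZMod K) →* G),
      Function.Injective ψ → ∃ (i : I) (g : G), C i = ψ.range.map (MulAut.conj g).toMonoidHom := by
    intro K _ hK ψ hψ
    apply hC.all
    · infer_instance
    · exact (MonoidHom.ofInjective hψ).isCyclic.1 inferInstance
    · intro h
      have h1 := card_range ψ hψ
      rw [h] at h1
      simp at h1
      omega
  obtain ⟨i0, g0, hg0⟩ := hrep M hM φ hφ
  -- the finite set of subconjugate classes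
  let I0 : Set I := {j | ∃ g : G, (C j).map (MulAut.conj g).toMonoidHom ≤ C i0}
  have hI0 : I0.Finite := by
    have hsub : {D : Subgroup G | D ≤ C i0}.Finite := by
      have := hC.fin i0
      have h1 : {s : Set G | s ⊆ (C i0 : Set G)}.Finite :=
        Set.Finite.finite_subsets (Set.toFinite _)
      exact Set.Finite.of_injOn (f := fun D : Subgroup G => (D : Set G)) (fun D hD => hD)
        (fun D _ D' _ h => SetLike.coe_injective h) h1
    choose! g hg using fun (j : I) (hj : j ∈ I0) => hj
    refine Set.Finite.of_injOn (f := fun j => (C j).map (MulAut.conj (g j)).toMonoidHom)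
      (fun j hj => hg j hj) ?_ hsub
    intro j _ j' _ h
    apply hC.conj
    refine ⟨(g j)⁻¹ * g j', ?_⟩
    have h1 := congrArg (fun D : Subgroup G => D.map (MulAut.conj (g j)⁻¹).toMonoidHom) h
    simp only [map_conj_map] at h1
    rw [inv_mul_cancel, map_conj_one] at h1
    exact h1
  have hi0 : i0 ∈ I0 := ⟨1, by rw [map_conj_one]⟩
  -- vanishing on the classes of `I0`
  have hvan : ∀ Λ : Src G →+ ℚ, (∀ j ∈ I0, T j Λ = 0) → ∀ j ∈ I0,
      ∀ y, Λ (Src.of ⟨C j, hC.fin j⟩ y) = 0 := by
    intro Λ hΛ j hj y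
    have := hC.fin j
    have h3 := hTFI κ ω hω hdet0 (C j) (Λ.comp (Src.of ⟨C j, hC.fin j⟩)) (by
      intro K hK q hq hqK ψ hψ
      have : NeZero K := ⟨by omega⟩
      rw [AddMonoidHom.comp_apply, ← scl_subtype ⟨C j, hC.fin j⟩, scl_comp]
      have hinj : Function.Injective ((C j).subtype.comp ψ) :=
        (C j).subtype_injective.comp hψ
      obtain ⟨i, g, hg⟩ := hrep K hK _ hinj
      refine zero_of_T κ (C i) Λ (hT i Λ (hΛ i ?_)) K q hq hqK _ hinj g hg
      obtain ⟨g', hg'⟩ := hj
      refine ⟨g' * g⁻¹, ?_⟩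
      rw [hg, map_conj_map, inv_mul_cancel_right]
      refine le_trans (Subgroup.map_mono ?_) hg'
      rintro _ ⟨c, rfl⟩
      exact (ψ c).2)
    exact DFunLike.congr_fun h3 y
  by_contra hne
  -- the finite index set
  have : Fintype I0 := hI0.fintype
  let S0 : Type v := Σ j : I0, Fin (rkC (C j.1))
  let toS : S0 → (Σ i, Fin (rkC (C i))) := fun s => ⟨s.1.1, s.2⟩
  have htoS : Function.Injective toS := by
    rintro ⟨⟨j, hj⟩, a⟩ ⟨⟨j', hj'⟩, a'⟩ h
    obtain ⟨h1, h2⟩ := Sigma.mk.inj h
    change j = j' at h1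
    subst h1
    have h3 := eq_of_heq h2
    change a = a' at h3
    rw [h3]
  let a : Option S0 → Src G := fun o => o.elim (scl φ (κ M p)) fun s =>
    Src.of ⟨C (toS s).1, hC.fin (toS s).1⟩ (x (toS s))
  -- surjectivity of the evaluation
  have hsurj : ∀ b : Option S0 → ℚ, ∃ Λ : Src G →+ ℚ, ∀ o, Λ (a o) = b o := by
    intro b
    apply exists_functional
    intro c hc
    rw [Finsupp.sum_fintype _ _ (by simp), Fintype.sum_option] at hc
    have h1 : c none = 0 := by
      have h2 := congrArg Λ0 hc
      rw [map_add, map_sum, map_zero, map_zsmul, Finset.sum_eq_zero] at h2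
      · rw [add_zero, smul_eq_zero] at h2
        exact h2.resolve_right hne
      · intro s _
        rw [map_zsmul]
        change c (some s) • Λ0 (Src.of ⟨C (toS s).1, hC.fin (toS s).1⟩ (x (toS s))) = 0
        rw [hΛ0, smul_zero]
    rw [h1, zero_smul, zero_add] at hc
    have h3 : ∀ s : S0, c (some s) = 0 := by
      have h4 := congrArg (asm G) hc
      rw [map_sum, map_zero] at h4
      have h5 := (hx.comp toS htoS)
      rw [Fintype.linearIndependent_iff] at h5
      apply h5 (fun s => c (some s))
      rw [← h4]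
      apply Finset.sum_congr rfl
      intro s _
      rw [map_zsmul]
      congr 1
      exact (asm_of ⟨C (toS s).1, hC.fin (toS s).1⟩ (x (toS s))).symm
    rw [Finsupp.sum_fintype _ _ (by simp), Fintype.sum_option, h1]
    simp [h3]
  choose Λs hΛs using fun o : Option S0 => hsurj (Pi.single o 1)
  let L : (Option S0 → ℚ) →ₗ[ℚ] (Src G →+ ℚ) := Fintype.linearCombination ℚ Λs
  have hL : ∀ c o, L c (a o) = c o := by
    intro c o
    have h1 : L c (a o) = ∑ o', c o' * Λs o' (a o) := by
      have h2 : evL (a o) (L c) = ∑ o', c o' * Λs o' (a o) := by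
        change evL (a o) (Fintype.linearCombination ℚ Λs c) = _
        rw [Fintype.linearCombination_apply, map_sum]
        apply Finset.sum_congr rfl
        intro o' _
        rw [map_smul]
        rfl
      exact h2
    rw [h1]
    simp only [hΛs]
    rw [Finset.sum_eq_single o]
    · rw [Pi.single_eq_same, mul_one]
    · intro o' _ ho'
      rw [Pi.single_eq_of_ne (Ne.symm ho'), mul_zero]
    · intro h
      exact absurd (Finset.mem_univ _) h
  let TT : (Src G →+ ℚ) →ₗ[ℚ] (S0 → ℚ) :=
    LinearMap.pi fun s => (LinearMap.proj s.2).comp (T s.1.1)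
  have hinj : Function.Injective (TT.comp L) := by
    rw [← LinearMap.ker_eq_bot, LinearMap.ker_eq_bot']
    intro c hc
    have h1 : ∀ j ∈ I0, T j (L c) = 0 := by
      intro j hj
      funext k
      exact congrFun hc (⟨⟨j, hj⟩, k⟩ : S0)
    funext o
    rw [← hL c o]
    rcases o with _ | s
    · exact zero_of_T κ (C i0) (L c) (hT i0 (L c) (h1 i0 hi0)) M p hp hpM φ hφ g0 hg0
    · exact hvan (L c) h1 s.1.1 s.1.2 _
  have hcard := LinearMap.finrank_le_finrank_of_injective hinj
  rw [Module.finrank_pi, Module.finrank_pi, Fintype.card_option] at hcard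
  omega

end Pool.Agent.KM
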