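import Pool.Agent.KM.St5
import Pool.Agent.KM.P_TCY

/-!
# KM_YDM: the values of a functional at the classes of one cyclic subgroup
-/

set_option autoImplicit false
set_option linter.unusedSectionVars false

open Matrix Polynomial Pool.Agent.Lib25

noncomputable section

namespace Pool.Agent.KM

universe u v

namespace YDM

variable {G : Type u} [Group G] {N : ℕ} [NeZero N]

theorem eq_gn_pow (x : Multiplicative (ZMod N)) : ∃ k : ℕ, x = gn N ^ k := by
  refine ⟨(Multiplicative.toAdd x : ZMod N).val, ?_⟩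
  rw [← ofAdd_nsmul, nsmul_eq_mul, mul_one, ZMod.natCast_zmod_val]
  rfl

theorem hom_ext {φ ψ : Multiplicative (ZMod N) →* G} (h : φ (gn N) = ψ (gn N)) : φ = ψ := by
  refine MonoidHom.ext fun x => ?_
  obtain ⟨k, rfl⟩ := eq_gn_pow x
  rw [map_pow, map_pow, h]

theorem range_eq (φ : Multiplicative (ZMod N) →* G) :
    φ.range = Subgroup.zpowers (φ (gn N)) := by
  apply le_antisymm
  · rintro _ ⟨x, rfl⟩
    obtain ⟨k, rfl⟩ := eq_gn_pow x
    rw [map_pow]
    exact Subgroup.npow_mem_zpowers _ k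
  · rw [Subgroup.zpowers_le]
    exact ⟨_, rfl⟩

theorem exists_hom (z : G) (hz : orderOf z = N) :
    ∃ φ : Multiplicative (ZMod N) →* G, Function.Injective φ ∧ φ (gn N) = z := by
  have h0 : (zmultiplesHom (Additive G)) (Additive.ofMul z) ((N : ℕ) : ℤ) = 0 := by
    rw [zmultiplesHom_apply, natCast_zsmul, ← ofMul_pow, ← hz, pow_orderOf_eq_one]
    rfl
  refine ⟨AddMonoidHom.toMultiplicativeLeft (ZMod.lift N ⟨_, h0⟩), ?_, ?_⟩
  · have h1 : Function.Injective (ZMod.lift N ⟨_, h0⟩) := by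
      rw [ZMod.lift_injective]
      intro m hm
      change (zmultiplesHom (Additive G)) (Additive.ofMul z) m = 0 at hm
      rw [zmultiplesHom_apply, ← ofMul_zpow] at hm
      have h2 : z ^ m = 1 := hm
      rw [← orderOf_dvd_iff_zpow_eq_one, hz] at h2
      rwa [ZMod.intCast_zmod_eq_zero_iff_dvd]
    exact h1
  · change (ZMod.lift N ⟨_, h0⟩ (1 : ZMod N)).toMul = z
    have h1 := ZMod.lift_coe N ⟨_, h0⟩ 1
    rw [Int.cast_one] at h1
    rw [h1]
    change ((zmultiplesHom (Additive G)) (Additive.ofMul z) 1).toMul = z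
    rw [zmultiplesHom_apply, one_zsmul]
    rfl

variable {C : Subgroup G}

theorem zpowers_gens (y : Gens C) : Subgroup.zpowers ((y.1 : C) : G) = C := by
  have h1 := congrArg (Subgroup.map C.subtype) y.2
  rw [MonoidHom.map_zpowers, ← MonoidHom.range_eq_map, Subgroup.range_subtype] at h1
  exact h1

theorem orderOf_gens (hN : Nat.card C = N) (y : Gens C) : orderOf ((y.1 : C) : G) = N := by
  rw [← Nat.card_zpowers, zpowers_gens, hN]

/-- The generator of `C` attached to a homomorphism with range `C`. -/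
def mkGen (φ : Multiplicative (ZMod N) →* G) (hφ : φ.range = C) : Gens C :=
  ⟨⟨φ (gn N), by rw [← hφ]; exact ⟨_, rfl⟩⟩, by
    rw [eq_top_iff]
    rintro ⟨x, hx⟩ -
    have h1 := hx
    rw [← hφ, range_eq, Subgroup.mem_zpowers_iff] at h1
    obtain ⟨k, hk⟩ := h1
    rw [Subgroup.mem_zpowers_iff]
    exact ⟨k, Subtype.ext hk⟩⟩

theorem range_pwr (φ : Multiplicative (ZMod N) →* G) (w : (ZMod N)ˣ) :
    (φ.comp (pwr N w)).range = φ.range := by
  apply le_antisymm
  · rintro _ ⟨x, rfl⟩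
    exact ⟨_, rfl⟩
  · rintro _ ⟨x, rfl⟩
    obtain ⟨y, hy⟩ := Finite.surjective_of_injective (TCY.pwr_inj N w) x
    exact ⟨y, by rw [MonoidHom.comp_apply, hy]⟩

/-- Two injective homomorphisms with the same range differ by a power map. -/
theorem exists_pwr (φ ψ : Multiplicative (ZMod N) →* G) (hφ : Function.Injective φ)
    (hψ : Function.Injective ψ) (h : ψ.range = φ.range) :
    ∃ w : (ZMod N)ˣ, ψ = φ.comp (pwr N w) := by
  have h1 : ψ (gn N) ∈ φ.range := by
    rw [← h]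
    exact ⟨_, rfl⟩
  obtain ⟨x, hx⟩ := h1
  obtain ⟨a, rfl⟩ := eq_gn_pow x
  have hord : orderOf (gn N) = N := by
    have h2 := orderOf_ofAdd_eq_addOrderOf (1 : ZMod N)
    rw [ZMod.addOrderOf_one] at h2
    exact h2
  have h2 : orderOf (gn N ^ a) = N := by
    rw [← orderOf_injective φ hφ, hx, orderOf_injective ψ hψ, hord]
  have h3 : a.Coprime N := by
    rw [orderOf_pow, hord] at h2
    have h4 : N / N.gcd a * N.gcd a = N := Nat.div_mul_cancel (Nat.gcd_dvd_left N a)
    rw [h2] at h4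
    have h5 : N.gcd a = 1 := Nat.eq_of_mul_eq_mul_left (NeZero.pos N) (by rw [h4, mul_one])
    rw [Nat.coprime_comm]
    exact h5
  refine ⟨ZMod.unitOfCoprime a h3, ?_⟩
  apply hom_ext
  rw [MonoidHom.comp_apply, TCY.pwr_gn, ZMod.coe_unitOfCoprime, ← hx]
  congr 1
  rw [← ofAdd_nsmul, nsmul_eq_mul, mul_one]

end YDM

open YDM

theorem t_YDM : S_YDM.{u} := by
  intro κ hκ G _ C hfin hcyc hC
  unfold rkC
  generalize hN : Nat.card C = N
  have hNe : NeZero N := ⟨by rw [← hN]; exact Nat.card_pos.ne'⟩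
  have hN1 : 1 < N := by
    rw [← hN]
    exact Finite.one_lt_card_iff_nontrivial.2 ((Subgroup.nontrivial_iff_ne_bot C).2 hC)
  choose φ hφi hφg using fun y : Gens C => exists_hom ((y.1 : C) : G) (orderOf_gens hN y)
  have hφr : ∀ y, (φ y).range = C := fun y => by rw [range_eq, hφg, zpowers_gens]
  have huniq : ∀ (ψ : Multiplicative (ZMod N) →* G) (hr : ψ.range = C), φ (mkGen ψ hr) = ψ := by
    intro ψ hr
    apply hom_ext
    rw [hφg]
    rfl
  -- invariance
  have hinv : ∀ p : ℕ, p.Prime → p ∣ N → ∀ y y' : Gens C, clsRel C.subtype p y y' →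
      scl (φ y) (κ N p) = scl (φ y') (κ N p) := by
    intro p hp hpN y y' h
    rcases h with h | ⟨j, k, hjk⟩
    · rw [isConj_iff] at h
      obtain ⟨g, hg⟩ := h
      have h1 : φ y' = (MulAut.conj g).toMonoidHom.comp (φ y) := by
        apply hom_ext
        rw [MonoidHom.comp_apply, hφg, hφg]
        exact hg.symm
      rw [h1, scl_conj]
    · obtain ⟨w, hw⟩ := exists_pwr (φ y) (φ y') (hφi y) (hφi y') (by rw [hφr, hφr])
      rw [hw, ← scl_comp, hκ.pw N hN1 p hp hpN w]
      refine ⟨k, j, ?_⟩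
      have h1 : (φ y) ((gn N) ^ p ^ j) = (φ y) (Multiplicative.ofAdd (w : ZMod N) ^ p ^ k) := by
        rw [map_pow, map_pow, ← TCY.pwr_gn, ← MonoidHom.comp_apply, ← hw, hφg, hφg]
        exact_mod_cast congrArg Subtype.val hjk
      have h2 := hφi y h1
      rw [← ofAdd_nsmul, ← ofAdd_nsmul, nsmul_eq_mul, nsmul_eq_mul, mul_one] at h2
      have h3 := Multiplicative.ofAdd.injective h2
      push_cast at h3
      rw [mul_comm, ← h3, Units.val_one, one_mul]
  -- the sum relation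
  have : Finite (Gens C) := inferInstanceAs (Finite {x : C // Subgroup.zpowers x = ⊤})
  have : Fintype (Gens C) := Fintype.ofFinite _
  obtain ⟨y0⟩ : Nonempty (Gens C) := by
    obtain ⟨g, hg⟩ := hcyc.exists_generator
    exact ⟨⟨g, (Subgroup.eq_top_iff' _).2 hg⟩⟩
  have hsum : ∑ p ∈ N.primeFactors, ∑ y : Gens C, scl (φ y) (κ N p) = 0 := by
    have hE : Function.Bijective (fun w : (ZMod N)ˣ =>
        (mkGen ((φ y0).comp (pwr N w)) (by rw [range_pwr, hφr]) : Gens C)) := by
      constructor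
      · intro w w' h
        have h1 : (φ y0) (pwr N w (gn N)) = (φ y0) (pwr N w' (gn N)) :=
          congrArg (fun y : Gens C => ((y.1 : C) : G)) h
        have h2 := hφi y0 h1
        rw [TCY.pwr_gn, TCY.pwr_gn] at h2
        exact Units.ext (Multiplicative.ofAdd.injective h2)
      · intro y
        obtain ⟨w, hw⟩ := exists_pwr (φ y0) (φ y) (hφi y0) (hφi y) (by rw [hφr, hφr])
        refine ⟨w, ?_⟩
        apply Subtype.ext
        apply Subtype.ext
        change ((φ y0).comp (pwr N w)) (gn N) = ((y.1 : C) : G)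
        rw [← hw, hφg]
    have h1 : ∀ p, ∑ y : Gens C, scl (φ y) (κ N p) =
        scl (φ y0) (∑ w : (ZMod N)ˣ, Kg (pwr N w) (κ N p)) := by
      intro p
      rw [map_sum, ← hE.sum_comp (fun y => scl (φ y) (κ N p))]
      refine Finset.sum_congr rfl fun w _ => ?_
      rw [huniq, scl_comp]
    rw [Finset.sum_congr rfl (fun p _ => h1 p), ← map_sum, hκ.sum N hN1, map_zero]
  -- the linear forms
  obtain ⟨lam, hlam⟩ : ∃ lam : (Σ p : N.primeFactors, Quot (clsRel C.subtype (p : ℕ))) →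
      ((Src G →+ ℚ) →ₗ[ℚ] ℚ), ∀ (p : N.primeFactors) (y : Gens C) (Λ : Src G →+ ℚ),
      lam ⟨p, Quot.mk _ y⟩ Λ = Λ (scl (φ y) (κ N p)) := by
    refine ⟨fun a => Quot.lift (fun y =>
      ({ toFun := fun Λ => Λ (scl (φ y) (κ N a.1))
         map_add' := fun _ _ => rfl
         map_smul' := fun _ _ => rfl } : (Src G →+ ℚ) →ₗ[ℚ] ℚ)) ?_ a.2, fun _ _ _ => rfl⟩
    intro y y' h
    apply LinearMap.ext
    intro Λ
    change Λ (scl (φ y) (κ N a.1)) = Λ (scl (φ y') (κ N a.1))
    rw [hinv a.1 (Nat.prime_of_mem_primeFactors a.1.2) (Nat.dvd_of_mem_primeFactors a.1.2) y y' h]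
  obtain ⟨p0, hp0, hp0N⟩ := Nat.exists_prime_and_dvd hN1.ne'
  have hp0' : p0 ∈ N.primeFactors := Nat.mem_primeFactors.2 ⟨hp0, hp0N, (NeZero.ne N)⟩
  obtain ⟨a0, ha0⟩ : ∃ a0 : (Σ p : N.primeFactors, Quot (clsRel C.subtype (p : ℕ))),
    a0 = ⟨⟨p0, hp0'⟩, Quot.mk _ y0⟩ := ⟨_, rfl⟩
  have hcard : Nat.card {a : (Σ p : N.primeFactors, Quot (clsRel C.subtype (p : ℕ))) // a ≠ a0} =
      (∑ p ∈ N.primeFactors, nCls C.subtype p) - 1 := by
    classical
    have : Fintype (Σ p : N.primeFactors, Quot (clsRel C.subtype (p : ℕ))) := Fintype.ofFinite _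
    have h1 : Nat.card (Σ p : N.primeFactors, Quot (clsRel C.subtype (p : ℕ))) =
        ∑ p ∈ N.primeFactors, nCls C.subtype p := by
      rw [Nat.card_sigma, ← Finset.sum_coe_sort N.primeFactors (fun p => nCls C.subtype p)]
      rfl
    rw [← h1, Nat.card_eq_fintype_card, Nat.card_eq_fintype_card]
    exact Set.card_ne_eq a0
  obtain ⟨e⟩ : Nonempty (Fin ((∑ p ∈ N.primeFactors, nCls C.subtype p) - 1) ≃
      {a : (Σ p : N.primeFactors, Quot (clsRel C.subtype (p : ℕ))) // a ≠ a0}) :=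
    ⟨(Finite.equivFinOfCardEq hcard).symm⟩
  refine ⟨LinearMap.pi fun i => lam (e i).1, ?_⟩
  intro Λ hΛ p hp hpN ψ hψ hψr _
  have hz : ∀ a, a ≠ a0 → lam a Λ = 0 := by
    intro a ha
    have h1 := congrFun hΛ (e.symm ⟨a, ha⟩)
    rw [LinearMap.pi_apply, Equiv.apply_symm_apply] at h1
    exact h1
  have hz0 : lam a0 Λ = 0 := by
    classical
    have h1 := congrArg Λ hsum
    rw [map_zero, map_sum] at h1
    have h2 : ∑ z : (N.primeFactors × Gens C), (if (⟨z.1, Quot.mk _ z.2⟩ :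
        (Σ p : N.primeFactors, Quot (clsRel C.subtype (p : ℕ)))) = a0 then lam a0 Λ else 0) = 0 := by
      refine Eq.trans ?_ h1
      rw [← Finset.sum_coe_sort N.primeFactors, Fintype.sum_prod_type]
      refine Finset.sum_congr rfl fun p _ => ?_
      rw [map_sum]
      refine Finset.sum_congr rfl fun y _ => ?_
      rw [← hlam]
      split_ifs with h
      · rw [h]
      · rw [hz _ h]
    rw [Finset.sum_ite, Finset.sum_const_zero, add_zero, Finset.sum_const, nsmul_eq_mul,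
      mul_eq_zero] at h2
    rcases h2 with h2 | h2
    · exfalso
      rw [Nat.cast_eq_zero, Finset.card_eq_zero, Finset.filter_eq_empty_iff] at h2
      exact h2 (Finset.mem_univ ((⟨p0, hp0'⟩, y0) : N.primeFactors × Gens C)) ha0.symm
    · exact h2
  have hall : ∀ a, lam a Λ = 0 := by
    intro a
    by_cases ha : a = a0
    · rw [ha, hz0]
    · exact hz a ha
  have h1 := hlam ⟨p, Nat.mem_primeFactors.2 ⟨hp, hpN, NeZero.ne N⟩⟩ (mkGen ψ hψr) Λ
  rw [hall, huniq] at h1
  exact h1.symm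

end Pool.Agent.KM
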