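import Pool.Agent.KM.St5

/-!
# Rational generation of the source (KM_YFN)
-/

set_option autoImplicit false

open Matrix Polynomial Pool.Agent.Lib25

noncomputable section

namespace Pool.Agent.KM

universe u v

theorem t_YFN (hTAV : S_TAV.{u}) (hTFI : S_TFI.{u}) (hYBA : S_YBA.{u, v}) (hYSP : S_YSP.{u}) :
    S_YFN.{u, v} := by
  obtain ⟨κ, ω, hω, h1, h2, hdet, hdet0⟩ := hTAV
  intro G _ I C hC x hx z
  apply hYSP
  intro Λ hΛ
  have hvan := hYBA κ ω hω hdet0 ⟨h1, h2⟩ C hC x hx Λ (fun s => hΛ _ ⟨s, rfl⟩)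
  apply Src.hom_ext
  intro H y
  have := H.2
  have h3 := hTFI κ ω hω hdet0 H.1 (Λ.comp (Src.of H)) (by
    intro M hM p hp hpM φ hφ
    have : NeZero M := ⟨by omega⟩
    rw [AddMonoidHom.comp_apply, ← scl_subtype, scl_comp]
    exact hvan M hM p hp hpM _ (H.1.subtype_injective.comp hφ))
  exact DFunLike.congr_fun h3 y

end Pool.Agent.KM
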