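import Pool.Agent.KM.St5
import Pool.Agent.Lib_helper25.Final0

/-!
# KM_YSP: duality
-/

set_option autoImplicit false
set_option linter.unusedSectionVars false

open Matrix Polynomial Pool.Agent.Lib25

noncomputable section

namespace Pool.Agent.KM

universe u

theorem t_YSP : S_YSP.{u} := by
  intro A _ S hΛ a
  by_contra hcon
  push Not at hcon
  have hz : ∀ m : ℤ, m • a ∈ AddSubgroup.closure S → m = 0 := by
    intro m hm
    by_contra h0
    refine hcon m.natAbs (Int.natAbs_pos.2 h0) ?_
    rcases Int.natAbs_eq m with h1 | h1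
    · rw [h1, natCast_zsmul] at hm
      exact hm
    · rw [h1, neg_smul, natCast_zsmul, neg_mem_iff] at hm
      exact hm
  obtain ⟨F, hF⟩ := exists_functional (J := Unit)
    (fun _ => (QuotientAddGroup.mk' (AddSubgroup.closure S)) a) (fun _ => 1) (by
      intro c hc
      rw [Finsupp.unique_single c, Finsupp.sum_single_index (by simp)] at hc ⊢
      rw [← map_zsmul, QuotientAddGroup.mk'_apply, QuotientAddGroup.eq_zero_iff] at hc
      rw [hz _ hc]
      simp)
  have h1 := hΛ (F.comp (QuotientAddGroup.mk' (AddSubgroup.closure S))) (by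
    intro s hs
    have h2 : (QuotientAddGroup.mk' (AddSubgroup.closure S)) s = 0 :=
      (QuotientAddGroup.eq_zero_iff s).2 (AddSubgroup.subset_closure hs)
    rw [AddMonoidHom.comp_apply, h2, map_zero])
  have h3 := hF ()
  have h4 := congrArg (fun f : A →+ ℚ => f a) h1
  simp only [AddMonoidHom.comp_apply, AddMonoidHom.zero_apply] at h4
  rw [h4] at h3
  exact zero_ne_one h3

end Pool.Agent.KM
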