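import Pool.Agent.KM.St4

/-!
# KM_ZAD: the admissible function of a functional on the source
-/

set_option autoImplicit false
set_option linter.unusedSectionVars false

open Matrix Polynomial Pool.Agent.Lib25

noncomputable section

namespace Pool.Agent.KM

universe u v

namespace ZAD

section Cyc

variable {G : Type u} [Group G]

theorem gn_zpow (N : ℕ) (z : ℤ) : gn N ^ z = Multiplicative.ofAdd (z : ZMod N) := by
  rw [← ofAdd_zsmul, zsmul_one]

theorem gn_pow (N : ℕ) [NeZero N] (x : Multiplicative (ZMod N)) :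
    gn N ^ (Multiplicative.toAdd x).val = x := by
  rw [← ofAdd_nsmul, nsmul_one, ZMod.natCast_zmod_val]
  rfl

/-- the homomorphism which maps the generator to `h` -/
def hmg (N : ℕ) [NeZero N] (h : G) (hN : h ^ N = 1) : Multiplicative (ZMod N) →* G where
  toFun x := h ^ (Multiplicative.toAdd x).val
  map_one' := by
    change h ^ (0 : ZMod N).val = 1
    rw [ZMod.val_zero, pow_zero]
  map_mul' x y := by
    change h ^ (Multiplicative.toAdd x + Multiplicative.toAdd y).val = _
    rw [ZMod.val_add, ← pow_add, ← pow_eq_pow_mod _ hN]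

theorem hmg_gn (N : ℕ) [NeZero N] (h : G) (hN : h ^ N = 1) : hmg N h hN (gn N) = h := by
  change h ^ (1 : ZMod N).val = h
  rw [ZMod.val_one_eq_one_mod, ← pow_eq_pow_mod _ hN, pow_one]

theorem hom_ext {N : ℕ} [NeZero N] {φ ψ : Multiplicative (ZMod N) →* G}
    (h : φ (gn N) = ψ (gn N)) : φ = ψ := by
  apply MonoidHom.ext
  intro x
  rw [← gn_pow N x, map_pow, map_pow, h]

theorem hmg_int (N : ℕ) [NeZero N] (h : G) (hN : h ^ N = 1) (z : ℤ) :
    hmg N h hN (Multiplicative.ofAdd (z : ZMod N)) = h ^ z := by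
  rw [← gn_zpow, map_zpow, hmg_gn]

theorem hmg_inj {N : ℕ} [NeZero N] {h : G} (hN : orderOf h = N) (hN' : h ^ N = 1) :
    Function.Injective (hmg N h hN') := by
  intro x y hxy
  have h1 : (Multiplicative.toAdd x).val = (Multiplicative.toAdd y).val := by
    apply pow_injOn_Iio_orderOf (x := h)
    · rw [hN]
      exact ZMod.val_lt _
    · rw [hN]
      exact ZMod.val_lt _
    · exact hxy
  exact Multiplicative.toAdd.injective (ZMod.val_injective N h1)

theorem orderOf_gn (N : ℕ) [NeZero N] : orderOf (gn N) = N := by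
  rw [orderOf_ofAdd_eq_addOrderOf, ZMod.addOrderOf_one]

theorem pwr_apply {N : ℕ} [NeZero N] (w : (ZMod N)ˣ) (x : Multiplicative (ZMod N)) :
    pwr N w x = Multiplicative.ofAdd ((w : ZMod N) * Multiplicative.toAdd x) := by
  change x ^ (w : ZMod N).val = _
  have h1 : x = Multiplicative.ofAdd (Multiplicative.toAdd x) := rfl
  rw [h1, ← ofAdd_nsmul, nsmul_eq_mul, ZMod.natCast_zmod_val]
  rfl

theorem pwr_inj {N : ℕ} [NeZero N] (w : (ZMod N)ˣ) : Function.Injective (pwr N w) := by
  intro x y hxy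
  rw [pwr_apply, pwr_apply] at hxy
  have h1 := Multiplicative.ofAdd.injective hxy
  exact Multiplicative.toAdd.injective ((Units.mul_right_inj w).1 h1)

theorem sum_units {n : ℕ} [NeZero n] (h : G) (F : G → ℚ) :
    ∑ u : (ZMod n)ˣ, F (h ^ (u : ZMod n).val) =
      ∑ a ∈ (Finset.range n).filter (fun a => a.Coprime n), F (h ^ a) := by
  refine Finset.sum_bij (fun (u : (ZMod n)ˣ) _ => (u : ZMod n).val) ?_ ?_ ?_ ?_
  · intro u _
    rw [Finset.mem_filter, Finset.mem_range]
    exact ⟨ZMod.val_lt _, ZMod.val_coe_unit_coprime u⟩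
  · intro u _ v _ huv
    exact Units.ext (ZMod.val_injective n huv)
  · intro a ha
    rw [Finset.mem_filter, Finset.mem_range] at ha
    refine ⟨ZMod.unitOfCoprime a ha.2, Finset.mem_univ _, ?_⟩
    rw [ZMod.coe_unitOfCoprime, ZMod.val_natCast, Nat.mod_eq_of_lt ha.1]
  · intro u _
    rfl

end Cyc

section Main

variable (κ : ∀ N : ℕ, ℕ → KNegOne (MonoidAlgebra ℤ (Multiplicative (ZMod N)))) (ω : ℕ → ℚ)
  {G : Type u} [Group G] (Λ : Src G →+ ℚ)

open Classical in
/-- the admissible function -/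
def LL (p : ℕ) (h : G) : ℚ :=
  if hh : 1 < orderOf h ∧ p.Prime ∧ p ∣ orderOf h then
    have : NeZero (orderOf h) := ⟨by omega⟩
    Λ (scl (hmg (orderOf h) h (pow_orderOf_eq_one h)) (κ (orderOf h) p)) / ω (orderOf h)
  else 0

theorem LL_val {N : ℕ} [NeZero N] {h : G} (hN : orderOf h = N) (h1 : 1 < N) {p : ℕ}
    (hp : p.Prime) (hpN : p ∣ N) (hN' : h ^ N = 1) :
    LL κ ω Λ p h = Λ (scl (hmg N h hN') (κ N p)) / ω N := by
  subst hN
  unfold LL
  rw [dif_pos ⟨h1, hp, hpN⟩]

theorem LL_zero {p : ℕ} {h : G} (hh : ¬ (1 < orderOf h ∧ p.Prime ∧ p ∣ orderOf h)) :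
    LL κ ω Λ p h = 0 := by
  unfold LL
  rw [dif_neg hh]

theorem LL_eq (hω : ∀ N, 1 < N → ω N ≠ 0) {N : ℕ} [NeZero N] (h1 : 1 < N) {p : ℕ}
    (hp : p.Prime) (hpN : p ∣ N) (φ : Multiplicative (ZMod N) →* G)
    (hφ : Function.Injective φ) : ω N * LL κ ω Λ p (φ (gn N)) = Λ (scl φ (κ N p)) := by
  have hN : orderOf (φ (gn N)) = N := by
    rw [orderOf_injective φ hφ, orderOf_gn]
  have hN' : φ (gn N) ^ N = 1 := by
    rw [← orderOf_dvd_iff_pow_eq_one, hN]
  have e : hmg N (φ (gn N)) hN' = φ := hom_ext (hmg_gn N _ hN')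
  rw [LL_val κ ω Λ hN h1 hp hpN hN', e, mul_div_cancel₀ _ (hω N h1)]

end Main

end ZAD

open ZAD in
theorem t_ZAD : S_ZAD.{u} := by
  classical
  intro κ ω hω hκ1 hκ2 G _ Λ
  refine ⟨LL κ ω Λ, ⟨?_, ?_, ?_⟩, fun N _ h1 p hp hpN φ hφ => LL_eq κ ω Λ hω h1 hp hpN φ hφ⟩
  · -- conjugation
    intro p h x
    have ho : orderOf (x * h * x⁻¹) = orderOf h :=
      orderOf_injective (MulAut.conj x).toMonoidHom (MulAut.conj x).injective h
    by_cases hh : 1 < orderOf h ∧ p.Prime ∧ p ∣ orderOf h
    · haveI : NeZero (orderOf h) := ⟨by omega⟩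
      have e1 : h ^ orderOf h = 1 := pow_orderOf_eq_one h
      have e2 : (x * h * x⁻¹) ^ orderOf h = 1 := by
        rw [← ho]
        exact pow_orderOf_eq_one _
      rw [LL_val κ ω Λ ho hh.1 hh.2.1 hh.2.2 e2, LL_val κ ω Λ rfl hh.1 hh.2.1 hh.2.2 e1]
      have e3 : hmg (orderOf h) (x * h * x⁻¹) e2 =
          (MulAut.conj x).toMonoidHom.comp (hmg (orderOf h) h e1) := by
        apply hom_ext
        rw [hmg_gn, MonoidHom.comp_apply, hmg_gn]
        rfl
      rw [e3, scl_conj]
    · rw [LL_zero κ ω Λ hh, LL_zero κ ω Λ (by rw [ho]; exact hh)]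
  · -- powers of `p`
    intro p h h' j k hz hjk
    have ho : orderOf h' = orderOf h := by
      rw [← Nat.card_zpowers, ← Nat.card_zpowers, hz]
    by_cases hh : 1 < orderOf h ∧ p.Prime ∧ p ∣ orderOf h
    · haveI : NeZero (orderOf h) := ⟨by omega⟩
      have e1 : h ^ orderOf h = 1 := pow_orderOf_eq_one h
      have e2 : h' ^ orderOf h = 1 := by
        rw [← ho]
        exact pow_orderOf_eq_one _
      have hinj := hmg_inj rfl e1
      obtain ⟨z, hz1⟩ : ∃ z : ℤ, h ^ z = h' := by
        have h3 : h' ∈ Subgroup.zpowers h := by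
          rw [hz]
          exact Subgroup.mem_zpowers h'
        exact Subgroup.mem_zpowers_iff.1 h3
      obtain ⟨z', hz2⟩ : ∃ z : ℤ, h' ^ z = h := by
        have h3 : h ∈ Subgroup.zpowers h' := by
          rw [← hz]
          exact Subgroup.mem_zpowers h
        exact Subgroup.mem_zpowers_iff.1 h3
      have hzz : (z : ZMod (orderOf h)) * (z' : ZMod (orderOf h)) = 1 := by
        have h3 : hmg (orderOf h) h e1 (Multiplicative.ofAdd (((z * z' : ℤ)) : ZMod (orderOf h))) =
            hmg (orderOf h) h e1 (Multiplicative.ofAdd (((1 : ℤ)) : ZMod (orderOf h))) := by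
          rw [hmg_int, hmg_int, _root_.zpow_mul, hz1, hz2, zpow_one]
        have h4 := Multiplicative.ofAdd.injective (hinj h3)
        push_cast at h4
        exact h4
      let w : (ZMod (orderOf h))ˣ := ⟨z, z', hzz, by rw [mul_comm]; exact hzz⟩
      have hw : uR (orderOf h) p w 1 := by
        refine ⟨k, j, ?_⟩
        have h3 : hmg (orderOf h) h e1 (Multiplicative.ofAdd (((z * (p : ℤ) ^ k : ℤ)) :
            ZMod (orderOf h))) =
            hmg (orderOf h) h e1 (Multiplicative.ofAdd ((((p : ℤ) ^ j : ℤ)) :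
            ZMod (orderOf h))) := by
          rw [hmg_int, hmg_int, _root_.zpow_mul, hz1]
          have h5 : ∀ (a : G) (i : ℕ), a ^ ((p : ℤ) ^ i) = a ^ p ^ i := by
            intro a i
            rw [← zpow_natCast]
            push_cast
            rfl
          rw [h5, h5, hjk]
        have h4 := Multiplicative.ofAdd.injective (hinj h3)
        push_cast at h4
        rw [Units.val_one, one_mul]
        exact h4
      have e3 : hmg (orderOf h) h' e2 = (hmg (orderOf h) h e1).comp (pwr (orderOf h) w) := by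
        apply hom_ext
        rw [hmg_gn, MonoidHom.comp_apply, pwr_apply]
        have h3 : (w : ZMod (orderOf h)) * Multiplicative.toAdd (gn (orderOf h)) =
            (z : ZMod (orderOf h)) := mul_one _
        rw [h3, hmg_int, hz1]
      rw [LL_val κ ω Λ ho hh.1 hh.2.1 hh.2.2 e2, LL_val κ ω Λ rfl hh.1 hh.2.1 hh.2.2 e1, e3,
        ← scl_comp, hκ1 _ hh.1 p hh.2.1 hh.2.2 w hw]
    · rw [LL_zero κ ω Λ hh, LL_zero κ ω Λ (by rw [ho]; exact hh)]
  · -- the sum relation
    intro h hfin
    have hpos : 0 < orderOf h := hfin.orderOf_pos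
    have : NeZero (orderOf h) := ⟨by omega⟩
    by_cases h1 : 1 < orderOf h
    · have e1 : h ^ orderOf h = 1 := pow_orderOf_eq_one h
      have key : ω (orderOf h) * ∑ p ∈ (orderOf h).primeFactors,
          ∑ a ∈ (Finset.range (orderOf h)).filter (fun a => a.Coprime (orderOf h)),
            LL κ ω Λ p (h ^ a) = 0 := by
        have e2 : ∀ p ∈ (orderOf h).primeFactors, ω (orderOf h) *
            ∑ a ∈ (Finset.range (orderOf h)).filter (fun a => a.Coprime (orderOf h)),
              LL κ ω Λ p (h ^ a) = Λ (scl (hmg (orderOf h) h e1)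
                (∑ w : (ZMod (orderOf h))ˣ, Kg (pwr (orderOf h) w) (κ (orderOf h) p))) := by
          intro p hp
          rw [← sum_units h (fun y => LL κ ω Λ p y), Finset.mul_sum, map_sum, map_sum]
          refine Finset.sum_congr rfl fun w _ => ?_
          rw [scl_comp]
          have e3 : ((hmg (orderOf h) h e1).comp (pwr (orderOf h) w)) (gn (orderOf h)) =
              h ^ (w : ZMod (orderOf h)).val := by
            rw [MonoidHom.comp_apply]
            change hmg (orderOf h) h e1 (gn (orderOf h) ^ (w : ZMod (orderOf h)).val) = _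
            rw [map_pow, hmg_gn]
          rw [← e3]
          exact LL_eq κ ω Λ hω h1 (Nat.prime_of_mem_primeFactors hp)
            (Nat.dvd_of_mem_primeFactors hp) _
            ((hmg_inj rfl e1).comp (pwr_inj w))
        rw [Finset.mul_sum, Finset.sum_congr rfl e2, ← map_sum, ← map_sum, hκ2 _ h1, map_zero,
          map_zero]
      exact (mul_eq_zero.1 key).resolve_left (hω _ h1)
    · have h2 : orderOf h = 1 := by omega
      rw [h2, Nat.primeFactors_one, Finset.sum_empty]

end Pool.Agent.KM
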