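import Pool.Agent.KM.St4

/-!
# Extension of functionals (KM_ZEX)
-/

set_option autoImplicit false

open Matrix Polynomial Pool.Agent.Lib25

noncomputable section

namespace Pool.Agent.KM

universe u

theorem t_ZEX (hTAV : S_TAV.{u}) (hTFI : S_TFI.{u}) (hZAD : S_ZAD.{u}) : S_ZEX.{u} := by
  obtain ⟨κ, ω, hω, h1, h2, hdet, hdet0⟩ := hTAV
  intro G _ Λ
  obtain ⟨L, hL, hLΛ⟩ := hZAD κ ω hω h1 h2 Λ
  obtain ⟨F, hF⟩ := hdet G L hL
  refine ⟨F, ?_⟩
  have hmain : F.comp (asm G) = Λ := by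
    apply Src.hom_ext
    intro H x
    have := H.2
    have h3 := hTFI κ ω hω hdet0 H.1 (F.comp (Kg H.1.subtype) - Λ.comp (Src.of H)) (by
      intro M hM p hp hpM φ hφ
      have : NeZero M := ⟨by omega⟩
      have hinj : Function.Injective (H.1.subtype.comp φ) := H.1.subtype_injective.comp hφ
      rw [AddMonoidHom.sub_apply, AddMonoidHom.comp_apply, AddMonoidHom.comp_apply, Kg_comp,
        hF M hM p hp hpM _ hinj, hLΛ M hM p hp hpM _ hinj, ← scl_comp, scl_subtype, sub_self])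
    have h4 := DFunLike.congr_fun h3 x
    rw [AddMonoidHom.sub_apply, AddMonoidHom.comp_apply, AddMonoidHom.comp_apply] at h4
    rw [AddMonoidHom.comp_apply, asm_of]
    exact sub_eq_zero.1 h4
  intro s
  exact DFunLike.congr_fun hmain s

end Pool.Agent.KM
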