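import Pool.Agent.KM.St4
import Pool.Agent.Lib_helper25.Final0

/-!
# The theorem (KM_ZIN)
-/

set_option autoImplicit false

open Matrix Polynomial Pool.Agent.Lib25

noncomputable section

namespace Pool.Agent.KM

universe u

theorem t_ZIN (hZEX : S_ZEX.{u}) : S_ZIN.{u} := by
  intro G _ s hs
  by_contra hcon
  push Not at hcon
  obtain ⟨Λ, hΛ⟩ := exists_functional (A := Src G) (J := Unit) (fun _ => s) (fun _ => (1 : ℚ)) (by
    intro c hc
    have h1 : c () • s = 0 := by
      rw [← hc, Finsupp.sum_fintype _ _ (by simp)]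
      simp
    have h2 : c () = 0 := by
      by_contra h
      have h3 : (c ()).natAbs • s = 0 := by
        rcases Int.natAbs_eq (c ()) with h4 | h4
        · rw [← natCast_zsmul, ← h4, h1]
        · rw [← natCast_zsmul, ← neg_eq_iff_eq_neg.2 h4, neg_smul, h1, neg_zero]
      exact hcon _ (Int.natAbs_pos.2 h) h3
    rw [Finsupp.sum_fintype _ _ (by simp)]
    simp [h2])
  obtain ⟨F, hF⟩ := hZEX G Λ
  have h1 := hF s
  rw [hs, map_zero, hΛ ()] at h1
  exact zero_ne_one h1

end Pool.Agent.KM
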