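import Pool.Agent.KM.AllA
import Pool.Agent.KM.AllB
import Pool.Agent.KM.P_TKA
import Pool.Agent.KM.P_TRL
import Pool.Agent.KM.P_TAV
import Pool.Agent.KM.P_TLA
import Pool.Agent.KM.P_TCY
import Pool.Agent.KM.P_TFI
import Pool.Agent.KM.P_ZAD
import Pool.Agent.KM.P_ZEX
import Pool.Agent.KM.P_ZIN
import Pool.Agent.KM.P_YSP
import Pool.Agent.KM.P_YDM
import Pool.Agent.KM.P_YBA
import Pool.Agent.KM.P_YFN

/-!
# Rational injectivity of the assembly map in degree `-1`
-/

set_option autoImplicit false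

namespace Pool.Agent.KM

universe u v

theorem all_TAV : S_TAV.{u} := t_TAV t_TKA t_TRL

theorem all_TFI : S_TFI.{u} := t_TFI (t_TCY all_UB t_TLA) all_FIC

theorem all_ZEX : S_ZEX.{u} := t_ZEX all_TAV all_TFI t_ZAD

/-- The kernel of `colim_{H finite} K_{-1}(ℤ[H]) → K_{-1}(ℤ[G])` is torsion. -/
theorem all_ZIN : S_ZIN.{u} := t_ZIN all_ZEX

/-- Rational generation of the source. -/
theorem all_YFN : S_YFN.{u, v} := t_YFN all_TAV all_TFI (t_YBA t_YDM all_TFI) t_YSP

end Pool.Agent.KM
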