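import Pool.Agent.KM.St2

/-!
# Vectors of Laurent polynomials and their coefficient vectors
-/

set_option autoImplicit false
set_option linter.unusedSectionVars false

open Matrix Polynomial Pool.Agent.Lib25

noncomputable section

namespace Pool.Agent.KM

namespace DX

variable {R : Type} [CommRing R]

theorem lco_zero (n : ℤ) : lco (0 : LaurentPolynomial R) n = 0 := rfl

theorem lco_add (x y : LaurentPolynomial R) (n : ℤ) : lco (x + y) n = lco x n + lco y n := rfl

theorem lco_sub (x y : LaurentPolynomial R) (n : ℤ) : lco (x - y) n = lco x n - lco y n := rfl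

theorem lco_neg (x : LaurentPolynomial R) (n : ℤ) : lco (-x) n = -lco x n := rfl

/-- The coefficient as an additive homomorphism. -/
def lcoHom (R : Type) [CommRing R] (n : ℤ) : LaurentPolynomial R →+ R where
  toFun x := lco x n
  map_zero' := rfl
  map_add' _ _ := rfl

theorem lco_sum {ι : Type*} (s : Finset ι) (x : ι → LaurentPolynomial R) (n : ℤ) :
    lco (∑ i ∈ s, x i) n = ∑ i ∈ s, lco (x i) n := map_sum (lcoHom R n) x s

theorem lco_C_mul (a : R) (x : LaurentPolynomial R) (n : ℤ) :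
    lco (LaurentPolynomial.C a * x) n = a * lco x n := by
  unfold lco
  rw [← LaurentPolynomial.smul_eq_C_mul]
  rfl

theorem lco_T_mul (k : ℤ) (x : LaurentPolynomial R) (n : ℤ) :
    lco (LaurentPolynomial.T k * x) n = lco x (n - k) := by
  unfold lco
  have h := AddMonoidAlgebra.coeff_single_mul_apply x (1 : R) k n
  rw [one_mul] at h
  refine h.trans ?_
  rw [neg_add_eq_sub]

theorem lco_C (a : R) (n : ℤ) : lco (LaurentPolynomial.C a) n = if n = 0 then a else 0 :=
  LaurentPolynomial.C_apply a n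

theorem lco_T (k n : ℤ) : lco (LaurentPolynomial.T k : LaurentPolynomial R) n =
    if k = n then 1 else 0 := LaurentPolynomial.T_apply n k

/-- The coefficient vector. -/
def cf {ι : Type*} (v : ι → LaurentPolynomial R) (k : ℤ) : ι → R := fun i => lco (v i) k

/-- The constant vector. -/
def cst {ι : Type*} (v : ι → R) : ι → LaurentPolynomial R := fun i => LaurentPolynomial.C (v i)

theorem cf_ext {ι : Type*} {v w : ι → LaurentPolynomial R} (h : ∀ k, cf v k = cf w k) : v = w := by
  funext i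
  apply lco_ext
  intro n
  exact congrFun (h n) i

theorem cf_zero {ι : Type*} (k : ℤ) : cf (0 : ι → LaurentPolynomial R) k = 0 := rfl

theorem cf_add {ι : Type*} (v w : ι → LaurentPolynomial R) (k : ℤ) :
    cf (v + w) k = cf v k + cf w k := rfl

theorem cf_sub {ι : Type*} (v w : ι → LaurentPolynomial R) (k : ℤ) :
    cf (v - w) k = cf v k - cf w k := rfl

theorem cf_sum {ι κ : Type*} (s : Finset κ) (v : κ → ι → LaurentPolynomial R) (k : ℤ) :
    cf (∑ j ∈ s, v j) k = ∑ j ∈ s, cf (v j) k := by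
  funext i
  unfold cf
  rw [Finset.sum_apply, lco_sum, Finset.sum_apply]

theorem cf_T_smul {ι : Type*} (j : ℤ) (v : ι → LaurentPolynomial R) (k : ℤ) :
    cf ((LaurentPolynomial.T j : LaurentPolynomial R) • v) k = cf v (k - j) := by
  funext i
  exact lco_T_mul j (v i) k

theorem cf_cst {ι : Type*} (v : ι → R) (k : ℤ) : cf (cst v) k = if k = 0 then v else 0 := by
  funext i
  unfold cf cst
  rw [lco_C]
  split_ifs <;> rfl

theorem cf_mulVec {ι κ : Type*} [Fintype κ] (A : Matrix ι κ R) (v : κ → LaurentPolynomial R)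
    (k : ℤ) : cf ((A.map LaurentPolynomial.C).mulVec v) k = A.mulVec (cf v k) := by
  funext i
  unfold cf Matrix.mulVec dotProduct
  rw [lco_sum]
  exact Finset.sum_congr rfl fun j _ => lco_C_mul (A i j) (v j) k

/-- A vector of Laurent polynomials has bounded exponents. -/
theorem exists_bound {ι : Type*} [Fintype ι] (v : ι → LaurentPolynomial R) :
    ∃ B : ℕ, ∀ k : ℤ, cf v k ≠ 0 → -(B : ℤ) ≤ k ∧ k < B := by
  classical
  obtain ⟨B, hB⟩ : ∃ B : ℕ, ∀ i, ∀ k ∈ (AddMonoidAlgebra.coeff (v i)).support, k.natAbs < B := by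
    refine ⟨(Finset.univ.biUnion fun i => (AddMonoidAlgebra.coeff (v i)).support).sup
      (fun k => k.natAbs) + 1, fun i k hk => ?_⟩
    refine Nat.lt_succ_of_le (Finset.le_sup (f := fun k : ℤ => k.natAbs) ?_)
    exact Finset.mem_biUnion.2 ⟨i, Finset.mem_univ _, hk⟩
  refine ⟨B, fun k hk => ?_⟩
  obtain ⟨i, hi⟩ : ∃ i, cf v k i ≠ 0 := by
    by_contra h
    push Not at h
    exact hk (funext h)
  have h1 := hB i k (Finsupp.mem_support_iff.2 hi)
  omega

/-- Fixed vectors. -/
theorem fixed_iff {ι : Type*} [Fintype ι] (A : Matrix ι ι R) (v : ι → LaurentPolynomial R) :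
    (A.map LaurentPolynomial.C).mulVec v = v ↔ ∀ k, A.mulVec (cf v k) = cf v k := by
  constructor
  · intro h k
    rw [← cf_mulVec, h]
  · intro h
    apply cf_ext
    intro k
    rw [cf_mulVec, h]

/-- The matrix of `Phi`. -/
def Th (R : Type) [CommRing R] (n q : ℕ) : Matrix (Fin n) (Fin n × Fin q) (LaurentPolynomial R) :=
  Matrix.of fun a z => if z.1 = a then LaurentPolynomial.T ((z.2 : ℕ) : ℤ) else 0

theorem Phi_eq {n q : ℕ} (x : Fin n × Fin q → R) : Phi x = (Th R n q).mulVec (cst x) := by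
  funext a
  unfold Phi Th Matrix.mulVec dotProduct cst
  rw [Fintype.sum_prod_type]
  rw [Finset.sum_eq_single a]
  · refine Finset.sum_congr rfl fun k _ => ?_
    change _ = (if a = a then LaurentPolynomial.T ((k : ℕ) : ℤ) else 0) * _
    rw [if_pos rfl, mul_comm]
  · intro b _ hb
    refine Finset.sum_eq_zero fun k _ => ?_
    change (if b = a then LaurentPolynomial.T ((k : ℕ) : ℤ) else 0) * _ = _
    rw [if_neg hb, zero_mul]
  · intro h
    exact absurd (Finset.mem_univ a) h

theorem map_C_mul {ι κ μ : Type*} [Fintype κ] (A : Matrix ι κ R) (B : Matrix κ μ R) :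
    (A * B).map LaurentPolynomial.C = A.map LaurentPolynomial.C * B.map LaurentPolynomial.C :=
  Matrix.map_mul

theorem mulVec_cst {ι κ : Type*} [Fintype κ] (A : Matrix ι κ R) (v : κ → R) :
    (A.map LaurentPolynomial.C).mulVec (cst v) = cst (A.mulVec v) := by
  funext i
  unfold cst Matrix.mulVec dotProduct
  rw [map_sum]
  exact Finset.sum_congr rfl fun j _ => (map_mul _ _ _).symm

/-- The coefficients of `Phi x`. -/
theorem cf_Phi {n q : ℕ} (x : Fin n × Fin q → R) (a : Fin n) (k : Fin q) :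
    cf (Phi x) ((k : ℕ) : ℤ) a = x (a, k) := by
  unfold cf Phi
  rw [lco_sum, Finset.sum_eq_single k]
  · rw [lco_C_mul, lco_T, if_pos rfl, mul_one]
  · intro b _ hb
    rw [lco_C_mul, lco_T, if_neg, mul_zero]
    intro h
    apply hb
    apply Fin.ext
    exact_mod_cast h
  · intro h
    exact absurd (Finset.mem_univ k) h

theorem cf_Phi_zero {n q : ℕ} (x : Fin n × Fin q → R) (k : ℤ) (hk : k < 0 ∨ (q : ℤ) ≤ k) :
    cf (Phi x) k = 0 := by
  funext a
  unfold cf Phi
  rw [lco_sum, Finset.sum_eq_zero]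
  · rfl
  intro b _
  rw [lco_C_mul, lco_T, if_neg, mul_zero]
  have := b.isLt
  omega

theorem Phi_injective {n q : ℕ} {x y : Fin n × Fin q → R} (h : Phi x = Phi y) : x = y := by
  funext z
  obtain ⟨a, k⟩ := z
  rw [← cf_Phi x a k, h, cf_Phi y a k]

/-- A vector with all exponents in `[0, q)` is a `Phi`. -/
theorem exists_Phi {n q : ℕ} (v : Fin n → LaurentPolynomial R)
    (h : ∀ k, cf v k ≠ 0 → 0 ≤ k ∧ k < q) : ∃ x : Fin n × Fin q → R, v = Phi x := by
  refine ⟨fun z => cf v ((z.2 : ℕ) : ℤ) z.1, ?_⟩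
  apply cf_ext
  intro k
  by_cases hk : 0 ≤ k ∧ k < q
  · funext a
    obtain ⟨k', hk'⟩ : ∃ k' : Fin q, k = ((k' : ℕ) : ℤ) := by
      refine ⟨⟨k.toNat, by omega⟩, ?_⟩
      simp only
      omega
    rw [hk', cf_Phi]
  · rw [cf_Phi_zero _ _ (by omega)]
    by_contra h1
    exact hk (h k h1)

theorem Phi_ext0 {n m : ℕ} (y : Fin n × Fin (2 * m) → R) : Phi (ext0 y) = Phi y := by
  funext a
  unfold Phi ext0
  rw [Fin.sum_univ_castSucc]
  have h1 : ∀ k : Fin (2 * m), ((Fin.castSucc k : Fin (2 * m + 1)) : ℕ) < 2 * m := fun k => k.isLt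
  simp

theorem Phi_ext1 {n m : ℕ} (y : Fin n × Fin (2 * m) → R) :
    Phi (ext1 y) = (LaurentPolynomial.T 1 : LaurentPolynomial R) • Phi y := by
  funext a
  unfold Phi ext1
  rw [Fin.sum_univ_succ, Pi.smul_apply, smul_eq_mul, Finset.mul_sum]
  rw [dif_neg (by simp), map_zero, zero_mul, zero_add]
  refine Finset.sum_congr rfl fun k _ => ?_
  rw [dif_pos (by simp)]
  change LaurentPolynomial.C (y (a, k)) * LaurentPolynomial.T (((k : ℕ) + 1 : ℕ) : ℤ) = _
  rw [Nat.cast_add, Nat.cast_one, LaurentPolynomial.T_add]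
  ring

variable {n : ℕ} {e : Matrix (Fin n) (Fin n) (LaurentPolynomial R)} {m : ℕ}

theorem pi_eq (W : WD e m) : W.π = Th R n (2 * m + 1) * W.ΛL.map LaurentPolynomial.C := by
  ext1 a j
  have h := congrFun (Phi_eq (fun z => W.ΛL z j)) a
  exact h

theorem pi_cst (W : WD e m) (v : Fin W.rL → R) : W.π.mulVec (cst v) = Phi (W.ΛL.mulVec v) := by
  rw [pi_eq, ← Matrix.mulVec_mulVec, mulVec_cst, Phi_eq]

theorem mat_ext {ι κ : Type*} [Fintype κ] {M N : Matrix ι κ (LaurentPolynomial R)}
    (h : ∀ v : κ → R, M.mulVec (cst v) = N.mulVec (cst v)) : M = N := by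
  classical
  ext1 a j
  have h1 := congrFun (h (Pi.single j 1)) a
  have h2 : cst (Pi.single j (1 : R)) = (Pi.single j 1 : κ → LaurentPolynomial R) := by
    funext i
    unfold cst
    by_cases hi : i = j
    · subst hi
      simp
    · simp [Pi.single_eq_of_ne hi]
  rw [h2, Matrix.mulVec_single_one, Matrix.mulVec_single_one] at h1
  exact h1

theorem cst_add {ι : Type*} (v w : ι → R) : cst (v + w) = cst v + cst w := by
  funext i
  exact map_add _ _ _

theorem i_mulVec (W : WD e m) (v : Fin W.rN → LaurentPolynomial R) :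
    W.i.mulVec v = (LaurentPolynomial.T 1 : LaurentPolynomial R) •
      (W.J1.map LaurentPolynomial.C).mulVec v - (W.J2.map LaurentPolynomial.C).mulVec v := by
  unfold WD.i
  rw [Matrix.sub_mulVec, Matrix.smul_mulVec]

theorem cf_i (W : WD e m) (v : Fin W.rN → LaurentPolynomial R) (k : ℤ) :
    cf (W.i.mulVec v) k = W.J1.mulVec (cf v (k - 1)) - W.J2.mulVec (cf v k) := by
  rw [i_mulVec, cf_sub, cf_T_smul, cf_mulVec, cf_mulVec]

theorem i_lN (W : WD e m) : W.i * W.lN.map LaurentPolynomial.C = W.i := by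
  unfold WD.i
  rw [Matrix.sub_mul, Matrix.smul_mul, ← map_C_mul, ← map_C_mul, W.J1r, W.J2r]

theorem lL_i (W : WD e m) : W.lL.map LaurentPolynomial.C * W.i = W.i := by
  unfold WD.i
  rw [Matrix.mul_sub, Matrix.mul_smul, ← map_C_mul, ← map_C_mul, W.J1l, W.J2l]

theorem pi_lL (W : WD e m) : W.π * W.lL.map LaurentPolynomial.C = W.π := by
  rw [pi_eq, Matrix.mul_assoc, ← map_C_mul, W.mulL]

theorem e_pi (W : WD e m) : e * W.π = W.π := by
  apply mat_ext (R := R)
  intro v
  rw [← Matrix.mulVec_mulVec, pi_cst, W.memL]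

theorem pi_i (W : WD e m) : W.π * W.i = 0 := by
  apply mat_ext (R := R)
  intro v
  rw [← Matrix.mulVec_mulVec, i_mulVec, mulVec_cst, mulVec_cst, Matrix.mulVec_sub,
    Matrix.mulVec_smul, pi_cst, pi_cst, W.J1e, W.J2e, Phi_ext0, Phi_ext1, sub_self,
    Matrix.zero_mulVec]

theorem Phi_zero {n q : ℕ} : Phi (0 : Fin n × Fin q → R) = 0 := by
  funext a
  unfold Phi
  simp

theorem T_smul_cancel {ι : Type*} {k : ℤ} {v w : ι → LaurentPolynomial R}
    (h : (LaurentPolynomial.T k : LaurentPolynomial R) • v =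
      (LaurentPolynomial.T k : LaurentPolynomial R) • w) : v = w := by
  have h1 := congrArg (fun x => (LaurentPolynomial.T (-k) : LaurentPolynomial R) • x) h
  simp only [smul_smul, ← LaurentPolynomial.T_add, neg_add_cancel, LaurentPolynomial.T_zero,
    one_smul] at h1
  exact h1

end DX

end Pool.Agent.KM
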