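import Pool.Agent.Lib_helper25.Functor

/-!
# K-theory of Milnor squares: definitions

* `cl e he : K0 R` : the class of an idempotent matrix `e` over any finite index type.
* `ngo e he : KNegOne R` : the class of an idempotent matrix over `R[T;T⁻¹]`.
* `MSq A B C D` : Milnor squares; `MSq.poly`, `MSq.laur`.
* `Tr s e U` : `U` is a transition matrix of the idempotent `e`.
-/

set_option autoImplicit false
set_option linter.unusedSectionVars false

open Matrix Polynomial Pool.Agent.Lib25

noncomputable section

namespace Pool.Agent.KM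

universe u v w

section Cl

variable {R : Type u} [Ring R] {ι κ : Type*} [Fintype ι] [Fintype κ]

/-- An idempotent matrix over any finite index type, as an `IdemMat`. -/
def IM (e : Matrix ι ι R) (he : e * e = e) : IdemMat R :=
  ⟨Fintype.card ι, e.submatrix (Fintype.equivFin ι).symm (Fintype.equivFin ι).symm,
    idem_submatrix he _⟩

/-- The class in `K₀(R)` of an idempotent matrix over any finite index type. -/
def cl (e : Matrix ι ι R) (he : e * e = e) : K0 R := K0.of (IM e he)

/-- The class in `K_{-1}(R)` of an idempotent matrix over `R[T;T⁻¹]`. -/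
def ngo (e : Matrix ι ι (LaurentPolynomial R)) (he : e * e = e) : KNegOne R :=
  KNegOne.mk (cl e he)

theorem IM_mvn (e : Matrix ι ι R) (he : e * e = e) : MvN e (IM e he).mat :=
  MvN.submatrix he _

theorem of_eq {e f : IdemMat R} (h : MvN e.mat f.mat) : K0.of e = K0.of f :=
  congrArg (Algebra.GrothendieckAddGroup.of (M := IdemClass R)) (IdemClass.mk_eq_iff.2 h)

/-- Equivalent idempotents have the same class. -/
theorem cl_congr {e : Matrix ι ι R} {f : Matrix κ κ R} (he : e * e = e) (hf : f * f = f)
    (h : MvN e f) : cl e he = cl f hf :=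
  of_eq (((IM_mvn e he).symm.trans (IM e he).idem hf h).trans (IM e he).idem (IM f hf).idem
    (IM_mvn f hf))

theorem of_eq_cl (e : IdemMat R) : K0.of e = cl e.mat e.idem := of_eq (IM_mvn e.mat e.idem)

/-- The class of a block sum. -/
theorem cl_blocks {e : Matrix ι ι R} {f : Matrix κ κ R} (he : e * e = e) (hf : f * f = f) :
    cl (Matrix.fromBlocks e 0 0 f) (idem_fromBlocks he hf) = cl e he + cl f hf := by
  have h1 : cl e he + cl f hf = K0.of ((IM e he).add (IM f hf)) := (K0.of_add _ _).symm
  rw [h1]
  refine of_eq ?_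
  have i1 := (IM (Matrix.fromBlocks e 0 0 f) (idem_fromBlocks he hf)).idem
  have i2 := idem_fromBlocks he hf
  have i3 := idem_fromBlocks (IM e he).idem (IM f hf).idem
  have i4 := ((IM e he).add (IM f hf)).idem
  exact (((IM_mvn _ i2).symm.trans i1 i3 (MvN.fromBlocks (IM_mvn e he) (IM_mvn f hf))).trans i1 i4
    (IdemMat.add_equiv_blocks _ _))

/-- Functoriality. -/
theorem map_cl {S : Type v} [Ring S] (φ : R →+* S) {e : Matrix ι ι R} (he : e * e = e) :
    K0.map φ (cl e he) = cl (e.map φ) (by rw [← Matrix.map_mul, he]) := by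
  unfold cl
  rw [K0.map_of]
  rfl

theorem idem_one [DecidableEq ι] : (1 : Matrix ι ι R) * 1 = 1 := Matrix.one_mul 1

/-- The class of the identity matrix. -/
def one (R : Type u) [Ring R] (n : ℕ) : K0 R := cl (1 : Matrix (Fin n) (Fin n) R) idem_one

theorem cl_one_eq [DecidableEq ι] [DecidableEq κ] (h : Fintype.card ι = Fintype.card κ) :
    cl (1 : Matrix ι ι R) idem_one = cl (1 : Matrix κ κ R) idem_one := by
  obtain ⟨σ⟩ : Nonempty (κ ≃ ι) := ⟨Fintype.equivOfCardEq h.symm⟩
  refine cl_congr _ _ ?_
  have h1 := MvN.submatrix (R := R) (e := (1 : Matrix ι ι R)) idem_one σ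
  rwa [Matrix.submatrix_one_equiv] at h1

theorem cl_one [DecidableEq ι] : cl (1 : Matrix ι ι R) idem_one = one R (Fintype.card ι) :=
  cl_one_eq (by simp)

theorem map_one' {S : Type v} [Ring S] (φ : R →+* S) (n : ℕ) : K0.map φ (one R n) = one S n := by
  unfold one
  rw [map_cl]
  congr 1
  exact Matrix.map_one φ (map_zero φ) (map_one φ)

theorem one_add (m n : ℕ) : one R m + one R n = one R (m + n) := by
  unfold one
  rw [← cl_blocks]
  have h : (Matrix.fromBlocks 1 0 0 1 : Matrix (Fin m ⊕ Fin n) (Fin m ⊕ Fin n) R) = 1 :=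
    Matrix.fromBlocks_one
  refine cl_congr _ _ ?_
  rw [h]
  have h1 := MvN.submatrix (R := R) (e := (1 : Matrix (Fin m ⊕ Fin n) (Fin m ⊕ Fin n) R)) idem_one
    finSumFinEquiv.symm
  rwa [Matrix.submatrix_one_equiv] at h1

theorem cl_add_compl [DecidableEq ι] {e : Matrix ι ι R} (he : e * e = e) :
    cl e he + cl (1 - e) (by rw [mul_sub, sub_mul, sub_mul, he]; simp) =
      cl (1 : Matrix ι ι R) idem_one := by
  rw [← cl_blocks]
  exact cl_congr _ _ (MvN.compl_blocks he)

/-- Equality in `K₀` is stable equivalence. -/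
theorem cl_eq_iff {e : Matrix ι ι R} {f : Matrix κ κ R} (he : e * e = e) (hf : f * f = f) :
    cl e he = cl f hf ↔ ∃ n : ℕ, MvN (Matrix.fromBlocks e 0 0 (1 : Matrix (Fin n) (Fin n) R))
      (Matrix.fromBlocks f 0 0 (1 : Matrix (Fin n) (Fin n) R)) := by
  constructor
  · intro h
    obtain ⟨c, hc⟩ := K0.of_eq_iff.1 h
    induction c using Quotient.inductionOn with
    | h g =>
    change IdemClass.mk g + IdemClass.mk (IM e he) = IdemClass.mk g + IdemClass.mk (IM f hf) at hc
    have hc' : IdemClass.mk (IM e he) + IdemClass.mk (IdemMat.free R g.n) =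
        IdemClass.mk (IM f hf) + IdemClass.mk (IdemMat.free R g.n) := by
      rw [← IdemClass.mk_add_compl g, ← add_assoc, ← add_assoc,
        add_comm (IdemClass.mk (IM e he)), add_comm (IdemClass.mk (IM f hf)), hc]
    rw [← IdemClass.mk_add, ← IdemClass.mk_add, IdemClass.mk_eq_iff] at hc'
    refine ⟨g.n, ?_⟩
    have i1 := ((IM e he).add (IdemMat.free R g.n)).idem
    have i2 := ((IM f hf).add (IdemMat.free R g.n)).idem
    have i3 := idem_fromBlocks he (idem_one (R := R) (ι := Fin g.n))
    have i4 := idem_fromBlocks hf (idem_one (R := R) (ι := Fin g.n))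
    have i5 := idem_fromBlocks (IM e he).idem (IdemMat.free R g.n).idem
    have i6 := idem_fromBlocks (IM f hf).idem (IdemMat.free R g.n).idem
    have h1 : MvN (Matrix.fromBlocks e 0 0 (1 : Matrix (Fin g.n) (Fin g.n) R))
        ((IM e he).add (IdemMat.free R g.n)).mat :=
      (MvN.fromBlocks (IM_mvn e he) (MvN.refl (IdemMat.free R g.n).idem)).trans i3 i1
        (IdemMat.add_equiv_blocks _ _)
    have h2 : MvN (Matrix.fromBlocks f 0 0 (1 : Matrix (Fin g.n) (Fin g.n) R))
        ((IM f hf).add (IdemMat.free R g.n)).mat :=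
      (MvN.fromBlocks (IM_mvn f hf) (MvN.refl (IdemMat.free R g.n).idem)).trans i4 i2
        (IdemMat.add_equiv_blocks _ _)
    exact (h1.trans i3 i2 hc').trans i3 i4 h2.symm
  · rintro ⟨n, h⟩
    have h1 := cl_congr (idem_fromBlocks he idem_one) (idem_fromBlocks hf idem_one) h
    rw [cl_blocks he idem_one, cl_blocks hf idem_one] at h1
    exact add_right_cancel h1

/-- Every element of `K₀(R)` is `[e] - [1_m]`. -/
theorem exists_cl (x : K0 R) : ∃ (n : ℕ) (e : Matrix (Fin n) (Fin n) R) (he : e * e = e) (m : ℕ),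
    x = cl e he - one R m := by
  obtain ⟨e, f, rfl⟩ := K0.exists_sub x
  have h1 : K0.of f + cl (1 - f.mat) f.compl.idem = one R f.n := by
    rw [of_eq_cl f]
    exact cl_add_compl f.idem
  have h2 := cl_blocks e.idem f.compl.idem
  have i1 := idem_fromBlocks e.idem f.compl.idem
  refine ⟨(IM _ i1).n, (IM _ i1).mat, (IM _ i1).idem, f.n, ?_⟩
  have h3 : cl (IM _ i1).mat (IM _ i1).idem = cl _ i1 := cl_congr _ _ (IM_mvn _ i1).symm
  rw [h3, h2, ← h1, of_eq_cl e]
  change _ = _ + cl (1 - f.mat) f.compl.idem - _
  abel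

end Cl

section MSq

/-- A Milnor square: `A` is the fibre product of `B` and `C` over `D`, both `B → D` and `C → D`
being surjective. -/
structure MSq (A B C D : Type*) [Ring A] [Ring B] [Ring C] [Ring D] where
  /-- the map `A → B` -/
  f : A →+* B
  /-- the map `A → C` -/
  g : A →+* C
  /-- the map `B → D` -/
  p : B →+* D
  /-- the map `C → D` -/
  q : C →+* D
  comm : ∀ a, p (f a) = q (g a)
  pull : ∀ b c, p b = q c → ∃ a, f a = b ∧ g a = c
  inj : ∀ a, f a = 0 → g a = 0 → a = 0
  surjp : Function.Surjective p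
  surjq : Function.Surjective q

variable {A B C D : Type*} [Ring A] [Ring B] [Ring C] [Ring D]

theorem MSq.inj' (s : MSq A B C D) {a a' : A} (h1 : s.f a = s.f a') (h2 : s.g a = s.g a') :
    a = a' := by
  rw [← sub_eq_zero]
  exact s.inj _ (by rw [map_sub, h1, sub_self]) (by rw [map_sub, h2, sub_self])

/-- The Milnor square of the polynomial rings. -/
def MSq.poly (s : MSq A B C D) : MSq A[X] B[X] C[X] D[X] where
  f := Polynomial.mapRingHom s.f
  g := Polynomial.mapRingHom s.g
  p := Polynomial.mapRingHom s.p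
  q := Polynomial.mapRingHom s.q
  comm a := by
    ext n
    simp [s.comm]
  pull b c h := by
    have h1 : ∀ n, s.p (b.coeff n) = s.q (c.coeff n) := by
      intro n
      have h2 := congrArg (fun x => x.coeff n) h
      simpa using h2
    choose a ha using fun n => s.pull _ _ (h1 n)
    refine ⟨∑ n ∈ b.support ∪ c.support, Polynomial.monomial n (a n), ?_, ?_⟩
    · ext m
      rw [Polynomial.coe_mapRingHom, Polynomial.coeff_map, Polynomial.finsetSum_coeff]
      simp only [Polynomial.coeff_monomial]
      rw [Finset.sum_ite_eq' (b.support ∪ c.support) m (fun n => a n)]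
      by_cases hm : m ∈ b.support ∪ c.support
      · rw [if_pos hm, (ha m).1]
      · rw [if_neg hm, map_zero]
        rw [Finset.mem_union, not_or, Polynomial.mem_support_iff, not_not] at hm
        exact hm.1.symm
    · ext m
      rw [Polynomial.coe_mapRingHom, Polynomial.coeff_map, Polynomial.finsetSum_coeff]
      simp only [Polynomial.coeff_monomial]
      rw [Finset.sum_ite_eq' (b.support ∪ c.support) m (fun n => a n)]
      by_cases hm : m ∈ b.support ∪ c.support
      · rw [if_pos hm, (ha m).2]
      · rw [if_neg hm, map_zero]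
        rw [Finset.mem_union, not_or, Polynomial.mem_support_iff, Polynomial.mem_support_iff,
          not_not, not_not] at hm
        exact hm.2.symm
  inj a h1 h2 := by
    ext n
    apply s.inj
    · have h3 := congrArg (fun x => x.coeff n) h1
      simpa using h3
    · have h3 := congrArg (fun x => x.coeff n) h2
      simpa using h3
  surjp := Polynomial.map_surjective _ s.surjp
  surjq := Polynomial.map_surjective _ s.surjq

/-- The coefficient of `T ^ n` in a Laurent polynomial. -/
def lco (x : LaurentPolynomial A) (n : ℤ) : A := AddMonoidAlgebra.coeff x n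

theorem lco_ext {x y : LaurentPolynomial A} (h : ∀ n, lco x n = lco y n) : x = y :=
  AddMonoidAlgebra.coeff_injective (Finsupp.ext h)

theorem lco_mapL (φ : A →+* B) (x : LaurentPolynomial A) (n : ℤ) :
    lco (mapL φ x) n = φ (lco x n) := AddMonoidAlgebra.coeff_mapRingHom φ x n

open scoped Classical in
/-- A Laurent polynomial from its coefficients. -/
def lmk (S : Finset ℤ) (a : ℤ → A) : LaurentPolynomial A :=
  AddMonoidAlgebra.ofCoeff (Finsupp.onFinset S (fun n => if n ∈ S then a n else 0) (by
      intro n hn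
      by_contra h
      simp [h] at hn))

theorem lco_lmk (S : Finset ℤ) (a : ℤ → A) (n : ℤ) [Decidable (n ∈ S)] :
    lco (lmk S a) n = if n ∈ S then a n else 0 := by
  unfold lco lmk
  rw [AddMonoidAlgebra.coeff_ofCoeff, Finsupp.onFinset_apply]
  congr

theorem lco_not_mem {x : LaurentPolynomial A} {n : ℤ}
    (h : n ∉ (AddMonoidAlgebra.coeff x).support) : lco x n = 0 :=
  Finsupp.notMem_support_iff.1 h

theorem mapL_surjective {φ : A →+* B} (h : Function.Surjective φ) :
    Function.Surjective (mapL φ) := by
  classical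
  intro y
  choose a ha using h
  refine ⟨lmk (AddMonoidAlgebra.coeff y).support (fun n => a (lco y n)), ?_⟩
  apply lco_ext
  intro n
  rw [lco_mapL, lco_lmk]
  by_cases hn : n ∈ (AddMonoidAlgebra.coeff y).support
  · rw [if_pos hn, ha]
  · rw [if_neg hn, map_zero, lco_not_mem hn]

/-- The Milnor square of the Laurent polynomial rings. -/
def MSq.laur (s : MSq A B C D) : MSq (LaurentPolynomial A) (LaurentPolynomial B)
    (LaurentPolynomial C) (LaurentPolynomial D) where
  f := mapL s.f
  g := mapL s.g
  p := mapL s.p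
  q := mapL s.q
  comm a := by
    apply lco_ext
    intro n
    rw [lco_mapL, lco_mapL, lco_mapL, lco_mapL, s.comm]
  pull b c h := by
    classical
    have h1 : ∀ n, s.p (lco b n) = s.q (lco c n) := by
      intro n
      rw [← lco_mapL, ← lco_mapL, h]
    choose a ha using fun n => s.pull _ _ (h1 n)
    refine ⟨lmk ((AddMonoidAlgebra.coeff b).support ∪ (AddMonoidAlgebra.coeff c).support) a,
      ?_, ?_⟩
    · apply lco_ext
      intro n
      rw [lco_mapL, lco_lmk]
      split_ifs with hn
      · exact (ha n).1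
      · rw [Finset.mem_union, not_or] at hn
        rw [map_zero, lco_not_mem hn.1]
    · apply lco_ext
      intro n
      rw [lco_mapL, lco_lmk]
      split_ifs with hn
      · exact (ha n).2
      · rw [Finset.mem_union, not_or] at hn
        rw [map_zero, lco_not_mem hn.2]
  inj a h1 h2 := by
    apply lco_ext
    intro n
    apply s.inj
    · rw [← lco_mapL, h1]; rfl
    · rw [← lco_mapL, h2]; rfl
  surjp := mapL_surjective s.surjp
  surjq := mapL_surjective s.surjq

end MSq

section Tr

variable {A B C D : Type*} [Ring A] [Ring B] [Ring C] [Ring D]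
  {ι κ μ : Type*} [Fintype ι] [Fintype κ] [DecidableEq κ] [Fintype μ] [DecidableEq μ]

/-- `Tr s e U`: the idempotent matrix `e` over `A` becomes equivalent to identity matrices over
`B` and over `C`, and `U` is the resulting transition matrix over `D`. -/
def Tr (s : MSq A B C D) (e : Matrix ι ι A) (U : Matrix κ μ D) : Prop :=
  ∃ (x : Matrix ι κ B) (y : Matrix κ ι B) (x' : Matrix ι μ C) (y' : Matrix μ ι C),
    x * y = e.map s.f ∧ y * x = 1 ∧ x' * y' = e.map s.g ∧ y' * x' = 1 ∧
    y.map s.p * x'.map s.q = U

/-- `x = ∂ U` in `K₀(A)`, for an invertible matrix `U` over `D` (the boundary map of the Milnor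
square). -/
def IsDel (s : MSq A B C D) (U : Matrix κ κ D) (x : K0 A) : Prop :=
  ∃ (n : ℕ) (e : Matrix (Fin n) (Fin n) A) (he : e * e = e), Tr s e U ∧
    x = cl e he - cl (1 : Matrix κ κ A) idem_one

end Tr

end Pool.Agent.KM
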