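import Pool.Agent.KM.St2

/-!
# KM_DGB: boundaries of polynomial matrices and of diagonal matrices
-/

set_option autoImplicit false
set_option linter.unusedSectionVars false

open Matrix Polynomial Pool.Agent.Lib25

namespace Pool.Agent.KM

section Dgb

private theorem dgb_uniq (hDEL : S_DEL) {A B C D : Type} [Ring A] [Ring B] [Ring C] [Ring D]
    (s : MSq A B C D) {κ : Type} [Fintype κ] [DecidableEq κ] {U : Matrix κ κ D} {x x' : K0 A}
    (h : IsDel s U x) (h' : IsDel s U x') : x = x' := by
  obtain ⟨-, d2, -⟩ := hDEL s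
  refine d2 U U 1 1 1 1 x x' (Matrix.one_mul 1) (Matrix.one_mul 1) (Matrix.one_mul 1)
    (Matrix.one_mul 1) ?_ h h'
  rw [Matrix.map_one s.p (map_zero s.p) (map_one s.p),
    Matrix.map_one s.q (map_zero s.q) (map_one s.q), Matrix.one_mul, Matrix.mul_one]

private theorem dgb_hom {R S : Type} [CommRing R] [CommRing S] {φ : R →+* S}
    {i : R[X] →+* LaurentPolynomial R} {j : S[X] →+* LaurentPolynomial S}
    (h : (mapL φ).comp i = j.comp (Polynomial.mapRingHom φ)) (z : R[X]) :
    j (Polynomial.mapRingHom φ z) = mapL φ (i z) :=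
  (RingHom.congr_fun h z).symm

theorem t_DGB (hDEL : S_DEL) (hMUL : S_MUL) : S_DGB := by
  intro A B C D _ _ _ _ s
  refine ⟨?_, ?_, ?_⟩
  · intro n P P' y h1 h2 hy
    obtain ⟨x0, hx0⟩ := (hDEL s.poly).1 P P' h1 h2
    have h3 := (hMUL s.poly).2.2 s.laur (posIncl A) (posIncl B) (posIncl C) (posIncl D)
      (fun z => dgb_hom (mapL_posIncl s.f) z) (fun z => dgb_hom (mapL_posIncl s.g) z)
      (fun z => dgb_hom (mapL_posIncl s.p) z) (fun z => dgb_hom (mapL_posIncl s.q) z) P x0 hx0
    rw [dgb_uniq hDEL s.laur hy h3]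
    exact (QuotientAddGroup.eq_zero_iff _).2 (AddSubgroup.mem_sup_left ⟨_, rfl⟩)
  · intro n P P' y h1 h2 hy
    obtain ⟨x0, hx0⟩ := (hDEL s.poly).1 P P' h1 h2
    have h3 := (hMUL s.poly).2.2 s.laur (negIncl A) (negIncl B) (negIncl C) (negIncl D)
      (fun z => dgb_hom (mapL_negIncl s.f) z) (fun z => dgb_hom (mapL_negIncl s.g) z)
      (fun z => dgb_hom (mapL_negIncl s.p) z) (fun z => dgb_hom (mapL_negIncl s.q) z) P x0 hx0
    rw [dgb_uniq hDEL s.laur hy h3]
    exact (QuotientAddGroup.eq_zero_iff _).2 (AddSubgroup.mem_sup_right ⟨_, rfl⟩)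
  · intro n
    induction n with
    | zero =>
      intro u x y _ hy
      have h1 := (hDEL s.laur).2.2.2.2.1 (1 : Matrix (Fin 0) (Fin 0) (LaurentPolynomial B)) 1
        (Matrix.one_mul 1) (Matrix.one_mul 1)
      have h2 : (Matrix.diagonal fun i : Fin 0 => (u i : LaurentPolynomial D)) =
          (1 : Matrix (Fin 0) (Fin 0) (LaurentPolynomial B)).map s.laur.p := by
        ext i
        exact i.elim0
      rw [h2] at hy
      rw [dgb_uniq hDEL s.laur hy h1]
      simp
    | succ n ih =>
      intro u x y hx hy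
      obtain ⟨y1, hy1⟩ := (hDEL s.laur).1
        (Matrix.diagonal fun i : Fin n => ((u i.castSucc : (LaurentPolynomial D)ˣ) :
          LaurentPolynomial D))
        (Matrix.diagonal fun i : Fin n => (((u i.castSucc)⁻¹ : (LaurentPolynomial D)ˣ) :
          LaurentPolynomial D))
        (by rw [Matrix.diagonal_mul_diagonal]; simp) (by rw [Matrix.diagonal_mul_diagonal]; simp)
      have h1 := ih (fun i => u i.castSucc) (fun i => x i.castSucc) y1 (fun i => hx _) hy1
      have h2 := (hDEL s.laur).2.2.2.1 _ _ y1 (x (Fin.last n)) hy1 (hx (Fin.last n))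
      have h3 := (hMUL s.laur).2.1 _ (finSumFinEquiv (m := n) (n := 1)).symm _ h2
      rw [Matrix.fromBlocks_diagonal, Matrix.submatrix_diagonal_equiv] at h3
      have h4 : (Sum.elim (fun i : Fin n => ((u i.castSucc : (LaurentPolynomial D)ˣ) :
          LaurentPolynomial D)) (fun _ : Fin 1 => ((u (Fin.last n) : (LaurentPolynomial D)ˣ) :
          LaurentPolynomial D)) ∘ (finSumFinEquiv (m := n) (n := 1)).symm) =
          fun i => ((u i : (LaurentPolynomial D)ˣ) : LaurentPolynomial D) := by
        funext i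
        refine Fin.lastCases ?_ (fun i => ?_) i
        · rw [Function.comp_apply, finSumFinEquiv_symm_last]
          rfl
        · have e : (finSumFinEquiv (m := n) (n := 1)).symm i.castSucc = Sum.inl i :=
            finSumFinEquiv_symm_apply_castAdd i
          rw [Function.comp_apply, e]
          rfl
      rw [h4] at h3
      rw [dgb_uniq hDEL s.laur hy h3, h1, Fin.sum_univ_castSucc]

end Dgb

end Pool.Agent.KM
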