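import Pool.Agent.KM.St1

/-!
# KM_PAT: patching of idempotents over a Milnor square
-/

set_option autoImplicit false
set_option linter.unusedSectionVars false

open Matrix Polynomial Pool.Agent.Lib25

noncomputable section

namespace Pool.Agent.KM

namespace PAT

section Pull

variable {A B C D : Type*} [Ring A] [Ring B] [Ring C] [Ring D]

theorem pullM (s : MSq A B C D) {ι κ : Type*} (M : Matrix ι κ B) (N : Matrix ι κ C)
    (h : M.map s.p = N.map s.q) : ∃ E : Matrix ι κ A, E.map s.f = M ∧ E.map s.g = N := by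
  have h1 : ∀ i j, s.p (M i j) = s.q (N i j) := fun i j => congrFun (congrFun h i) j
  choose E hE using fun i j => s.pull _ _ (h1 i j)
  exact ⟨E, by ext i j; exact (hE i j).1, by ext i j; exact (hE i j).2⟩

theorem injM (s : MSq A B C D) {ι κ : Type*} {M N : Matrix ι κ A}
    (h1 : M.map s.f = N.map s.f) (h2 : M.map s.g = N.map s.g) : M = N := by
  ext i j
  exact s.inj' (congrFun (congrFun h1 i) j) (congrFun (congrFun h2 i) j)

theorem liftM {φ : A →+* B} (h : Function.Surjective φ) {ι κ : Type*} (M : Matrix ι κ B) :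
    ∃ N : Matrix ι κ A, N.map φ = M := by
  choose N hN using fun i j => h (M i j)
  exact ⟨N, by ext i j; exact hN i j⟩

end Pull

section Elem

variable {R : Type*} [Ring R] {m n : Type*} [Fintype m] [Fintype n] [DecidableEq m] [DecidableEq n]

/-- upper elementary block matrix -/
def eU (X : Matrix m n R) : Matrix (m ⊕ n) (m ⊕ n) R := fromBlocks 1 X 0 1

/-- lower elementary block matrix -/
def eL (Y : Matrix n m R) : Matrix (m ⊕ n) (m ⊕ n) R := fromBlocks 1 0 Y 1

theorem eU_neg (X : Matrix m n R) : eU X * eU (-X) = 1 := by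
  unfold eU
  rw [fromBlocks_multiply]
  simp

theorem eU_neg' (X : Matrix m n R) : eU (-X) * eU X = 1 := by
  unfold eU
  rw [fromBlocks_multiply]
  simp

theorem eL_neg (Y : Matrix n m R) : eL Y * eL (-Y) = 1 := by
  unfold eL
  rw [fromBlocks_multiply]
  simp

theorem eL_neg' (Y : Matrix n m R) : eL (-Y) * eL Y = 1 := by
  unfold eL
  rw [fromBlocks_multiply]
  simp

/-- the matrix `β` -/
def be (X : Matrix m n R) (Y : Matrix n m R) : Matrix (m ⊕ n) (m ⊕ n) R :=
  eU X * eL (-Y) * eU X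

/-- its inverse -/
def be' (X : Matrix m n R) (Y : Matrix n m R) : Matrix (m ⊕ n) (m ⊕ n) R :=
  eU (-X) * eL Y * eU (-X)

theorem be_be' (X : Matrix m n R) (Y : Matrix n m R) : be X Y * be' X Y = 1 := by
  unfold be be'
  have h1 : eU X * eL (-Y) * eU X * (eU (-X) * eL Y * eU (-X)) =
      eU X * (eL (-Y) * ((eU X * eU (-X)) * eL Y)) * eU (-X) := by
    simp only [Matrix.mul_assoc]
  rw [h1, eU_neg, Matrix.one_mul, eL_neg', Matrix.mul_one, eU_neg]

theorem be'_be (X : Matrix m n R) (Y : Matrix n m R) : be' X Y * be X Y = 1 := by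
  unfold be be'
  have h1 : eU (-X) * eL Y * eU (-X) * (eU X * eL (-Y) * eU X) =
      eU (-X) * (eL Y * ((eU (-X) * eU X) * eL (-Y))) * eU X := by
    simp only [Matrix.mul_assoc]
  rw [h1, eU_neg', Matrix.one_mul, eL_neg, Matrix.mul_one, eU_neg']

theorem be_eq (X : Matrix m n R) (Y : Matrix n m R) (h : X * Y * X = X) :
    be X Y = fromBlocks (1 - X * Y) X (-Y) (1 - Y * X) := by
  unfold be eU eL
  rw [fromBlocks_multiply, fromBlocks_multiply]
  congr 1
  · simp [sub_eq_add_neg]
  · simp only [Matrix.one_mul, Matrix.mul_one, Matrix.mul_zero, Matrix.add_mul,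
      Matrix.mul_neg, Matrix.neg_mul, h]
    abel
  · simp
  · simp only [Matrix.one_mul, Matrix.mul_one, Matrix.zero_mul, Matrix.mul_zero, Matrix.add_mul,
      Matrix.mul_neg, Matrix.neg_mul]
    abel

theorem be'_eq (X : Matrix m n R) (Y : Matrix n m R) (h : X * Y * X = X) :
    be' X Y = fromBlocks (1 - X * Y) (-X) Y (1 - Y * X) := by
  unfold be' eU eL
  rw [fromBlocks_multiply, fromBlocks_multiply]
  congr 1
  · simp [sub_eq_add_neg]
  · simp only [Matrix.one_mul, Matrix.mul_one, Matrix.mul_zero, Matrix.add_mul,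
      Matrix.mul_neg, Matrix.neg_mul, h]
    abel
  · simp
  · simp only [Matrix.one_mul, Matrix.mul_one, Matrix.zero_mul, Matrix.mul_zero, Matrix.add_mul,
      Matrix.mul_neg, Matrix.neg_mul]
    abel

theorem eU_map {S : Type*} [Ring S] (φ : R →+* S) (X : Matrix m n R) :
    (eU X).map φ = eU (X.map φ) := by
  unfold eU
  rw [fromBlocks_map, Matrix.map_one φ (map_zero φ) (map_one φ),
    Matrix.map_one φ (map_zero φ) (map_one φ), Matrix.map_zero φ (map_zero φ)]

theorem eL_map {S : Type*} [Ring S] (φ : R →+* S) (Y : Matrix n m R) :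
    (eL Y).map φ = eL (Y.map φ) := by
  unfold eL
  rw [fromBlocks_map, Matrix.map_one φ (map_zero φ) (map_one φ),
    Matrix.map_one φ (map_zero φ) (map_one φ), Matrix.map_zero φ (map_zero φ)]

theorem map_neg' {S : Type*} [Ring S] (φ : R →+* S) {ι κ : Type*} (X : Matrix ι κ R) :
    (-X).map φ = -(X.map φ) := by
  ext i j
  simp

theorem be_map {S : Type*} [Ring S] (φ : R →+* S) (X : Matrix m n R) (Y : Matrix n m R) :
    (be X Y).map φ = be (X.map φ) (Y.map φ) := by
  unfold be
  rw [Matrix.map_mul, Matrix.map_mul, eU_map, eL_map, map_neg']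

theorem be'_map {S : Type*} [Ring S] (φ : R →+* S) (X : Matrix m n R) (Y : Matrix n m R) :
    (be' X Y).map φ = be' (X.map φ) (Y.map φ) := by
  unfold be'
  rw [Matrix.map_mul, Matrix.map_mul, eU_map, eL_map, map_neg']

end Elem

end PAT

open PAT

theorem t_PAT : S_PAT := by
  intro A B C D _ _ _ _ s m n eB eC u v hB hC huv hvu
  obtain ⟨X, hX⟩ := liftM s.surjq (u * v * u)
  obtain ⟨Y, hY⟩ := liftM s.surjq (v * u * v)
  have hP : eB.map s.p * eB.map s.p = eB.map s.p := by rw [← Matrix.map_mul, hB]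
  have hQ : eC.map s.q * eC.map s.q = eC.map s.q := by rw [← Matrix.map_mul, hC]
  have e1 : u * v * u * (v * u * v) = eB.map s.p := by
    have : u * v * u * (v * u * v) = (u * v) * (u * v) * (u * v) := by
      simp only [Matrix.mul_assoc]
    rw [this, huv, hP, hP]
  have e2 : v * u * v * (u * v * u) = eC.map s.q := by
    have : v * u * v * (u * v * u) = (v * u) * (v * u) * (v * u) := by
      simp only [Matrix.mul_assoc]
    rw [this, hvu, hQ, hQ]
  have e3 : eB.map s.p * (u * v * u) = u * v * u := by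
    rw [huv, ← Matrix.mul_assoc, hP]
  have e4 : u * v * u * eC.map s.q = u * v * u := by
    rw [← hvu, ← Matrix.mul_assoc]
    have : u * v * u * v * u = (u * v) * (u * v) * u := by simp only [Matrix.mul_assoc]
    rw [this, huv, hP]
  have hXY : X.map s.q * Y.map s.q * X.map s.q = X.map s.q := by
    rw [hX, hY, e1, e3]
  have hb := be_eq (X.map s.q) (Y.map s.q) hXY
  have hb' := be'_eq (X.map s.q) (Y.map s.q) hXY
  rw [← be_map, hX, hY, e1, e2] at hb
  rw [← be'_map, hX, hY, e1, e2] at hb'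
  -- the two idempotents
  set EB : Matrix (Fin m ⊕ Fin n) (Fin m ⊕ Fin n) B := fromBlocks eB 0 0 0 with hEB
  set EC : Matrix (Fin m ⊕ Fin n) (Fin m ⊕ Fin n) C :=
    be X Y * fromBlocks 0 0 0 eC * be' X Y with hEC
  have iC0 : (fromBlocks 0 0 0 eC : Matrix (Fin m ⊕ Fin n) (Fin m ⊕ Fin n) C) *
      fromBlocks 0 0 0 eC = fromBlocks 0 0 0 eC := by
    rw [fromBlocks_multiply]
    simp [hC]
  have iB : EB * EB = EB := by
    rw [hEB, fromBlocks_multiply]
    simp [hB]
  have iC : EC * EC = EC := by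
    rw [hEC]
    have : be X Y * fromBlocks 0 0 0 eC * be' X Y * (be X Y * fromBlocks 0 0 0 eC * be' X Y) =
        be X Y * (fromBlocks 0 0 0 eC * (be' X Y * be X Y) * fromBlocks 0 0 0 eC) * be' X Y := by
      simp only [Matrix.mul_assoc]
    rw [this, be'_be, Matrix.mul_one, iC0]
  have hQ2 : (1 - eC.map s.q) * eC.map s.q = 0 := by
    rw [Matrix.sub_mul, Matrix.one_mul, hQ, sub_self]
  have e5 : eC.map s.q * (v * u * v) = v * u * v := by
    rw [← hvu]
    have : v * u * (v * u * v) = (v * u) * (v * u) * v := by simp only [Matrix.mul_assoc]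
    rw [this, hvu, hQ]
  have hQ3 : eC.map s.q * (1 - eC.map s.q) = 0 := by
    rw [Matrix.mul_sub, Matrix.mul_one, hQ, sub_self]
  have z0 : ∀ {ι κ : Type} , ((0 : Matrix ι κ B).map s.p) = 0 :=
    fun {ι κ} => Matrix.map_zero s.p (map_zero s.p)
  have z0' : ∀ {ι κ : Type} , ((0 : Matrix ι κ C).map s.q) = 0 :=
    fun {ι κ} => Matrix.map_zero s.q (map_zero s.q)
  have hq : EB.map s.p = EC.map s.q := by
    rw [hEB, hEC, Matrix.map_mul, Matrix.map_mul, hb, hb', fromBlocks_map, fromBlocks_map,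
      z0, z0, z0, z0', z0', z0', fromBlocks_multiply, fromBlocks_multiply]
    simp only [Matrix.mul_zero, Matrix.zero_mul, zero_add, add_zero]
    rw [e4, hQ2, Matrix.zero_mul, Matrix.zero_mul, e1]
    congr 1
    rw [Matrix.mul_sub, Matrix.mul_one, e4, sub_self]
  obtain ⟨E, hE1, hE2⟩ := pullM s EB EC hq
  have iE : E * E = E := by
    apply injM s
    · rw [Matrix.map_mul, hE1, iB]
    · rw [Matrix.map_mul, hE2, iC]
  let σ : Fin (m + n) ≃ Fin m ⊕ Fin n := finSumFinEquiv.symm
  -- the four matrices before reindexing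
  obtain ⟨x, hx⟩ : ∃ x : Matrix (Fin m ⊕ Fin n) (Fin m) B, x = fromRows eB 0 := ⟨_, rfl⟩
  obtain ⟨y, hy⟩ : ∃ y : Matrix (Fin m) (Fin m ⊕ Fin n) B, y = fromCols eB 0 := ⟨_, rfl⟩
  obtain ⟨r, hr⟩ : ∃ r : Matrix (Fin m ⊕ Fin n) (Fin n) C, r = fromRows 0 eC := ⟨_, rfl⟩
  obtain ⟨t, ht⟩ : ∃ t : Matrix (Fin n) (Fin m ⊕ Fin n) C, t = fromCols 0 eC := ⟨_, rfl⟩
  have hxy : x * y = EB := by
    rw [hx, hy, Matrix.fromRows_mul_fromCols, hEB, hB]
    simp only [Matrix.mul_zero, Matrix.zero_mul]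
  have hyx : y * x = eB := by
    rw [hx, hy, Matrix.fromCols_mul_fromRows, hB, Matrix.mul_zero, add_zero]
  have hrt : r * t = fromBlocks 0 0 0 eC := by
    rw [hr, ht, Matrix.fromRows_mul_fromCols, hC]
    simp only [Matrix.mul_zero, Matrix.zero_mul]
  have htr : t * r = eC := by
    rw [hr, ht, Matrix.fromCols_mul_fromRows, hC, Matrix.mul_zero, zero_add]
  obtain ⟨x', hx'⟩ : ∃ x' : Matrix (Fin m ⊕ Fin n) (Fin n) C, x' = be X Y * r := ⟨_, rfl⟩
  obtain ⟨y', hy'⟩ : ∃ y' : Matrix (Fin n) (Fin m ⊕ Fin n) C, y' = t * be' X Y := ⟨_, rfl⟩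
  have hxy' : x' * y' = EC := by
    have : be X Y * r * (t * be' X Y) = be X Y * (r * t) * be' X Y := by
      simp only [Matrix.mul_assoc]
    rw [hx', hy', this, hrt]
  have hyx' : y' * x' = eC := by
    have : t * be' X Y * (be X Y * r) = t * ((be' X Y * be X Y) * r) := by
      simp only [Matrix.mul_assoc]
    rw [hx', hy', this, be'_be, Matrix.one_mul, htr]
  have hD : y.map s.p * x'.map s.q = u * v * u := by
    have h2 : y.map s.p = fromCols (eB.map s.p) (0 : Matrix (Fin m) (Fin n) D) := by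
      rw [hy]
      ext i j
      rcases j with j | j <;> simp
    have h3 : r.map s.q = fromRows (0 : Matrix (Fin m) (Fin n) D) (eC.map s.q) := by
      rw [hr]
      ext i j
      rcases i with i | i <;> simp
    rw [hx', Matrix.map_mul, h2, h3, hb, Matrix.fromBlocks_mul_fromRows,
      Matrix.fromCols_mul_fromRows]
    simp only [Matrix.mul_zero, Matrix.zero_mul, zero_add, add_zero]
    rw [e4, e3]
  refine ⟨m + n, E.submatrix σ σ, x.submatrix σ id, y.submatrix id σ, x'.submatrix σ id,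
    y'.submatrix id σ, ?_, ?_, ?_, ?_, ?_, ?_⟩
  · rw [Matrix.submatrix_mul_equiv, iE]
  · have h1 : x.submatrix σ id * y.submatrix id σ = (x * y).submatrix σ σ :=
      Matrix.submatrix_mul_equiv _ _ _ (Equiv.refl _) _
    rw [h1, hxy, ← hE1]
    rfl
  · rw [Matrix.submatrix_mul_equiv, hyx]
    rfl
  · have h1 : x'.submatrix σ id * y'.submatrix id σ = (x' * y').submatrix σ σ :=
      Matrix.submatrix_mul_equiv _ _ _ (Equiv.refl _) _
    rw [h1, hxy', ← hE2]
    rfl
  · rw [Matrix.submatrix_mul_equiv, hyx']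
    rfl
  · have h1 : (y.submatrix id σ).map s.p * (x'.submatrix σ id).map s.q =
        (y.map s.p * x'.map s.q).submatrix id id :=
      Matrix.submatrix_mul_equiv (y.map s.p) (x'.map s.q) _ σ _
    rw [h1, hD]
    rfl

end Pool.Agent.KM
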