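import Pool.Agent.KM.St2

/-!
# MP_e40716_gt (b), block UB, part 3: the rank bound for `K_{-1}(ℤ[C_N])`

File names: `Pool/Agent/KM/P_X.lean`, theorem `t_X (hY : S_Y) ... : S_X`, namespace
`Pool.Agent.KM`.
-/

set_option autoImplicit false
set_option linter.unusedSectionVars false

open Matrix Polynomial Pool.Agent.Lib25

noncomputable section

namespace Pool.Agent.KM

/-- KM_QSQ (60 lines; no hypotheses).  The Milnor square of two ideals.

PROOF.  Maps `Ideal.Quotient.factor`.  `pull`: `b = mk r`, `c = mk r'` with `r - r' ∈ I ⊔ J`,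
`r - r' = i + j`; `a = mk (r - i) = mk (r' + j)`. -/
def S_QSQ : Prop := ∀ {R : Type} [CommRing R] (I J : Ideal R),
  Nonempty (MSq (R ⧸ (I ⊓ J)) (R ⧸ I) (R ⧸ J) (R ⧸ (I ⊔ J)))

/-- The product of the cyclotomic polynomials with index in `S`. -/
def phi (S : Finset ℕ) : ℤ[X] := ∏ d ∈ S, cyclotomic d ℤ

/-- The ideal generated by `phi S`. -/
def Iphi (S : Finset ℕ) : Ideal ℤ[X] := Ideal.span {phi S}

/-- The ideal generated by the `d`-th cyclotomic polynomial. -/
def Icyc (d : ℕ) : Ideal ℤ[X] := Ideal.span {cyclotomic d ℤ}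

/-- KM_CYI (70 lines; no hypotheses).  Intersection of ideals; finiteness of the sum.

PROOF.  (1) `cyclotomic d ℤ` is irreducible, so prime in the UFD `ℤ[X]`, and does not divide
`cyclotomic d' ℤ` for `d' ∈ S` (distinct irreducible monic polynomials:
`Polynomial.cyclotomic.irreducible`, `Polynomial.cyclotomic_injective`), so
`h ∈ Iphi S ⊓ Icyc d` is divisible by `phi S * cyclotomic d`.
(2) Over `ℚ` the polynomials `phi S`, `cyclotomic d` are coprime (`Polynomial.cyclotomic.isCoprime_rat`);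
clear denominators: a positive integer `c` is in `Iphi S ⊔ Icyc d`.  `ℤ[X] ⧸ Icyc d` is a finite
`ℤ`-module (monic), so the quotient `ℤ[X] ⧸ (Iphi S ⊔ Icyc d)` is a finite `ℤ`-module killed by
`c`, hence finite (`Module.finite_of_fg_torsion`). -/
def S_CYI : Prop := ∀ (S : Finset ℕ) (d : ℕ), (∀ d' ∈ S, 0 < d') → 0 < d → d ∉ S →
  Iphi (insert d S) = Iphi S ⊓ Icyc d ∧ Finite (ℤ[X] ⧸ (Iphi S ⊔ Icyc d))

/-- KM_CYD (100 lines; no hypotheses).  `ℤ[X]/Φ_d` is a Dedekind domain.

PROOF.  `K = CyclotomicField d ℚ`, `ζ` a primitive `d`-th root of unity in `K`.  The map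
`ℤ[X] → K`, `X ↦ ζ` has kernel `Icyc d` (`cyclotomic d ℤ` is the minimal polynomial:
`Polynomial.cyclotomic_eq_minpoly`, `minpoly.isIntegrallyClosed_dvd_iff`) and image
`Algebra.adjoin ℤ {ζ}`, which is the integral closure of `ℤ` in `K`
(`IsCyclotomicExtension.Rat.isIntegralClosure_adjoin_singleton`,
Mathlib/NumberTheory/NumberField/Cyclotomic/Basic.lean, general `n`).  Integral closures are
Dedekind (`IsIntegralClosure.isDedekindDomain ℤ ℚ K`); transfer along the ring isomorphism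
(or give `ℤ[X] ⧸ Icyc d` the algebra structure over which `K` is an algebra and prove
`IsIntegralClosure (ℤ[X] ⧸ Icyc d) ℤ K`). -/
def S_CYD : Prop := ∀ (d : ℕ), 0 < d → IsDedekindDomain (ℤ[X] ⧸ Icyc d)

/-- Equality of units of `ℤ/n` up to powers of `p`. -/
def uR (n p : ℕ) (u z : (ZMod n)ˣ) : Prop :=
  ∃ j k : ℕ, (u : ZMod n) * (p : ZMod n) ^ j = (z : ZMod n) * (p : ZMod n) ^ k

/-- The number of classes of units of `ℤ/n` up to powers of `p`. -/
def nU (n p : ℕ) : ℕ := Nat.card (Quot (uR n p))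

/-- KM_CYM (170 lines; no hypotheses).  Counting maximal ideals.

PROOF.  `D = ℤ[X] ⧸ (Iphi S ⊔ Icyc d)` is finite (`hfin`).  Let `m` be a maximal ideal of `D`,
`k = D/m` (finite field of characteristic `p`), `x` the image of `X`.  Write `d = p^a d0`, `p ∤ d0`.
`cyclotomic d` vanishes at `x` and `cyclotomic d'` vanishes at `x` for some `d' ∈ S`,
`d' = p^b d1`.  By `Polynomial.isRoot_cyclotomic_prime_pow_mul_iff_of_charP` `x` is a primitive
`d0`-th and a primitive `d1`-th root of unity, `d0 = d1`.  If `a = 0` then `d = d0 ∣ d'`,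
excluded.  So `p ∣ d`.
For every prime `p ∣ d` fix `K = AlgebraicClosure (ZMod p)` and `ζ ∈ K` a primitive `d0`-th root of
unity.  For a unit `u` of `ZMod d` put `I_p(u) = ker (ℤ[X] → K, X ↦ ζ^(u.val))`.
(a) `uR d p u z → I_p(u) = I_p(z)`: `ζ^d = 1`, so `(ζ^u)^(p^j) = (ζ^z)^(p^k)`, and
`f(y) = 0 ↔ f(y^(p^j)) = f(y)^(p^j) = 0` for integer polynomials `f` (Frobenius of `K`).
(b) every maximal `m` with residue characteristic `p` pulls back to some `I_p(u)` in `ℤ[X]`: embed
`k` in `K` (`IsAlgClosed.lift`), the image of `x` is a primitive `d0`-th root of unity `ζ^v`,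
`v` coprime to `d0`; lift `v` to a unit `u` of `ZMod d` (`ZMod.unitsMap_surjective`); the pull back
is the kernel of `X ↦ ζ^v = ζ^(u.val)`.
So `m ↦ (p, [u])` is an injection `MaximalSpectrum D → Σ p : d.primeFactors, Quot (uR d p)`
(the class determines `I_p(u)`, which determines `m` as `ℤ[X] → D` is onto). -/
def S_CYM : Prop := ∀ (S : Finset ℕ) (d : ℕ), (∀ d' ∈ S, 0 < d' ∧ ¬ d ∣ d') → 0 < d →
  Finite (ℤ[X] ⧸ (Iphi S ⊔ Icyc d)) →
  Nat.card (MaximalSpectrum (ℤ[X] ⧸ (Iphi S ⊔ Icyc d))) ≤ ∑ p ∈ d.primeFactors, nU d p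

/-- KM_UBC (120 lines; hypotheses `S_QSQ`, `S_CYI`, `S_CYD`, `S_CYM`, `S_RKF`, `S_DED`).

PROOF.  Induction on `S` by adding the largest element (`Finset.induction_on_max`).  `S = ∅`:
`phi = 1`, the ring is trivial, all matrices over `R[T;T⁻¹]` are equal, so any two idempotents are
equivalent (`MvN` by any matrices), `K0 = 0`, `KNegOne = 0`, rank `0`.
Step: `d >` all elements of `S`, so `¬ d ∣ d'` for `d' ∈ S`.  `S_CYI`:
`Iphi (insert d S) = Iphi S ⊓ Icyc d` (rewrite the ring), `D` finite; `S_QSQ` gives the Milnor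
square; `S_RKF` with `β` = the bound for `S`, `γ = 0` (`S_DED`, `S_CYD`: every homomorphism
`KNegOne C →+ ℚ` is `0`), `δ = (∑ p ∈ d.primeFactors, nU d p) - 1` (`S_CYM`).  For `d = 1`
there are no primes, `δ = 0`; the term `d = 1` is erased in the sum. -/
def S_UBC : Prop := ∀ (S : Finset ℕ), (∀ d ∈ S, 0 < d) →
  Module.rank ℚ (KNegOne (ℤ[X] ⧸ Iphi S) →+ ℚ) ≤
    ((∑ d ∈ S.erase 1, ((∑ p ∈ d.primeFactors, nU d p) - 1) : ℕ) : Cardinal)

/-- KM_UB (100 lines; hypothesis `S_UBC`).  The rank bound for the group ring of a cyclic group.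

PROOF.  `phi N.divisors = X^N - 1` (`Polynomial.prod_cyclotomic_eq_X_pow_sub_one`).  Ring
homomorphism `ℤ[X] → ℤ[C_N]`, `X ↦ single (ofAdd 1) 1`, surjective with kernel `span {X^N - 1}`
(division by the monic `X^N - 1`; a polynomial of degree `< N` maps to `∑ r_i g^i`, zero only if all
`r_i = 0`).  A ring isomorphism induces an isomorphism of `KNegOne` (functoriality:
`K0.map_map`; prove `KNegOne.map` of a composite is the composite and of the identity the
identity) and so of the spaces of homomorphisms to `ℚ` (only the inequality of ranks is needed: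
an injective linear map suffices). -/
def S_UB : Prop := ∀ (N : ℕ) [NeZero N],
  Module.rank ℚ (KNegOne (MonoidAlgebra ℤ (Multiplicative (ZMod N))) →+ ℚ) ≤
    ((∑ d ∈ N.divisors.erase 1, ((∑ p ∈ d.primeFactors, nU d p) - 1) : ℕ) : Cardinal)

end Pool.Agent.KM
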