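import Pool.Agent.KM.St4

/-!
# MP_e40716_gt (b), block Y: an explicit rational basis of the source

File names: `Pool/Agent/KM/P_X.lean`, theorem `t_X (hY : S_Y) ... : S_X`, namespace
`Pool.Agent.KM`; write `S_X.{u}` for the universes.
-/

set_option autoImplicit false
set_option linter.unusedSectionVars false

open Matrix Polynomial Pool.Agent.Lib25

noncomputable section

namespace Pool.Agent.KM

universe u v

/-- KM_YSP (50 lines; no hypotheses).  Duality.

PROOF.  `Q = A ⧸ closure S`.  If no positive multiple of `a` is in `closure S`, the class of `a` in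
`Q` has infinite order, and `exists_functional` (Lib_helper25/Final0.lean, one element family)
gives `F : Q →+ ℚ` with `F [a] = 1`; `Λ = F ∘ mk` vanishes on `S`, so `Λ = 0`, contradiction. -/
def S_YSP : Prop := ∀ {A : Type u} [AddCommGroup A] (S : Set A),
  (∀ Λ : A →+ ℚ, (∀ a ∈ S, Λ a = 0) → Λ = 0) →
  ∀ a : A, ∃ n : ℕ, 0 < n ∧ n • a ∈ AddSubgroup.closure S

/-- The number `(∑_p nCls) - 1` of a finite cyclic subgroup. -/
def rkC {G : Type u} [Group G] (C : Subgroup G) : ℕ :=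
  (∑ p ∈ (Nat.card C).primeFactors, nCls C.subtype p) - 1

/-- The invariance properties of the universal classes. -/
structure InvK (κ : ∀ N : ℕ, ℕ → KNegOne (MonoidAlgebra ℤ (Multiplicative (ZMod N)))) :
    Prop where
  pw : ∀ (N : ℕ) [NeZero N], 1 < N → ∀ p : ℕ, p.Prime → p ∣ N → ∀ w : (ZMod N)ˣ, uR N p w 1 →
    Kg (pwr N w) (κ N p) = κ N p
  sum : ∀ (N : ℕ) [NeZero N], 1 < N → ∑ q ∈ N.primeFactors, ∑ w : (ZMod N)ˣ,
    Kg (pwr N w) (κ N q) = 0

/-- KM_YDM (150 lines; no hypotheses).  The values of a functional at the classes of one cyclic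
subgroup are determined by `rkC C` linear forms.

PROOF.  `N = Nat.card C > 1`.  For a generator `y : Gens C` let `φ_y : C_N → G` be the homomorphism with
`gn ↦ y` (injective, range `C`; every injective `φ` with range `C` is `φ_y`, `y = φ gn`).  For `Λ` put
`λ(p, y) = Λ (scl φ_y (κ N p))`, linear in `Λ`.
(a) `clsRel C.subtype p y y'` implies `λ(p,y) = λ(p,y')`: if `y' = g y g⁻¹` then
`φ_y' = conj_g ∘ φ_y` (`scl_conj`); if `y^(p^j) = y'^(p^k)` then `y' = y^(w.val)` for a unit `w` of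
`ZMod N`, `φ_y' = φ_y ∘ pwr N w`, `uR N p w 1`, `scl_comp`, `InvK.pw`.
(b) `∑_{p ∣ N} ∑_{y : Gens C} λ(p,y) = 0` by `InvK.sum` (`y ↦ w` bijection with the units for a fixed
generator), `scl_comp`.
So `λ` is a function on `AA = Σ p, Quot (clsRel C.subtype p)` with `∑_{a ∈ AA} m_a λ(a) = 0`, `m_a > 0`
the number of generators in the class `a`; `card AA = rkC C + 1` (`AA` is not empty as `N > 1`).  Fix
`a0 ∈ AA` and an equivalence `Fin (rkC C) ≃ {a // a ≠ a0}`; `T Λ = (λ(a))_{a ≠ a0}`.  `T Λ = 0` gives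
`m_{a0} λ(a0) = 0`, so `λ = 0`. -/
def S_YDM : Prop := ∀ (κ : ∀ N : ℕ, ℕ → KNegOne (MonoidAlgebra ℤ (Multiplicative (ZMod N)))),
  InvK κ → ∀ {G : Type u} [Group G] (C : Subgroup G), Finite C → IsCyclic C → C ≠ ⊥ →
  ∃ T : (Src G →+ ℚ) →ₗ[ℚ] (Fin (rkC C) → ℚ), ∀ Λ, T Λ = 0 → ∀ p : ℕ, p.Prime →
    p ∣ Nat.card C → ∀ φ : Multiplicative (ZMod (Nat.card C)) →* G, Function.Injective φ →
    φ.range = C → ∀ [Finite (Multiplicative (ZMod (Nat.card C)))],
    Λ (scl φ (κ (Nat.card C) p)) = 0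

/-- `(C i)` is a family of representatives of the conjugacy classes of the nontrivial finite cyclic
subgroups of `G`. -/
structure RepC {G : Type u} [Group G] {I : Type v} (C : I → Subgroup G) : Prop where
  fin : ∀ i, Finite (C i)
  cyc : ∀ i, IsCyclic (C i)
  nt : ∀ i, C i ≠ ⊥
  conj : ∀ i j, (∃ g : G, C i = (C j).map (MulAut.conj g).toMonoidHom) → i = j
  all : ∀ D : Subgroup G, Finite D → IsCyclic D → D ≠ ⊥ →
    ∃ (i : I) (g : G), C i = D.map (MulAut.conj g).toMonoidHom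

/-- KM_YBA (200 lines; hypotheses `S_YDM.{u}`, `S_TFI.{u}`).  Every functional on the source which vanishes
on the given elements vanishes on the universal classes.

PROOF.  Let `Λ0` vanish on all `e_s = Src.of (C s.1) (x s)`; let `φ : C_M → G` be injective, `M > 1`,
`p ∣ M`, `b = scl φ (κ M p)`; show `Λ0 b = 0`.  The range of `φ` is finite cyclic and not trivial,
conjugate to some `C i` (`RepC.all`); replacing `φ` by `conj_g ∘ φ` (`scl_conj`): `range φ = C i`,
`M = Nat.card (C i)`.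
`I0 = {i' | ∃ g, (C i').map conj_g ≤ C i}` is finite (`C i` has finitely many subgroups, `RepC.conj`) and
contains `i`.  `m0 = ∑_{i' ∈ I0} rkC (C i')`.  `T = (T_{i'})_{i' ∈ I0} : Hom(Src G, ℚ) → ∏_{I0} ℚ^(rkC)`
(`S_YDM`), a space of dimension `m0`.
(1) `T Λ = 0` implies `Λ (Src.of (C i') z) = 0` for all `i' ∈ I0`, `z`: by `S_TFI` for `H = C i'` and
`l = Λ ∘ Src.of (C i')`: for `ψ : C_K → C i'` injective, `K > 1`, `q ∣ K`, the range of
`subtype ∘ ψ` is conjugate to some `C i''`, `i'' ∈ I0`, and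
`l (Kg ψ κ) = Λ (scl (subtype ∘ ψ) κ) = Λ (scl (conj_g ∘ subtype ∘ ψ) κ) = 0` by `T_{i''} Λ = 0`.
(2) Suppose `Λ0 b ≠ 0`.  Then the family `(e_s)_{s.1 ∈ I0}` together with `b` is linearly
independent over `ℤ`: a relation `∑ c_s e_s + c b = 0` gives `c Λ0 b = 0`, `c = 0`, and the `e_s` are
independent because their images `asm (e_s) = Kg subtype (x s)` are (`asm_of`).
By `exists_functional` every vector of `ℚ^(m0 + 1)` is the vector of values of some `Λ` at these
`m0 + 1` elements: the linear map `E : Hom(Src G, ℚ) → ℚ^(m0+1)` is surjective.  But `ker T ≤ ker E`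
by (1) (`b = Src.of (C i) (..)`), so `rank E ≤ rank T ≤ m0`: contradiction. -/
def S_YBA : Prop := ∀ (κ : ∀ N : ℕ, ℕ → KNegOne (MonoidAlgebra ℤ (Multiplicative (ZMod N))))
  (ω : ℕ → ℚ), (∀ N, 1 < N → ω N ≠ 0) → (∀ (G : Type) [Group G], DetG κ ω G) → InvK κ →
  ∀ {G : Type u} [Group G] {I : Type v} (C : I → Subgroup G) (hC : RepC C)
  (x : ∀ s : (Σ i, Fin (rkC (C i))), KNegOne (MonoidAlgebra ℤ (C s.1))),
  LinearIndependent ℤ (fun s : (Σ i, Fin (rkC (C i))) => Kg (C s.1).subtype (x s)) →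
  ∀ Λ : Src G →+ ℚ, (∀ s : (Σ i, Fin (rkC (C i))), Λ (Src.of ⟨C s.1, hC.fin s.1⟩ (x s)) = 0) →
  ∀ (M : ℕ) [NeZero M], 1 < M → ∀ p : ℕ, p.Prime → p ∣ M →
    ∀ φ : Multiplicative (ZMod M) →* G, Function.Injective φ → Λ (scl φ (κ M p)) = 0

/-- KM_YFN (60 lines; hypotheses `S_TAV.{u}`, `S_TFI.{u}`, `S_YBA.{u, v}`, `S_YSP.{u}`).  Rational generation
of the source.

PROOF.  `κ, ω` from `S_TAV`.  By `S_YSP` it is enough that a functional `Λ` on `Src G` which vanishes on all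
`Src.of (C s.1) (x s)` is `0`.  By `S_YBA` it vanishes on all `scl φ (κ M p)`.  For a finite subgroup
`H` the functional `Λ ∘ Src.of H` vanishes on `Kg φ (κ M p)` (`scl_comp`, `scl_subtype`), so it is `0`
by `S_TFI`; `Src.hom_ext`. -/
def S_YFN : Prop := ∀ {G : Type u} [Group G] {I : Type v} (C : I → Subgroup G) (hC : RepC C)
  (x : ∀ s : (Σ i, Fin (rkC (C i))), KNegOne (MonoidAlgebra ℤ (C s.1))),
  LinearIndependent ℤ (fun s : (Σ i, Fin (rkC (C i))) => Kg (C s.1).subtype (x s)) →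
  ∀ z : Src G, ∃ n : ℕ, 0 < n ∧ n • z ∈ AddSubgroup.closure
    (Set.range fun s : (Σ i, Fin (rkC (C i))) =>
      (Src.of ⟨C s.1, hC.fin s.1⟩ (x s) : Src G))

end Pool.Agent.KM
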